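import Pool.Agent.Lib.MP_d48457_nt.Cube

set_option autoImplicit false

namespace Pool.Agent.Lib.MP_d48457_nt

open Finset Complex

/-- The additive character. -/
noncomputable def ee (x : ℝ) : ℂ := Complex.exp (I * (2 * Real.pi * x : ℝ))

theorem ee_add (x y : ℝ) : ee (x + y) = ee x * ee y := by
  rw [ee, ee, ee, ← Complex.exp_add]
  congr 1
  push_cast
  ring

theorem ee_zero : ee 0 = 1 := by simp [ee]

theorem norm_ee (x : ℝ) : ‖ee x‖ = 1 := Complex.norm_exp_I_mul_ofReal _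

theorem ee_int (n : ℤ) : ee n = 1 := by
  rw [ee, ← Complex.exp_int_mul_two_pi_mul_I n]
  congr 1
  push_cast
  ring

theorem conj_ee (x : ℝ) : (starRingEnd ℂ) (ee x) = ee (-x) := by
  rw [ee, ee, ← Complex.exp_conj, map_mul, Complex.conj_I, Complex.conj_ofReal]
  congr 1
  push_cast
  ring

theorem norm_ee_sub_one (x : ℝ) : ‖ee x - 1‖ = 2 * |Real.sin (Real.pi * x)| := by
  rw [ee, Complex.norm_exp_I_mul_ofReal_sub_one, Real.norm_eq_abs, abs_mul]
  congr 2
  · norm_num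
  · ring_nf

theorem ee_eq_one_iff {x : ℝ} : ee x = 1 ↔ ∃ n : ℤ, x = n := by
  constructor
  · intro h
    have h1 := norm_ee_sub_one x
    rw [h, sub_self, norm_zero] at h1
    have h2 : Real.sin (Real.pi * x) = 0 := by
      have := abs_nonneg (Real.sin (Real.pi * x))
      exact abs_eq_zero.1 (by linarith)
    obtain ⟨n, hn⟩ := Real.sin_eq_zero_iff.1 h2
    refine ⟨n, ?_⟩
    rw [mul_comm] at hn
    exact (mul_left_cancel₀ Real.pi_ne_zero hn).symm
  · rintro ⟨n, rfl⟩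
    exact ee_int n

theorem geom_mul (t : ℝ) (A : ℤ) (H : ℕ) :
    (ee t - 1) * ∑ k ∈ Ico A (A + H), ee (k * t) = ee ((A + H) * t) - ee (A * t) := by
  induction H with
  | zero => simp
  | succ H ih =>
    have e : Ico A (A + ((H + 1 : ℕ) : ℤ)) = insert (A + H) (Ico A (A + H)) := by
      ext k
      simp only [mem_Ico, mem_insert]
      push_cast
      omega
    rw [e, sum_insert (by simp), mul_add, ih]
    have : ee ((A + ((H + 1 : ℕ) : ℝ)) * t) = ee t * ee (((A + H : ℤ) : ℝ) * t) := by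
      rw [← ee_add]; congr 1; push_cast; ring
    rw [this]
    push_cast
    ring

theorem sin_ge {f : ℝ} (h0 : 0 ≤ f) (h1 : f ≤ 1) : 2 * (f * (1 - f)) ≤ Real.sin (Real.pi * f) := by
  have hp := Real.pi_pos
  rcases le_total f (1 / 2) with h | h
  · have := Real.mul_le_sin (x := Real.pi * f) (by positivity) (by nlinarith)
    rw [show 2 / Real.pi * (Real.pi * f) = 2 * f by field_simp] at this
    nlinarith
  · have := Real.mul_le_sin (x := Real.pi * (1 - f)) (by nlinarith) (by nlinarith)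
    rw [show 2 / Real.pi * (Real.pi * (1 - f)) = 2 * (1 - f) by field_simp, mul_sub, mul_sub,
      mul_one, mul_one, Real.sin_pi_sub] at this
    nlinarith

theorem norm_geom_le {t : ℝ} (ht : Int.fract t ≠ 0) (A : ℤ) (H : ℕ) :
    ‖∑ k ∈ Ico A (A + H), ee (k * t)‖ ≤ (1 / Int.fract t + 1 / (1 - Int.fract t)) / 2 := by
  have h0 : 0 < Int.fract t := lt_of_le_of_ne (Int.fract_nonneg t) ht.symm
  have h1 : 0 < 1 - Int.fract t := by linarith [Int.fract_lt_one t]
  have h2 := congrArg norm (geom_mul t A H)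
  rw [norm_mul] at h2
  have h3 : ‖ee ((A + H) * t) - ee (A * t)‖ ≤ 2 := by
    refine (norm_sub_le _ _).trans ?_
    rw [norm_ee, norm_ee]; norm_num
  have h4 : ee t = ee (Int.fract t) := by
    conv_lhs => rw [← Int.floor_add_fract t, ee_add, ee_int, one_mul]
  have h5 : 4 * (Int.fract t * (1 - Int.fract t)) ≤ ‖ee t - 1‖ := by
    rw [h4, norm_ee_sub_one]
    have := sin_ge h0.le (Int.fract_lt_one t).le
    have := le_abs_self (Real.sin (Real.pi * Int.fract t))
    linarith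
  have h6 : (1 / Int.fract t + 1 / (1 - Int.fract t)) / 2
      = 2 / (4 * (Int.fract t * (1 - Int.fract t))) := by
    field_simp
    ring
  rw [h6, le_div_iff₀ (by positivity)]
  have := norm_nonneg (∑ k ∈ Ico A (A + H), ee (k * t))
  nlinarith

theorem sum_inv_spaced {α : Type*} (X : Finset α) (s : α → ℝ) {δ : ℝ} (hδ : 0 < δ) (hδ1 : δ ≤ 1)
    (h1 : ∀ x ∈ X, δ ≤ s x ∧ s x ≤ 1) (h2 : ∀ x ∈ X, ∀ y ∈ X, x ≠ y → δ ≤ |s x - s y|) :
    ∑ x ∈ X, 1 / s x ≤ 1 / δ * (1 + Real.log (1 / δ)) := by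
  classical
  let j : α → ℕ := fun x => ⌊s x / δ⌋₊
  have hj1 : ∀ x ∈ X, 1 ≤ j x := fun x hx =>
    Nat.le_floor (by rw [Nat.cast_one, le_div_iff₀ hδ]; linarith [(h1 x hx).1])
  have hinj : Set.InjOn j X := by
    intro x hx y hy h
    by_contra hne
    have h3 := h2 x hx y hy hne
    have a1 := Nat.floor_le (a := s x / δ) (div_nonneg (by linarith [(h1 x hx).1]) hδ.le)
    have a2 := Nat.floor_le (a := s y / δ) (div_nonneg (by linarith [(h1 y hy).1]) hδ.le)
    have a3 := Nat.lt_floor_add_one (s x / δ)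
    have a4 := Nat.lt_floor_add_one (s y / δ)
    have h' : (⌊s x / δ⌋₊ : ℝ) = ⌊s y / δ⌋₊ := by exact_mod_cast h
    have h4 : |s x / δ - s y / δ| < 1 := by rw [abs_lt]; constructor <;> linarith
    rw [← sub_div, abs_div, abs_of_pos hδ, div_lt_one hδ] at h4
    linarith
  have h3 : ∑ x ∈ X, 1 / s x ≤ ∑ x ∈ X, 1 / δ * ((j x : ℝ))⁻¹ := by
    refine sum_le_sum (fun x hx => ?_)
    have a0 : (0 : ℝ) < j x := by exact_mod_cast hj1 x hx
    have a1 : (j x : ℝ) ≤ s x / δ := Nat.floor_le (div_nonneg (by linarith [(h1 x hx).1]) hδ.le)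
    rw [le_div_iff₀ hδ] at a1
    rw [one_div δ, ← mul_inv, ← one_div]
    exact one_div_le_one_div_of_le (by positivity) (by linarith)
  refine h3.trans ?_
  rw [← mul_sum]
  apply mul_le_mul_of_nonneg_left _ (by positivity)
  rw [← sum_image (f := fun n : ℕ => ((n : ℝ))⁻¹) hinj]
  have hN : 1 ≤ ⌊1 / δ⌋₊ := Nat.le_floor (by rw [Nat.cast_one, le_div_iff₀ hδ]; linarith)
  have h4 : ∑ n ∈ X.image j, ((n : ℝ))⁻¹ ≤ ∑ n ∈ Icc 1 ⌊1 / δ⌋₊, ((n : ℝ))⁻¹ := by
    refine sum_le_sum_of_subset_of_nonneg (fun n hn => ?_) (fun _ _ _ => by positivity)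
    obtain ⟨x, hx, rfl⟩ := mem_image.1 hn
    exact mem_Icc.2 ⟨hj1 x hx, Nat.floor_le_floor (div_le_div_of_nonneg_right (h1 x hx).2 hδ.le)⟩
  refine h4.trans ?_
  have h5 := harmonic_le_one_add_log ⌊1 / δ⌋₊
  rw [harmonic_eq_sum_Icc] at h5
  push_cast at h5
  refine h5.trans (add_le_add le_rfl ?_)
  exact Real.log_le_log (by exact_mod_cast hN) (Nat.floor_le (by positivity))

/-- The exponential sum of `g` over an interval. -/
noncomputable def ghat (g : ℤ → ℝ) (X : Finset ℤ) (θ : ℝ) : ℂ := ∑ k ∈ X, (g k : ℂ) * ee (k * θ)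

theorem large_sieve {α : Type*} (Θ : Finset α) (θ : α → ℝ) {δ : ℝ} (hδ : 0 < δ) (hδ1 : δ ≤ 1)
    (hΘ : ∀ x ∈ Θ, ∀ y ∈ Θ, x ≠ y → ∀ n : ℤ, δ ≤ |θ x - θ y - n|) (g : ℤ → ℝ)
    (hg : ∀ k, |g k| ≤ 1) (A : ℤ) (H : ℕ) :
    ∑ x ∈ Θ, ‖ghat g (Ico A (A + H)) (θ x)‖ ^ 2 ≤ (H + 1 / δ * (1 + Real.log (1 / δ))) * H := by
  classical
  set X := Ico A (A + H) with hX
  have hXc : X.card = H := by simp [hX]
  set u : α → ℂ := fun x => ghat g X (θ x) with hu
  set U := ∑ x ∈ Θ, ‖u x‖ ^ 2 with hU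
  set B := H + 1 / δ * (1 + Real.log (1 / δ)) with hB
  have hlog : 0 ≤ Real.log (1 / δ) := Real.log_nonneg (by rw [le_div_iff₀ hδ]; linarith)
  have hB0 : 0 ≤ B := by positivity
  let v : ℤ → ℂ := fun k => ∑ x ∈ Θ, (starRingEnd ℂ) (u x) * ee (k * θ x)
  have h1 : (U : ℂ) = ∑ k ∈ X, (g k : ℂ) * v k := by
    simp only [v, mul_sum]
    rw [sum_comm, hU]
    push_cast
    refine sum_congr rfl (fun x _ => ?_)
    rw [← Complex.conj_mul']
    nth_rewrite 2 [hu]
    simp only [ghat, mul_sum]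
    exact sum_congr rfl (fun k _ => by ring)
  have hU0 : 0 ≤ U := sum_nonneg (fun _ _ => by positivity)
  have h2 : U ≤ ∑ k ∈ X, 1 * ‖v k‖ := by
    have := congrArg norm h1
    rw [Complex.norm_real, Real.norm_eq_abs, abs_of_nonneg hU0] at this
    rw [this]
    refine (norm_sum_le _ _).trans (sum_le_sum (fun k _ => ?_))
    rw [norm_mul, Complex.norm_real, Real.norm_eq_abs]
    exact mul_le_mul_of_nonneg_right (hg k) (norm_nonneg _)
  have h3 := sum_mul_sq_le_sq_mul_sq X (fun _ => (1 : ℝ)) (fun k => ‖v k‖)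
  simp only [one_pow, sum_const, nsmul_eq_mul, mul_one, hXc] at h3
  let κ : α → α → ℝ := fun x y => ‖∑ k ∈ X, ee (k * (θ x - θ y))‖
  have hκs : ∀ x y, κ x y = κ y x := by
    intro x y
    simp only [κ]
    rw [← Complex.norm_conj, map_sum]
    congr 1
    refine sum_congr rfl (fun k _ => ?_)
    rw [conj_ee]; congr 1; ring
  have hκ : ∀ x ∈ Θ, ∑ y ∈ Θ, κ x y ≤ B := by
    intro x hx
    rw [← add_sum_erase _ _ hx]
    have a1 : κ x x ≤ H := by
      simp only [κ, sub_self, mul_zero, ee_zero, sum_const, hXc]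
      simp
    have a2 : ∀ y ∈ Θ.erase x, δ ≤ Int.fract (θ x - θ y) ∧ δ ≤ 1 - Int.fract (θ x - θ y) := by
      intro y hy
      have b1 := hΘ x hx y (mem_of_mem_erase hy) (ne_of_mem_erase hy).symm
      have b2 := b1 ⌊θ x - θ y⌋
      have b3 := b1 (⌊θ x - θ y⌋ + 1)
      have b4 := Int.fract_nonneg (θ x - θ y)
      have b5 := Int.fract_lt_one (θ x - θ y)
      push_cast at b3
      rw [← sub_sub] at b3
      rw [Int.self_sub_floor] at b2 b3
      rw [abs_of_nonneg b4] at b2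
      rw [abs_of_neg (by linarith)] at b3
      exact ⟨b2, by linarith⟩
    have a3 : ∀ y ∈ Θ.erase x, ∀ z ∈ Θ.erase x, y ≠ z →
        δ ≤ |Int.fract (θ x - θ y) - Int.fract (θ x - θ z)| := by
      intro y hy z hz hyz
      have := hΘ z (mem_of_mem_erase hz) y (mem_of_mem_erase hy) hyz.symm
        (⌊θ x - θ y⌋ - ⌊θ x - θ z⌋)
      refine this.trans (le_of_eq ?_)
      congr 1
      simp only [Int.fract]
      push_cast
      ring
    have a4 := sum_inv_spaced (Θ.erase x) (fun y => Int.fract (θ x - θ y)) hδ hδ1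
      (fun y hy => ⟨(a2 y hy).1, (Int.fract_lt_one _).le⟩) a3
    have a5 := sum_inv_spaced (Θ.erase x) (fun y => 1 - Int.fract (θ x - θ y)) hδ hδ1
      (fun y hy => ⟨(a2 y hy).2, by linarith [Int.fract_nonneg (θ x - θ y)]⟩)
      (fun y hy z hz hyz => (a3 z hz y hy hyz.symm).trans (le_of_eq (by congr 1; ring)))
    have a6 : ∑ y ∈ Θ.erase x, κ x y ≤ ∑ y ∈ Θ.erase x,
        (1 / Int.fract (θ x - θ y) + 1 / (1 - Int.fract (θ x - θ y))) / 2 :=
      sum_le_sum (fun y hy => norm_geom_le (by linarith [(a2 y hy).1]) A H)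
    rw [← sum_div, sum_add_distrib] at a6
    linarith
  have h4 : ∑ k ∈ X, ‖v k‖ ^ 2 ≤ U * B := by
    have e1 : ((∑ k ∈ X, ‖v k‖ ^ 2 : ℝ) : ℂ) = ∑ x ∈ Θ, ∑ y ∈ Θ,
        (starRingEnd ℂ) (u x) * u y * ∑ k ∈ X, ee (k * (θ x - θ y)) := by
      push_cast
      simp_rw [← Complex.mul_conj', mul_sum]
      have : ∀ k : ℤ, v k * (starRingEnd ℂ) (v k) = ∑ x ∈ Θ, ∑ y ∈ Θ,
          (starRingEnd ℂ) (u x) * u y * ee (k * (θ x - θ y)) := by
        intro k
        simp only [v, map_sum, sum_mul_sum, map_mul, Complex.conj_conj, conj_ee]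
        refine sum_congr rfl (fun x _ => sum_congr rfl (fun y _ => ?_))
        rw [mul_sub, sub_eq_add_neg, ee_add]
        ring
      simp_rw [this]
      rw [sum_comm]
      exact sum_congr rfl (fun x _ => sum_comm)
    have e2 := congrArg norm e1
    rw [Complex.norm_real, Real.norm_eq_abs,
      abs_of_nonneg (sum_nonneg (fun _ _ => by positivity))] at e2
    rw [e2]
    have e3 : ∀ x ∈ Θ, ∀ y ∈ Θ, ‖(starRingEnd ℂ) (u x) * u y * ∑ k ∈ X, ee (k * (θ x - θ y))‖
        ≤ ‖u x‖ ^ 2 * κ x y / 2 + ‖u y‖ ^ 2 * κ y x / 2 := by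
      intro x _ y _
      rw [norm_mul, norm_mul, Complex.norm_conj, hκs y x]
      have : 0 ≤ κ x y := norm_nonneg _
      change ‖u x‖ * ‖u y‖ * κ x y ≤ _
      nlinarith [mul_nonneg this (sq_nonneg (‖u x‖ - ‖u y‖))]
    refine (norm_sum_le _ _).trans ((sum_le_sum (fun x hx => (norm_sum_le _ _).trans
      (sum_le_sum (fun y hy => e3 x hx y hy)))).trans ?_)
    simp_rw [sum_add_distrib]
    rw [sum_comm (f := fun x y => ‖u y‖ ^ 2 * κ y x / 2), ← sum_add_distrib, hU, sum_mul]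
    refine sum_le_sum (fun x hx => ?_)
    rw [← sum_add_distrib]
    simp_rw [add_halves]
    rw [← mul_sum]
    exact mul_le_mul_of_nonneg_left (hκ x hx) (by positivity)
  have h5 : U ^ 2 ≤ H * (U * B) :=
    (pow_le_pow_left₀ hU0 h2 2).trans (h3.trans (mul_le_mul_of_nonneg_left h4 (by positivity)))
  rcases hU0.eq_or_lt with h | h
  · rw [← h]; positivity
  · nlinarith

theorem finite_farey (D : ℝ) : {q : ℚ | 0 ≤ q ∧ q < 1 ∧ (q.den : ℝ) ≤ D}.Finite := by
  refine Set.Finite.of_finite_image (f := fun q : ℚ => (q.num, q.den)) ?_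
    (fun q _ r _ h => Rat.ext (congrArg Prod.fst h) (congrArg Prod.snd h))
  refine ((Set.finite_Icc (0 : ℤ) ⌊D⌋₊).prod (Set.finite_Icc 0 ⌊D⌋₊)).subset ?_
  rintro _ ⟨q, ⟨h0, h1, h2⟩, rfl⟩
  have h3 : q.den ≤ ⌊D⌋₊ := Nat.le_floor h2
  have h4 := Rat.num_lt_denom_iff.2 h1
  exact ⟨⟨Rat.num_nonneg.2 h0, by simp only; omega⟩, ⟨Nat.zero_le _, h3⟩⟩

/-- Farey fractions. -/
noncomputable def farey (D : ℝ) : Finset ℚ := (finite_farey D).toFinset

theorem mem_farey {D : ℝ} {q : ℚ} : q ∈ farey D ↔ 0 ≤ q ∧ q < 1 ∧ (q.den : ℝ) ≤ D := by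
  simp [farey]

theorem ls_farey {D : ℝ} (hD : 1 ≤ D) (g : ℤ → ℝ) (hg : ∀ k, |g k| ≤ 1) (A : ℤ) (H : ℕ) :
    ∑ q ∈ farey D, ‖ghat g (Ico A (A + H)) q‖ ^ 2 ≤ (H + D ^ 2 * (1 + 2 * Real.log D)) * H := by
  have h := large_sieve (farey D) (fun q : ℚ => (q : ℝ)) (δ := 1 / D ^ 2) (by positivity)
    (by rw [div_le_one (by positivity)]; nlinarith) (fun x hx y hy hxy n => by
      obtain ⟨a1, a2, a3⟩ := mem_farey.1 hx
      obtain ⟨b1, b2, b3⟩ := mem_farey.1 hy
      have c1 : (0 : ℝ) < x.den := by exact_mod_cast x.den_pos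
      have c2 : (0 : ℝ) < y.den := by exact_mod_cast y.den_pos
      have e : (x : ℝ) - y - n
          = ((x.num * y.den - y.num * x.den - n * x.den * y.den : ℤ) : ℝ) / (x.den * y.den) := by
        rw [Rat.cast_def x, Rat.cast_def y]
        push_cast
        field_simp
      have hne : x.num * y.den - y.num * x.den - n * x.den * y.den ≠ 0 := by
        intro h0
        rw [h0] at e
        simp only [Int.cast_zero, zero_div] at e
        have e' : x - y - n = 0 := by exact_mod_cast e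
        have e1 : (n : ℚ) < 1 := by linarith
        have e2 : (-1 : ℚ) < n := by linarith
        have e3 : n < 1 := by exact_mod_cast e1
        have e4 : -1 < n := by exact_mod_cast e2
        have e5 : n = 0 := by omega
        rw [e5] at e'
        apply hxy
        simpa [sub_eq_zero] using e'
      rw [e, abs_div, abs_of_pos (mul_pos c1 c2)]
      have c3 : (1 : ℝ) ≤ |((x.num * y.den - y.num * x.den - n * x.den * y.den : ℤ) : ℝ)| := by
        exact_mod_cast Int.one_le_abs hne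
      refine div_le_div₀ (abs_nonneg _) c3 (mul_pos c1 c2) ?_
      nlinarith) g hg A H
  rw [one_div_one_div, Real.log_pow] at h
  exact_mod_cast h

theorem ls_small {D : ℝ} (hD : 1 ≤ D) (g : ℤ → ℝ) (hg : ∀ k, |g k| ≤ 1) (A : ℤ) (H : ℕ) :
    ∑ q ∈ farey D, ‖ghat g (Ico A (A + H)) q‖ ^ 2 ≤ (H + 2 * D ^ 3) * H := by
  refine (ls_farey hD g hg A H).trans ?_
  have := Real.log_le_sub_one_of_pos (x := D) (by linarith)
  have h2 : D ^ 2 * (1 + 2 * Real.log D) ≤ D ^ 2 * (2 * D) := by gcongr; linarith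
  apply mul_le_mul_of_nonneg_right _ (Nat.cast_nonneg H)
  linarith

theorem ls_large {D₀ D₁ : ℝ} (hD₀ : 0 < D₀) (hD₁ : 1 ≤ D₁) (g : ℤ → ℝ) (hg : ∀ k, |g k| ≤ 1)
    (A : ℤ) (H : ℕ) :
    ∑ q ∈ farey D₁, ‖ghat g (Ico A (A + H)) q‖ ^ 2 * (ind (D₀ < q.den) / q.den)
      ≤ (1 + 2 * Real.log D₁) * ((H / D₀ + 4 * D₁ * (3 + 2 * Real.log D₁)) * H) := by
  classical
  have hl : 0 ≤ Real.log D₁ := Real.log_nonneg hD₁
  have hl2 := Real.log_two_gt_d9
  have hl3 := Real.log_two_lt_d9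
  set N := Nat.log 2 ⌊D₁⌋₊ with hN
  have hfl : ⌊D₁⌋₊ ≠ 0 := (Nat.floor_pos.2 hD₁).ne'
  have hN1 : (2 : ℝ) ^ N ≤ D₁ := by
    have := Nat.pow_log_le_self 2 hfl
    have h2 : ((2 ^ N : ℕ) : ℝ) ≤ ⌊D₁⌋₊ := by exact_mod_cast this
    push_cast at h2
    exact h2.trans (Nat.floor_le (by linarith))
  have hN2 : (N : ℝ) ≤ 2 * Real.log D₁ := by
    have := Real.log_le_log (by positivity) hN1
    rw [Real.log_pow] at this
    have : (0 : ℝ) ≤ N := Nat.cast_nonneg N
    nlinarith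
  rw [← sum_fiberwise_of_maps_to (g := fun q : ℚ => Nat.log 2 q.den) (t := range (N + 1))
    (fun q hq => mem_range.2 (Nat.lt_succ_of_le (Nat.log_mono_right
      (Nat.le_floor (mem_farey.1 hq).2.2))))]
  have h1 : ∀ j ∈ range (N + 1), ∑ q ∈ farey D₁ with Nat.log 2 q.den = j,
      ‖ghat g (Ico A (A + H)) q‖ ^ 2 * (ind (D₀ < q.den) / q.den)
      ≤ (H / D₀ + 4 * D₁ * (3 + 2 * Real.log D₁)) * H := by
    intro j hj
    have hj1 : (2 : ℝ) ^ j ≤ D₁ :=
      (pow_le_pow_right₀ (by norm_num) (Nat.lt_succ_iff.1 (mem_range.1 hj))).trans hN1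
    have hj0 : (0 : ℝ) < 2 ^ j := by positivity
    have hm : 0 < max D₀ (2 ^ j) := lt_max_of_lt_left hD₀
    have h2 : ∑ q ∈ farey D₁ with Nat.log 2 q.den = j,
        ‖ghat g (Ico A (A + H)) q‖ ^ 2 * (ind (D₀ < q.den) / q.den)
        ≤ ∑ q ∈ farey (2 ^ (j + 1)), ‖ghat g (Ico A (A + H)) q‖ ^ 2 * (1 / max D₀ (2 ^ j)) := by
      refine le_trans (sum_le_sum (fun q hq => ?_)) (sum_le_sum_of_subset_of_nonneg
        (fun q hq => ?_) (fun _ _ _ => by positivity))
      · apply mul_le_mul_of_nonneg_left _ (by positivity)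
        by_cases h : D₀ < q.den
        · rw [ind_pos h]
          refine one_div_le_one_div_of_le hm (max_le h.le ?_)
          have := Nat.pow_log_le_self 2 q.den_nz
          rw [(mem_filter.1 hq).2] at this
          exact_mod_cast this
        · rw [ind_neg h, zero_div]; positivity
      · obtain ⟨h3, h4⟩ := mem_filter.1 hq
        obtain ⟨a1, a2, -⟩ := mem_farey.1 h3
        refine mem_farey.2 ⟨a1, a2, ?_⟩
        have := (Nat.lt_pow_succ_log_self (b := 2) (by norm_num) q.den).le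
        rw [h4] at this
        exact_mod_cast this
    refine h2.trans ?_
    rw [← sum_mul]
    have h3 := ls_farey (D := 2 ^ (j + 1)) (one_le_pow₀ (by norm_num)) g hg A H
    refine (mul_le_mul_of_nonneg_right h3 (by positivity)).trans ?_
    rw [mul_right_comm]
    apply mul_le_mul_of_nonneg_right _ (Nat.cast_nonneg H)
    rw [add_mul]
    refine add_le_add ?_ ?_
    · rw [mul_one_div]
      exact div_le_div_of_nonneg_left (Nat.cast_nonneg H) hD₀ (le_max_left _ _)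
    · have h4 : Real.log (2 ^ (j + 1)) ≤ 1 + Real.log D₁ := by
        rw [pow_succ, Real.log_mul hj0.ne' (by norm_num)]
        have := Real.log_le_log hj0 hj1
        linarith
      have h5 : 0 ≤ Real.log (2 ^ (j + 1)) := Real.log_nonneg (one_le_pow₀ (by norm_num))
      have h6 : ((2 : ℝ) ^ (j + 1)) ^ 2 * (1 / max D₀ (2 ^ j)) ≤ 4 * D₁ := by
        rw [mul_one_div, div_le_iff₀ hm, pow_succ 2 j]
        have := le_max_right D₀ (2 ^ j)
        nlinarith [mul_le_mul hj1 this hj0.le (by linarith)]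
      rw [mul_right_comm]
      exact mul_le_mul h6 (by linarith) (by positivity) (by positivity)
  refine (sum_le_sum h1).trans ?_
  rw [sum_const, card_range, nsmul_eq_mul]
  apply mul_le_mul_of_nonneg_right _ (by positivity)
  push_cast
  linarith

end Pool.Agent.Lib.MP_d48457_nt
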