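import Pool.Agent.Lib.MP_d48457_nt.Mell

set_option autoImplicit false

namespace Pool.Agent.Lib.MP_d48457_nt

open Set Filter Topology Complex Asymptotics ArithmeticFunction
open scoped ComplexOrder

theorem absc_lt {b : ℕ → ℂ} (hb : ∀ s : ℂ, 1 < s.re → LSeriesSummable b s) {x : ℝ} (hx : 1 < x) :
    LSeries.abscissaOfAbsConv b < x := by
  have h1 : LSeries.abscissaOfAbsConv b ≤ (1 : ℝ) :=
    LSeries.abscissaOfAbsConv_le_of_forall_lt_LSeriesSummable fun y hy => hb y (by simpa using hy)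
  exact h1.trans_lt (by exact_mod_cast hx)

theorem open_re (x : ℝ) : IsOpen {s : ℂ | x < s.re} := isOpen_lt continuous_const continuous_re

theorem landau_bound {r : ℕ → ℂ} (hr : 0 ≤ r) (hs : ∀ s : ℂ, 1 < s.re → LSeriesSummable r s)
    {H : ℂ → ℂ} (hH : DifferentiableOn ℂ H {s | 0 < s.re})
    (hHe : ∀ s : ℂ, 1 < s.re → H s = LSeries r s) (S : Finset ℕ) :
    ∑ n ∈ S, LSeries.term r ((1 / 4 : ℝ) : ℂ) n ≤ H ((1 / 4 : ℝ) : ℂ) := by
  classical
  let t : ℕ → ℂ := fun n => if n ∈ S then 0 else r n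
  have ht0 : 0 ≤ t := fun n => by
    simp only [t]; split_ifs
    · exact le_rfl
    · exact hr n
  have hterm : ∀ s n, LSeries.term t s n = if n ∈ S then 0 else LSeries.term r s n := by
    intro s n
    simp only [LSeries.term_def, t]
    split_ifs <;> simp
  have hts : ∀ s : ℂ, 1 < s.re → LSeriesSummable t s := fun s h =>
    Summable.of_norm_bounded (hs s h).norm (fun n => by
      rw [hterm]; split_ifs
      · simp
      · exact le_rfl)
  let G : ℂ → ℂ := fun s => H s - ∑ n ∈ S, LSeries.term r s n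
  have hG : DifferentiableOn ℂ G {s | 0 < s.re} :=
    hH.sub (Differentiable.differentiableOn (fun s => by
      have := (HasDerivAt.fun_sum (u := S)
        (fun n _ => LSeries.hasDerivAt_term r n s)).differentiableAt
      exact this))
  have hGe : EqOn G (LSeries t) {s | 1 < s.re} := by
    intro s h
    simp only [G]
    rw [hHe s h, LSeries, ← (hs s h).sum_add_tsum_compl (s := S), add_sub_cancel_left, LSeries,
      tsum_subtype]
    refine tsum_congr (fun n => ?_)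
    rw [hterm]
    by_cases h : n ∈ S <;> simp [h]
  have key := DifferentiableOn.nonneg_of_iteratedDeriv_nonneg (f := fun z => G (-z)) (c := -2)
    (r := 2) (hG.comp differentiableOn_id.neg (fun z hz => by
      have h1 := (re_le_norm (z - -2)).trans_lt (mem_ball_iff_norm.1 hz)
      simp only [sub_re, neg_re, re_ofNat] at h1
      simp only [mem_ofPred_eq, neg_re]
      linarith)) (fun n => by
      rw [iteratedDeriv_comp_neg, neg_neg, hGe.iteratedDeriv_of_isOpen (open_re 1) n (by simp),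
        smul_eq_mul]
      exact_mod_cast LSeries.iteratedDeriv_alternating ht0 (absc_lt hts (x := 2) (by norm_num)) n)
    (z := -((1 / 4 : ℝ) : ℂ)) (by
      rw [neg_le_neg_iff]; exact_mod_cast (by norm_num : (1 / 4 : ℝ) ≤ 2)) (by
      rw [mem_ball_iff_norm, show -((1 / 4 : ℝ) : ℂ) - -2 = ((7 / 4 : ℝ) : ℂ) by push_cast; ring,
        norm_real, Real.norm_eq_abs, abs_lt]
      constructor <;> norm_num)
  simpa only [neg_neg, G, sub_nonneg] using key

theorem no_ext {r : ℕ → ℂ} (hr : 0 ≤ r) (hs : ∀ s : ℂ, 1 < s.re → LSeriesSummable r s)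
    {H : ℂ → ℂ} (hH : DifferentiableOn ℂ H {s | 0 < s.re})
    (hHe : ∀ s : ℂ, 1 < s.re → H s = LSeries r s) {W : ℕ} (hW : W ≠ 0)
    (hl : ∀ l : ℕ, l.Prime → ¬ l ∣ W → ∃ n : ℕ, n ≠ 0 ∧ n.minFac = l ∧ n ≤ l ^ 4 ∧
      1 / 2 ≤ (r n).re) : False := by
  classical
  choose! ν h1 h2 h3 h4 using hl
  refine not_summable_one_div_on_primes (summable_of_sum_le
    (c := 2 * (H ((1 / 4 : ℝ) : ℂ)).re + W.divisors.card)
    (fun n => indicator_nonneg (fun _ _ => by positivity) n) (fun u => ?_))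
  rw [← Finset.sum_filter_add_sum_filter_not u (fun l => l.Prime ∧ ¬ l ∣ W)]
  refine add_le_add ?_ ?_
  · set P := u.filter (fun l => l.Prime ∧ ¬ l ∣ W) with hP
    have hm : ∀ l ∈ P, l.Prime ∧ ¬ l ∣ W := fun l hl => (Finset.mem_filter.1 hl).2
    have k1 := (Complex.le_def.1 (landau_bound hr hs hH hHe (P.image ν))).1
    rw [Finset.sum_image (fun a ha b hb h => by
      rw [← h2 a (hm a ha).1 (hm a ha).2, h, h2 b (hm b hb).1 (hm b hb).2]), re_sum] at k1
    refine le_trans ?_ (mul_le_mul_of_nonneg_left k1 (by norm_num))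
    rw [Finset.mul_sum]
    refine Finset.sum_le_sum (fun l hl => ?_)
    obtain ⟨a1, a2⟩ := hm l hl
    have hn0 : (0 : ℝ) < ν l := by exact_mod_cast Nat.pos_of_ne_zero (h1 l a1 a2)
    have hl0 : (0 : ℝ) < l := by exact_mod_cast a1.pos
    rw [indicator_of_mem (show l ∈ {p : ℕ | p.Prime} from a1),
      LSeries.term_of_ne_zero (h1 l a1 a2), ← ofReal_natCast, ← ofReal_cpow hn0.le, div_ofReal_re]
    have b1 : (ν l : ℝ) ^ (1 / 4 : ℝ) ≤ l := by
      calc _ ≤ ((l : ℝ) ^ 4) ^ (1 / 4 : ℝ) :=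
            Real.rpow_le_rpow hn0.le (by exact_mod_cast h3 l a1 a2) (by norm_num)
        _ = l := by rw [one_div]; exact_mod_cast Real.pow_rpow_inv_natCast hl0.le (n := 4) (by norm_num)
    have b2 := h4 l a1 a2
    calc (1 : ℝ) / l = 2 * ((1 / 2) / l) := by ring
      _ ≤ _ := by gcongr
  · calc _ ≤ ∑ l ∈ u.filter (fun l => ¬ (l.Prime ∧ ¬ l ∣ W)), (if l ∈ W.divisors then 1 else 0 : ℝ) :=
          Finset.sum_le_sum (fun l hl => by
            by_cases hp : l.Prime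
            · have := (Finset.mem_filter.1 hl).2
              rw [if_pos (Nat.mem_divisors.2 ⟨by tauto, hW⟩),
                indicator_of_mem (show l ∈ {p : ℕ | p.Prime} from hp)]
              exact div_le_one_of_le₀ (by exact_mod_cast hp.one_le) (Nat.cast_nonneg _)
            · rw [indicator_of_notMem (show l ∉ {p : ℕ | p.Prime} from hp)]
              split_ifs <;> norm_num)
      _ ≤ _ := by
          rw [Finset.sum_boole]
          exact_mod_cast Finset.card_le_card (fun l hl => (Finset.mem_filter.1 hl).2)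

theorem pos_of_conv {r β : ArithmeticFunction ℂ} (hβ : ∀ n, 0 ≤ β n) (h1 : r 1 = 1)
    (hc : ∀ n : ℕ, (Real.log n : ℂ) * r n = (β * r) n) :
    (∀ n, 0 ≤ r n) ∧ ∀ n : ℕ, β n ≤ (Real.log n : ℂ) * r n := by
  have hβ1 : β 1 = 0 := by simpa [h1] using (hc 1).symm
  have hr : ∀ n, 0 ≤ r n := by
    intro n
    induction n using Nat.strong_induction_on with
    | _ n ih =>
      rcases Nat.lt_or_ge n 2 with h | h
      · interval_cases n
        · simp
        · rw [h1]; exact zero_le_one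
      have h2 : 0 ≤ (Real.log n : ℂ) * r n := by
        rw [hc, mul_apply]
        refine Finset.sum_nonneg (fun p hp => ?_)
        by_cases h3 : p.1 = 1
        · rw [h3, hβ1, zero_mul]
        · obtain ⟨h4, h5⟩ := Nat.mem_divisorsAntidiagonal.1 hp
          refine mul_nonneg (hβ _) (ih _ ?_)
          have h6 : p.1 ≠ 0 := by rintro h; rw [h, zero_mul] at h4; exact h5 h4.symm
          have h7 : p.2 ≠ 0 := by rintro h; rw [h, mul_zero] at h4; exact h5 h4.symm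
          rw [← h4]
          exact lt_mul_of_one_lt_left (Nat.pos_of_ne_zero h7) (by omega)
      have h3 : 0 < Real.log n := Real.log_pos (by exact_mod_cast h)
      have h4 : (0 : ℂ) ≤ ((Real.log n)⁻¹ : ℝ) := by exact_mod_cast (inv_pos.2 h3).le
      have h5 := mul_nonneg h4 h2
      rwa [← mul_assoc, ← ofReal_mul, inv_mul_cancel₀ h3.ne', ofReal_one, one_mul] at h5
  refine ⟨hr, fun n => ?_⟩
  rcases Nat.eq_zero_or_pos n with rfl | hn
  · simp
  rw [hc, mul_apply]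
  have := Finset.single_le_sum (f := fun p : ℕ × ℕ => β p.1 * r p.2)
    (s := n.divisorsAntidiagonal) (fun p _ => mul_nonneg (hβ _) (hr _)) (a := (n, 1))
    (Nat.mem_divisorsAntidiagonal.2 ⟨mul_one n, hn.ne'⟩)
  simpa [h1] using this

theorem log_mul_conv (a b : ArithmeticFunction ℂ) {a' b' : ArithmeticFunction ℂ}
    (ha : ∀ n : ℕ, (Real.log n : ℂ) * a n = (a' * a) n)
    (hb : ∀ n : ℕ, (Real.log n : ℂ) * b n = (b' * b) n) (n : ℕ) :
    (Real.log n : ℂ) * (a * b) n = ((a' + b') * (a * b)) n := by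
  rw [show (a' + b') * (a * b) = (a' * a) * b + a * (b' * b) by ring,
    ArithmeticFunction.add_apply, mul_apply,
    mul_apply, mul_apply, Finset.mul_sum, ← Finset.sum_add_distrib]
  refine Finset.sum_congr rfl (fun p hp => ?_)
  obtain ⟨h4, h5⟩ := Nat.mem_divisorsAntidiagonal.1 hp
  have h6 : p.1 ≠ 0 := by rintro h; rw [h, zero_mul] at h4; exact h5 h4.symm
  have h7 : p.2 ≠ 0 := by rintro h; rw [h, mul_zero] at h4; exact h5 h4.symm
  rw [← ha, ← hb, ← h4, Nat.cast_mul, Real.log_mul (Nat.cast_ne_zero.2 h6) (Nat.cast_ne_zero.2 h7)]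
  push_cast
  ring

/-- Data of an L-function with its logarithmic derivative. -/
structure LD (e : ℕ) (a b : ArithmeticFunction ℂ) (H : ℂ → ℂ) : Prop where
  sa : ∀ s : ℂ, 1 < s.re → LSeriesSummable a s
  sb : ∀ s : ℂ, 1 < s.re → LSeriesSummable b s
  cv : ∀ n : ℕ, (Real.log n : ℂ) * a n = (b * a) n
  a1 : a 1 = 1
  df : DifferentiableOn ℂ H {s | 0 < s.re}
  he : ∀ s : ℂ, 1 < s.re → H s = (s - 1) ^ e * LSeries a s

theorem sub_one_ne {s : ℂ} (hs : 1 < s.re) : s - 1 ≠ 0 := by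
  intro h; rw [sub_eq_zero] at h; rw [h] at hs; simp at hs

theorem LD.drop {a b : ArithmeticFunction ℂ} {H : ℂ → ℂ} (h : LD 1 a b H) (h1 : H 1 = 0) :
    LD 0 a b (dslope H 1) := by
  refine ⟨h.sa, h.sb, h.cv, h.a1, (differentiableOn_dslope ((open_re 0).mem_nhds (by simp))).2 h.df,
    fun s hs => ?_⟩
  have := sub_one_ne hs
  rw [dslope_of_ne _ (sub_ne_zero.1 this), slope_def_field, h1, h.he s hs]
  field_simp
  ring

namespace LD

variable {e : ℕ} {a b : ArithmeticFunction ℂ} {H : ℂ → ℂ} (h : LD e a b H)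
include h

theorem an : AnalyticOnNhd ℂ H {s | 0 < s.re} := h.df.analyticOnNhd (open_re 0)

theorem logd {s : ℂ} (hs : 1 < s.re) (h0 : H s ≠ 0) :
    deriv H s / H s = e / (s - 1) - LSeries b s := by
  have hζ : HasDerivAt (LSeries a) (-(LSeries b s * LSeries a s)) s := by
    have h1 := LSeries_hasDerivAt (absc_lt h.sa hs)
    rw [← LSeries_mul' (h.sb s hs) (h.sa s hs)]
    refine h1.congr_deriv ?_
    congr 2
    funext n
    rw [LSeries.logMul, ← natCast_log, h.cv]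
  have h1 : H =ᶠ[𝓝 s] fun z => (z - 1) ^ e * LSeries a z := by
    filter_upwards [(open_re 1).mem_nhds hs] with z hz using h.he z hz
  have h2 := (((hasDerivAt_id s).sub_const 1).pow e).mul hζ
  have h3 : deriv H s = e * (s - 1) ^ (e - 1) * 1 * LSeries a s
      + (s - 1) ^ e * -(LSeries b s * LSeries a s) := by
    rw [h1.deriv_eq]; exact h2.deriv
  rw [h.he s hs] at h0 ⊢
  have h4 := sub_one_ne hs
  have h5 : LSeries a s ≠ 0 := right_ne_zero_of_mul h0
  rw [h3]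
  rcases e with _ | e
  · simp; field_simp
  · simp only [Nat.add_sub_cancel, pow_succ]
    field_simp
    ring

theorem nz {s : ℂ} (hs : 0 < s.re) : ¬ ∀ᶠ z in 𝓝 s, H z = 0 := by
  intro h0
  have h1 := h.an.eqOn_zero_of_preconnected_of_eventuallyEq_zero
    (convex_halfSpace_re_gt 0).isPreconnected hs h0
  have h2 := LSeries.tendsto_atTop ((absc_lt h.sa (x := 2) (by norm_num)).trans_le le_top)
  rw [h.a1] at h2
  obtain ⟨x, h3, h4⟩ := ((h2.eventually_ne one_ne_zero).and (eventually_gt_atTop 1)).exists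
  have h5 : (1 : ℝ) < (x : ℂ).re := by simpa using h4
  have h6 := h1 (show 0 < (x : ℂ).re by linarith)
  rw [h.he _ h5] at h6
  exact mul_ne_zero (pow_ne_zero _ (sub_one_ne h5)) h3 h6

theorem ne_of_lt {s : ℂ} (hs : 1 < s.re) : H s ≠ 0 := by
  obtain ⟨k, h1, -, h3, h4⟩ := helper22.PIT.logderiv_tendsto (h.an s (show 0 < s.re by linarith))
    (h.nz (by linarith))
  apply h1
  have h5 : Tendsto (fun z => (z - s) * (e / (z - 1) - LSeries b z)) (𝓝 s)
      (𝓝 ((s - s) * (e / (s - 1) - LSeries b s))) := by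
    refine (tendsto_id.sub tendsto_const_nhds).mul (Tendsto.sub ?_ ?_)
    · exact tendsto_const_nhds.div (tendsto_id.sub tendsto_const_nhds) (sub_one_ne hs)
    · exact (LSeries_hasDerivAt (absc_lt h.sb hs)).continuousAt.tendsto
  rw [sub_self, zero_mul] at h5
  have h6 : Tendsto (fun z => (z - s) * (deriv H z / H z)) (𝓝[≠] s) (𝓝 0) := by
    refine (h5.mono_left nhdsWithin_le_nhds).congr' ?_
    filter_upwards [h3, nhdsWithin_le_nhds ((open_re 1).mem_nhds hs)] with z hz hz1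
    rw [h.logd hz1 hz]
  exact_mod_cast tendsto_nhds_unique h4 h6

theorem ray (t : ℝ) : ∃ k : ℕ, (k = 0 → H (1 + t * I) ≠ 0) ∧
    Tendsto (fun x : ℝ => (x : ℂ) * LSeries b (1 + t * I + x)) (𝓝[>] 0)
      (𝓝 ((if t = 0 then (e : ℂ) else 0) - k)) := by
  have hs : (1 + t * I : ℂ).re = 1 := by simp
  obtain ⟨k, h1, -, -, h4⟩ := helper22.PIT.logderiv_tendsto
    (h.an (1 + t * I) (show 0 < (1 + t * I : ℂ).re by rw [hs]; norm_num)) (h.nz (by rw [hs]; norm_num))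
  have ht : Tendsto (fun x : ℝ => 1 + t * I + x) (𝓝[>] 0) (𝓝[≠] (1 + t * I)) := by
    refine tendsto_nhdsWithin_of_tendsto_nhds_of_eventually_within _ ?_ ?_
    · have : Continuous (fun x : ℝ => 1 + t * I + x) := by fun_prop
      simpa using (this.tendsto 0).mono_left nhdsWithin_le_nhds
    · filter_upwards [self_mem_nhdsWithin] with x hx
      simpa using ne_of_gt hx
  have hq : Tendsto (fun x : ℝ => (x : ℂ) * (e / (1 + t * I + x - 1))) (𝓝[>] 0)
      (𝓝 (if t = 0 then e else 0)) := by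
    split_ifs with h0
    · refine tendsto_const_nhds.congr' ?_
      filter_upwards [self_mem_nhdsWithin] with x hx
      have : (x : ℂ) ≠ 0 := ofReal_ne_zero.mpr (ne_of_gt hx)
      rw [h0]; simp; field_simp
    · have h1 : ContinuousAt (fun x : ℝ => (x : ℂ) * (e / (1 + t * I + x - 1))) 0 := by
        refine ContinuousAt.mul (by fun_prop) (ContinuousAt.div (by fun_prop) (by fun_prop) ?_)
        simpa using h0
      simpa using h1.tendsto.mono_left nhdsWithin_le_nhds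
  refine ⟨k, h1, (hq.sub (h4.comp ht)).congr' ?_⟩
  filter_upwards [self_mem_nhdsWithin] with x hx0
  have hre : 1 < (1 + t * I + x : ℂ).re := by simpa using hx0
  simp only [Function.comp]
  rw [h.logd hre (h.ne_of_lt hre)]
  ring

theorem cont (hne : ∀ t : ℝ, H (1 + t * I) ≠ 0) : ∃ G : ℂ → ℂ, ContinuousOn G {s | 1 ≤ s.re} ∧
    ∀ s : ℂ, 1 < s.re → G s = LSeries b s - e / (s - 1) := by
  have hsub : {s : ℂ | 1 ≤ s.re} ⊆ {s | 0 < s.re} := fun s hs =>
    (one_pos.trans_le (show 1 ≤ s.re from hs) : 0 < s.re)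
  have hHne : ∀ s : ℂ, 1 ≤ s.re → H s ≠ 0 := by
    intro s hs
    rcases hs.lt_or_eq with hs | hs
    · exact h.ne_of_lt hs
    · have : s = 1 + s.im * I := by apply Complex.ext <;> simp [← hs]
      rw [this]; exact hne _
  refine ⟨fun s => -(deriv H s / H s), ((h.an.deriv.continuousOn.mono hsub).div
    (h.an.continuousOn.mono hsub) hHne).neg, fun s hs => ?_⟩
  simp only
  rw [h.logd hs (hHne s hs.le)]
  ring

end LD

theorem three_four_one {b₀ b₁ b₂ : ℕ → ℂ} (h₀ : ∀ s : ℂ, 1 < s.re → LSeriesSummable b₀ s)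
    (h₁ : ∀ s : ℂ, 1 < s.re → LSeriesSummable b₁ s) (h₂ : ∀ s : ℂ, 1 < s.re → LSeriesSummable b₂ s)
    (hb : ∀ n (w : ℂ), ‖w‖ = 1 → 0 ≤ (3 * b₀ n + 4 * b₁ n * w + b₂ n * w ^ 2).re) (x t : ℝ)
    (hx : 0 < x) : 0 ≤ (3 * LSeries b₀ (1 + (0 : ℝ) * I + x) + 4 * LSeries b₁ (1 + t * I + x)
      + LSeries b₂ (1 + (2 * t : ℝ) * I + x)).re := by
  have h0 := (h₀ (1 + (0 : ℝ) * I + x) (by simpa using hx)).hasSum.mul_left 3
  have h1 := (h₁ (1 + t * I + x) (by simpa using hx)).hasSum.mul_left 4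
  have h2 := (h₂ (1 + (2 * t : ℝ) * I + x) (by simpa using hx)).hasSum
  have h := hasSum_re ((h0.add h1).add h2)
  refine h.nonneg fun n => ?_
  rcases eq_or_ne n 0 with rfl | hn
  · simp
  have hn' : (n : ℂ) ≠ 0 := Nat.cast_ne_zero.mpr hn
  have hnp : (0 : ℝ) < n := Nat.cast_pos.mpr (Nat.pos_of_ne_zero hn)
  simp only [LSeries.term_of_ne_zero hn]
  set w : ℂ := ((n : ℂ) ^ (t * I : ℂ))⁻¹ with hw
  have hw1 : ‖w‖ = 1 := by
    rw [hw, norm_inv, ← ofReal_natCast, norm_cpow_eq_rpow_re_of_pos hnp]; simp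
  have e0 : (n : ℂ) ^ (1 + (0 : ℝ) * I + x : ℂ) = (n : ℂ) ^ (1 + x : ℂ) := by simp
  have e1 : (n : ℂ) ^ (1 + t * I + x : ℂ) = (n : ℂ) ^ (1 + x : ℂ) * (n : ℂ) ^ (t * I : ℂ) := by
    rw [← cpow_add _ _ hn']; congr 1; ring
  have e2 : (n : ℂ) ^ (1 + (2 * t : ℝ) * I + x : ℂ)
      = (n : ℂ) ^ (1 + x : ℂ) * (n : ℂ) ^ (t * I : ℂ) * (n : ℂ) ^ (t * I : ℂ) := by
    rw [← cpow_add _ _ hn', ← cpow_add _ _ hn']; congr 1; push_cast; ring
  have e3 : (n : ℂ) ^ (1 + x : ℂ) = (((n : ℝ) ^ (1 + x) : ℝ) : ℂ) := by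
    rw [ofReal_cpow hnp.le]; simp
  have e4 : 3 * (b₀ n / (n : ℂ) ^ (1 + (0 : ℝ) * I + x : ℂ)) + 4 * (b₁ n / (n : ℂ) ^ (1 + t * I + x : ℂ))
      + b₂ n / (n : ℂ) ^ (1 + (2 * t : ℝ) * I + x : ℂ)
      = (3 * b₀ n + 4 * b₁ n * w + b₂ n * w ^ 2) / (((n : ℝ) ^ (1 + x) : ℝ) : ℂ) := by
    rw [e0, e1, e2, ← e3, hw]
    simp only [div_eq_mul_inv, mul_inv]
    ring
  rw [e4, div_ofReal_re]
  exact div_nonneg (hb n w hw1) (Real.rpow_nonneg hnp.le _)

theorem nonvan {e₁ e₂ : ℕ} {a₀ b₀ a₁ b₁ a₂ b₂ : ArithmeticFunction ℂ} {H₀ H₁ H₂ : ℂ → ℂ}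
    (h₀ : LD 1 a₀ b₀ H₀) (h₁ : LD e₁ a₁ b₁ H₁) (h₂ : LD e₂ a₂ b₂ H₂)
    (hb : ∀ n (w : ℂ), ‖w‖ = 1 → 0 ≤ (3 * b₀ n + 4 * b₁ n * w + b₂ n * w ^ 2).re) {t : ℝ}
    (ht : t = 0 → e₁ = 0 ∧ e₂ = 0) : H₁ (1 + t * I) ≠ 0 := by
  obtain ⟨k0, -, g0⟩ := h₀.ray 0
  obtain ⟨k1, h11, g1⟩ := h₁.ray t
  obtain ⟨k2, -, g2⟩ := h₂.ray (2 * t)
  have a1 : (if t = 0 then (e₁ : ℂ) else 0) = 0 := by
    split_ifs with h
    · simp [(ht h).1]
    · rfl
  have a2 : (if 2 * t = 0 then (e₂ : ℂ) else 0) = 0 := by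
    split_ifs with h
    · simp [(ht (by linarith)).2]
    · rfl
  rw [a1] at g1
  rw [a2] at g2
  apply h11
  have g := (continuous_re.tendsto _).comp (((g0.const_mul 3).add (g1.const_mul 4)).add g2)
  have hge := ge_of_tendsto g (b := 0) (by
    filter_upwards [self_mem_nhdsWithin] with x hx
    have h1 := mul_nonneg (le_of_lt hx) (three_four_one h₀.sb h₁.sb h₂.sb hb x t hx)
    rw [← re_ofReal_mul] at h1
    simp only [Function.comp]
    refine h1.trans_eq ?_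
    congr 1
    ring)
  simp at hge
  have hk2 : (0 : ℝ) ≤ k2 := Nat.cast_nonneg _
  have hk0 : (0 : ℝ) ≤ k0 := Nat.cast_nonneg _
  have : (k1 : ℝ) < 1 := by linarith
  exact Nat.lt_one_iff.mp (by exact_mod_cast this)

/-- The lower bound needed for the positivity argument. -/
def LB (W : ℕ) (β : ArithmeticFunction ℂ) : Prop :=
  ∀ l : ℕ, l.Prime → ¬ l ∣ W → ∃ n : ℕ, 2 ≤ n ∧ n.minFac = l ∧ n ≤ l ^ 4 ∧
    Real.log n / 2 ≤ (β n).re

theorem no_ext' {r β : ArithmeticFunction ℂ} {H : ℂ → ℂ} (h : LD 0 r β H) (hβ : ∀ n, 0 ≤ β n)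
    {W : ℕ} (hW : W ≠ 0) (hl : LB W β) : False := by
  obtain ⟨h1, h2⟩ := pos_of_conv hβ h.a1 h.cv
  refine no_ext h1 h.sa h.df (fun s hs => by simpa using h.he s hs) hW (fun l hl1 hl2 => ?_)
  obtain ⟨n, a1, a2, a3, a4⟩ := hl l hl1 hl2
  refine ⟨n, by omega, a2, a3, ?_⟩
  have a5 := (Complex.le_def.1 (h2 n)).1
  rw [re_ofReal_mul] at a5
  have a6 : 0 < Real.log n := Real.log_pos (by exact_mod_cast a1)
  exact le_of_mul_le_mul_left (by linarith) a6

theorem nonvan_real {a₀ b₀ a₁ b₁ : ArithmeticFunction ℂ} {H₀ H₁ : ℂ → ℂ}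
    (h₀ : LD 1 a₀ b₀ H₀) (h₁ : LD 0 a₁ b₁ H₁) (hβ : ∀ n, 0 ≤ (b₀ + b₁) n)
    {W : ℕ} (hW : W ≠ 0) (hl : LB W (b₀ + b₁)) : H₁ 1 ≠ 0 := by
  intro h0
  refine no_ext' (r := a₀ * a₁) (H := fun s => H₀ s * dslope H₁ 1 s) ⟨fun s hs =>
    LSeriesSummable_mul (h₀.sa s hs) (h₁.sa s hs), fun s hs => by
      have := LSeriesSummable.add (h₀.sb s hs) (h₁.sb s hs)
      rwa [show (⇑b₀ + ⇑b₁ : ℕ → ℂ) = ⇑(b₀ + b₁) from
        funext fun n => (ArithmeticFunction.add_apply).symm] at this,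
    log_mul_conv _ _ h₀.cv h₁.cv, by simp [h₀.a1, h₁.a1], h₀.df.mul
      ((differentiableOn_dslope ((open_re 0).mem_nhds (by simp))).2 h₁.df), fun s hs => ?_⟩
    hβ hW hl
  have := sub_one_ne hs
  rw [dslope_of_ne _ (sub_ne_zero.1 this), slope_def_field, h0, h₀.he s hs, h₁.he s hs,
    LSeries_mul' (h₀.sa s hs) (h₁.sa s hs)]
  field_simp
  ring

theorem wi_zero {b₀ b₁ : ℕ → ℂ} {G₀ G₁ G₂ : ℂ → ℂ} {C : ℝ}
    (h₀ : ∀ s : ℂ, 1 < s.re → LSeriesSummable b₀ s) (hb : ∀ n, ‖b₁ n‖ ≤ (b₀ n).re)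
    (hb0 : ∀ n, (b₀ n).im = 0) (hC : ∀ n : ℕ, ∑ k ∈ Finset.Icc 1 n, (b₀ k).re ≤ C * n)
    (c₀ : ContinuousOn G₀ {s | 1 ≤ s.re}) (c₁ : ContinuousOn G₁ {s | 1 ≤ s.re})
    (c₂ : ContinuousOn G₂ {s | 1 ≤ s.re})
    (e₀ : ∀ s : ℂ, 1 < s.re → G₀ s = LSeries b₀ s - 1 / (s - 1))
    (e₁ : ∀ s : ℂ, 1 < s.re → G₁ s = LSeries b₁ s)
    (e₂ : ∀ s : ℂ, 1 < s.re → G₂ s = LSeries (fun n => (starRingEnd ℂ) (b₁ n)) s) :
    Tendsto (fun x : ℝ => (∑ k ∈ Finset.Icc 1 ⌊x⌋₊, b₀ k) / x) atTop (𝓝 1) ∧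
    Tendsto (fun x : ℝ => (∑ k ∈ Finset.Icc 1 ⌊x⌋₊, b₁ k) / x) atTop (𝓝 0) := by
  have hre : ∀ n, (((b₀ n).re : ℝ) : ℂ) = b₀ n := fun n => by
    apply Complex.ext <;> simp [hb0 n]
  have hs : ∀ b : ℕ → ℂ, (∀ n, ‖b n‖ = ‖b₁ n‖) → ∀ s : ℂ, 1 < s.re → LSeriesSummable b s :=
    fun b h s hs => Summable.of_norm_bounded (h₀ s hs).norm (fun n =>
      LSeries.norm_term_le s (by rw [h]; exact (hb n).trans (re_le_norm _)))
  have key : ∀ c : ℂ, ‖c‖ ≤ 1 → Tendsto (fun x : ℝ => (∑ k ∈ Finset.Icc 1 ⌊x⌋₊,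
      ((b₀ k).re + (c * b₁ k).re)) / x) atTop (𝓝 1) := by
    intro c hc
    have hle : ∀ n, |(c * b₁ n).re| ≤ (b₀ n).re := fun n => (abs_re_le_norm _).trans (by
      rw [norm_mul]; exact (mul_le_of_le_one_left (norm_nonneg _) hc).trans (hb n))
    refine helper57.wiener_ikehara _ (fun n => by linarith [(abs_le.1 (hle n)).1]) (2 * C)
      (fun n => ?_) 1 (fun s => G₀ s + (c / 2 * G₁ s + (starRingEnd ℂ) c / 2 * G₂ s))
      (c₀.add ((continuousOn_const.mul c₁).add (continuousOn_const.mul c₂))) (fun s h => ?_)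
    · refine (Finset.sum_le_sum (g := fun k => 2 * (b₀ k).re)
        (fun k _ => by linarith [(abs_le.1 (hle k)).2])).trans ?_
      rw [← Finset.mul_sum]
      linarith [hC n]
    · have s1 := hs b₁ (fun _ => rfl) s h
      have s2 := hs (fun n => (starRingEnd ℂ) (b₁ n)) (fun _ => by simp) s h
      have : (fun n => (((b₀ n).re + (c * b₁ n).re : ℝ) : ℂ)) = b₀ + ((c / 2) • b₁ +
          ((starRingEnd ℂ) c / 2) • fun n => (starRingEnd ℂ) (b₁ n)) := by
        funext n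
        simp only [Pi.add_apply, Pi.smul_apply, smul_eq_mul, ofReal_add, hre, re_eq_add_conj,
          map_mul]
        ring
      rw [this, LSeries_add (h₀ s h) ((s1.smul _).add (s2.smul _)), LSeries_add (s1.smul _)
        (s2.smul _), LSeries_smul, LSeries_smul, e₀ s h, e₁ s h, e₂ s h]
      push_cast
      ring
  have k0 := key 0 (by simp)
  have k1 := (key 1 (by simp)).sub k0
  have k2 := (key (-I) (by simp)).sub k0
  constructor
  · refine ((continuous_ofReal.tendsto 1).comp k0).congr (fun x => ?_)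
    simp [hre]
  · have := ((continuous_ofReal.tendsto _).comp k1).add
      (((continuous_ofReal.tendsto _).comp k2).mul_const I)
    simp only [sub_self, ofReal_zero, zero_mul, add_zero] at this
    refine this.congr (fun x => ?_)
    simp only [Function.comp, ← sub_div, ← Finset.sum_sub_distrib]
    push_cast
    rw [div_mul_eq_mul_div, ← add_div, Finset.sum_mul, ← Finset.sum_add_distrib]
    congr 1
    refine Finset.sum_congr rfl (fun k _ => ?_)
    apply Complex.ext <;> simp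

end Pool.Agent.Lib.MP_d48457_nt
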