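import Pool.Agent.Lib.MP_d48457_nt.Setup

set_option autoImplicit false

namespace Pool.Agent.Lib.MP_d48457_nt

open QuadraticAlgebra Finset

theorem mertens_le (n : ℕ) (hn : 1 ≤ n) (S : Finset ℕ) (hS : ∀ l ∈ S, l.Prime ∧ l ≤ n) :
    ∑ l ∈ S, Real.log l / l ≤ Real.log n + Real.log 4 := by
  classical
  have hn' : (0 : ℝ) < n := by exact_mod_cast hn
  have h1 : ∀ m ∈ Icc 1 n, ∑ l ∈ S, (if l ∣ m then Real.log l else 0) ≤ Real.log n := by
    intro m hm
    rw [mem_Icc] at hm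
    rw [← sum_filter, ← Real.log_prod (fun l hl => by
      have := (hS l (mem_filter.1 hl).1).1.pos
      positivity)]
    have hd : ∏ l ∈ S.filter (· ∣ m), l ∣ m :=
      Finset.prod_primes_dvd m (fun l hl => (hS l (mem_filter.1 hl).1).1.prime)
        (fun l hl => (mem_filter.1 hl).2)
    have hle := Nat.le_of_dvd (by omega) hd
    have hpos : 0 < ∏ l ∈ S.filter (· ∣ m), l :=
      prod_pos (fun l hl => (hS l (mem_filter.1 hl).1).1.pos)
    rw [← Nat.cast_prod]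
    apply Real.log_le_log (by exact_mod_cast hpos)
    exact_mod_cast hle.trans hm.2
  have h2 : ∑ m ∈ Icc 1 n, ∑ l ∈ S, (if l ∣ m then Real.log l else 0) ≤ n * Real.log n := by
    refine (sum_le_sum h1).trans ?_
    simp
  rw [sum_comm] at h2
  have h3 : ∀ l ∈ S, Real.log l * (n / l - 1)
      ≤ ∑ m ∈ Icc 1 n, (if l ∣ m then Real.log l else 0) := by
    intro l hl
    have hp := (hS l hl).1
    rw [← sum_filter, sum_const, nsmul_eq_mul, mul_comm]
    have hc : ((Icc 1 n).filter (l ∣ ·)).card = n / l := by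
      rw [← Nat.card_multiples n l]
      have : Icc 1 n = Ioc 0 n := rfl
      rw [this, Nat.Ioc_filter_dvd_card_eq_div, Nat.card_multiples]
    rw [hc]
    apply mul_le_mul_of_nonneg_right _ (Real.log_nonneg (by exact_mod_cast hp.one_le))
    have hl0 : (0 : ℝ) < l := by exact_mod_cast hp.pos
    have := Nat.lt_div_mul_add (a := n) hp.pos
    have h4 : (n : ℝ) < (n / l : ℕ) * l + l := by exact_mod_cast this
    rw [sub_le_iff_le_add, div_le_iff₀ hl0]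
    linarith
  have h4 := (sum_le_sum h3).trans h2
  have h5 : ∑ l ∈ S, Real.log l ≤ Real.log 4 * n := by
    refine le_trans ?_ (Chebyshev.theta_le_log4_mul_x hn'.le)
    rw [Chebyshev.theta, Nat.floor_natCast]
    refine sum_le_sum_of_subset_of_nonneg ?_ (fun l _ _ => Real.log_natCast_nonneg l)
    intro l hl
    have := hS l hl
    simp only [mem_filter, mem_Ioc]
    exact ⟨⟨this.1.pos, this.2⟩, this.1⟩
  have h6 : ∑ l ∈ S, Real.log l * (n / l - 1)
      = n * ∑ l ∈ S, Real.log l / l - ∑ l ∈ S, Real.log l := by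
    rw [mul_sum, ← sum_sub_distrib]
    refine sum_congr rfl (fun l _ => by ring)
  rw [h6] at h4
  have : n * ∑ l ∈ S, Real.log l / l ≤ n * (Real.log n + Real.log 4) := by linarith
  exact le_of_mul_le_mul_left this hn'

namespace RQ

variable (F : RQ)

/-- The rational prime below a prime ideal. -/
noncomputable def ell (P : Ideal F.O) : ℕ := (Ideal.absNorm P).minFac

theorem absNorm_pos {I : Ideal F.O} (hI : I ≠ ⊥) : 0 < Ideal.absNorm I :=
  Nat.pos_of_ne_zero (fun h => hI (Ideal.absNorm_eq_zero_iff.1 h))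

theorem dvd_span_iff {I : Ideal F.O} {z : F.O} : I ∣ Ideal.span {z} ↔ z ∈ I := by
  rw [Ideal.dvd_iff_le, Ideal.span_singleton_le_iff_mem]

theorem absNorm_dvd_sq {I : Ideal F.O} {n : ℕ} (h : (n : F.O) ∈ I) : Ideal.absNorm I ∣ n ^ 2 := by
  rw [← F.absNorm_span_nat]
  exact map_dvd Ideal.absNorm (F.dvd_span_iff.2 h)

theorem ell_spec {P : Ideal F.O} (hP : Prime P) :
    (F.ell P).Prime ∧ ((F.ell P : ℕ) : F.O) ∈ P ∧ F.ell P ∣ Ideal.absNorm P := by
  have := (Ideal.isPrime_of_prime hP).isMaximal hP.ne_zero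
  obtain ⟨p, n, hn, hpP, hp, he⟩ := Ideal.exists_prime_and_absNorm_eq_pow P
  have : F.ell P = p := by rw [ell, he, hp.pow_minFac hn.ne']
  rw [this]
  exact ⟨hp, hpP, he ▸ dvd_pow_self p hn.ne'⟩

theorem ell_prime {P : Ideal F.O} (hP : Prime P) : (F.ell P).Prime := (F.ell_spec hP).1

theorem ell_mem {P : Ideal F.O} (hP : Prime P) : ((F.ell P : ℕ) : F.O) ∈ P := (F.ell_spec hP).2.1

theorem ell_dvd {P : Ideal F.O} (hP : Prime P) : F.ell P ∣ Ideal.absNorm P :=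
  (F.ell_spec hP).2.2

theorem absNorm_dvd_ell_sq {P : Ideal F.O} (hP : Prime P) : Ideal.absNorm P ∣ F.ell P ^ 2 :=
  F.absNorm_dvd_sq (F.ell_mem hP)

theorem ell_le {P : Ideal F.O} (hP : Prime P) : F.ell P ≤ Ideal.absNorm P :=
  Nat.le_of_dvd (F.absNorm_pos hP.ne_zero) (F.ell_dvd hP)

theorem absNorm_le_ell_sq {P : Ideal F.O} (hP : Prime P) : Ideal.absNorm P ≤ F.ell P ^ 2 :=
  Nat.le_of_dvd (pow_pos (F.ell_prime hP).pos 2) (F.absNorm_dvd_ell_sq hP)

theorem two_le_absNorm {P : Ideal F.O} (hP : Prime P) : 2 ≤ Ideal.absNorm P :=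
  (F.ell_prime hP).two_le.trans (F.ell_le hP)

theorem ell_eq_of_dvd {P : Ideal F.O} (hP : Prime P) {l : ℕ} (hl : l.Prime)
    (h : l ∣ Ideal.absNorm P) : F.ell P = l :=
  ((Nat.prime_dvd_prime_iff_eq hl (F.ell_prime hP)).1
    (hl.dvd_of_dvd_pow (h.trans (F.absNorm_dvd_ell_sq hP)))).symm

theorem ell_dvd_of_mem {P : Ideal F.O} (hP : Prime P) {n : ℕ} (h : (n : F.O) ∈ P) :
    F.ell P ∣ n :=
  (F.ell_prime hP).dvd_of_dvd_pow ((F.ell_dvd hP).trans (F.absNorm_dvd_sq h))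

theorem ell_dvd_of_mem_int {P : Ideal F.O} (hP : Prime P) {n : ℤ} (h : (n : F.O) ∈ P) :
    (F.ell P : ℤ) ∣ n := by
  rw [Int.natCast_dvd]
  apply F.ell_dvd_of_mem hP
  rcases Int.natAbs_eq n with h1 | h1
  · rw [h1] at h; simpa using h
  · rw [h1] at h; simpa using h

theorem exists_prime_dvd {I : Ideal F.O} {l : ℕ} (hl : l.Prime)
    (h : l ∣ Ideal.absNorm I) : ∃ P : Ideal F.O, Prime P ∧ F.ell P = l ∧ P ∣ I := by
  obtain ⟨P, hP, h1, h2⟩ := Ideal.exists_isMaximal_dvd_of_dvd_absNorm' hl I h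
  have hmem : (l : F.O) ∈ P := by
    have : (l : ℤ) ∈ P.under ℤ := by rw [h1]; exact Ideal.mem_span_singleton_self _
    simpa [Ideal.mem_comap] using this
  have hne : P ≠ ⊥ := by
    rintro rfl
    rw [Ideal.mem_bot] at hmem
    exact hl.ne_zero (by exact_mod_cast hmem)
  have hpr : Prime P := Ideal.prime_of_isPrime hne hP.isPrime
  exact ⟨P, hpr, ((Nat.prime_dvd_prime_iff_eq (F.ell_prime hpr) hl).1
    (F.ell_dvd_of_mem hpr hmem)), h2⟩

theorem prod_dvd_iff {T : Finset (Ideal F.O)} (hT : ∀ P ∈ T, Prime P) {I : Ideal F.O} :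
    ∏ P ∈ T, P ∣ I ↔ ∀ P ∈ T, P ∣ I := by
  constructor
  · intro h P hP
    exact (dvd_prod_of_mem (fun P : Ideal F.O => P) hP).trans h
  · intro h
    exact Finset.prod_primes_dvd I hT h

theorem prod_ne_bot {T : Finset (Ideal F.O)} (hT : ∀ P ∈ T, Prime P) :
    ∏ P ∈ T, P ≠ ⊥ :=
  prod_ne_zero_iff.2 (fun P hP => (hT P hP).ne_zero)

theorem fiber_prod_dvd {T : Finset (Ideal F.O)} {l : ℕ} (hT : ∀ P ∈ T, Prime P ∧ F.ell P = l) :
    ∏ P ∈ T, Ideal.absNorm P ∣ l ^ 2 := by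
  rw [← map_prod, ← F.absNorm_span_nat]
  refine map_dvd Ideal.absNorm ((F.prod_dvd_iff (fun P hP => (hT P hP).1)).2 (fun P hP => ?_))
  rw [F.dvd_span_iff, ← (hT P hP).2]
  exact F.ell_mem (hT P hP).1

theorem fiber_log_le {T : Finset (Ideal F.O)} {l : ℕ} (hl : 0 < l)
    (hT : ∀ P ∈ T, Prime P ∧ F.ell P = l) :
    ∑ P ∈ T, Real.log (Ideal.absNorm P) ≤ 2 * Real.log l := by
  rw [← Real.log_prod (fun P hP => by
    have := F.absNorm_pos (hT P hP).1.ne_zero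
    positivity), ← Nat.cast_prod]
  have h1 := Nat.le_of_dvd (pow_pos hl 2) (F.fiber_prod_dvd hT)
  have h2 : 0 < ∏ P ∈ T, Ideal.absNorm P :=
    prod_pos (fun P hP => F.absNorm_pos (hT P hP).1.ne_zero)
  have h3 : 2 * Real.log l = Real.log ((l ^ 2 : ℕ) : ℝ) := by
    push_cast
    rw [Real.log_pow]
    norm_num
  rw [h3]
  exact Real.log_le_log (by exact_mod_cast h2) (by exact_mod_cast h1)

theorem fiber_card_le {T : Finset (Ideal F.O)} {l : ℕ}
    (hT : ∀ P ∈ T, Prime P ∧ F.ell P = l) : T.card ≤ 2 := by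
  rcases T.eq_empty_or_nonempty with rfl | ⟨P₀, hP₀⟩
  · simp
  have hl : l.Prime := (hT P₀ hP₀).2 ▸ F.ell_prime (hT P₀ hP₀).1
  have h1 := Nat.le_of_dvd (pow_pos hl.pos 2) (F.fiber_prod_dvd hT)
  have h2 : l ^ T.card ≤ ∏ P ∈ T, Ideal.absNorm P :=
    pow_card_le_prod T _ l (fun P hP => (hT P hP).2 ▸ F.ell_le (hT P hP).1)
  exact (Nat.pow_le_pow_iff_right hl.one_lt).1 (h2.trans h1)

theorem finite_PP (y : ℝ) : {P : Ideal F.O | Prime P ∧ (F.ell P : ℝ) < y}.Finite := by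
  refine (Ideal.finite_setOfPred_absNorm_le (⌈y⌉₊ ^ 2)).subset ?_
  rintro P ⟨hP, h⟩
  have : F.ell P ≤ ⌈y⌉₊ := by
    have := h.le.trans (Nat.le_ceil y)
    exact_mod_cast this
  exact (F.absNorm_le_ell_sq hP).trans (Nat.pow_le_pow_left this 2)

/-- The prime ideals above rational primes less than `y`. -/
noncomputable def PP (y : ℝ) : Finset (Ideal F.O) := (F.finite_PP y).toFinset

theorem mem_PP {y : ℝ} {P : Ideal F.O} : P ∈ F.PP y ↔ Prime P ∧ (F.ell P : ℝ) < y := by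
  simp [PP]

theorem PP_prime {y : ℝ} {P : Ideal F.O} (h : P ∈ F.PP y) : Prime P := (F.mem_PP.1 h).1

theorem card_PP_le {y : ℝ} (hy : 0 ≤ y) : ((F.PP y).card : ℝ) ≤ 2 * (y + 1) := by
  classical
  have h1 : (F.PP y).card ≤ 2 * (range ⌈y⌉₊).card := by
    refine card_le_mul_card_image_of_maps_to (f := F.ell) (fun P hP => ?_) 2 (fun l _ => ?_)
    · rw [mem_range]
      exact Nat.lt_ceil.2 (F.mem_PP.1 hP).2
    · exact F.fiber_card_le (l := l) (fun P hP =>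
        ⟨F.PP_prime (mem_filter.1 hP).1, (mem_filter.1 hP).2⟩)
  rw [card_range] at h1
  have h2 : ((F.PP y).card : ℝ) ≤ 2 * (⌈y⌉₊ : ℝ) := by exact_mod_cast h1
  have h3 := Nat.ceil_lt_add_one hy
  linarith

theorem sum_log_div_le {y : ℝ} (hy : 2 ≤ y) :
    ∑ P ∈ F.PP y, Real.log (Ideal.absNorm P) / (Ideal.absNorm P : ℝ) ≤ 6 * Real.log y := by
  classical
  have h1 : ∑ P ∈ F.PP y, Real.log (Ideal.absNorm P) / (Ideal.absNorm P : ℝ)
      ≤ ∑ P ∈ F.PP y, Real.log (Ideal.absNorm P) / (F.ell P : ℝ) := by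
    refine sum_le_sum (fun P hP => ?_)
    have hp := F.PP_prime hP
    apply div_le_div_of_nonneg_left (Real.log_natCast_nonneg _)
    · exact_mod_cast (F.ell_prime hp).pos
    · exact_mod_cast F.ell_le hp
  refine h1.trans ?_
  rw [← sum_fiberwise_of_maps_to (g := F.ell) (t := (F.PP y).image F.ell)
    (fun P hP => mem_image_of_mem _ hP)]
  have h2 : ∀ l ∈ (F.PP y).image F.ell,
      ∑ P ∈ F.PP y with F.ell P = l, Real.log (Ideal.absNorm P) / (F.ell P : ℝ)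
        ≤ 2 * (Real.log l / l) := by
    intro l hl
    obtain ⟨P₀, hP₀, rfl⟩ := mem_image.1 hl
    have hl0 := (F.ell_prime (F.PP_prime hP₀)).pos
    rw [sum_congr rfl (g := fun P => Real.log (Ideal.absNorm P) / (F.ell P₀ : ℝ))
      (fun P hP => by rw [(mem_filter.1 hP).2]), ← sum_div, ← mul_div_assoc]
    apply div_le_div_of_nonneg_right _ (Nat.cast_nonneg _)
    exact F.fiber_log_le hl0 (fun P hP => ⟨F.PP_prime (mem_filter.1 hP).1, (mem_filter.1 hP).2⟩)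
  refine (sum_le_sum h2).trans ?_
  rw [← mul_sum]
  have hn : 1 ≤ ⌊y⌋₊ := Nat.le_floor (by push_cast; linarith)
  have h3 := mertens_le ⌊y⌋₊ hn ((F.PP y).image F.ell) (fun l hl => by
    obtain ⟨P₀, hP₀, rfl⟩ := mem_image.1 hl
    exact ⟨F.ell_prime (F.PP_prime hP₀), Nat.le_floor (F.mem_PP.1 hP₀).2.le⟩)
  have h4 : Real.log ⌊y⌋₊ ≤ Real.log y :=
    Real.log_le_log (by exact_mod_cast hn) (Nat.floor_le (by linarith))
  have h5 : Real.log 4 ≤ 2 * Real.log y := by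
    have : Real.log 4 = 2 * Real.log 2 := by
      rw [show (4 : ℝ) = 2 ^ 2 by norm_num, Real.log_pow]; norm_num
    rw [this]
    have := Real.log_le_log (by norm_num) hy
    linarith
  linarith

/-- The norm has no prime factor below `y`. -/
def rough (y : ℝ) (I : Ideal F.O) : Prop := ∀ l : ℕ, l.Prime → l ∣ Ideal.absNorm I → y ≤ l

theorem rough_iff {y : ℝ} {I : Ideal F.O} : F.rough y I ↔ ∀ P ∈ F.PP y, ¬ P ∣ I := by
  constructor
  · intro h P hP hd
    obtain ⟨hp, hl⟩ := F.mem_PP.1 hP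
    have := h _ (F.ell_prime hp) ((F.ell_dvd hp).trans (map_dvd Ideal.absNorm hd))
    linarith
  · intro h l hl hd
    obtain ⟨P, hP, h1, h2⟩ := F.exists_prime_dvd hl hd
    by_contra hc
    push Not at hc
    exact h P (F.mem_PP.2 ⟨hP, h1 ▸ hc⟩) h2

theorem rough.mono {F : RQ} {y y' : ℝ} {I : Ideal F.O} (h : F.rough y I) (hy : y' ≤ y) :
    F.rough y' I := fun l hl hd => hy.trans (h l hl hd)

theorem rough.of_dvd {F : RQ} {y : ℝ} {I J : Ideal F.O} (h : F.rough y I) (hd : J ∣ I) :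
    F.rough y J := fun l hl hd' => h l hl (hd'.trans (map_dvd Ideal.absNorm hd))

theorem rough.mul {F : RQ} {y : ℝ} {I J : Ideal F.O} (h : F.rough y I) (h' : F.rough y J) :
    F.rough y (I * J) := by
  intro l hl hd
  rw [map_mul] at hd
  rcases (Nat.Prime.dvd_mul hl).1 hd with h1 | h1
  · exact h l hl h1
  · exact h' l hl h1

/-- The product of the rational primes below a set of prime ideals. -/
noncomputable def rad (T : Finset (Ideal F.O)) : ℕ := ∏ l ∈ T.image F.ell, l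

theorem rad_pos {T : Finset (Ideal F.O)} (hT : ∀ P ∈ T, Prime P) : 0 < F.rad T := by
  refine prod_pos (fun l hl => ?_)
  obtain ⟨P, hP, rfl⟩ := mem_image.1 hl
  exact (F.ell_prime (hT P hP)).pos

theorem rad_dvd {T : Finset (Ideal F.O)} (hT : ∀ P ∈ T, Prime P) {n : ℕ}
    (h : ∀ P ∈ T, F.ell P ∣ n) : F.rad T ∣ n := by
  refine Finset.prod_primes_dvd n (fun l hl => ?_) (fun l hl => ?_)
  · obtain ⟨P, hP, rfl⟩ := mem_image.1 hl
    exact (F.ell_prime (hT P hP)).prime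
  · obtain ⟨P, hP, rfl⟩ := mem_image.1 hl
    exact h P hP

theorem ell_dvd_rad {T : Finset (Ideal F.O)} {P : Ideal F.O} (hP : P ∈ T) :
    F.ell P ∣ F.rad T := dvd_prod_of_mem _ (mem_image_of_mem _ hP)

theorem rad_mem {T : Finset (Ideal F.O)} (hT : ∀ P ∈ T, Prime P) :
    ((F.rad T : ℕ) : F.O) ∈ ∏ P ∈ T, P := by
  rw [← F.dvd_span_iff, F.prod_dvd_iff hT]
  intro P hP
  rw [F.dvd_span_iff]
  obtain ⟨k, hk⟩ := F.ell_dvd_rad hP
  rw [hk]
  push_cast
  exact P.mul_mem_right _ (F.ell_mem (hT P hP))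

theorem rad_le {T : Finset (Ideal F.O)} (hT : ∀ P ∈ T, Prime P) :
    F.rad T ≤ ∏ P ∈ T, Ideal.absNorm P := by
  refine Nat.le_of_dvd (prod_pos (fun P hP => F.absNorm_pos (hT P hP).ne_zero)) ?_
  exact F.rad_dvd hT (fun P hP => (F.ell_dvd (hT P hP)).trans (dvd_prod_of_mem _ hP))

theorem exists_im_generator (I : Ideal F.O) (hI : I ≠ ⊥) :
    ∃ v ∈ I, ∃ e : ℕ, 0 < e ∧ v.im = e ∧ Ideal.span {(e : F.O)} ∣ I := by
  let J : Ideal ℤ := Submodule.map (imₗ (R := ℤ) F.a F.b) (I.restrictScalars ℤ)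
  have hJ : ∀ t : ℤ, t ∈ J ↔ ∃ v ∈ I, v.im = t := by
    intro t
    simp [J, Submodule.mem_map]
  obtain ⟨g, hg⟩ := (IsPrincipalIdealRing.principal J).principal
  have hgJ : g ∈ J := by rw [hg]; exact Submodule.mem_span_singleton_self g
  have hdvd : ∀ v ∈ I, g ∣ v.im := by
    intro v hv
    have : v.im ∈ J := (hJ _).2 ⟨v, hv, rfl⟩
    rw [hg] at this
    exact Ideal.mem_span_singleton.1 this
  have hall : ∀ v ∈ I, (g : F.O) ∣ v := fun v hv =>
    F.intCast_dvd_iff_im.2 (fun w => hdvd _ (I.mul_mem_left w hv))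
  have hg0 : g ≠ 0 := by
    rintro rfl
    apply hI
    rw [eq_bot_iff]
    intro v hv
    simpa using hall v hv
  obtain ⟨v, hv, hvg⟩ := (hJ g).1 hgJ
  have hspan : Ideal.span {((g.natAbs : ℕ) : F.O)} ∣ I := by
    rw [Ideal.dvd_iff_le]
    intro w hw
    rw [Ideal.mem_span_singleton]
    have h1 := hall w hw
    rcases Int.natAbs_eq g with h | h
    · rw [h] at h1; simpa using h1
    · rw [h] at h1; simpa using h1
  rcases Int.natAbs_eq g with h | h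
  · exact ⟨v, hv, g.natAbs, Int.natAbs_pos.2 hg0, by rw [hvg, ← h], hspan⟩
  · exact ⟨-v, I.neg_mem hv, g.natAbs, Int.natAbs_pos.2 hg0, by
      rw [im_neg, hvg]; omega, hspan⟩

theorem fiber_lemma {T : Finset (Ideal F.O)} (hT : ∀ P ∈ T, Prime P) {n : Ideal F.O}
    (hn : Squarefree (Ideal.absNorm n)) (hc : ∀ P ∈ T, ¬ F.ell P ∣ Ideal.absNorm n) :
    ∃ v ∈ (∏ P ∈ T, P) * n, ∃ e : ℕ, 0 < e ∧ v.im = e ∧
      e * F.rad T ≤ ∏ P ∈ T, Ideal.absNorm P := by
  have hn0 : n ≠ ⊥ := by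
    rintro rfl
    simp at hn
  obtain ⟨v, hv, e, he, hve, hd⟩ := F.exists_im_generator ((∏ P ∈ T, P) * n)
    (mul_ne_zero (F.prod_ne_bot hT) hn0)
  refine ⟨v, hv, e, he, hve, ?_⟩
  have h1 : e ^ 2 ∣ (∏ P ∈ T, Ideal.absNorm P) * Ideal.absNorm n := by
    have := map_dvd Ideal.absNorm hd
    rwa [F.absNorm_span_nat, map_mul, map_prod] at this
  have hcop : Nat.Coprime e (Ideal.absNorm n) := by
    by_contra hc'
    obtain ⟨l, hl, h2, h3⟩ := Nat.Prime.not_coprime_iff_dvd.1 hc'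
    have h4 : ¬ l ∣ ∏ P ∈ T, Ideal.absNorm P := by
      intro h5
      obtain ⟨P, hP, h6⟩ := (hl.prime.dvd_finsetProd_iff _).1 h5
      exact hc P hP (F.ell_eq_of_dvd (hT P hP) hl h6 ▸ h3)
    have h5 : l ^ 2 ∣ Ideal.absNorm n :=
      (Nat.Coprime.pow_left 2 ((Nat.Prime.coprime_iff_not_dvd hl).2 h4)).dvd_of_dvd_mul_left
        ((pow_dvd_pow_of_dvd h2 2).trans h1)
    exact hl.one_lt.ne' (Nat.isUnit_iff.1 (hn l (by rwa [← sq])))
  have hcop2 : IsCoprime (Ideal.span {(e : F.O)}) n := by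
    rw [Ideal.isCoprime_iff_exists]
    obtain ⟨s, t, hst⟩ := Nat.isCoprime_iff_coprime.2 hcop
    refine ⟨(s : F.O) * e, Ideal.mem_span_singleton'.2 ⟨_, rfl⟩,
      (t : F.O) * (Ideal.absNorm n : ℕ), n.mul_mem_left _ (Ideal.absNorm_mem n), ?_⟩
    exact_mod_cast congrArg (fun x : ℤ => (x : F.O)) hst
  obtain ⟨d', hd'⟩ := hcop2.dvd_of_dvd_mul_right hd
  have h6 : ∏ P ∈ T, Ideal.absNorm P = e ^ 2 * Ideal.absNorm d' := by
    rw [← map_prod, hd', map_mul, F.absNorm_span_nat]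
  have hd0 : 0 < Ideal.absNorm d' := by
    apply F.absNorm_pos
    rintro rfl
    exact F.prod_ne_bot hT (by rw [hd']; simp)
  have h7 : F.rad T ∣ e * Ideal.absNorm d' := by
    refine F.rad_dvd hT (fun P hP => ?_)
    have hl := F.ell_prime (hT P hP)
    have h8 : F.ell P ∣ e ^ 2 * Ideal.absNorm d' :=
      h6 ▸ (F.ell_dvd (hT P hP)).trans (dvd_prod_of_mem _ hP)
    rcases (Nat.Prime.dvd_mul hl).1 h8 with h9 | h9
    · exact (hl.dvd_of_dvd_pow h9).mul_right _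
    · exact h9.mul_left _
  have h8 := Nat.le_of_dvd (by positivity) h7
  rw [h6, sq, mul_assoc]
  exact Nat.mul_le_mul_left e h8

/-! Ideal classes -/

open scoped nonZeroDivisors in
/-- The class of an ideal. -/
noncomputable def cls (I : Ideal F.O) : ClassGroup F.O := by
  classical
  exact if h : I ≠ ⊥ then ClassGroup.mk0 ⟨I, mem_nonZeroDivisors_of_ne_zero h⟩ else 1

theorem exists_rep (C : ClassGroup F.O) : ∃ J : Ideal F.O, J ≠ ⊥ ∧ F.cls J = C⁻¹ := by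
  obtain ⟨J, hJ⟩ := ClassGroup.mk0_surjective C⁻¹
  have h0 : (J : Ideal F.O) ≠ ⊥ := nonZeroDivisors.ne_zero J.2
  refine ⟨J, h0, ?_⟩
  rw [cls, dif_pos h0, ← hJ]

theorem cls_mul {I J : Ideal F.O} (hI : I ≠ ⊥) (hJ : J ≠ ⊥) :
    F.cls (I * J) = F.cls I * F.cls J := by
  have h : I * J ≠ ⊥ := mul_ne_zero hI hJ
  rw [cls, cls, cls, dif_pos hI, dif_pos hJ, dif_pos h, ← map_mul]
  rfl

theorem cls_eq_one_iff {I : Ideal F.O} (hI : I ≠ ⊥) :
    F.cls I = 1 ↔ ∃ z : F.O, I = Ideal.span {z} := by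
  rw [cls, dif_pos hI, ClassGroup.mk0_eq_one_iff]
  exact ⟨fun h => h.principal, fun ⟨z, hz⟩ => ⟨z, hz⟩⟩

/-- A nonzero ideal in the inverse class. -/
noncomputable def rep (C : ClassGroup F.O) : Ideal F.O := (F.exists_rep C).choose

theorem rep_ne (C : ClassGroup F.O) : F.rep C ≠ ⊥ := (F.exists_rep C).choose_spec.1

theorem cls_rep (C : ClassGroup F.O) : F.cls (F.rep C) = C⁻¹ := (F.exists_rep C).choose_spec.2

theorem exists_gen (I : Ideal F.O) : ∃ w : F.O, I ≠ ⊥ →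
    Ideal.span {w} = I * F.rep (F.cls I) ∧
      |F.σ₂ w| ≤ |F.σ₁ w| ∧ |F.σ₁ w| ≤ F.e ^ 2 * |F.σ₂ w| := by
  by_cases hI : I = ⊥
  · exact ⟨0, fun h => (h hI).elim⟩
  have h0 := mul_ne_zero hI (F.rep_ne (F.cls I))
  obtain ⟨z, hz⟩ := (F.cls_eq_one_iff h0).1 (by
    rw [F.cls_mul hI (F.rep_ne _), cls_rep, mul_inv_cancel])
  have hz0 : z ≠ 0 := by
    rintro rfl
    apply h0
    rw [hz]; simp
  obtain ⟨w, hw, h1, h2⟩ := F.exists_balanced hz0
  exact ⟨w, fun _ => ⟨hw.trans hz.symm, h1, h2⟩⟩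

/-- A balanced generator of `I` times the representative of the inverse class. -/
noncomputable def gen (I : Ideal F.O) : F.O := (F.exists_gen I).choose

theorem span_gen {I : Ideal F.O} (hI : I ≠ ⊥) :
    Ideal.span {F.gen I} = I * F.rep (F.cls I) := ((F.exists_gen I).choose_spec hI).1

theorem gen_mem {I : Ideal F.O} (hI : I ≠ ⊥) : F.gen I ∈ F.rep (F.cls I) := by
  rw [← F.dvd_span_iff, F.span_gen hI]
  exact dvd_mul_left _ _

theorem gen_inj {I J : Ideal F.O} (hI : I ≠ ⊥) (hJ : J ≠ ⊥) (hc : F.cls I = F.cls J)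
    (h : F.gen I = F.gen J) : I = J := by
  have h1 := F.span_gen hI
  rw [h, F.span_gen hJ, hc] at h1
  exact (mul_right_cancel₀ (F.rep_ne _) h1).symm

theorem gen_bounds {I : Ideal F.O} (hI : I ≠ ⊥) :
    let n : ℝ := (Ideal.absNorm I : ℝ) * Ideal.absNorm (F.rep (F.cls I))
    Real.sqrt n / F.e ≤ |F.σ₁ (F.gen I)| ∧ |F.σ₁ (F.gen I)| ≤ F.e * Real.sqrt n ∧
    Real.sqrt n / F.e ≤ |F.σ₂ (F.gen I)| ∧ |F.σ₂ (F.gen I)| ≤ F.e * Real.sqrt n := by
  intro n
  obtain ⟨h0, h1, h2⟩ := (F.exists_gen I).choose_spec hI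
  change |F.σ₂ (F.gen I)| ≤ |F.σ₁ (F.gen I)| at h1
  change |F.σ₁ (F.gen I)| ≤ F.e ^ 2 * |F.σ₂ (F.gen I)| at h2
  have hn : n = |F.σ₁ (F.gen I)| * |F.σ₂ (F.gen I)| := by
    rw [← F.absNorm_span_real, F.span_gen hI, map_mul]
    push_cast
    rfl
  set s := |F.σ₁ (F.gen I)| with hs
  set t := |F.σ₂ (F.gen I)| with ht
  have hs0 : 0 ≤ s := abs_nonneg _
  have ht0 : 0 ≤ t := abs_nonneg _
  have he := F.one_lt_e
  have a1 : Real.sqrt n ≤ s := Real.sqrt_le_iff.2 ⟨hs0, by rw [hn]; nlinarith⟩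
  have a2 : t ≤ Real.sqrt n := Real.le_sqrt_of_sq_le (by rw [hn]; nlinarith)
  have a3 : Real.sqrt n ≤ F.e * t :=
    Real.sqrt_le_iff.2 ⟨by positivity, by rw [hn]; nlinarith⟩
  have a4 : s ≤ F.e * Real.sqrt n := by
    have : s / F.e ≤ Real.sqrt n := Real.le_sqrt_of_sq_le (by
      rw [hn, div_pow, div_le_iff₀ (by positivity)]; nlinarith)
    rwa [div_le_iff₀ (by positivity), mul_comm] at this
  have hq := Real.sqrt_nonneg n
  refine ⟨?_, a4, ?_, ?_⟩
  · exact (div_le_self hq he.le).trans a1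
  · rw [div_le_iff₀ (by positivity)]; linarith
  · nlinarith

end RQ

end Pool.Agent.Lib.MP_d48457_nt
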