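import Pool.Agent.Lib.MP_d48457_nt.Pair

set_option autoImplicit false

namespace Pool.Agent.Lib.MP_d48457_nt

open QuadraticAlgebra Finset

/-- Weighted mean square of exponential sums over cells. -/
noncomputable def AA (g : ℤ → ℝ) (H J : ℕ) (D : ℝ) (Z : ℕ → ℝ) : ℝ :=
  ∑ i ∈ Icc (-(J : ℤ)) J, ∑ q ∈ farey D, ‖ghat g (Ico (i * H) (i * H + H)) q‖ ^ 2 * Z q.den

theorem mem_cell {H : ℕ} (hH : 0 < H) (k i : ℤ) : k ∈ Ico (i * H) (i * H + H) ↔ k / H = i := by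
  have hH' : (0 : ℤ) < H := by exact_mod_cast hH
  rw [mem_Ico, Int.ediv_eq_iff_of_pos hH']

namespace RQ

variable (F : RQ)

theorem σ₁_star (z : F.O) : F.σ₁ (star z) = F.σ₂ z := by
  simp only [σ₁_apply, σ₂_apply, re_star, im_star]
  push_cast
  ring

theorem σ₂_star (z : F.O) : F.σ₂ (star z) = F.σ₁ z := by
  simp only [σ₁_apply, σ₂_apply, re_star, im_star]
  push_cast
  ring

theorem det_mul_eq (π₁ π₂ v : F.O) : (F.det π₁ π₂ : F.O) * v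
    = ((v * π₂).im : F.O) * star π₁ - ((v * π₁).im : F.O) * star π₂ := by
  ext
  · simp only [det, im_mul, re_mul, re_star, im_star, re_intCast, im_intCast, re_sub, Int.cast_id]
    ring
  · simp only [det, im_mul, re_star, im_star, re_intCast, im_intCast, im_sub, Int.cast_id]
    ring

theorem small_of_cell {π₁ π₂ v : F.O} {ρ H : ℝ} (hdet : F.det π₁ π₂ ≠ 0)
    (a1 : |F.σ₁ π₁| ≤ ρ) (a2 : |F.σ₂ π₁| ≤ ρ) (a3 : |F.σ₁ π₂| ≤ ρ) (a4 : |F.σ₂ π₂| ≤ ρ)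
    (h1 : |((v * π₁).im : ℝ)| ≤ H) (h2 : |((v * π₂).im : ℝ)| ≤ H) :
    |F.σ₁ v| ≤ 2 * H * ρ / |(F.det π₁ π₂ : ℝ)| ∧ |F.σ₂ v| ≤ 2 * H * ρ / |(F.det π₁ π₂ : ℝ)| := by
  have hΔ0 : (0 : ℝ) < |(F.det π₁ π₂ : ℝ)| := abs_pos.2 (by exact_mod_cast hdet)
  have hH : 0 ≤ H := (abs_nonneg _).trans h1
  have e1 := congrArg F.σ₁ (F.det_mul_eq π₁ π₂ v)
  have e2 := congrArg F.σ₂ (F.det_mul_eq π₁ π₂ v)
  simp only [map_mul, map_sub, map_intCast, σ₁_star, σ₂_star] at e1 e2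
  constructor
  · rw [le_div_iff₀ hΔ0, ← abs_mul, mul_comm, e1]
    refine (abs_sub _ _).trans ?_
    rw [abs_mul, abs_mul]
    nlinarith [mul_le_mul h2 a2 (abs_nonneg _) hH, mul_le_mul h1 a4 (abs_nonneg _) hH]
  · rw [le_div_iff₀ hΔ0, ← abs_mul, mul_comm, e2]
    refine (abs_sub _ _).trans ?_
    rw [abs_mul, abs_mul]
    nlinarith [mul_le_mul h2 a1 (abs_nonneg _) hH, mul_le_mul h1 a3 (abs_nonneg _) hH]

theorem sum_nu_thin {y R : ℝ} (hy : 2 ≤ y) (hR : y ^ 12 ≤ R) {c : Ideal F.O} (hc : c ≠ ⊥)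
    {a₁ a₂ b₁ b₂ s μ : ℝ} (hs : 0 ≤ s) (hμ : 0 ≤ μ)
    (h : (a₂ - a₁ ≤ s ∧ b₂ - b₁ ≤ μ) ∨ (a₂ - a₁ ≤ μ ∧ b₂ - b₁ ≤ s)) :
    ∑ w ∈ F.box a₁ a₂ b₁ b₂, ind (w ∈ c) * F.nu y R c w
      ≤ 4 * ((μ + 2) * (s + 2)) / F.Gy y
        + 64 * F.c0 ^ 2 * (s + μ + F.nrm c * R ^ 2) * R ^ 8 := by
  have hG := F.one_le_Gy y
  refine (F.sum_nu_le hy hR hc (s := s + μ) (by linarith) (by rcases h with h | h <;> linarith)
    (by rcases h with h | h <;> linarith)).trans (add_le_add ?_ le_rfl)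
  apply div_le_div_of_nonneg_right _ (by linarith)
  apply mul_le_mul_of_nonneg_left _ (by norm_num)
  rcases lt_or_ge a₂ a₁ with h' | ha
  · rw [F.box_empty_left h']; simp; positivity
  rcases lt_or_ge b₂ b₁ with h' | hb
  · rw [F.box_empty_right h']; simp; positivity
  refine (F.card_box_le ha hb).trans ?_
  rcases h with h | h
  · rw [mul_comm]
    exact mul_le_mul (by linarith) (by linarith) (by linarith) (by linarith)
  · exact mul_le_mul (by linarith) (by linarith) (by linarith) (by linarith)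

theorem box_pair_bound {y R c' D s ρ s₀ : ℝ} (hy : 2 ≤ y) (hR : y ^ 12 ≤ R) (hc' : 0 ≤ c')
    (hs : 0 < s) {b : Ideal F.O}
    (hb : b ≠ ⊥) {π₁ π₂ : F.O} (hdet : F.det π₁ π₂ ≠ 0) (h1 : F.Fib y b c' π₁)
    (h2 : F.Fib y b c' π₂) (hD : Ideal.absNorm b * R ^ 2 * |(F.det π₁ π₂ : ℝ)| ≤ D)
    (a1 : |F.σ₁ π₁| ≤ ρ) (a2 : |F.σ₂ π₁| ≤ ρ) (a3 : |F.σ₁ π₂| ≤ ρ) (a4 : |F.σ₂ π₂| ≤ ρ)
    (g₁ g₂ : ℤ → ℝ) (hg₁ : ∀ k, |g₁ k| ≤ 1) (hg₂ : ∀ k, |g₂ k| ≤ 1) {H J : ℕ} (hH : 0 < H)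
    {a₁ a₂ b₁ b₂ : ℝ} (hs0 : 0 ≤ s₀) (hs1 : a₂ - a₁ ≤ s₀) (hs2 : b₂ - b₁ ≤ s₀)
    (hJ : ∀ w ∈ F.box a₁ a₂ b₁ b₂, |(w * π₁).im| ≤ J * H ∧ |(w * π₂).im| ≤ J * H) :
    |∑ w ∈ F.box a₁ a₂ b₁ b₂,
        ind (w ∈ b) * F.nu y R b w * (g₁ (w * π₁).im * g₂ (w * π₂).im)|
      ≤ 4 * (4 * ((2 * H * ρ / |(F.det π₁ π₂ : ℝ)| + 2) * (s₀ + 2)) / F.Gy y
        + 64 * F.c0 ^ 2 * (s₀ + 2 * H * ρ / |(F.det π₁ π₂ : ℝ)| + F.nrm b * R ^ 2) * R ^ 8)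
      + (2 * J + 1) / (2 * |(F.det π₁ π₂ : ℝ)|) *
        (s * AA g₁ H J D (fun d => F.ZZ y R (Ideal.absNorm b) c' d (F.det π₁ π₂))
        + s⁻¹ * AA g₂ H J D (fun d => F.ZZ y R (Ideal.absNorm b) c' d (F.det π₁ π₂))) := by
  classical
  have hR1 : 1 < R := (F.hH_of_le hy hR (empty_subset _)).1
  have hH' : (0 : ℤ) < H := by exact_mod_cast hH
  have hΔ0 : (0 : ℝ) < |(F.det π₁ π₂ : ℝ)| := abs_pos.2 (by exact_mod_cast hdet)
  have hρ : 0 ≤ ρ := (abs_nonneg _).trans a1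
  set μ := 2 * H * ρ / |(F.det π₁ π₂ : ℝ)| with hμ
  have hμ0 : 0 ≤ μ := by positivity
  set B := F.box a₁ a₂ b₁ b₂ with hB
  set Z : ℕ → ℝ := fun d => F.ZZ y R (Ideal.absNorm b) c' d (F.det π₁ π₂) with hZ
  have hZ0 : ∀ d, 0 ≤ Z d := fun d => F.ZZ_nonneg _ _ _ hc' _ _
  let cell : F.O → ℤ × ℤ := fun w => ((w * π₁).im / H, (w * π₂).im / H)
  let f : F.O → ℝ := fun w => ind (w ∈ b) * F.nu y R b w
  have hf0 : ∀ w, 0 ≤ f w := fun w => mul_nonneg (ind_nonneg _) (F.nu_nonneg _ _ _ _)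
  let Bm := F.box (a₁ + μ) (a₂ - μ) (b₁ + μ) (b₂ - μ)
  have hdiv : ∀ k : ℤ, |k| ≤ J * H → k / H ∈ Icc (-(J : ℤ)) J := by
    intro k hk
    rw [abs_le] at hk
    rw [mem_Icc]
    constructor
    · rw [Int.le_ediv_iff_mul_le hH']; linarith
    · exact Int.ediv_le_of_le_mul hH' hk.2
  have hmaps : ∀ w ∈ B, cell w ∈ Icc (-(J : ℤ)) J ×ˢ Icc (-(J : ℤ)) J :=
    fun w hw => mem_product.2 ⟨hdiv _ (hJ w hw).1, hdiv _ (hJ w hw).2⟩
  let A1 : ℤ → ℝ := fun i => ∑ q ∈ farey D, ‖ghat g₁ (Ico (i * H) (i * H + H)) q‖ ^ 2 * Z q.den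
  let A2 : ℤ → ℝ := fun i => ∑ q ∈ farey D, ‖ghat g₂ (Ico (i * H) (i * H + H)) q‖ ^ 2 * Z q.den
  have hA1 : ∀ i, 0 ≤ A1 i := fun i => sum_nonneg (fun q _ => mul_nonneg (by positivity) (hZ0 _))
  have hA2 : ∀ i, 0 ≤ A2 i := fun i => sum_nonneg (fun q _ => mul_nonneg (by positivity) (hZ0 _))
  have key : ∀ p : ℤ × ℤ,
      |∑ w ∈ B with cell w = p, f w * (g₁ (w * π₁).im * g₂ (w * π₂).im)|
      ≤ ∑ w ∈ B with cell w = p, f w * ind (w ∉ Bm)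
        + 1 / (2 * |(F.det π₁ π₂ : ℝ)|) * (s * A1 p.1 + s⁻¹ * A2 p.2) := by
    intro p
    by_cases hin : ∀ w, cell w = p → w ∈ B
    · have := F.pair_bound hR1 hc' hs hb hdet h1 h2 hD g₁ g₂ (Ico (p.1 * H) (p.1 * H + H))
        (Ico (p.2 * H) (p.2 * H + H)) (B.filter (fun w => cell w = p)) (fun w => by
          rw [mem_cell hH, mem_cell hH, mem_filter, Prod.ext_iff]
          exact ⟨fun h => h.2, fun h => ⟨hin w (Prod.ext h.1 h.2), h⟩⟩)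
      refine this.trans (le_add_of_nonneg_left ?_)
      exact sum_nonneg (fun w _ => mul_nonneg (hf0 w) (ind_nonneg _))
    · push Not at hin
      obtain ⟨w', hw', hw'B⟩ := hin
      refine le_add_of_le_of_nonneg ((abs_sum_le_sum_abs _ _).trans (sum_le_sum
        (fun w hw => ?_))) ?_
      · rw [abs_mul, abs_of_nonneg (hf0 w)]
        apply mul_le_mul_of_nonneg_left _ (hf0 w)
        rw [ind_pos, abs_mul]
        · exact mul_le_one₀ (hg₁ _) (abs_nonneg _) (hg₂ _)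
        · intro hm
          apply hw'B
          have hc := (mem_filter.1 hw).2.trans hw'.symm
          rw [Prod.ext_iff] at hc
          have hcl : ∀ k k' : ℤ, k / H = k' / H → |((k - k' : ℤ) : ℝ)| ≤ H := by
            intro k k' h
            have e1 := mem_Ico.1 ((mem_cell hH k _).2 h)
            have e2 := mem_Ico.1 ((mem_cell hH k' _).2 rfl)
            have : |k - k'| ≤ H := by rw [abs_le]; constructor <;> linarith [e1.1, e1.2, e2.1, e2.2]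
            exact_mod_cast this
          obtain ⟨e1, e2⟩ := F.small_of_cell (v := w - w') (H := H) hdet a1 a2 a3 a4
            (by rw [sub_mul, im_sub]; exact hcl _ _ hc.1)
            (by rw [sub_mul, im_sub]; exact hcl _ _ hc.2)
          rw [map_sub, ← hμ, abs_le] at e1 e2
          obtain ⟨m1, m2, m3, m4⟩ := F.mem_box.1 hm
          exact F.mem_box.2 ⟨by linarith [e1.1, e1.2], by linarith [e1.1, e1.2],
            by linarith [e2.1, e2.2], by linarith [e2.1, e2.2]⟩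
      · have := hA1 p.1
        have := hA2 p.2
        positivity
  rw [← sum_fiberwise_of_maps_to hmaps]
  refine (abs_sum_le_sum_abs _ _).trans ((sum_le_sum (fun p _ => key p)).trans ?_)
  rw [sum_add_distrib, sum_fiberwise_of_maps_to hmaps]
  refine add_le_add ?_ (le_of_eq ?_)
  · refine (F.sum_rim_le f hf0 a₁ a₂ b₁ b₂ μ).trans ?_
    have e1 := F.sum_nu_thin hy hR hb (a₁ := a₁) (a₂ := a₁ + μ) (b₁ := b₁) (b₂ := b₂) hs0 hμ0
      (Or.inr ⟨by linarith, hs2⟩)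
    have e2 := F.sum_nu_thin hy hR hb (a₁ := a₂ - μ) (a₂ := a₂) (b₁ := b₁) (b₂ := b₂) hs0 hμ0
      (Or.inr ⟨by linarith, hs2⟩)
    have e3 := F.sum_nu_thin hy hR hb (a₁ := a₁) (a₂ := a₂) (b₁ := b₁) (b₂ := b₁ + μ) hs0 hμ0
      (Or.inl ⟨hs1, by linarith⟩)
    have e4 := F.sum_nu_thin hy hR hb (a₁ := a₁) (a₂ := a₂) (b₁ := b₂ - μ) (b₂ := b₂) hs0 hμ0
      (Or.inl ⟨hs1, by linarith⟩)
    linarith
  · rw [← mul_sum, sum_add_distrib, ← mul_sum, ← mul_sum, sum_product, sum_product]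
    simp only [sum_const, nsmul_eq_mul, ← mul_sum]
    have : ((Icc (-(J : ℤ)) J).card : ℝ) = 2 * J + 1 := by
      rw [Int.card_Icc]
      have : ((J : ℤ) + 1 - -(J : ℤ)).toNat = 2 * J + 1 := by omega
      rw [this]; push_cast; ring
    rw [this]
    unfold AA
    ring

end RQ

end Pool.Agent.Lib.MP_d48457_nt
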