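import Mathlib

set_option autoImplicit false

namespace Pool.Agent.Lib.MP_d48457_nt

open Finset

open Classical in
/-- Indicator of a proposition. -/
noncomputable def ind (q : Prop) : ℝ := if q then 1 else 0

theorem ind_pos {q : Prop} (h : q) : ind q = 1 := by simp [ind, h]

theorem ind_neg {q : Prop} (h : ¬ q) : ind q = 0 := by simp [ind, h]

theorem ind_nonneg (q : Prop) : 0 ≤ ind q := by unfold ind; split_ifs <;> norm_num

theorem ind_le_one (q : Prop) : ind q ≤ 1 := by unfold ind; split_ifs <;> norm_num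

theorem ind_and (q r : Prop) : ind (q ∧ r) = ind q * ind r := by
  by_cases hq : q <;> by_cases hr : r <;> simp [ind, hq, hr]

theorem ind_congr {q r : Prop} (h : q ↔ r) : ind q = ind r := by rw [propext h]

theorem ind_mono {q r : Prop} (h : q → r) : ind q ≤ ind r := by
  by_cases hq : q
  · rw [ind_pos hq, ind_pos (h hq)]
  · rw [ind_neg hq]; exact ind_nonneg r

theorem ind_forall {ι : Type*} (S : Finset ι) (A : ι → Prop) :
    ind (∀ p ∈ S, A p) = ∏ p ∈ S, ind (A p) := by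
  by_cases h : ∀ p ∈ S, A p
  · rw [ind_pos h, prod_congr rfl (fun p hp => ind_pos (h p hp))]
    simp
  · rw [ind_neg h]
    push Not at h
    obtain ⟨p, hp, h⟩ := h
    exact (prod_eq_zero hp (ind_neg h)).symm

theorem sum_ind_eq_card {α : Type*} (X : Finset α) (A : α → Prop) [DecidablePred A] :
    ∑ x ∈ X, ind (A x) = (X.filter A).card := by
  rw [card_filter]
  push_cast
  refine sum_congr rfl (fun x _ => ?_)
  by_cases h : A x <;> simp [ind, h]

theorem one_le_prod_real {ι : Type*} {S : Finset ι} {f : ι → ℝ} (h : ∀ p ∈ S, 1 ≤ f p) :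
    1 ≤ ∏ p ∈ S, f p := by
  have := prod_le_prod (s := S) (f := fun _ => (1 : ℝ)) (g := f) (fun _ _ => zero_le_one) h
  simpa using this

section cube

variable {ι : Type*} [DecidableEq ι]

theorem sum_pow_prod (P : Finset ι) (f g : ι → ℝ) :
    ∑ S ∈ P.powerset, ∏ p ∈ P, (if p ∈ S then f p else g p) = ∏ p ∈ P, (f p + g p) := by
  rw [prod_add]
  refine sum_congr rfl (fun S hS => ?_)
  rw [mem_powerset] at hS
  rw [prod_ite, filter_mem_eq_inter, inter_eq_right.2 hS, filter_notMem_eq_sdiff]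

theorem sum_pow_prod2 (P : Finset ι) (f11 f10 f01 f00 : ι → ℝ) :
    ∑ S ∈ P.powerset, ∑ S' ∈ P.powerset, ∏ p ∈ P,
      (if p ∈ S then (if p ∈ S' then f11 p else f10 p) else (if p ∈ S' then f01 p else f00 p))
      = ∏ p ∈ P, (f11 p + f10 p + f01 p + f00 p) := by
  have h : ∀ S : Finset ι, ∑ S' ∈ P.powerset, ∏ p ∈ P,
      (if p ∈ S then (if p ∈ S' then f11 p else f10 p) else (if p ∈ S' then f01 p else f00 p))
      = ∏ p ∈ P, (if p ∈ S then f11 p + f10 p else f01 p + f00 p) := by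
    intro S
    have := sum_pow_prod P (fun p => if p ∈ S then f11 p else f01 p)
      (fun p => if p ∈ S then f10 p else f00 p)
    refine Eq.trans (sum_congr rfl (fun S' _ => prod_congr rfl (fun p _ => ?_)))
      (this.trans (prod_congr rfl (fun p _ => ?_)))
    · split_ifs <;> rfl
    · split_ifs <;> rfl
  simp_rw [h]
  rw [sum_pow_prod]
  exact prod_congr rfl (fun p _ => by ring)

theorem prod_sub_eq {P S : Finset ι} (h : S ⊆ P) (f : ι → ℝ) :
    ∏ p ∈ S, f p = ∏ p ∈ P, (if p ∈ S then f p else 1) := by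
  rw [prod_ite_mem, inter_eq_right.2 h]

variable (P : Finset ι) (n : ι → ℝ)

/-- Sieve weights attached to coefficients `a`. -/
noncomputable def lam (a : Finset ι → ℝ) (S : Finset ι) : ℝ :=
  ∑ r ∈ P.powerset, a r * ∏ p ∈ S, (-(n p) * ind (p ∈ r))

/-- The sieve function. -/
noncomputable def beta (a : Finset ι → ℝ) (A : ι → Prop) : ℝ :=
  ∑ r ∈ P.powerset, a r * ∏ p ∈ r, (1 - n p * ind (A p))

/-- Fourier coefficients of the square of the sieve function. -/
noncomputable def cc (a : Finset ι → ℝ) (T : Finset ι) : ℝ :=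
  ∑ S ∈ P.powerset, ∑ S' ∈ P.powerset,
    lam P n a S * lam P n a S' * (ind (T ⊆ S ∪ S') / ∏ p ∈ S ∪ S', n p)

/-- The Euler product. -/
noncomputable def Ginf : ℝ := ∏ p ∈ P, (1 + 1 / (n p - 1))

theorem beta_eq (a : Finset ι → ℝ) (A : ι → Prop) :
    beta P n a A = ∑ S ∈ P.powerset, lam P n a S * ind (∀ p ∈ S, A p) := by
  unfold beta lam
  simp_rw [sum_mul]
  rw [sum_comm]
  refine sum_congr rfl (fun r hr => ?_)
  rw [mem_powerset] at hr
  simp_rw [mul_assoc]
  rw [← mul_sum]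
  congr 1
  have := sum_pow_prod P (fun p => -(n p) * ind (p ∈ r) * ind (A p)) (fun _ => 1)
  rw [prod_sub_eq hr]
  refine Eq.trans (prod_congr rfl (fun p _ => ?_)) (this.symm.trans (sum_congr rfl
    (fun S hS => ?_)))
  · split_ifs with h
    · rw [ind_pos h]; ring
    · rw [ind_neg h]; ring
  · rw [mem_powerset] at hS
    rw [ind_forall, ← prod_mul_distrib, prod_sub_eq hS]

theorem beta_sq (a : Finset ι → ℝ) (A : ι → Prop) :
    beta P n a A ^ 2 = ∑ S ∈ P.powerset, ∑ S' ∈ P.powerset,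
      lam P n a S * lam P n a S' * ind (∀ p ∈ S ∪ S', A p) := by
  rw [beta_eq, sq, sum_mul_sum]
  refine sum_congr rfl (fun S _ => sum_congr rfl (fun S' _ => ?_))
  have : ind (∀ p ∈ S ∪ S', A p) = ind (∀ p ∈ S, A p) * ind (∀ p ∈ S', A p) := by
    rw [← ind_and]
    exact ind_congr (by simp [or_imp, forall_and])
  rw [this]; ring

variable {P n}

theorem cc_eq (hn : ∀ p ∈ P, 2 ≤ n p) (a : Finset ι → ℝ) {T : Finset ι} (hT : T ⊆ P) :
    cc P n a T = ∑ r ∈ P.powerset, ∑ r' ∈ P.powerset, a r * a r' * ∏ p ∈ P,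
      (n p * ind (p ∈ r) * ind (p ∈ r') - ind (p ∈ r) - ind (p ∈ r') + ind (p ∉ T)) := by
  unfold cc lam
  simp_rw [sum_mul_sum, sum_mul]
  refine (sum_congr rfl (fun S _ => sum_comm)).trans ?_
  rw [sum_comm]
  refine sum_congr rfl (fun r _ => ?_)
  refine (sum_congr rfl (fun S _ => sum_comm)).trans ?_
  rw [sum_comm]
  refine sum_congr rfl (fun r' _ => ?_)
  have := sum_pow_prod2 P (fun p => n p * ind (p ∈ r) * ind (p ∈ r')) (fun p => -ind (p ∈ r))
    (fun p => -ind (p ∈ r')) (fun p => ind (p ∉ T))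
  have e2 : ∏ p ∈ P, (n p * ind (p ∈ r) * ind (p ∈ r') - ind (p ∈ r) - ind (p ∈ r') + ind (p ∉ T))
      = ∏ p ∈ P, (n p * ind (p ∈ r) * ind (p ∈ r') + -ind (p ∈ r) + -ind (p ∈ r')
        + ind (p ∉ T)) := prod_congr rfl (fun p _ => by ring)
  rw [e2, ← this, mul_sum]
  refine sum_congr rfl (fun S hS => ?_)
  rw [mul_sum]
  refine sum_congr rfl (fun S' hS' => ?_)
  rw [mem_powerset] at hS hS'
  have e1 : ind (T ⊆ S ∪ S') = ∏ p ∈ P, (if p ∈ S ∪ S' then 1 else ind (p ∉ T)) := by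
    have : ∀ p ∈ P, (if p ∈ S ∪ S' then 1 else ind (p ∉ T)) = ind (p ∈ T → p ∈ S ∪ S') := by
      intro p _
      split_ifs with h
      · rw [ind_pos (fun _ => h)]
      · exact ind_congr ⟨fun h1 h2 => (h1 h2).elim, fun h1 h2 => h (h1 h2)⟩
    rw [prod_congr rfl this, ← ind_forall]
    exact ind_congr ⟨fun h p _ hp => h hp, fun h p hp => h p (hT hp) hp⟩
  rw [e1, prod_sub_eq hS, prod_sub_eq hS', prod_sub_eq (union_subset hS hS'), ← prod_div_distrib]
  rw [mul_mul_mul_comm, mul_assoc, ← prod_mul_distrib, ← prod_mul_distrib]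
  congr 1
  refine prod_congr rfl (fun p hp => ?_)
  have : n p ≠ 0 := by linarith [hn p hp]
  by_cases h1 : p ∈ S <;> by_cases h2 : p ∈ S' <;> simp [h1, h2] <;> field_simp

omit [DecidableEq ι] in
theorem one_le_Ginf (hn : ∀ p ∈ P, 2 ≤ n p) : 1 ≤ Ginf P n := by
  unfold Ginf
  refine one_le_prod_real (fun p hp => ?_)
  have : 0 < n p - 1 := by linarith [hn p hp]
  have : 0 ≤ 1 / (n p - 1) := by positivity
  linarith

theorem Ginf_le_of_subset (hn : ∀ p ∈ P, 2 ≤ n p) {P' : Finset ι} (h : P' ⊆ P) :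
    Ginf P' n ≤ Ginf P n := by
  unfold Ginf
  refine prod_le_prod_of_subset_of_one_le h (fun p hp => ?_) (fun p hp _ => ?_)
  · have : 0 < n p - 1 := by linarith [hn p (h hp)]
    positivity
  · have : 0 < n p - 1 := by linarith [hn p hp]
    have : 0 ≤ 1 / (n p - 1) := by positivity
    linarith

theorem Ginf_le_mul (hn : ∀ p ∈ P, 2 ≤ n p) {P' : Finset ι} (h : P' ⊆ P) :
    Ginf P n ≤ 2 ^ (P \ P').card * Ginf P' n := by
  unfold Ginf
  rw [← prod_sdiff h]
  apply mul_le_mul_of_nonneg_right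
  · rw [← prod_const]
    refine prod_le_prod (fun p hp => ?_) (fun p hp => ?_)
    · have : 0 < n p - 1 := by linarith [hn p (mem_sdiff.1 hp).1]
      positivity
    · have h1 : 1 ≤ n p - 1 := by linarith [hn p (mem_sdiff.1 hp).1]
      have : 1 / (n p - 1) ≤ 1 := by
        rw [div_le_one (by linarith)]; exact h1
      linarith
  · refine prod_nonneg (fun p hp => ?_)
    have : 0 < n p - 1 := by linarith [hn p (h hp)]
    positivity

theorem abs_cc_le (hn : ∀ p ∈ P, 2 ≤ n p) (a : Finset ι → ℝ) {κ : ℝ}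
    (ha : ∀ r ⊆ P, |a r| ≤ κ / ∏ p ∈ r, (n p - 1)) {T : Finset ι} (hT : T ⊆ P) :
    |cc P n a T| ≤ κ ^ 2 * Ginf P n * ∏ p ∈ T, (3 / (n p - 1)) := by
  rw [cc_eq hn a hT]
  refine (abs_sum_le_sum_abs _ _).trans ?_
  refine (sum_le_sum (fun r _ => abs_sum_le_sum_abs _ _)).trans ?_
  have key := sum_pow_prod2 P (fun p => |n p - 2 + ind (p ∉ T)| / (n p - 1) ^ 2)
    (fun p => |ind (p ∉ T) - 1| / (n p - 1)) (fun p => |ind (p ∉ T) - 1| / (n p - 1))
    (fun p => ind (p ∉ T))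
  have h1 : ∀ r ∈ P.powerset, ∀ r' ∈ P.powerset, |a r * a r' * ∏ p ∈ P,
      (n p * ind (p ∈ r) * ind (p ∈ r') - ind (p ∈ r) - ind (p ∈ r') + ind (p ∉ T))|
      ≤ κ ^ 2 * ∏ p ∈ P, (if p ∈ r then (if p ∈ r' then |n p - 2 + ind (p ∉ T)| / (n p - 1) ^ 2
        else |ind (p ∉ T) - 1| / (n p - 1)) else (if p ∈ r' then |ind (p ∉ T) - 1| / (n p - 1)
        else ind (p ∉ T))) := by
    intro r hr r' hr'
    rw [mem_powerset] at hr hr'
    rw [abs_mul, abs_mul, abs_prod]
    have h2 := mul_le_mul (ha r hr) (ha r' hr') (abs_nonneg _) ((abs_nonneg _).trans (ha r hr))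
    refine (mul_le_mul_of_nonneg_right h2 (prod_nonneg (fun p _ => abs_nonneg _))).trans
      (le_of_eq ?_)
    rw [div_mul_div_comm, ← sq, div_mul_eq_mul_div, mul_div_assoc, prod_sub_eq hr,
      prod_sub_eq hr', ← prod_mul_distrib, ← prod_div_distrib]
    congr 1
    refine prod_congr rfl (fun p _ => ?_)
    by_cases h3 : p ∈ r <;> by_cases h4 : p ∈ r'
    · simp only [h3, h4, if_true, ind_pos trivial]
      congr 1
      · congr 1; ring
      · ring
    · simp only [h3, h4, if_true, if_false, ind_pos trivial, ind_neg not_false]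
      congr 1
      · congr 1; ring
      · ring
    · simp only [h3, h4, if_true, if_false, ind_pos trivial, ind_neg not_false]
      congr 1
      · congr 1; ring
      · ring
    · simp only [h3, h4, if_false, ind_neg not_false]
      simp [abs_of_nonneg (ind_nonneg _)]
  refine (sum_le_sum (fun r hr => sum_le_sum (fun r' hr' => h1 r hr r' hr'))).trans ?_
  simp_rw [← mul_sum]
  rw [key, mul_assoc]
  apply mul_le_mul_of_nonneg_left _ (by positivity)
  unfold Ginf
  rw [prod_sub_eq hT, ← prod_mul_distrib]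
  refine prod_le_prod (fun p hp => ?_) (fun p hp => ?_)
  · have : 0 < n p - 1 := by linarith [hn p hp]
    have := ind_nonneg (p ∉ T)
    positivity
  · have h0 : 0 < n p - 1 := by linarith [hn p hp]
    have h2 := hn p hp
    by_cases h : p ∈ T
    · rw [ind_neg (not_not.2 h), if_pos h, add_zero, abs_of_nonneg (by linarith)]
      simp only [zero_sub, abs_neg, abs_one, add_zero]
      have e1 : (n p - 2) / (n p - 1) ^ 2 ≤ 1 / (n p - 1) := by
        rw [div_le_div_iff₀ (by positivity) h0]; nlinarith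
      have e2 : 0 ≤ 1 / (n p - 1) := by positivity
      have e3 : 3 / (n p - 1) = 3 * (1 / (n p - 1)) := by ring
      rw [e3]
      nlinarith [mul_nonneg e2 e2]
    · rw [ind_pos h, if_neg h, abs_of_nonneg (by linarith)]
      simp only [sub_self, abs_zero, zero_div, add_zero, mul_one]
      apply le_of_eq
      field_simp
      ring

theorem prod_mono_sub (hn : ∀ p ∈ P, 2 ≤ n p) {S r : Finset ι} (h : S ⊆ r) (hr : r ⊆ P) :
    ∏ p ∈ S, n p ≤ ∏ p ∈ r, n p :=
  prod_le_prod_of_subset_of_one_le h (fun p hp => by linarith [hn p (hr (h hp))])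
    (fun p hp _ => by linarith [hn p (hr hp)])

theorem lam_eq_zero (hn : ∀ p ∈ P, 2 ≤ n p) (a : Finset ι → ℝ) {R : ℝ}
    (hs : ∀ r ⊆ P, R < ∏ p ∈ r, n p → a r = 0) {S : Finset ι} (hS : R < ∏ p ∈ S, n p) :
    lam P n a S = 0 := by
  refine sum_eq_zero (fun r hr => ?_)
  rw [mem_powerset] at hr
  by_cases h : S ⊆ r
  · rw [hs r hr (hS.trans_le (prod_mono_sub hn h hr)), zero_mul]
  · obtain ⟨p, hp, hp'⟩ := not_subset.1 h
    rw [prod_eq_zero hp (by rw [ind_neg hp', mul_zero]), mul_zero]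

theorem prod_union_le (hn : ∀ p ∈ P, 2 ≤ n p) {S S' : Finset ι} (hS : S ⊆ P) (hS' : S' ⊆ P) :
    ∏ p ∈ S ∪ S', n p ≤ (∏ p ∈ S, n p) * ∏ p ∈ S', n p := by
  rw [← prod_union_inter]
  refine le_mul_of_one_le_right (prod_nonneg (fun p hp => ?_)) (one_le_prod_real (fun p hp => ?_))
  · linarith [hn p (union_subset hS hS' hp)]
  · linarith [hn p (hS (mem_inter.1 hp).1)]

theorem lam_mul_eq_zero (hn : ∀ p ∈ P, 2 ≤ n p) (a : Finset ι → ℝ) {R : ℝ} (hR : 0 ≤ R)
    (hs : ∀ r ⊆ P, R < ∏ p ∈ r, n p → a r = 0) {S S' : Finset ι} (hS : S ⊆ P) (hS' : S' ⊆ P)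
    (h : R ^ 2 < ∏ p ∈ S ∪ S', n p) : lam P n a S * lam P n a S' = 0 := by
  by_cases h1 : R < ∏ p ∈ S, n p
  · rw [lam_eq_zero hn a hs h1, zero_mul]
  by_cases h2 : R < ∏ p ∈ S', n p
  · rw [lam_eq_zero hn a hs h2, mul_zero]
  exfalso
  push Not at h1 h2
  have h3 := prod_union_le hn hS hS'
  have h4 : 0 ≤ ∏ p ∈ S', n p := prod_nonneg (fun p hp => by linarith [hn p (hS' hp)])
  have := mul_le_mul h1 h2 h4 hR
  nlinarith

theorem cc_eq_zero (hn : ∀ p ∈ P, 2 ≤ n p) (a : Finset ι → ℝ) {R : ℝ} (hR : 0 ≤ R)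
    (hs : ∀ r ⊆ P, R < ∏ p ∈ r, n p → a r = 0) {T : Finset ι} (hT : R ^ 2 < ∏ p ∈ T, n p) :
    cc P n a T = 0 := by
  refine sum_eq_zero (fun S hS => sum_eq_zero (fun S' hS' => ?_))
  rw [mem_powerset] at hS hS'
  by_cases h : T ⊆ S ∪ S'
  · rw [lam_mul_eq_zero hn a hR hs hS hS'
      (hT.trans_le (prod_mono_sub hn h (union_subset hS hS'))), zero_mul]
  · rw [ind_neg h, zero_div, mul_zero]

omit [DecidableEq ι] in
theorem prod_one_add_le (hn : ∀ p ∈ P, 2 ≤ n p) {R : ℝ} (hR : 1 < R)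
    (hH : ∑ p ∈ P, Real.log (n p) / n p ≤ Real.log R / 2) (k : ℕ) :
    ∏ p ∈ P, (1 + k / n p) ≤ R ^ k := by
  have h1 : ∏ p ∈ P, (1 + k / n p) ≤ ∏ p ∈ P, Real.exp (k / n p) := by
    refine prod_le_prod (fun p hp => ?_) (fun p _ => ?_)
    · have : 0 < n p := by linarith [hn p hp]
      positivity
    · linarith [Real.add_one_le_exp (k / n p)]
  refine h1.trans ?_
  rw [← Real.exp_sum]
  have h2 : ∑ p ∈ P, (k : ℝ) / n p ≤ k * Real.log R := by
    have h3 : ∑ p ∈ P, (k : ℝ) / n p ≤ ∑ p ∈ P, 2 * k * (Real.log (n p) / n p) := by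
      refine sum_le_sum (fun p hp => ?_)
      have h4 : 0 < n p := by linarith [hn p hp]
      have h5 : Real.log 2 ≤ Real.log (n p) := Real.log_le_log (by norm_num) (hn p hp)
      have h6 := Real.log_two_gt_d9
      rw [← mul_div_assoc]
      apply div_le_div_of_nonneg_right _ h4.le
      have : (0 : ℝ) ≤ k := Nat.cast_nonneg k
      nlinarith
    rw [← mul_sum] at h3
    have : (0 : ℝ) ≤ k := Nat.cast_nonneg k
    nlinarith
  refine (Real.exp_le_exp.2 h2).trans (le_of_eq ?_)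
  rw [← Real.log_pow, Real.exp_log (by positivity)]

theorem sum_abs_lam_le (hn : ∀ p ∈ P, 2 ≤ n p) (a : Finset ι → ℝ) {R : ℝ} (hR : 1 < R)
    (hH : ∑ p ∈ P, Real.log (n p) / n p ≤ Real.log R / 2)
    (ha : ∀ r ⊆ P, |a r| ≤ 1 / ∏ p ∈ r, (n p - 1))
    (hs : ∀ r ⊆ P, R < ∏ p ∈ r, n p → a r = 0) :
    ∑ S ∈ P.powerset, |lam P n a S| ≤ R ^ 4 := by
  have h1 : ∑ S ∈ P.powerset, |lam P n a S|
      ≤ ∑ S ∈ P.powerset, ∑ r ∈ P.powerset,
        |a r| * ∏ p ∈ P, (if p ∈ S then n p * ind (p ∈ r) else 1) := by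
    refine sum_le_sum (fun S hS => (abs_sum_le_sum_abs _ _).trans (le_of_eq ?_))
    rw [mem_powerset] at hS
    refine sum_congr rfl (fun r _ => ?_)
    rw [abs_mul, abs_prod, ← prod_sub_eq hS]
    congr 1
    refine prod_congr rfl (fun p hp => ?_)
    rw [abs_mul, abs_neg, abs_of_nonneg (by linarith [hn p (hS hp)]),
      abs_of_nonneg (ind_nonneg _)]
  refine h1.trans ?_
  rw [sum_comm]
  simp_rw [← mul_sum, sum_pow_prod]
  have h2 : ∀ r ∈ P.powerset, |a r| * ∏ p ∈ P, (n p * ind (p ∈ r) + 1)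
      ≤ R * ∏ p ∈ P, (if p ∈ r then 3 / n p else 1) := by
    intro r hr
    rw [mem_powerset] at hr
    have hpos : 0 < ∏ p ∈ r, n p := prod_pos (fun p hp => by linarith [hn p (hr hp)])
    by_cases h : R < ∏ p ∈ r, n p
    · rw [hs r hr h, abs_zero, zero_mul]
      refine mul_nonneg (by linarith) (prod_nonneg (fun p hp => ?_))
      have : 0 < n p := by linarith [hn p hp]
      split_ifs <;> positivity
    push Not at h
    have e1 : ∏ p ∈ P, (n p * ind (p ∈ r) + 1) = ∏ p ∈ r, (n p + 1) := by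
      rw [prod_sub_eq hr]
      refine prod_congr rfl (fun p _ => ?_)
      split_ifs with h3
      · rw [ind_pos h3, mul_one]
      · rw [ind_neg h3, mul_zero, zero_add]
    rw [e1, ← prod_sub_eq hr]
    have e2 : |a r| * ∏ p ∈ r, (n p + 1) ≤ ∏ p ∈ r, (3 : ℝ) := by
      refine (mul_le_mul_of_nonneg_right (ha r hr)
        (prod_nonneg (fun p hp => by linarith [hn p (hr hp)]))).trans ?_
      rw [one_div, inv_mul_eq_div, ← prod_div_distrib]
      refine prod_le_prod (fun p hp => ?_) (fun p hp => ?_)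
      · have := hn p (hr hp)
        exact div_nonneg (by linarith) (by linarith)
      · have := hn p (hr hp)
        rw [div_le_iff₀ (by linarith)]
        linarith
    refine e2.trans ?_
    rw [prod_div_distrib, mul_div_assoc', le_div_iff₀ hpos, mul_comm]
    exact mul_le_mul_of_nonneg_right h (by positivity)
  refine (sum_le_sum h2).trans ?_
  rw [← mul_sum, sum_pow_prod]
  have h3 := prod_one_add_le hn hR hH 3
  have e : ∏ p ∈ P, (3 / n p + 1) = ∏ p ∈ P, (1 + ((3 : ℕ) : ℝ) / n p) :=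
    prod_congr rfl (fun p _ => by push_cast; ring)
  rw [e, show R ^ 4 = R * R ^ 3 by ring]
  exact mul_le_mul_of_nonneg_left h3 (by linarith)

theorem transfer (hn : ∀ p ∈ P, 2 ≤ n p) (a : Finset ι → ℝ) {R : ℝ} (hR : 1 < R)
    (hH : ∑ p ∈ P, Real.log (n p) / n p ≤ Real.log R / 2)
    (ha : ∀ r ⊆ P, |a r| ≤ 1 / ∏ p ∈ r, (n p - 1))
    (hs : ∀ r ⊆ P, R < ∏ p ∈ r, n p → a r = 0) {α : Type*} (X : Finset α) (A : α → ι → Prop)
    (V E : ℝ) (hE : 0 ≤ E) (hX : ∀ U ⊆ P, ∏ p ∈ U, n p ≤ R ^ 2 →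
      |∑ x ∈ X, ind (∀ p ∈ U, A x p) - V / ∏ p ∈ U, n p| ≤ E) :
    |∑ x ∈ X, beta P n a (A x) ^ 2 - V * cc P n a ∅| ≤ E * R ^ 8 := by
  simp_rw [beta_sq]
  rw [sum_comm]
  simp_rw [sum_comm (s := X), ← mul_sum]
  unfold cc
  rw [mul_sum, ← sum_sub_distrib]
  simp_rw [mul_sum, ← sum_sub_distrib]
  have h1 : ∀ S ∈ P.powerset, ∀ S' ∈ P.powerset,
      |lam P n a S * lam P n a S' * ∑ x ∈ X, ind (∀ p ∈ S ∪ S', A x p)
        - V * (lam P n a S * lam P n a S' * (ind (∅ ⊆ S ∪ S') / ∏ p ∈ S ∪ S', n p))|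
      ≤ |lam P n a S| * |lam P n a S'| * E := by
    intro S hS S' hS'
    rw [mem_powerset] at hS hS'
    by_cases h : R ^ 2 < ∏ p ∈ S ∪ S', n p
    · rw [lam_mul_eq_zero hn a (by linarith) hs hS hS' h]
      simp only [zero_mul, mul_zero, sub_self, abs_zero]
      positivity
    push Not at h
    rw [ind_pos (empty_subset _)]
    have e : lam P n a S * lam P n a S' * ∑ x ∈ X, ind (∀ p ∈ S ∪ S', A x p)
        - V * (lam P n a S * lam P n a S' * (1 / ∏ p ∈ S ∪ S', n p))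
        = lam P n a S * lam P n a S' *
          (∑ x ∈ X, ind (∀ p ∈ S ∪ S', A x p) - V / ∏ p ∈ S ∪ S', n p) := by ring
    rw [e, abs_mul, abs_mul]
    exact mul_le_mul_of_nonneg_left (hX _ (union_subset hS hS') h) (by positivity)
  refine (abs_sum_le_sum_abs _ _).trans ?_
  refine (sum_le_sum (fun S hS => (abs_sum_le_sum_abs _ _).trans
    (sum_le_sum (fun S' hS' => ?_)))).trans (b := ∑ S ∈ P.powerset, ∑ S' ∈ P.powerset,
      |lam P n a S| * |lam P n a S'| * E) ?_
  · have := h1 S hS S' hS'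
    rwa [mul_sum] at this
  · simp_rw [← sum_mul]
    rw [← sum_mul_sum, mul_comm]
    have h2 := sum_abs_lam_le hn a hR hH ha hs
    have h3 : 0 ≤ ∑ S ∈ P.powerset, |lam P n a S| := sum_nonneg (fun _ _ => abs_nonneg _)
    apply mul_le_mul_of_nonneg_left _ hE
    calc _ ≤ R ^ 4 * R ^ 4 := mul_le_mul h2 h2 h3 (by positivity)
      _ = R ^ 8 := by ring

/-! The coefficients used. -/

variable (n)

/-- The cutoff. -/
noncomputable def FF (R : ℝ) (r : Finset ι) : ℝ :=
  max (1 - Real.log (∏ p ∈ r, n p) / Real.log R) 0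

variable (P)

/-- The normalisation. -/
noncomputable def GG (R : ℝ) : ℝ := ∑ r ∈ P.powerset, FF n R r / ∏ p ∈ r, (n p - 1)

/-- The coefficients. -/
noncomputable def sa (R : ℝ) (r : Finset ι) : ℝ :=
  FF n R r / (GG P n R * ∏ p ∈ r, (n p - 1))

variable {P n}

omit [DecidableEq ι] in
theorem FF_nonneg (R : ℝ) (r : Finset ι) : 0 ≤ FF n R r := le_max_right _ _

omit [DecidableEq ι] in
theorem FF_le_one (hn : ∀ p ∈ P, 2 ≤ n p) {R : ℝ} (hR : 1 < R) {r : Finset ι} (hr : r ⊆ P) :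
    FF n R r ≤ 1 := by
  refine max_le ?_ zero_le_one
  have h1 : 1 ≤ ∏ p ∈ r, n p := one_le_prod_real (fun p hp => by linarith [hn p (hr hp)])
  have := div_nonneg (Real.log_nonneg h1) (Real.log_pos hR).le
  linarith

omit [DecidableEq ι] in
theorem ph_pos (hn : ∀ p ∈ P, 2 ≤ n p) {r : Finset ι} (hr : r ⊆ P) : 0 < ∏ p ∈ r, (n p - 1) :=
  prod_pos (fun p hp => by linarith [hn p (hr hp)])

omit [DecidableEq ι] in
theorem one_le_GG (hn : ∀ p ∈ P, 2 ≤ n p) (R : ℝ) : 1 ≤ GG P n R := by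
  have := single_le_sum (f := fun r => FF n R r / ∏ p ∈ r, (n p - 1))
    (fun r hr => div_nonneg (FF_nonneg R r) (ph_pos hn (mem_powerset.1 hr)).le)
    (empty_mem_powerset P)
  have e : FF n R ∅ / ∏ p ∈ (∅ : Finset ι), (n p - 1) = 1 := by simp [FF]
  rw [e] at this
  exact this

theorem Ginf_le_GG (hn : ∀ p ∈ P, 2 ≤ n p) {R : ℝ} (hR : 1 < R)
    (hH : ∑ p ∈ P, Real.log (n p) / n p ≤ Real.log R / 2) : Ginf P n ≤ 2 * GG P n R := by
  have hL := Real.log_pos hR
  have h0 : ∑ r ∈ P.powerset, 1 / ∏ p ∈ r, (n p - 1) = Ginf P n := by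
    have := sum_pow_prod P (fun p => 1 / (n p - 1)) (fun _ => 1)
    unfold Ginf
    simp_rw [add_comm (1 : ℝ)]
    rw [← this]
    refine sum_congr rfl (fun r hr => ?_)
    rw [← prod_sub_eq (mem_powerset.1 hr), prod_div_distrib, prod_const_one]
  have h1 : ∀ q ∈ P, ∑ r ∈ P.powerset, ind (q ∈ r) / ∏ p ∈ r, (n p - 1) = Ginf P n / n q := by
    intro q hq
    have := sum_pow_prod P (fun p => 1 / (n p - 1)) (fun p => if p = q then 0 else 1)
    have e1 : ∏ p ∈ P, (1 / (n p - 1) + if p = q then 0 else 1) = Ginf P n / n q := by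
      unfold Ginf
      rw [← mul_prod_erase P _ hq, ← mul_prod_erase P _ hq, if_pos rfl]
      have h2 : n q - 1 ≠ 0 := by linarith [hn q hq]
      have h3 : n q ≠ 0 := by linarith [hn q hq]
      rw [prod_congr rfl (g := fun p => 1 + 1 / (n p - 1))
        (fun p hp => by rw [if_neg (ne_of_mem_erase hp), add_comm])]
      field_simp
      ring
    rw [← e1, ← this]
    refine sum_congr rfl (fun r hr => ?_)
    rw [mem_powerset] at hr
    by_cases h : q ∈ r
    · have e2 : 1 / ∏ p ∈ r, (n p - 1) = ∏ p ∈ r, 1 / (n p - 1) := by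
        rw [prod_div_distrib, prod_const_one]
      rw [ind_pos h, e2, prod_sub_eq hr]
      refine prod_congr rfl (fun p _ => ?_)
      split_ifs with h4 h5
      · rfl
      · exact (h4 (h5 ▸ h)).elim
      · rfl
    · rw [ind_neg h, zero_div]
      exact (prod_eq_zero hq (by simp [h])).symm
  have h2 : ∑ r ∈ P.powerset, Real.log (∏ p ∈ r, n p) / ∏ p ∈ r, (n p - 1)
      = Ginf P n * ∑ q ∈ P, Real.log (n q) / n q := by
    have : ∀ r ∈ P.powerset, Real.log (∏ p ∈ r, n p) / ∏ p ∈ r, (n p - 1)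
        = ∑ q ∈ P, Real.log (n q) * (ind (q ∈ r) / ∏ p ∈ r, (n p - 1)) := by
      intro r hr
      rw [mem_powerset] at hr
      rw [Real.log_prod (fun p hp => by linarith [hn p (hr hp)])]
      simp_rw [← mul_div_assoc]
      rw [← sum_div]
      congr 1
      rw [← sum_subset hr (fun q _ hq => by rw [ind_neg hq, mul_zero])]
      exact sum_congr rfl (fun q hq => by rw [ind_pos hq, mul_one])
    rw [sum_congr rfl this, sum_comm, mul_sum]
    refine sum_congr rfl (fun q hq => ?_)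
    rw [← mul_sum, h1 q hq]
    ring
  have h3 : Ginf P n - Ginf P n * (∑ q ∈ P, Real.log (n q) / n q) / Real.log R ≤ GG P n R := by
    rw [← h2, sum_div]
    nth_rewrite 1 [← h0]
    rw [← sum_sub_distrib]
    refine sum_le_sum (fun r hr => ?_)
    have hp := ph_pos hn (mem_powerset.1 hr)
    have : 1 / ∏ p ∈ r, (n p - 1) - (Real.log (∏ p ∈ r, n p) / ∏ p ∈ r, (n p - 1)) / Real.log R
        = (1 - Real.log (∏ p ∈ r, n p) / Real.log R) / ∏ p ∈ r, (n p - 1) := by
      field_simp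
    rw [this]
    exact div_le_div_of_nonneg_right (le_max_left _ _) hp.le
  have h4 : Ginf P n * (∑ q ∈ P, Real.log (n q) / n q) / Real.log R ≤ Ginf P n / 2 := by
    rw [div_le_iff₀ hL]
    have := one_le_Ginf hn
    nlinarith
  linarith

omit [DecidableEq ι] in
theorem sa_supp {R : ℝ} (hR : 1 < R) {r : Finset ι} (h : R < ∏ p ∈ r, n p) :
    sa P n R r = 0 := by
  have : FF n R r = 0 := by
    refine max_eq_right ?_
    have h1 := Real.log_lt_log (by linarith) h
    have h2 := Real.log_pos hR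
    rw [sub_nonpos, one_le_div h2]
    exact h1.le
  rw [sa, this, zero_div]

omit [DecidableEq ι] in
theorem abs_sa_le (hn : ∀ p ∈ P, 2 ≤ n p) {R : ℝ} (hR : 1 < R) {r : Finset ι} (hr : r ⊆ P) :
    |sa P n R r| ≤ (1 / GG P n R) / ∏ p ∈ r, (n p - 1) := by
  have h1 := one_le_GG hn R
  have h2 := ph_pos hn hr
  rw [sa, abs_of_nonneg (div_nonneg (FF_nonneg R r) (by positivity)), div_div]
  exact div_le_div_of_nonneg_right (FF_le_one hn hR hr) (by positivity)

omit [DecidableEq ι] in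
theorem abs_sa_le_one (hn : ∀ p ∈ P, 2 ≤ n p) {R : ℝ} (hR : 1 < R) {r : Finset ι} (hr : r ⊆ P) :
    |sa P n R r| ≤ 1 / ∏ p ∈ r, (n p - 1) := by
  refine (abs_sa_le hn hR hr).trans (div_le_div_of_nonneg_right ?_ (ph_pos hn hr).le)
  have h1 := one_le_GG hn R
  rw [div_le_one (by linarith)]
  exact h1

theorem abs_sa_le_two (hn : ∀ p ∈ P, 2 ≤ n p) {R : ℝ} (hR : 1 < R)
    (hH : ∑ p ∈ P, Real.log (n p) / n p ≤ Real.log R / 2) {r : Finset ι} (hr : r ⊆ P) :
    |sa P n R r| ≤ (2 / Ginf P n) / ∏ p ∈ r, (n p - 1) := by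
  refine (abs_sa_le hn hR hr).trans (div_le_div_of_nonneg_right ?_ (ph_pos hn hr).le)
  have h1 := one_le_GG hn R
  have h2 := one_le_Ginf hn
  rw [div_le_div_iff₀ (by linarith) (by linarith)]
  linarith [Ginf_le_GG hn hR hH]

theorem abs_cc_sa_le (hn : ∀ p ∈ P, 2 ≤ n p) {R : ℝ} (hR : 1 < R)
    (hH : ∑ p ∈ P, Real.log (n p) / n p ≤ Real.log R / 2) {T : Finset ι} (hT : T ⊆ P) :
    |cc P n (sa P n R) T| ≤ 4 / Ginf P n * ∏ p ∈ T, (3 / (n p - 1)) := by
  have h2 := one_le_Ginf hn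
  refine (abs_cc_le hn _ (fun r hr => abs_sa_le_two hn hR hH hr) hT).trans
    (le_of_eq ?_)
  congr 1
  field_simp
  norm_num

omit [DecidableEq ι] in
theorem beta_sa_rough (hn : ∀ p ∈ P, 2 ≤ n p) (R : ℝ) {A : ι → Prop} (hA : ∀ p ∈ P, ¬ A p) :
    beta P n (sa P n R) A = 1 := by
  have h1 := one_le_GG hn R
  unfold beta
  have : ∀ r ∈ P.powerset, sa P n R r * ∏ p ∈ r, (1 - n p * ind (A p))
      = (FF n R r / ∏ p ∈ r, (n p - 1)) / GG P n R := by
    intro r hr
    rw [prod_congr rfl (g := fun _ => 1) (fun p hp => by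
      rw [ind_neg (hA p (mem_powerset.1 hr hp))]; ring), prod_const_one, mul_one, sa, div_div,
      mul_comm]
  rw [sum_congr rfl this, ← sum_div]
  exact div_self (a := GG P n R) (by linarith)

variable (P n) in
/-- The coefficients after conditioning on one prime. -/
noncomputable def sb (R : ℝ) (q : ι) (r : Finset ι) : ℝ :=
  sa P n R r - (n q - 1) * sa P n R (insert q r)

theorem beta_erase (R : ℝ) {q : ι} (hq : q ∈ P) {A : ι → Prop} (hA : A q) :
    beta P n (sa P n R) A = beta (P.erase q) n (sb P n R q) A := by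
  unfold beta
  nth_rewrite 1 [← insert_erase hq]
  rw [sum_powerset_insert (notMem_erase q P), ← sum_add_distrib]
  refine sum_congr rfl (fun r hr => ?_)
  have hqr : q ∉ r := fun h => notMem_erase q P (mem_powerset.1 hr h)
  rw [prod_insert hqr, ind_pos hA, sb]
  ring

theorem sb_supp (hn : ∀ p ∈ P, 2 ≤ n p) {R : ℝ} (hR : 1 < R) {q : ι} (hq : q ∈ P)
    {r : Finset ι} (hr : r ⊆ P.erase q) (h : R < ∏ p ∈ r, n p) : sb P n R q r = 0 := by
  have h2 : R < ∏ p ∈ insert q r, n p :=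
    h.trans_le (prod_mono_sub hn (subset_insert q r)
      (insert_subset hq (hr.trans (erase_subset q P))))
  rw [sb, sa_supp hR h, sa_supp hR h2]
  ring

theorem abs_sb_le (hn : ∀ p ∈ P, 2 ≤ n p) {R : ℝ} (hR : 1 < R) {q : ι} (hq : q ∈ P)
    {r : Finset ι} (hr : r ⊆ P.erase q) :
    |sb P n R q r| ≤ (min (Real.log (n q) / Real.log R) 1 / GG P n R) / ∏ p ∈ r, (n p - 1) := by
  have hqr : q ∉ r := fun h => notMem_erase q P (hr h)
  have hrP := hr.trans (erase_subset q P)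
  have h1 := one_le_GG hn R
  have h2 := ph_pos hn hrP
  have h3 : n q - 1 ≠ 0 := by linarith [hn q hq]
  have hL := Real.log_pos hR
  have e : sb P n R q r = ((FF n R r - FF n R (insert q r)) / GG P n R) / ∏ p ∈ r, (n p - 1) := by
    rw [sb, sa, sa, prod_insert hqr]
    field_simp
  rw [e, abs_div, abs_div, abs_of_pos h2, abs_of_pos (show 0 < GG P n R by linarith)]
  apply div_le_div_of_nonneg_right _ h2.le
  apply div_le_div_of_nonneg_right _ (by linarith)
  refine le_min ?_ ?_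
  · unfold FF
    refine (abs_max_sub_max_le_abs _ _ _).trans (le_of_eq ?_)
    have h4 : 0 < ∏ p ∈ r, n p := prod_pos (fun p hp => by linarith [hn p (hrP hp)])
    have h5 : 0 ≤ Real.log (n q) := Real.log_nonneg (by linarith [hn q hq])
    rw [prod_insert hqr, Real.log_mul (by linarith [hn q hq]) h4.ne']
    rw [show 1 - Real.log (∏ p ∈ r, n p) / Real.log R
      - (1 - (Real.log (n q) + Real.log (∏ p ∈ r, n p)) / Real.log R)
      = Real.log (n q) / Real.log R by ring]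
    exact abs_of_nonneg (by positivity)
  · have a1 := FF_nonneg (n := n) R r
    have a2 := FF_nonneg (n := n) R (insert q r)
    have a3 := FF_le_one hn hR hrP
    have a4 := FF_le_one hn hR (insert_subset hq hrP)
    rw [abs_le]
    constructor <;> linarith

theorem abs_sb_le_one (hn : ∀ p ∈ P, 2 ≤ n p) {R : ℝ} (hR : 1 < R) {q : ι} (hq : q ∈ P)
    {r : Finset ι} (hr : r ⊆ P.erase q) : |sb P n R q r| ≤ 1 / ∏ p ∈ r, (n p - 1) := by
  refine (abs_sb_le hn hR hq hr).trans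
    (div_le_div_of_nonneg_right ?_ (ph_pos hn (hr.trans (erase_subset q P))).le)
  have h1 := one_le_GG hn R
  rw [div_le_one (by linarith)]
  exact (min_le_right _ _).trans h1

theorem abs_cc_sb_le (hn : ∀ p ∈ P, 2 ≤ n p) {R : ℝ} (hR : 1 < R)
    (hH : ∑ p ∈ P, Real.log (n p) / n p ≤ Real.log R / 2) {q : ι} (hq : q ∈ P) :
    |cc (P.erase q) n (sb P n R q) ∅| ≤ 4 / Ginf P n * (Real.log (n q) / Real.log R) ^ 2 := by
  have hn' : ∀ p ∈ P.erase q, 2 ≤ n p := fun p hp => hn p (mem_of_mem_erase hp)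
  have h1 := one_le_GG hn R
  have h2 := one_le_Ginf hn
  have h3 := Ginf_le_GG hn hR hH
  have hL := Real.log_pos hR
  have h5 : 0 ≤ Real.log (n q) := Real.log_nonneg (by linarith [hn q hq])
  have h := abs_cc_le hn' (sb P n R q) (κ := Real.log (n q) / Real.log R * (2 / Ginf P n))
    (fun r hr => (abs_sb_le hn hR hq hr).trans (div_le_div_of_nonneg_right (by
      rw [div_eq_mul_one_div]
      refine mul_le_mul (min_le_left _ _) ?_ (by positivity) (by positivity)
      rw [div_le_div_iff₀ (by linarith) (by linarith)]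
      linarith) (ph_pos hn' hr).le)) (empty_subset _)
  rw [prod_empty, mul_one] at h
  refine h.trans ?_
  refine (mul_le_mul_of_nonneg_left (Ginf_le_of_subset hn (erase_subset q P))
    (by positivity)).trans (le_of_eq ?_)
  field_simp
  norm_num

end cube

end Pool.Agent.Lib.MP_d48457_nt
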