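import Pool.Agent.Lib.MP_d48457_nt.Arith
import Pool.Agent.Lib.MP_d48457_nt.Cube

set_option autoImplicit false

namespace Pool.Agent.Lib.MP_d48457_nt

open QuadraticAlgebra Finset

namespace RQ

variable (F : RQ)

/-- A constant bounding the embeddings of small representatives. -/
noncomputable def c0 : ℝ := 1 + |(F.b : ℝ)| + F.δ

theorem one_le_c0 : 1 ≤ F.c0 := by
  have := F.δ_pos
  have := abs_nonneg (F.b : ℝ)
  unfold c0
  linarith

theorem exists_small_rep (n : ℕ) (hn : 0 < n) (z : F.O) :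
    ∃ t : F.O, (n : F.O) ∣ z - t ∧ |F.σ₁ t| ≤ F.c0 * n ∧ |F.σ₂ t| ≤ F.c0 * n := by
  have hn' : (0 : ℤ) < n := by exact_mod_cast hn
  refine ⟨⟨z.re % n, z.im % n⟩, ?_, ?_, ?_⟩
  · have := (F.natCast_dvd_iff (n := n) (z := z - ⟨z.re % n, z.im % n⟩)).2
      ⟨by simp [Int.dvd_self_sub_emod], by simp [Int.dvd_self_sub_emod]⟩
    simpa using this
  all_goals
    have h1 : (0 : ℝ) ≤ ((z.re % n : ℤ) : ℝ) := by exact_mod_cast Int.emod_nonneg _ hn'.ne'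
    have h2 : ((z.re % n : ℤ) : ℝ) ≤ n := by exact_mod_cast (Int.emod_lt_of_pos _ hn').le
    have h3 : (0 : ℝ) ≤ ((z.im % n : ℤ) : ℝ) := by exact_mod_cast Int.emod_nonneg _ hn'.ne'
    have h4 : ((z.im % n : ℤ) : ℝ) ≤ n := by exact_mod_cast (Int.emod_lt_of_pos _ hn').le
    have h5 := F.δ_pos
    have h6 := le_abs_self (F.b : ℝ)
    have h7 := neg_abs_le (F.b : ℝ)
    have h8 := abs_nonneg (F.b : ℝ)
    simp only [σ₁_apply, σ₂_apply, c0]
    rw [abs_le]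
    constructor <;> nlinarith

theorem sum_rim_le (f : F.O → ℝ) (hf : ∀ z, 0 ≤ f z) (a₁ a₂ b₁ b₂ ν : ℝ) :
    ∑ z ∈ F.box a₁ a₂ b₁ b₂, f z * ind (z ∉ F.box (a₁ + ν) (a₂ - ν) (b₁ + ν) (b₂ - ν))
      ≤ ∑ z ∈ F.box a₁ (a₁ + ν) b₁ b₂, f z + ∑ z ∈ F.box (a₂ - ν) a₂ b₁ b₂, f z
        + ∑ z ∈ F.box a₁ a₂ b₁ (b₁ + ν), f z + ∑ z ∈ F.box a₁ a₂ (b₂ - ν) b₂, f z := by
  classical
  have key : ∀ (c₁ c₂ d₁ d₂ : ℝ), ∑ z ∈ F.box a₁ a₂ b₁ b₂, f z * ind (z ∈ F.box c₁ c₂ d₁ d₂)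
      ≤ ∑ z ∈ F.box c₁ c₂ d₁ d₂, f z := by
    intro c₁ c₂ d₁ d₂
    rw [← sum_filter_add_sum_filter_not _ (· ∈ F.box c₁ c₂ d₁ d₂)]
    rw [sum_eq_zero (s := filter (fun z => ¬ z ∈ F.box c₁ c₂ d₁ d₂) _)
      (fun z hz => by rw [ind_neg (mem_filter.1 hz).2, mul_zero]), add_zero]
    rw [sum_congr rfl (g := f) (fun z hz => by rw [ind_pos (mem_filter.1 hz).2, mul_one])]
    exact sum_le_sum_of_subset_of_nonneg (fun z hz => (mem_filter.1 hz).2) (fun z _ _ => hf z)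
  refine le_trans ?_ (add_le_add (add_le_add (add_le_add (key _ _ _ _) (key _ _ _ _))
    (key _ _ _ _)) (key _ _ _ _))
  rw [← sum_add_distrib, ← sum_add_distrib, ← sum_add_distrib]
  refine sum_le_sum (fun z hz => ?_)
  rw [← mul_add, ← mul_add, ← mul_add]
  apply mul_le_mul_of_nonneg_left _ (hf z)
  obtain ⟨h1, h2, h3, h4⟩ := F.mem_box.1 hz
  have i1 := ind_nonneg (z ∈ F.box a₁ (a₁ + ν) b₁ b₂)
  have i2 := ind_nonneg (z ∈ F.box (a₂ - ν) a₂ b₁ b₂)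
  have i3 := ind_nonneg (z ∈ F.box a₁ a₂ b₁ (b₁ + ν))
  have i4 := ind_nonneg (z ∈ F.box a₁ a₂ (b₂ - ν) b₂)
  have i5 := ind_le_one (z ∉ F.box (a₁ + ν) (a₂ - ν) (b₁ + ν) (b₂ - ν))
  by_cases c1 : F.σ₁ z ≤ a₁ + ν
  · rw [ind_pos (F.mem_box.2 ⟨h1, c1, h3, h4⟩)]; linarith
  by_cases c2 : a₂ - ν ≤ F.σ₁ z
  · rw [ind_pos (F.mem_box.2 ⟨c2, h2, h3, h4⟩)]; linarith
  by_cases c3 : F.σ₂ z ≤ b₁ + ν
  · rw [ind_pos (F.mem_box.2 ⟨h1, h2, h3, c3⟩)]; linarith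
  by_cases c4 : b₂ - ν ≤ F.σ₂ z
  · rw [ind_pos (F.mem_box.2 ⟨h1, h2, c4, h4⟩)]; linarith
  rw [ind_neg (not_not.2 (F.mem_box.2 ⟨by linarith, by linarith, by linarith, by linarith⟩))]
  linarith

theorem card_box_rim {a₁ a₂ b₁ b₂ s μ : ℝ} (ha : a₁ ≤ a₂) (hb : b₁ ≤ b₂) (hs1 : a₂ - a₁ ≤ s)
    (hs2 : b₂ - b₁ ≤ s) (hμ : 0 ≤ μ) :
    ((F.box (a₁ - μ) (a₂ + μ) (b₁ - μ) (b₂ + μ)).card : ℝ)
      ≤ (F.box (a₁ + μ) (a₂ - μ) (b₁ + μ) (b₂ - μ)).card + 4 * (2 * μ + 2) * (s + 2 * μ + 2) := by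
  classical
  have h1 := F.sum_rim_le (fun _ => 1) (fun _ => zero_le_one) (a₁ - μ) (a₂ + μ) (b₁ - μ) (b₂ + μ)
    (2 * μ)
  simp only [one_mul, sum_const, nsmul_eq_mul, mul_one] at h1
  rw [show a₁ - μ + 2 * μ = a₁ + μ by ring, show a₂ + μ - 2 * μ = a₂ - μ by ring,
    show b₁ - μ + 2 * μ = b₁ + μ by ring, show b₂ + μ - 2 * μ = b₂ - μ by ring] at h1
  have h2 : ((F.box (a₁ - μ) (a₂ + μ) (b₁ - μ) (b₂ + μ)).card : ℝ)
      ≤ (F.box (a₁ + μ) (a₂ - μ) (b₁ + μ) (b₂ - μ)).card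
        + ∑ z ∈ F.box (a₁ - μ) (a₂ + μ) (b₁ - μ) (b₂ + μ),
          ind (z ∉ F.box (a₁ + μ) (a₂ - μ) (b₁ + μ) (b₂ - μ)) := by
    rw [sum_ind_eq_card]
    have := card_filter_add_card_filter_not (s := F.box (a₁ - μ) (a₂ + μ) (b₁ - μ) (b₂ + μ))
      (· ∈ F.box (a₁ + μ) (a₂ - μ) (b₁ + μ) (b₂ - μ))
    have h3 : (filter (· ∈ F.box (a₁ + μ) (a₂ - μ) (b₁ + μ) (b₂ - μ))
        (F.box (a₁ - μ) (a₂ + μ) (b₁ - μ) (b₂ + μ))).card
        ≤ (F.box (a₁ + μ) (a₂ - μ) (b₁ + μ) (b₂ - μ)).card :=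
      card_le_card (fun z hz => (mem_filter.1 hz).2)
    rw [← this]
    push_cast
    have h4 : ((filter (· ∈ F.box (a₁ + μ) (a₂ - μ) (b₁ + μ) (b₂ - μ))
        (F.box (a₁ - μ) (a₂ + μ) (b₁ - μ) (b₂ + μ))).card : ℝ)
        ≤ (F.box (a₁ + μ) (a₂ - μ) (b₁ + μ) (b₂ - μ)).card := by exact_mod_cast h3
    linarith
  have e1 := F.card_box_le (a₁ := a₁ - μ) (a₂ := a₁ + μ) (b₁ := b₁ - μ) (b₂ := b₂ + μ)
    (by linarith) (by linarith)
  have e2 := F.card_box_le (a₁ := a₂ - μ) (a₂ := a₂ + μ) (b₁ := b₁ - μ) (b₂ := b₂ + μ)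
    (by linarith) (by linarith)
  have e3 := F.card_box_le (a₁ := a₁ - μ) (a₂ := a₂ + μ) (b₁ := b₁ - μ) (b₂ := b₁ + μ)
    (by linarith) (by linarith)
  have e4 := F.card_box_le (a₁ := a₁ - μ) (a₂ := a₂ + μ) (b₁ := b₂ - μ) (b₂ := b₂ + μ)
    (by linarith) (by linarith)
  nlinarith

theorem count_sub (A : AddSubgroup F.O) (hA : A.index ≠ 0) {a₁ a₂ b₁ b₂ s : ℝ} (hs : 0 ≤ s)
    (hs1 : a₂ - a₁ ≤ s) (hs2 : b₂ - b₁ ≤ s) :
    |∑ z ∈ F.box a₁ a₂ b₁ b₂, ind (z ∈ A) - (F.box a₁ a₂ b₁ b₂).card / A.index|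
      ≤ 64 * F.c0 ^ 2 * (s + A.index) := by
  classical
  have hc := F.one_le_c0
  have hn1 : (1 : ℝ) ≤ A.index := by exact_mod_cast Nat.one_le_iff_ne_zero.2 hA
  rcases lt_or_ge a₂ a₁ with h | ha
  · rw [F.box_empty_left h]; simp; positivity
  rcases lt_or_ge b₂ b₁ with h | hb
  · rw [F.box_empty_right h]; simp; positivity
  have : A.FiniteIndex := ⟨hA⟩
  have : Fintype (F.O ⧸ A) := Fintype.ofFinite _
  set n := A.index with hn
  have hcard : Fintype.card (F.O ⧸ A) = n := by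
    rw [hn, AddSubgroup.index_eq_card, Nat.card_eq_fintype_card]
  set μ := F.c0 * n with hμ
  have hμ0 : 0 ≤ μ := by positivity
  have hrep : ∀ q : F.O ⧸ A, ∃ t : F.O, (t : F.O ⧸ A) = q ∧ |F.σ₁ t| ≤ μ ∧ |F.σ₂ t| ≤ μ := by
    intro q
    obtain ⟨z, rfl⟩ := QuotientAddGroup.mk_surjective q
    obtain ⟨t, ⟨v, hv⟩, h1, h2⟩ := F.exists_small_rep n (Nat.pos_of_ne_zero hA) z
    refine ⟨t, ?_, h1, h2⟩
    rw [QuotientAddGroup.eq]
    have := A.nsmul_index_mem v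
    rw [nsmul_eq_mul, ← hn, ← hv] at this
    rwa [neg_add_eq_sub]
  choose t ht ht1 ht2 using hrep
  set B := F.box a₁ a₂ b₁ b₂ with hB
  set Bp := F.box (a₁ - μ) (a₂ + μ) (b₁ - μ) (b₂ + μ) with hBp
  set Bm := F.box (a₁ + μ) (a₂ - μ) (b₁ + μ) (b₂ - μ) with hBm
  have hsum : ∀ X : Finset F.O, X.card = ∑ q : F.O ⧸ A, (X.filter (fun z : F.O =>
      (z : F.O ⧸ A) = q)).card := fun X => card_eq_sum_card_fiberwise (fun _ _ => mem_univ _)
  have hup : ∀ q : F.O ⧸ A, (B.filter (· ∈ A)).card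
      ≤ (Bp.filter (fun z : F.O => (z : F.O ⧸ A) = q)).card := by
    intro q
    refine card_le_card_of_injOn (fun z => z + t q) (fun z hz => ?_)
      (fun z _ w _ h => add_right_cancel h)
    obtain ⟨hz1, hz2⟩ := mem_filter.1 hz
    obtain ⟨h1, h2, h3, h4⟩ := F.mem_box.1 hz1
    have e1 := abs_le.1 (ht1 q)
    have e2 := abs_le.1 (ht2 q)
    refine mem_coe.2 (mem_filter.2 ⟨F.mem_box.2 ?_, ?_⟩)
    · simp only [map_add]
      refine ⟨by linarith, by linarith, by linarith, by linarith⟩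
    · rw [QuotientAddGroup.mk_add, ht, (QuotientAddGroup.eq_zero_iff z).2 hz2, zero_add]
  have hlo : ∀ q : F.O ⧸ A, (Bm.filter (fun z : F.O => (z : F.O ⧸ A) = q)).card
      ≤ (B.filter (· ∈ A)).card := by
    intro q
    refine card_le_card_of_injOn (fun z => z - t q) (fun z hz => ?_)
      (fun z _ w _ h => sub_left_injective h)
    obtain ⟨hz1, hz2⟩ := mem_filter.1 hz
    obtain ⟨h1, h2, h3, h4⟩ := F.mem_box.1 hz1
    have e1 := abs_le.1 (ht1 q)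
    have e2 := abs_le.1 (ht2 q)
    refine mem_coe.2 (mem_filter.2 ⟨F.mem_box.2 ?_, ?_⟩)
    · simp only [map_sub]
      refine ⟨by linarith, by linarith, by linarith, by linarith⟩
    · rw [← QuotientAddGroup.eq_zero_iff, QuotientAddGroup.mk_sub, ht, hz2, sub_self]
  have h1 : n * (B.filter (· ∈ A)).card ≤ Bp.card := by
    rw [hsum Bp, ← hcard]
    simpa using sum_le_sum (s := univ) (fun q _ => hup q)
  have h2 : Bm.card ≤ n * (B.filter (· ∈ A)).card := by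
    rw [hsum Bm, ← hcard]
    simpa using sum_le_sum (s := univ) (fun q _ => hlo q)
  have h3 : Bm.card ≤ B.card := card_le_card (fun z hz => by
    obtain ⟨h1, h2, h3, h4⟩ := F.mem_box.1 hz
    exact F.mem_box.2 ⟨by linarith, by linarith, by linarith, by linarith⟩)
  have h4 : B.card ≤ Bp.card := card_le_card (fun z hz => by
    obtain ⟨h1, h2, h3, h4⟩ := F.mem_box.1 hz
    exact F.mem_box.2 ⟨by linarith, by linarith, by linarith, by linarith⟩)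
  have h5 := F.card_box_rim ha hb hs1 hs2 hμ0
  rw [← hBp, ← hBm] at h5
  have h1' : (n : ℝ) * (B.filter (· ∈ A)).card ≤ Bp.card := by exact_mod_cast h1
  have h2' : (Bm.card : ℝ) ≤ n * (B.filter (· ∈ A)).card := by exact_mod_cast h2
  have h3' : (Bm.card : ℝ) ≤ B.card := by exact_mod_cast h3
  have h4' : (B.card : ℝ) ≤ Bp.card := by exact_mod_cast h4
  rw [sum_ind_eq_card]
  have h6 : 4 * (2 * μ + 2) * (s + 2 * μ + 2) ≤ n * (64 * F.c0 ^ 2 * (s + n)) := by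
    have e1 : 2 * μ + 2 ≤ 4 * μ := by nlinarith
    have e2 : s + 2 * μ + 2 ≤ 4 * F.c0 * (s + n) := by nlinarith
    calc _ ≤ 4 * (4 * μ) * (4 * F.c0 * (s + n)) := by gcongr
      _ = _ := by rw [hμ]; ring
  have hn0 : (0 : ℝ) < n := by linarith
  rw [show ((B.filter (· ∈ A)).card : ℝ) - B.card / n
    = (n * (B.filter (· ∈ A)).card - B.card) / n by field_simp, abs_div, abs_of_pos hn0,
    div_le_iff₀ hn0, abs_le]
  constructor <;> nlinarith

theorem mem_prod_mul_iff {U : Finset (Ideal F.O)} (hU : ∀ P ∈ U, Prime P) {c : Ideal F.O}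
    (hc : c ≠ ⊥) {w : F.O} (hw : w ∈ c) :
    (∀ P ∈ U, w ∈ P * c) ↔ w ∈ (∏ P ∈ U, P) * c := by
  obtain ⟨J, hJ⟩ := F.dvd_span_iff.2 hw
  simp_rw [← F.dvd_span_iff, hJ, mul_comm c J, mul_dvd_mul_iff_right hc]
  exact (F.prod_dvd_iff hU).symm

/-- The real norm of an ideal. -/
noncomputable def nrm (I : Ideal F.O) : ℝ := Ideal.absNorm I

theorem two_le_nrm {P' : Finset (Ideal F.O)} (h : ∀ P ∈ P', Prime P) :
    ∀ P ∈ P', 2 ≤ F.nrm P := fun P hP => by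
  unfold nrm
  exact_mod_cast F.two_le_absNorm (h P hP)

theorem index_inf (H : AddSubgroup F.O) {c d : Ideal F.O} (hc : c ≠ ⊥)
    (hH : H ≤ c.toAddSubgroup)
    (q : ℕ) (hq : ∀ w ∈ c, (q : F.O) * w ∈ H) (hcop : Nat.Coprime q (Ideal.absNorm d)) :
    (H ⊓ (d * c).toAddSubgroup).index = H.index * Ideal.absNorm d := by
  have h1 : H ⊔ (d * c).toAddSubgroup = c.toAddSubgroup := by
    refine le_antisymm (sup_le hH (fun w hw => Ideal.mul_le_right hw)) (fun w hw => ?_)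
    obtain ⟨s, t, hst⟩ := Nat.isCoprime_iff_coprime.2 hcop
    have e : w = s • ((q : F.O) * w) + ((t : F.O) * (Ideal.absNorm d : ℕ)) * w := by
      have := congrArg (fun x : ℤ => (x : F.O)) hst
      simp only [Int.cast_add, Int.cast_mul, Int.cast_natCast, Int.cast_one] at this
      rw [zsmul_eq_mul, ← mul_assoc, ← add_mul, this, one_mul]
    rw [e]
    refine AddSubgroup.add_mem_sup (H.zsmul_mem (hq w hw) s) ?_
    exact Ideal.mul_mem_mul (d.mul_mem_left _ (Ideal.absNorm_mem d)) hw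
  have h2 : (d * c).toAddSubgroup.relIndex c.toAddSubgroup = Ideal.absNorm d := by
    have := AddSubgroup.relIndex_mul_index (H := (d * c).toAddSubgroup) (K := c.toAddSubgroup)
      (fun w hw => Ideal.mul_le_right hw)
    rw [← Ideal.absNorm_eq_index, ← Ideal.absNorm_eq_index, map_mul] at this
    exact Nat.eq_of_mul_eq_mul_right (F.absNorm_pos hc) this
  rw [← AddSubgroup.relIndex_mul_index (H := H ⊓ (d * c).toAddSubgroup) (K := H) inf_le_left,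
    AddSubgroup.inf_relIndex_left, ← AddSubgroup.relIndex_sup_right, h1, h2, mul_comm]

theorem coprime_prod {U : Finset (Ideal F.O)} (hU : ∀ P ∈ U, Prime P) {q : ℕ}
    (h : ∀ P ∈ U, ¬ F.ell P ∣ q) : Nat.Coprime q (Ideal.absNorm (∏ P ∈ U, P)) := by
  rw [map_prod]
  refine Nat.Coprime.prod_right (fun P hP => ?_)
  refine Nat.Coprime.coprime_dvd_right (F.absNorm_dvd_ell_sq (hU P hP)) ?_
  exact Nat.Coprime.pow_right 2
    ((Nat.Prime.coprime_iff_not_dvd (F.ell_prime (hU P hP))).2 (h P hP)).symm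

theorem sieve_box {P' : Finset (Ideal F.O)} (hP : ∀ P ∈ P', Prime P) (a : Finset (Ideal F.O) → ℝ)
    {R : ℝ} (hR : 1 < R)
    (hH : ∑ P ∈ P', Real.log (F.nrm P) / F.nrm P ≤ Real.log R / 2)
    (ha : ∀ r ⊆ P', |a r| ≤ 1 / ∏ p ∈ r, (F.nrm p - 1))
    (hs : ∀ r ⊆ P', R < ∏ p ∈ r, F.nrm p → a r = 0)
    (H : AddSubgroup F.O) (hH0 : H.index ≠ 0) {c : Ideal F.O} (hc : c ≠ ⊥)
    (hHc : H ≤ c.toAddSubgroup)
    (hind : ∀ U ⊆ P', (H ⊓ ((∏ P ∈ U, P) * c).toAddSubgroup).index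
      = H.index * Ideal.absNorm (∏ P ∈ U, P))
    {a₁ a₂ b₁ b₂ s : ℝ} (hs0 : 0 ≤ s) (hs1 : a₂ - a₁ ≤ s) (hs2 : b₂ - b₁ ≤ s) :
    ∑ w ∈ F.box a₁ a₂ b₁ b₂, ind (w ∈ H) * beta P' F.nrm a (fun P => w ∈ P * c) ^ 2
      ≤ (F.box a₁ a₂ b₁ b₂).card / H.index * |cc P' F.nrm a ∅|
        + 64 * F.c0 ^ 2 * (s + H.index * R ^ 2) * R ^ 8 := by
  classical
  have hc0 := F.one_le_c0
  have key := transfer (F.two_le_nrm hP) a hR hH ha hs ((F.box a₁ a₂ b₁ b₂).filter (· ∈ H))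
    (fun w P => w ∈ P * c) ((F.box a₁ a₂ b₁ b₂).card / H.index)
    (64 * F.c0 ^ 2 * (s + H.index * R ^ 2)) (by positivity) (fun U hU hUR => by
      have hUp : ∀ P ∈ U, Prime P := fun P h => hP P (hU h)
      have e1 : ∏ P ∈ U, F.nrm P = (Ideal.absNorm (∏ P ∈ U, P) : ℝ) := by
        rw [map_prod]; push_cast; rfl
      have h0 : (H ⊓ ((∏ P ∈ U, P) * c).toAddSubgroup).index ≠ 0 := by
        rw [hind U hU]
        exact mul_ne_zero hH0 (F.absNorm_pos (F.prod_ne_bot hUp)).ne'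
      have h1 := F.count_sub _ h0 hs0 hs1 hs2
      rw [hind U hU] at h1
      push_cast at h1
      rw [← e1] at h1
      have e2 : ∑ x ∈ (F.box a₁ a₂ b₁ b₂).filter (· ∈ H), ind (∀ P ∈ U, x ∈ P * c)
          = ∑ z ∈ F.box a₁ a₂ b₁ b₂, ind (z ∈ H ⊓ ((∏ P ∈ U, P) * c).toAddSubgroup) := by
        rw [sum_filter]
        refine sum_congr rfl (fun z _ => ?_)
        split_ifs with hz
        · refine ind_congr ?_
          rw [F.mem_prod_mul_iff hUp hc (hHc hz), AddSubgroup.mem_inf]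
          exact ⟨fun h => ⟨hz, h⟩, fun h => h.2⟩
        · exact (ind_neg (fun h => hz h.1)).symm
      rw [e2, div_div]
      refine h1.trans ?_
      gcongr)
  have e3 : ∑ w ∈ F.box a₁ a₂ b₁ b₂, ind (w ∈ H) * beta P' F.nrm a (fun P => w ∈ P * c) ^ 2
      = ∑ w ∈ (F.box a₁ a₂ b₁ b₂).filter (· ∈ H), beta P' F.nrm a (fun P => w ∈ P * c) ^ 2 := by
    rw [sum_filter]
    refine sum_congr rfl (fun z _ => ?_)
    split_ifs with hz
    · rw [ind_pos hz, one_mul]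
    · rw [ind_neg hz, zero_mul]
  rw [e3]
  have h2 := (abs_le.1 key).2
  have h3 : ((F.box a₁ a₂ b₁ b₂).card : ℝ) / H.index * cc P' F.nrm a ∅
      ≤ (F.box a₁ a₂ b₁ b₂).card / H.index * |cc P' F.nrm a ∅| :=
    mul_le_mul_of_nonneg_left (le_abs_self _) (by positivity)
  linarith

/-- The Euler product over primes below `y`. -/
noncomputable def Gy (y : ℝ) : ℝ := Ginf (F.PP y) F.nrm

theorem one_le_Gy (y : ℝ) : 1 ≤ F.Gy y :=
  one_le_Ginf (F.two_le_nrm (fun _ h => F.PP_prime h))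

/-- The sieve majorant on the ideal `c`. -/
noncomputable def nu (y R : ℝ) (c : Ideal F.O) (w : F.O) : ℝ := by
  classical
  exact beta (F.PP y) F.nrm (sa (F.PP y) F.nrm R) (fun P => w ∈ P * c) ^ 2

theorem nu_nonneg (y R : ℝ) (c : Ideal F.O) (w : F.O) : 0 ≤ F.nu y R c w := sq_nonneg _

theorem nu_eq_one {y : ℝ} (R : ℝ) {c J : Ideal F.O} (hc : c ≠ ⊥) {w : F.O}
    (hw : Ideal.span {w} = J * c) (hJ : F.rough y J) : F.nu y R c w = 1 := by
  unfold nu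
  rw [beta_sa_rough (F.two_le_nrm (fun _ h => F.PP_prime h)), one_pow]
  intro P hP h
  rw [← F.dvd_span_iff, hw, mul_dvd_mul_iff_right hc] at h
  exact F.rough_iff.1 hJ P hP h

theorem hH_of_le {y R : ℝ} (hy : 2 ≤ y) (hR : y ^ 12 ≤ R) {P' : Finset (Ideal F.O)}
    (h : P' ⊆ F.PP y) :
    1 < R ∧ ∑ P ∈ P', Real.log (F.nrm P) / F.nrm P ≤ Real.log R / 2 := by
  have h1 : 1 < y ^ 12 := one_lt_pow₀ (by linarith) (by norm_num)
  refine ⟨by linarith, ?_⟩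
  have h2 := F.sum_log_div_le hy
  have h3 : Real.log (y ^ 12) ≤ Real.log R := Real.log_le_log (by linarith) hR
  rw [Real.log_pow] at h3
  push_cast at h3
  refine (sum_le_sum_of_subset_of_nonneg h (fun P _ _ => ?_)).trans (h2.trans (by linarith))
  exact div_nonneg (Real.log_natCast_nonneg _) (Nat.cast_nonneg _)

theorem sum_nu_le {y R : ℝ} (hy : 2 ≤ y) (hR : y ^ 12 ≤ R) {c : Ideal F.O} (hc : c ≠ ⊥)
    {a₁ a₂ b₁ b₂ s : ℝ} (hs0 : 0 ≤ s) (hs1 : a₂ - a₁ ≤ s) (hs2 : b₂ - b₁ ≤ s) :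
    ∑ w ∈ F.box a₁ a₂ b₁ b₂, ind (w ∈ c) * F.nu y R c w
      ≤ 4 * (F.box a₁ a₂ b₁ b₂).card / F.Gy y
        + 64 * F.c0 ^ 2 * (s + F.nrm c * R ^ 2) * R ^ 8 := by
  classical
  obtain ⟨hR1, hH⟩ := F.hH_of_le hy hR (subset_refl _)
  have hP : ∀ P ∈ F.PP y, Prime P := fun _ h => F.PP_prime h
  have hn := F.two_le_nrm hP
  have hc1 := F.absNorm_pos hc
  have key := F.sieve_box hP (sa (F.PP y) F.nrm R) hR1 hH (fun r hr => abs_sa_le_one hn hR1 hr)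
    (fun r _ h => sa_supp hR1 h) c.toAddSubgroup hc1.ne' hc le_rfl (fun U hU => by
      rw [inf_eq_right.2 (fun w hw => Ideal.mul_le_right hw), ← Ideal.absNorm_eq_index,
        ← Ideal.absNorm_eq_index, map_mul, mul_comm]) hs0 hs1 hs2
  refine key.trans (add_le_add ?_ le_rfl)
  have h1 := abs_cc_sa_le hn hR1 hH (empty_subset _)
  rw [prod_empty, mul_one] at h1
  have h2 : (1 : ℝ) ≤ c.toAddSubgroup.index := by exact_mod_cast hc1
  have h3 := F.one_le_Gy y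
  calc _ ≤ (F.box a₁ a₂ b₁ b₂).card * (4 / F.Gy y) :=
        mul_le_mul (div_le_self (Nat.cast_nonneg _) h2) h1 (abs_nonneg _) (Nat.cast_nonneg _)
    _ = _ := by ring

theorem count_rough_sub {y R : ℝ} (hy : 2 ≤ y) (hR : y ^ 12 ≤ R) {c : Ideal F.O} (hc : c ≠ ⊥)
    (H : AddSubgroup F.O) (hH0 : H.index ≠ 0) (hHc : H ≤ c.toAddSubgroup)
    {q : ℕ} (hq0 : q ≠ 0) (hq : ∀ w ∈ c, (q : F.O) * w ∈ H)
    {a₁ a₂ b₁ b₂ s : ℝ} (hs0 : 0 ≤ s) (hs1 : a₂ - a₁ ≤ s) (hs2 : b₂ - b₁ ≤ s) :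
    ∑ w ∈ F.box a₁ a₂ b₁ b₂, ind (w ∈ H ∧ ∀ P ∈ F.PP y, w ∉ P * c)
      ≤ 4 * 4 ^ q.primeFactors.card * (F.box a₁ a₂ b₁ b₂).card / (H.index * F.Gy y)
        + 64 * F.c0 ^ 2 * (s + H.index * R ^ 2) * R ^ 8 := by
  classical
  set P' := (F.PP y).filter (fun P => ¬ F.ell P ∣ q) with hP'
  have hsub : P' ⊆ F.PP y := filter_subset _ _
  obtain ⟨hR1, hH⟩ := F.hH_of_le hy hR hsub
  have hP : ∀ P ∈ P', Prime P := fun _ h => F.PP_prime (hsub h)
  have hn := F.two_le_nrm hP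
  have key := F.sieve_box hP (sa P' F.nrm R) hR1 hH (fun r hr => abs_sa_le_one hn hR1 hr)
    (fun r _ h => sa_supp hR1 h) H hH0 hc hHc (fun U hU => F.index_inf H hc hHc q hq
      (F.coprime_prod (fun P h => hP P (hU h)) (fun P h => (mem_filter.1 (hU h)).2))) hs0 hs1 hs2
  refine le_trans (sum_le_sum (fun w _ => ?_)) (key.trans (add_le_add ?_ le_rfl))
  · by_cases h : w ∈ H ∧ ∀ P ∈ F.PP y, w ∉ P * c
    · rw [ind_pos h, ind_pos h.1, beta_sa_rough hn R (fun P hP => h.2 P (hsub hP))]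
      norm_num
    · rw [ind_neg h]
      exact mul_nonneg (ind_nonneg _) (sq_nonneg _)
  · have h1 := abs_cc_sa_le hn hR1 hH (empty_subset _)
    rw [prod_empty, mul_one] at h1
    have h2 := Ginf_le_mul (F.two_le_nrm (fun _ h => F.PP_prime h)) hsub
    have h3 : (F.PP y \ P').card ≤ 2 * q.primeFactors.card := by
      refine card_le_mul_card_image_of_maps_to (f := F.ell) (fun P hP => ?_) 2 (fun l _ => ?_)
      · obtain ⟨h4, h5⟩ := mem_sdiff.1 hP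
        rw [hP', mem_filter, not_and, not_not] at h5
        exact Nat.mem_primeFactors.2 ⟨F.ell_prime (F.PP_prime h4), h5 h4, hq0⟩
      · exact F.fiber_card_le (l := l) (fun P hP =>
          ⟨F.PP_prime (mem_sdiff.1 (mem_filter.1 hP).1).1, (mem_filter.1 hP).2⟩)
    have h4 : (2 : ℝ) ^ (F.PP y \ P').card ≤ 4 ^ q.primeFactors.card := by
      rw [show (4 : ℝ) = 2 ^ 2 by norm_num, ← pow_mul]
      exact pow_le_pow_right₀ (by norm_num) h3
    have h5 := one_le_Ginf hn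
    have h6 := F.one_le_Gy y
    have h7 : F.Gy y ≤ 4 ^ q.primeFactors.card * Ginf P' F.nrm :=
      h2.trans (mul_le_mul_of_nonneg_right h4 (by linarith))
    have h8 : 4 / Ginf P' F.nrm ≤ 4 * 4 ^ q.primeFactors.card / F.Gy y := by
      rw [div_le_div_iff₀ (by linarith) (by linarith)]
      linarith
    calc _ ≤ (F.box a₁ a₂ b₁ b₂).card / H.index * (4 * 4 ^ q.primeFactors.card / F.Gy y) :=
          mul_le_mul_of_nonneg_left (h1.trans h8) (by positivity)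
      _ = _ := by ring

theorem fundamental {y R : ℝ} (hy : 2 ≤ y) (hR : y ^ 12 ≤ R)
    {a₁ a₂ b₁ b₂ s : ℝ} (hs0 : 0 ≤ s) (hs1 : a₂ - a₁ ≤ s) (hs2 : b₂ - b₁ ≤ s) :
    ∑ w ∈ F.box a₁ a₂ b₁ b₂, |F.nu y R ⊤ w - ind (F.rough y (Ideal.span {w}))|
      ≤ 48 * (F.box a₁ a₂ b₁ b₂).card / F.Gy y * (Real.log y / Real.log R) ^ 2
        + 2 * (y + 1) * (64 * F.c0 ^ 2 * (s + y ^ 2 * R ^ 2) * R ^ 8) := by
  classical
  have hP : ∀ P ∈ F.PP y, Prime P := fun _ h => F.PP_prime h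
  have hn := F.two_le_nrm hP
  obtain ⟨hR1, hH⟩ := F.hH_of_le hy hR (subset_refl _)
  have hL := Real.log_pos hR1
  have hc0 := F.one_le_c0
  have hG := F.one_le_Gy y
  have h1 : ∀ w : F.O, |F.nu y R ⊤ w - ind (F.rough y (Ideal.span {w}))|
      ≤ ∑ Q ∈ F.PP y, ind (w ∈ Q) * F.nu y R ⊤ w := by
    intro w
    have hnn : ∀ Q ∈ F.PP y, 0 ≤ ind (w ∈ Q) * F.nu y R ⊤ w :=
      fun Q _ => mul_nonneg (ind_nonneg _) (F.nu_nonneg _ _ _ _)
    by_cases h : F.rough y (Ideal.span {w})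
    · rw [ind_pos h, F.nu_eq_one R (J := Ideal.span {w}) top_ne_bot (by simp) h, sub_self, abs_zero]
      exact sum_nonneg (fun Q _ => mul_nonneg (ind_nonneg _) zero_le_one)
    · rw [ind_neg h, sub_zero, abs_of_nonneg (F.nu_nonneg _ _ _ _)]
      rw [F.rough_iff] at h
      push Not at h
      obtain ⟨Q, hQ, h⟩ := h
      refine le_trans (le_of_eq ?_) (single_le_sum hnn hQ)
      rw [ind_pos (F.dvd_span_iff.1 h), one_mul]
  refine (sum_le_sum (fun w _ => h1 w)).trans ?_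
  rw [sum_comm]
  have h2 : ∀ Q ∈ F.PP y, ∑ w ∈ F.box a₁ a₂ b₁ b₂, ind (w ∈ Q) * F.nu y R ⊤ w
      ≤ 8 * (F.box a₁ a₂ b₁ b₂).card / F.Gy y * (Real.log y / Real.log R ^ 2)
          * (Real.log (F.nrm Q) / F.nrm Q)
        + 64 * F.c0 ^ 2 * (s + y ^ 2 * R ^ 2) * R ^ 8 := by
    intro Q hQ
    have hQp := hP Q hQ
    have hsub : (F.PP y).erase Q ⊆ F.PP y := erase_subset _ _
    have hQ0 := F.absNorm_pos hQp.ne_zero
    have key := F.sieve_box (fun P h => hP P (hsub h)) (sb (F.PP y) F.nrm R Q) hR1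
      (F.hH_of_le hy hR hsub).2 (fun r hr => abs_sb_le_one hn hR1 hQ hr)
      (fun r hr h => sb_supp hn hR1 hQ hr h) Q.toAddSubgroup hQ0.ne' (c := ⊤) top_ne_bot le_top
      (fun U hU => by
        have hQU : Q ∉ U := fun h => notMem_erase Q _ (hU h)
        have hU' : ∀ P ∈ insert Q U, Prime P :=
          fun P h => hP P (insert_subset hQ (hU.trans hsub) h)
        have e : Q.toAddSubgroup ⊓ ((∏ P ∈ U, P) * ⊤).toAddSubgroup
            = (∏ P ∈ insert Q U, P).toAddSubgroup := by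
          ext w
          rw [AddSubgroup.mem_inf, Ideal.mul_top]
          simp only [Submodule.mem_toAddSubgroup]
          rw [← F.dvd_span_iff, ← F.dvd_span_iff, ← F.dvd_span_iff, F.prod_dvd_iff hU',
            F.prod_dvd_iff (fun P h => hU' P (mem_insert_of_mem h)), forall_mem_insert]
        rw [e, ← Ideal.absNorm_eq_index, ← Ideal.absNorm_eq_index, prod_insert hQU, map_mul])
      hs0 hs1 hs2
    have e1 : ∑ w ∈ F.box a₁ a₂ b₁ b₂, ind (w ∈ Q) * F.nu y R ⊤ w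
        = ∑ w ∈ F.box a₁ a₂ b₁ b₂, ind (w ∈ Q.toAddSubgroup) *
          beta ((F.PP y).erase Q) F.nrm (sb (F.PP y) F.nrm R Q) (fun P => w ∈ P * ⊤) ^ 2 := by
      refine sum_congr rfl (fun w _ => ?_)
      by_cases h : w ∈ Q
      · unfold nu
        rw [beta_erase R hQ (by simpa using h)]
        rfl
      · rw [ind_neg h, ind_neg (q := w ∈ Q.toAddSubgroup) h, zero_mul, zero_mul]
    rw [e1]
    refine key.trans (add_le_add ?_ ?_)
    · have h3 := abs_cc_sb_le hn hR1 hH hQ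
      have h4 : F.nrm Q ≤ y ^ 2 := by
        have h5 : F.nrm Q ≤ (F.ell Q : ℝ) ^ 2 := by
          unfold nrm; exact_mod_cast F.absNorm_le_ell_sq hQp
        exact h5.trans (pow_le_pow_left₀ (Nat.cast_nonneg _) (F.mem_PP.1 hQ).2.le 2)
      have h5 : Real.log (F.nrm Q) ≤ 2 * Real.log y := by
        have := Real.log_le_log (by linarith [hn Q hQ]) h4
        rw [Real.log_pow] at this
        exact_mod_cast this
      have h6 : 0 ≤ Real.log (F.nrm Q) := Real.log_nonneg (by linarith [hn Q hQ])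
      have h7 : (Q.toAddSubgroup.index : ℝ) = F.nrm Q := rfl
      have h8 : 0 < F.nrm Q := by linarith [hn Q hQ]
      rw [h7]
      calc _ ≤ (F.box a₁ a₂ b₁ b₂).card / F.nrm Q
            * (4 / F.Gy y * (Real.log (F.nrm Q) / Real.log R) ^ 2) :=
            mul_le_mul_of_nonneg_left h3 (by positivity)
        _ = (4 * (F.box a₁ a₂ b₁ b₂).card / F.Gy y / Real.log R ^ 2
            * (Real.log (F.nrm Q) / F.nrm Q)) * Real.log (F.nrm Q) := by ring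
        _ ≤ (4 * (F.box a₁ a₂ b₁ b₂).card / F.Gy y / Real.log R ^ 2
            * (Real.log (F.nrm Q) / F.nrm Q)) * (2 * Real.log y) :=
            mul_le_mul_of_nonneg_left h5 (by positivity)
        _ = _ := by ring
    · have h4 : (Q.toAddSubgroup.index : ℝ) ≤ y ^ 2 := by
        have h5 : (Ideal.absNorm Q : ℝ) ≤ (F.ell Q : ℝ) ^ 2 := by
          exact_mod_cast F.absNorm_le_ell_sq hQp
        exact h5.trans (pow_le_pow_left₀ (Nat.cast_nonneg _) (F.mem_PP.1 hQ).2.le 2)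
      gcongr
  refine (sum_le_sum h2).trans ?_
  rw [sum_add_distrib, ← mul_sum, sum_const, nsmul_eq_mul]
  have h3 : ∑ Q ∈ F.PP y, Real.log (F.nrm Q) / F.nrm Q ≤ 6 * Real.log y := F.sum_log_div_le hy
  have h4 := F.card_PP_le (y := y) (by linarith)
  have h5 : 0 ≤ Real.log y := Real.log_nonneg (by linarith)
  refine add_le_add ?_ (mul_le_mul_of_nonneg_right h4 (by positivity))
  refine (mul_le_mul_of_nonneg_left h3 (by positivity)).trans (le_of_eq (by ring))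

end RQ

end Pool.Agent.Lib.MP_d48457_nt
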