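import Pool.Agent.Lib.MP_d48457_nt.TypeI

set_option autoImplicit false

namespace Pool.Agent.Lib.MP_d48457_nt

open QuadraticAlgebra Finset

namespace RQ

variable (F : RQ)

theorem nrm_le_of_dvd {I J : Ideal F.O} (hI : I ≠ ⊥) (h : J ∣ I) : F.nrm J ≤ F.nrm I := by
  unfold nrm
  exact_mod_cast Nat.le_of_dvd (F.absNorm_pos hI) (map_dvd Ideal.absNorm h)

open Classical in
/-- Prime divisors. -/
noncomputable def pf (I : Ideal F.O) : Finset (Ideal F.O) :=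
  (F.idl (F.nrm I)).filter (fun P => Prime P ∧ P ∣ I)

theorem mem_pf {I P : Ideal F.O} (hI : I ≠ ⊥) : P ∈ F.pf I ↔ Prime P ∧ P ∣ I := by
  classical
  rw [pf, mem_filter, F.mem_idl]
  exact ⟨fun h => h.2, fun h => ⟨⟨h.1.ne_zero, F.nrm_le_of_dvd hI h.2⟩, h⟩⟩

open Classical in
theorem pf_mul {W P : Ideal F.O} (hW : W ≠ ⊥) (hP : Prime P) :
    F.pf (W * P) = insert P (F.pf W) := by
  ext P'
  rw [mem_insert, F.mem_pf hW, F.mem_pf (mul_ne_zero hW hP.ne_zero)]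
  constructor
  · rintro ⟨h1, h2⟩
    rcases h1.dvd_or_dvd h2 with h | h
    · exact Or.inr ⟨h1, h⟩
    · exact Or.inl (associated_iff_eq.1 (h1.associated_of_dvd hP h))
  · rintro (rfl | ⟨h1, h2⟩)
    · exact ⟨hP, dvd_mul_left _ _⟩
    · exact ⟨h1, h2.mul_right _⟩

/-- The weight of the identity. -/
noncomputable def wt (I : Ideal F.O) : ℝ := 1 / ((F.pf I).card + 1)

theorem wt_nonneg (I : Ideal F.O) : 0 ≤ F.wt I := by unfold wt; positivity

theorem abs_wt_le (I : Ideal F.O) : |F.wt I| ≤ 1 := by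
  rw [abs_of_nonneg (F.wt_nonneg I), wt, div_le_one (by positivity)]
  linarith [Nat.cast_nonneg (α := ℝ) (F.pf I).card]

open Classical in
/-- Prime variables. -/
noncomputable def PS (y t : ℝ) : Finset (Ideal F.O) :=
  (F.idl t).filter (fun P => Prime P ∧ F.rough y P ∧ Squarefree (Ideal.absNorm P))

open Classical in
/-- Cofactor variables. -/
noncomputable def WS (y t : ℝ) : Finset (Ideal F.O) :=
  (F.idl t).filter (fun W => W ≠ ⊤ ∧ F.rough y W ∧ Squarefree (Ideal.absNorm W))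

theorem mem_PS {y t : ℝ} {P : Ideal F.O} : P ∈ F.PS y t ↔
    (P ≠ ⊥ ∧ F.nrm P ≤ t) ∧ Prime P ∧ F.rough y P ∧ Squarefree (Ideal.absNorm P) := by
  classical
  rw [PS, mem_filter, F.mem_idl]

theorem mem_WS {y t : ℝ} {W : Ideal F.O} : W ∈ F.WS y t ↔
    (W ≠ ⊥ ∧ F.nrm W ≤ t) ∧ W ≠ ⊤ ∧ F.rough y W ∧ Squarefree (Ideal.absNorm W) := by
  classical
  rw [WS, mem_filter, F.mem_idl]

/-- The bilinear part. -/
noncomputable def hh (y t : ℝ) (I : Ideal F.O) : ℝ :=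
  ∑ P ∈ F.PS y t, ∑ W ∈ F.WS y t, F.wt W * ind (W * P = I)

theorem inner_eq {S : Finset (Ideal F.O)} (f : Ideal F.O → ℝ) {P W₀ : Ideal F.O} (hP : P ≠ ⊥) :
    ∑ W ∈ S, f W * ind (W * P = W₀ * P) = ind (W₀ ∈ S) * f W₀ := by
  have h : ∀ W, W ≠ W₀ → f W * ind (W * P = W₀ * P) = 0 := fun W hW => by
    rw [ind_neg (fun h => hW (mul_right_cancel₀ hP h)), mul_zero]
  by_cases h0 : W₀ ∈ S
  · rw [sum_eq_single_of_mem W₀ h0 (fun W _ hW => h W hW), ind_pos rfl, ind_pos h0, mul_comm]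
  · rw [ind_neg h0, zero_mul]
    exact sum_eq_zero (fun W hW => h W (fun h' => h0 (h' ▸ hW)))

theorem inner_zero {S : Finset (Ideal F.O)} (f : Ideal F.O → ℝ) {P I : Ideal F.O}
    (h : ∀ W ∈ S, W * P ≠ I) : ∑ W ∈ S, f W * ind (W * P = I) = 0 :=
  sum_eq_zero (fun W hW => by rw [ind_neg (h W hW), mul_zero])

theorem hh_nonneg (y t : ℝ) (I : Ideal F.O) : 0 ≤ F.hh y t I :=
  sum_nonneg (fun _ _ => sum_nonneg (fun W _ => mul_nonneg (F.wt_nonneg W) (ind_nonneg _)))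

theorem hh_le_one (y t : ℝ) {I : Ideal F.O} (hI : I ≠ ⊥) : F.hh y t I ≤ 1 := by
  classical
  have h1 : ∀ P ∈ F.PS y t, ∑ W ∈ F.WS y t, F.wt W * ind (W * P = I)
      ≤ ind (P ∈ F.pf I) * (1 / (F.pf I).card) := by
    intro P hP
    have hp := (F.mem_PS.1 hP).2.1
    by_cases h : P ∣ I
    · have hm := (F.mem_pf hI).2 ⟨hp, h⟩
      obtain ⟨W, rfl⟩ := h
      rw [mul_comm P W] at hI hm ⊢
      rw [F.inner_eq _ hp.ne_zero, ind_pos hm, one_mul]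
      refine (mul_le_of_le_one_left (F.wt_nonneg W) (ind_le_one _)).trans ?_
      have h2 : (0 : ℝ) < (F.pf (W * P)).card := by exact_mod_cast card_pos.2 ⟨P, hm⟩
      refine one_div_le_one_div_of_le h2 ?_
      rw [F.pf_mul (left_ne_zero_of_mul hI) hp]
      exact_mod_cast card_insert_le _ _
    · rw [F.inner_zero _ (fun W _ h' => h (by rw [← h']; exact dvd_mul_left _ _))]
      exact mul_nonneg (ind_nonneg _) (by positivity)
  refine (sum_le_sum h1).trans ?_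
  rw [← sum_mul]
  have h2 := sum_ind_le_of_subset (X := F.PS y t) (Y := F.pf I) (fun P => P ∈ F.pf I)
    (fun _ => True) (fun _ _ h => ⟨h, trivial⟩)
  simp only [ind_pos, sum_const, nsmul_eq_mul, mul_one] at h2
  calc _ ≤ ((F.pf I).card : ℝ) * (1 / (F.pf I).card) := by gcongr
    _ ≤ 1 := by rw [mul_one_div]; exact div_self_le_one _

theorem prime_norm_of {P : Ideal F.O} (hP : Prime P) (hs : Squarefree (Ideal.absNorm P)) :
    (Ideal.absNorm P).Prime := by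
  have h1 := F.absNorm_dvd_ell_sq hP
  have h2 := (hs.dvd_pow_iff_dvd (by norm_num)).1 h1
  rw [Nat.dvd_antisymm h2 (F.ell_dvd hP)]
  exact F.ell_prime hP

theorem ramare {y t : ℝ} {I : Ideal F.O} (hI : I ≠ ⊥) (hI1 : I ≠ ⊤) (h1 : y ≤ F.nrm I)
    (h2 : F.nrm I ≤ t) :
    |ind (F.rough y I) - ind (Ideal.absNorm I).Prime - F.hh y t I|
      ≤ ind (F.rough y I ∧ ¬ Squarefree (Ideal.absNorm I)) := by
  classical
  by_cases hr : F.rough y I
  swap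
  · have a1 : ¬ (Ideal.absNorm I).Prime := fun h => hr (fun l hl hd => by
      rw [(Nat.prime_dvd_prime_iff_eq hl h).1 hd]; exact h1)
    have a2 : F.hh y t I = 0 := sum_eq_zero (fun P hP => F.inner_zero _ (fun W hW h =>
      hr (h ▸ (F.mem_WS.1 hW).2.2.1.mul (F.mem_PS.1 hP).2.2.1)))
    rw [ind_neg hr, ind_neg a1, a2]
    simpa using ind_nonneg _
  by_cases hs : Squarefree (Ideal.absNorm I)
  swap
  · rw [ind_pos hr, ind_neg (q := (Ideal.absNorm I).Prime) (fun h => hs h.prime.squarefree),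
      ind_pos ⟨hr, hs⟩, sub_zero,
      abs_le]
    have := F.hh_nonneg y t I
    have := F.hh_le_one y t hI
    constructor <;> linarith
  rw [ind_pos hr, ind_neg (q := _ ∧ ¬ Squarefree (Ideal.absNorm I)) (fun h => h.2 hs)]
  by_cases hp : (Ideal.absNorm I).Prime
  · have a2 : F.hh y t I = 0 := sum_eq_zero (fun P hP => F.inner_zero _ (fun W hW h => by
      rw [← h, map_mul] at hp
      rcases (Nat.prime_mul_iff.1 hp) with h' | h'
      · have := F.two_le_absNorm (F.mem_PS.1 hP).2.1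
        omega
      · exact (F.mem_WS.1 hW).2.1 (Ideal.absNorm_eq_one_iff.1 h'.2)))
    rw [ind_pos hp, a2]; simp
  have hne : (F.pf I).Nonempty := by
    have : Ideal.absNorm I ≠ 1 := fun h => hI1 (Ideal.absNorm_eq_one_iff.1 h)
    obtain ⟨P, a1, -, a2⟩ := F.exists_prime_dvd (Nat.minFac_prime this) (Nat.minFac_dvd _)
    exact ⟨P, (F.mem_pf hI).2 ⟨a1, a2⟩⟩
  have a2 : F.hh y t I = ∑ P ∈ F.pf I, (1 / (F.pf I).card : ℝ) := by
    symm
    refine sum_subset_zero_on_sdiff (fun P hP => ?_) (fun P hP => ?_) (fun P hP => ?_)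
    · obtain ⟨b1, b2⟩ := (F.mem_pf hI).1 hP
      exact F.mem_PS.2 ⟨⟨b1.ne_zero, (F.nrm_le_of_dvd hI b2).trans h2⟩, b1, hr.of_dvd b2,
        hs.squarefree_of_dvd (map_dvd Ideal.absNorm b2)⟩
    · obtain ⟨b1, b2⟩ := mem_sdiff.1 hP
      exact F.inner_zero _ (fun W _ h => b2 ((F.mem_pf hI).2
        ⟨(F.mem_PS.1 b1).2.1, h ▸ dvd_mul_left _ _⟩))
    · obtain ⟨b1, W, rfl⟩ := (F.mem_pf hI).1 hP
      rw [mul_comm P W] at hI hr hs hp h2 ⊢
      have hW := left_ne_zero_of_mul hI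
      have hd : W ∣ W * P := dvd_mul_right _ _
      rw [F.inner_eq _ b1.ne_zero, ind_pos (F.mem_WS.2 ⟨⟨hW, (F.nrm_le_of_dvd hI hd).trans h2⟩,
        ?_, hr.of_dvd hd, hs.squarefree_of_dvd (map_dvd Ideal.absNorm hd)⟩), one_mul, wt,
        F.pf_mul hW b1, card_insert_of_notMem]
      · push_cast; rfl
      · intro h
        have b2 := map_dvd Ideal.absNorm ((F.mem_pf hW).1 h).2
        have b3 := hs (Ideal.absNorm P) (by rw [map_mul]; exact mul_dvd_mul_right b2 _)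
        have := F.two_le_absNorm b1
        rw [Nat.isUnit_iff] at b3
        omega
      · rintro rfl
        rw [Ideal.top_mul] at hs hp
        exact hp (F.prime_norm_of b1 hs)
  have h0 : (0 : ℝ) < (F.pf I).card := by exact_mod_cast card_pos.2 hne
  rw [a2, ind_neg hp, sum_const, nsmul_eq_mul, mul_one_div, div_self h0.ne']
  simp

theorem le_nrm_of_rough {y : ℝ} {I : Ideal F.O} (hI : I ≠ ⊥) (hI1 : I ≠ ⊤) (hr : F.rough y I) :
    y ≤ F.nrm I := by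
  have : Ideal.absNorm I ≠ 1 := fun h => hI1 (Ideal.absNorm_eq_one_iff.1 h)
  refine (hr _ (Nat.minFac_prime this) (Nat.minFac_dvd _)).trans ?_
  unfold nrm
  exact_mod_cast Nat.minFac_le (F.absNorm_pos hI)

theorem nrm_Om {K : ℝ} (hK : 0 < K) {z : F.O} (hz : z ∈ F.Om K) :
    K ^ 2 ≤ F.nrm (Ideal.span {z}) ∧ F.nrm (Ideal.span {z}) ≤ 16 * K ^ 2 := by
  obtain ⟨h1, h2, h3, h4⟩ := F.Om_bounds hK hz
  rw [F.nrm_span]
  constructor
  · rw [sq]; gcongr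
  · calc _ ≤ (4 * K) * (4 * K) := by gcongr
      _ = _ := by ring

theorem sum_ind_span_le {K : ℝ} (hK : 0 < K) (I : Ideal F.O) :
    ∑ z ∈ F.Om K, ind (I = Ideal.span {z}) ≤ 100 * ind (F.nrm I ≤ 16 * K ^ 2) := by
  classical
  by_cases h : F.nrm I ≤ 16 * K ^ 2
  · rw [sum_ind_eq_card, ind_pos h]
    refine (F.card_assoc_le 4 (by norm_num) K hK I _ (fun z hz => ?_)).trans (by norm_num)
    exact ⟨(mem_filter.1 hz).2.symm, F.Om_bounds hK (mem_filter.1 hz).1⟩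
  · rw [ind_neg h, mul_zero]
    exact (sum_eq_zero (fun z hz => ind_neg (q := I = _) (fun h' => h (by
      rw [h']; exact (F.nrm_Om hK hz).2)))).le

theorem abs_Phi_le {K : ℝ} (hK : 0 < K) {g : ℤ → ℝ} (hg : ∀ k, |g k| ≤ 1) (I : Ideal F.O) :
    |F.Phi K g I| ≤ 100 * ind (F.nrm I ≤ 16 * K ^ 2) := by
  refine (abs_sum_le_sum_abs _ _).trans (le_trans (sum_le_sum (fun z _ => ?_))
    (F.sum_ind_span_le hK I))
  rw [abs_mul, abs_of_nonneg (ind_nonneg _)]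
  exact mul_le_of_le_one_right (ind_nonneg _) (hg _)

theorem sum_Om_le {K : ℝ} (hK : 0 < K) (φ : Ideal F.O → ℝ) (hφ : ∀ I, 0 ≤ φ I) :
    ∑ z ∈ F.Om K, φ (Ideal.span {z}) ≤ 100 * ∑ I ∈ F.idl (16 * K ^ 2), φ I := by
  have h1 : ∀ z ∈ F.Om K, φ (Ideal.span {z})
      = ∑ I ∈ F.idl (16 * K ^ 2), φ I * ind (I = Ideal.span {z}) := by
    intro z hz
    obtain ⟨a1, a2⟩ := F.nrm_Om hK hz
    rw [sum_eq_single_of_mem (Ideal.span {z}) (F.mem_idl.2 ⟨fun h => ?_, a2⟩)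
      (fun I _ h => by rw [ind_neg h, mul_zero]), ind_pos rfl, mul_one]
    rw [h, nrm, Ideal.absNorm_bot, Nat.cast_zero] at a1
    nlinarith
  rw [sum_congr rfl h1, sum_comm, mul_sum]
  refine sum_le_sum (fun I _ => ?_)
  rw [← mul_sum, mul_comm]
  exact mul_le_mul_of_nonneg_right ((F.sum_ind_span_le hK I).trans
    (mul_le_of_le_one_right (by norm_num) (ind_le_one _))) (hφ I)

theorem count_rough' : ∃ C : ℝ, 0 < C ∧ ∀ {y R t : ℝ}, 2 ≤ y → y ^ 12 ≤ R → R ^ 20 ≤ t →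
    ∀ {A : Finset (Ideal F.O)}, (∀ I ∈ A, I ≠ ⊥ ∧ F.rough y I) →
    ∑ I ∈ A, ind (F.nrm I ≤ t) ≤ C * (t / F.Gy y) := by
  obtain ⟨C, hC, h⟩ := F.count_rough_idl
  refine ⟨3 * C, by positivity, ?_⟩
  intro y R t hy hR ht A hA
  have hR1 : 1 < R := (F.hH_of_le hy hR (empty_subset _)).1
  have hG := F.one_le_Gy y
  have hG2 := F.Gy_le hy hR
  have ht1 : 1 ≤ t := (one_le_pow₀ hR1.le).trans ht
  refine (sum_ind_le_of_subset _ _ (fun I hI h' => ⟨F.mem_idl.2 ⟨(hA I hI).1, h'⟩,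
    (hA I hI).2⟩)).trans ((h y R t hy hR ht1).trans ?_)
  have h1 : R ^ 10 ≤ √t := Real.le_sqrt_of_sq_le (by rw [← pow_mul]; exact ht)
  have h2 : R ^ 2 ≤ √t := (pow_le_pow_right₀ hR1.le (by norm_num)).trans h1
  have h3 : R ^ 8 ≤ √t / F.Gy y := by
    rw [le_div_iff₀ (by linarith)]
    calc _ ≤ R ^ 8 * R ^ 2 := by gcongr
      _ = R ^ 10 := by ring
      _ ≤ _ := h1
  calc _ ≤ C * (t / F.Gy y + (2 * √t) * (√t / F.Gy y)) := by gcongr; linarith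
    _ = C * (t / F.Gy y + 2 * (√t * √t) / F.Gy y) := by ring
    _ = _ := by rw [Real.mul_self_sqrt (by linarith)]; ring

theorem mid_le : ∃ C : ℝ, 0 < C ∧ ∀ {y R L t : ℝ}, 2 ≤ y → y ^ 12 ≤ R → R ^ 20 ≤ L → L ^ 2 ≤ t →
    ∀ {A B : Finset (Ideal F.O)}, (∀ I ∈ A, F.rough y I ∧ L ≤ F.nrm I) →
    (∀ I ∈ B, F.rough y I ∧ L ≤ F.nrm I) →
    ∑ P ∈ A, ∑ W ∈ B, ind (F.nrm (W * P) ≤ t)
      ≤ C * (Real.log (t / L ^ 2) + 1) * (t / F.Gy y ^ 2) := by
  classical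
  obtain ⟨C, hC, h⟩ := F.count_rough'
  refine ⟨4 * C ^ 2, by positivity, ?_⟩
  intro y R L t hy hR hL ht A B hA hB
  have hR1 : 1 < R := (F.hH_of_le hy hR (empty_subset _)).1
  have hG := F.one_le_Gy y
  have hL1 : 1 ≤ L := (one_le_pow₀ hR1.le).trans hL
  have ht0 : 0 < t := lt_of_lt_of_le (by positivity) ht
  have hne : ∀ I : Ideal F.O, L ≤ F.nrm I → I ≠ ⊥ := by
    rintro I hI rfl
    rw [nrm, Ideal.absNorm_bot, Nat.cast_zero] at hI
    linarith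
  have hx : 1 ≤ t / L ^ 2 := (one_le_div (by positivity)).2 ht
  have hlog := Real.log_nonneg hx
  set J₀ := ⌊2 * Real.log (t / L ^ 2)⌋₊ + 1 with hJ₀
  let j : Ideal F.O → ℕ := fun P => Nat.log 2 ⌊F.nrm P / L⌋₊
  have hlo : ∀ P ∈ A, (2 : ℝ) ^ j P * L ≤ F.nrm P := by
    intro P hP
    have h1 : 1 ≤ F.nrm P / L := (one_le_div (by linarith)).2 (hA P hP).2
    have h2 : ((2 ^ j P : ℕ) : ℝ) ≤ ⌊F.nrm P / L⌋₊ := by
      exact_mod_cast Nat.pow_log_le_self 2 (Nat.floor_pos.2 h1).ne'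
    rw [← le_div_iff₀ (by linarith)]
    push_cast at h2
    exact h2.trans (Nat.floor_le (by linarith))
  have hhi : ∀ P, F.nrm P ≤ 2 * ((2 : ℝ) ^ j P * L) := by
    intro P
    have h1 : ⌊F.nrm P / L⌋₊ + 1 ≤ 2 ^ (j P + 1) := Nat.lt_pow_succ_log_self (by norm_num) _
    have h2 : (⌊F.nrm P / L⌋₊ : ℝ) + 1 ≤ 2 ^ (j P + 1) := by exact_mod_cast h1
    have h3 := (Nat.lt_floor_add_one (F.nrm P / L)).le.trans h2
    rw [div_le_iff₀ (by linarith), pow_succ] at h3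
    linarith
  have h1 : ∀ P ∈ A, ∑ W ∈ B, ind (F.nrm (W * P) ≤ t) ≤ ∑ i ∈ range J₀,
      ind (F.nrm P ≤ 2 * ((2 : ℝ) ^ i * L)) * (C * (t / (2 ^ i * L) / F.Gy y)) := by
    intro P hP
    have hpos : ∀ i ∈ range J₀, 0 ≤ ind (F.nrm P ≤ 2 * ((2 : ℝ) ^ i * L)) *
        (C * (t / (2 ^ i * L) / F.Gy y)) := fun i _ => mul_nonneg (ind_nonneg _) (by positivity)
    by_cases h2 : L ≤ t / (2 ^ j P * L)
    · have hj : j P ∈ range J₀ := by
        refine mem_range.2 (Nat.lt_succ_of_le (Nat.le_floor ?_))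
        have h3 : (2 : ℝ) ^ j P ≤ t / L ^ 2 := by
          rw [le_div_iff₀ (by positivity)] at h2 ⊢
          nlinarith
        have h4 := Real.log_le_log (by positivity) h3
        rw [Real.log_pow] at h4
        have h5 : (0 : ℝ) ≤ j P := Nat.cast_nonneg _
        nlinarith [Real.log_two_gt_d9]
      refine le_trans ?_ (single_le_sum hpos hj)
      rw [ind_pos (hhi P), one_mul]
      refine le_trans (sum_le_sum (fun W _ => ind_mono (fun h3 => ?_)))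
        (h hy hR (hL.trans h2) (A := B) (fun I hI => ⟨hne I (hB I hI).2, (hB I hI).1⟩))
      rw [le_div_iff₀ (by positivity)]
      rw [F.nrm_mul] at h3
      exact (mul_le_mul_of_nonneg_left (hlo P hP) (F.nrm_nonneg W)).trans h3
    · refine le_trans (sum_eq_zero (fun W hW => ind_neg (fun h3 => h2 ?_))).le (sum_nonneg hpos)
      rw [le_div_iff₀ (by positivity)]
      rw [F.nrm_mul] at h3
      exact (mul_le_mul (hB W hW).2 (hlo P hP) (by positivity) (F.nrm_nonneg W)).trans h3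
  refine (sum_le_sum h1).trans ?_
  rw [sum_comm]
  refine (sum_le_card_nsmul _ _ (2 * C ^ 2 * (t / F.Gy y ^ 2)) (fun i _ => ?_)).trans ?_
  · rw [← sum_mul]
    have h2 : R ^ 20 ≤ 2 * ((2 : ℝ) ^ i * L) := by
      have := one_le_pow₀ (n := i) (show (1 : ℝ) ≤ 2 by norm_num)
      nlinarith
    have h3 := h hy hR h2 (A := A) (fun I hI => ⟨hne I (hA I hI).2, (hA I hI).1⟩)
    calc _ ≤ C * (2 * ((2 : ℝ) ^ i * L) / F.Gy y) * (C * (t / (2 ^ i * L) / F.Gy y)) := by gcongr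
      _ = _ := by field_simp
  · rw [card_range, nsmul_eq_mul]
    have h1 : (J₀ : ℝ) ≤ 2 * (Real.log (t / L ^ 2) + 1) := by
      have := Nat.floor_le (show 0 ≤ 2 * Real.log (t / L ^ 2) by linarith)
      rw [hJ₀]; push_cast; linarith
    calc _ ≤ 2 * (Real.log (t / L ^ 2) + 1) * (2 * C ^ 2 * (t / F.Gy y ^ 2)) := by gcongr
      _ = _ := by ring

theorem hh_bound : ∃ C : ℝ, 0 < C ∧ ∀ {y R y₀ R₀ K : ℝ}, 2 ≤ y → y ^ 12 ≤ R → F.EE ≤ R →
    Real.log K ≤ R → 2 * R ^ 100 ≤ y₀ → y₀ ^ 12 ≤ R₀ → R₀ ^ 20 * R ^ 100 ≤ K →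
    ∀ {g : ℤ → ℝ}, (∀ k, |g k| ≤ 1) → ∀ {Q θ : ℝ}, 1 ≤ Q →
    Unif Q θ g → ∀ {m J : ℕ}, 1 ≤ m → (m : ℝ) ≤ R → 1 ≤ J → (J : ℝ) ≤ R →
    |∑ z ∈ F.Om K, F.hh y₀ (16 * K ^ 2) (Ideal.span {z}) * g z.im|
      ≤ C * (Real.log K * (K ^ 2 / F.Gy y ^ 2) * √(sm m J Q (θ / K) R)
        + Real.log R * (K ^ 2 / F.Gy y₀ ^ 2)) := by
  classical
  obtain ⟨C₁, hC₁, h₁⟩ := F.typeII_all
  obtain ⟨C₂, hC₂, h₂⟩ := F.mid_le
  refine ⟨2 * C₁ + 10 ^ 6 * C₂, by positivity, ?_⟩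
  intro y R y₀ R₀ K hy hR hER hlog hy₀ hR₀ hK g hg Q θ hQ hU m J hm hmR hJ hJR
  have hR1 : 1 < R := (F.hH_of_le hy hR (empty_subset _)).1
  have hR4 : 4 ≤ R := le_trans (le_trans (by norm_num) (pow_le_pow_left₀ (by norm_num) hy 12)) hR
  have hRp : R ≤ R ^ 100 := le_self_pow₀ hR1.le (by norm_num)
  have hyy : y ≤ y₀ := by
    have := (le_self_pow₀ (by linarith : 1 ≤ y) (by norm_num)).trans hR
    linarith
  have hy2 : 2 ≤ y₀ := hy.trans hyy
  have hR₀1 : 1 < R₀ := (F.hH_of_le hy2 hR₀ (empty_subset _)).1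
  have hRK : R ≤ K := hRp.trans ((le_mul_of_one_le_left (by positivity)
    (one_le_pow₀ hR₀1.le)).trans hK)
  have hK0 : 0 < K := by linarith
  set L := K / R ^ 100 with hL
  have hLL : R₀ ^ 20 ≤ L := by rwa [hL, le_div_iff₀ (by positivity)]
  set PS := F.PS y₀ (16 * K ^ 2) with hPS
  set WS := F.WS y₀ (16 * K ^ 2) with hWS
  have e1 : ∑ z ∈ F.Om K, F.hh y₀ (16 * K ^ 2) (Ideal.span {z}) * g z.im
      = ∑ P ∈ PS, ∑ W ∈ WS, F.wt W * F.Phi K g (W * P) := by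
    simp only [hh, Phi, sum_mul, mul_sum]
    rw [sum_comm]
    refine sum_congr rfl (fun P _ => ?_)
    rw [sum_comm]
    exact sum_congr rfl (fun W _ => sum_congr rfl (fun z _ => by ring))
  have e2 : ∑ P ∈ PS, ∑ W ∈ WS, F.wt W * F.Phi K g (W * P)
      = ∑ P ∈ PS.filter (fun P => F.nrm P ≤ L), 1 * ∑ W ∈ WS, F.wt W * F.Phi K g (W * P)
        + ∑ W ∈ WS.filter (fun W => F.nrm W ≤ L), F.wt W *
          ∑ P ∈ PS.filter (fun P => ¬ F.nrm P ≤ L), 1 * F.Phi K g (P * W)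
        + ∑ P ∈ PS.filter (fun P => ¬ F.nrm P ≤ L), ∑ W ∈ WS.filter (fun W => ¬ F.nrm W ≤ L),
          F.wt W * F.Phi K g (W * P) := by
    rw [← sum_filter_add_sum_filter_not PS (fun P => F.nrm P ≤ L), add_assoc]
    simp only [one_mul, mul_sum]
    congr 1
    rw [sum_comm (s := WS.filter _), ← sum_add_distrib]
    refine sum_congr rfl (fun P _ => ?_)
    rw [← sum_filter_add_sum_filter_not WS (fun W => F.nrm W ≤ L)]
    simp only [mul_comm P]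
  have hsh : ∀ I : Ideal F.O, I ≠ ⊥ → I ≠ ⊤ → F.rough y₀ I → Squarefree (Ideal.absNorm I) →
      F.nrm I ≤ L → F.rough y I ∧ Squarefree (Ideal.absNorm I) ∧ 2 * R ^ 100 ≤ F.nrm I ∧
      F.nrm I * R ^ 100 ≤ K := fun I a1 a2 a3 a4 a5 =>
    ⟨a3.mono hyy, a4, hy₀.trans (F.le_nrm_of_rough a1 a2 a3),
      by rwa [hL, le_div_iff₀ (by positivity)] at a5⟩
  have k1 := h₁ hy hR hER hRK hlog (N := PS.filter (fun P => F.nrm P ≤ L)) (M := WS)
    (fun P hP => by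
      obtain ⟨a1, a2⟩ := mem_filter.1 hP
      obtain ⟨b1, b2, b3, b4⟩ := F.mem_PS.1 a1
      exact hsh P b1.1 (fun h => b2.not_isUnit (by rw [h]; simp)) b3 b4 a2)
    (fun W hW => (F.mem_WS.1 hW).2.2.1.mono hyy) hg hQ hU hm hmR hJ hJR F.wt (fun _ => 1)
    F.abs_wt_le (fun _ => by simp)
  have k2 := h₁ hy hR hER hRK hlog (N := WS.filter (fun W => F.nrm W ≤ L))
    (M := PS.filter (fun P => ¬ F.nrm P ≤ L)) (fun W hW => by
      obtain ⟨a1, a2⟩ := mem_filter.1 hW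
      obtain ⟨b1, b2, b3, b4⟩ := F.mem_WS.1 a1
      exact hsh W b1.1 b2 b3 b4 a2)
    (fun P hP => (F.mem_PS.1 (mem_filter.1 hP).1).2.2.1.mono hyy) hg hQ hU hm hmR hJ hJR
    (fun _ => 1) F.wt (fun _ => by simp) F.abs_wt_le
  have hL0 : 0 < L := by positivity
  have k3 := h₂ hy2 hR₀ hLL (t := 16 * K ^ 2) (by
      have : L ≤ K := div_le_self hK0.le (by linarith)
      nlinarith) (A := PS.filter (fun P => ¬ F.nrm P ≤ L))
    (B := WS.filter (fun W => ¬ F.nrm W ≤ L))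
    (fun P hP => ⟨(F.mem_PS.1 (mem_filter.1 hP).1).2.2.1, (not_le.1 (mem_filter.1 hP).2).le⟩)
    (fun W hW => ⟨(F.mem_WS.1 (mem_filter.1 hW).1).2.2.1, (not_le.1 (mem_filter.1 hW).2).le⟩)
  have k4 : |∑ P ∈ PS.filter (fun P => ¬ F.nrm P ≤ L), ∑ W ∈ WS.filter (fun W => ¬ F.nrm W ≤ L),
      F.wt W * F.Phi K g (W * P)| ≤ 100 * ∑ P ∈ PS.filter (fun P => ¬ F.nrm P ≤ L),
      ∑ W ∈ WS.filter (fun W => ¬ F.nrm W ≤ L), ind (F.nrm (W * P) ≤ 16 * K ^ 2) := by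
    rw [mul_sum]
    refine (abs_sum_le_sum_abs _ _).trans (sum_le_sum (fun P _ => ?_))
    rw [mul_sum]
    refine (abs_sum_le_sum_abs _ _).trans (sum_le_sum (fun W _ => ?_))
    rw [abs_mul]
    exact (mul_le_of_le_one_left (abs_nonneg _) (F.abs_wt_le W)).trans (F.abs_Phi_le hK0 hg _)
  have hlR : 1 ≤ Real.log R := by
    have : Real.log 4 ≤ Real.log R := Real.log_le_log (by norm_num) hR4
    rw [show (4 : ℝ) = 2 ^ 2 by norm_num, Real.log_pow] at this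
    push_cast at this
    linarith [Real.log_two_gt_d9]
  have hl : Real.log (16 * K ^ 2 / L ^ 2) + 1 ≤ 203 * Real.log R := by
    have a1 : 16 * K ^ 2 / L ^ 2 ≤ R ^ 202 := by
      calc _ = 4 ^ 2 * R ^ 200 := by rw [hL]; field_simp; ring
        _ ≤ R ^ 2 * R ^ 200 := by gcongr
        _ = _ := by ring
    have a2 := Real.log_le_log (by positivity) a1
    rw [Real.log_pow] at a2
    push_cast at a2
    linarith
  have hG := F.one_le_Gy y
  have hG0 := F.one_le_Gy y₀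
  have hlK : 0 ≤ Real.log K := Real.log_nonneg (by linarith)
  have k5 : C₂ * (Real.log (16 * K ^ 2 / L ^ 2) + 1) * (16 * K ^ 2 / F.Gy y₀ ^ 2)
      ≤ 3248 * C₂ * (Real.log R * (K ^ 2 / F.Gy y₀ ^ 2)) := by
    calc _ ≤ C₂ * (203 * Real.log R) * (16 * K ^ 2 / F.Gy y₀ ^ 2) := by gcongr
      _ = _ := by ring
  rw [e1, e2]
  have a1 : 0 ≤ Real.log K * (K ^ 2 / F.Gy y ^ 2) * √(sm m J Q (θ / K) R) := by positivity
  have a2 : 0 ≤ Real.log R * (K ^ 2 / F.Gy y₀ ^ 2) := by positivity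
  refine (abs_add_three _ _ _).trans ?_
  have a3 := mul_nonneg hC₁.le a2
  have a4 := mul_nonneg hC₂.le a1
  have a5 := mul_nonneg hC₂.le a2
  linarith

end RQ

end Pool.Agent.Lib.MP_d48457_nt
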