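import Pool.Agent.Lib.MP_d48457_nt.LargeSieve

set_option autoImplicit false

namespace Pool.Agent.Lib.MP_d48457_nt

open Finset Complex

theorem stdAddChar_eq_ee (M : ℕ) [NeZero M] (j : ℤ) :
    ZMod.stdAddChar (j : ZMod M) = ee (j / M) := by
  rw [ZMod.stdAddChar_coe, ee]
  congr 1
  push_cast
  ring

theorem index_range_lin (a b c d : ℤ) (h : a * d - b * c ≠ 0) (Λ : AddSubgroup (ℤ × ℤ))
    (hΛ : ∀ k : ℤ × ℤ, k ∈ Λ ↔ ∃ x y : ℤ, k = (a * x + b * y, c * x + d * y)) :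
    Λ.index = (a * d - b * c).natAbs := by
  let L : (ℤ × ℤ) →ₗ[ℤ] (ℤ × ℤ) :=
    Matrix.toLin (Module.Basis.finTwoProd ℤ) (Module.Basis.finTwoProd ℤ) !![a, b; c, d]
  have hL : ∀ x : ℤ × ℤ, L x = (a * x.1 + b * x.2, c * x.1 + d * x.2) :=
    fun x => Matrix.toLin_finTwoProd_apply a b c d x
  have hinj : Function.Injective L := by
    rw [injective_iff_map_eq_zero]
    intro x hx
    rw [hL, Prod.mk_eq_zero] at hx
    have h1 : (a * d - b * c) * x.1 = 0 := by linear_combination d * hx.1 - b * hx.2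
    have h2 : (a * d - b * c) * x.2 = 0 := by linear_combination a * hx.2 - c * hx.1
    exact Prod.ext ((mul_eq_zero.1 h1).resolve_left h) ((mul_eq_zero.1 h2).resolve_left h)
  have key := Submodule.natAbs_det_equiv (LinearMap.range L) (LinearEquiv.ofInjective L hinj)
  have e1 : (LinearMap.range L).subtype ∘ₗ AddMonoidHom.toIntLinearMap
      ((LinearEquiv.ofInjective L hinj : (ℤ × ℤ) ≃ₗ[ℤ] LinearMap.range L) :
        (ℤ × ℤ) →+ LinearMap.range L) = L := by
    refine LinearMap.ext (fun x => rfl)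
  rw [e1, LinearMap.det_toLin, Matrix.det_fin_two_of] at key
  have e2 : Λ = (LinearMap.range L).toAddSubgroup := by
    ext k
    rw [hΛ]
    simp only [Submodule.mem_toAddSubgroup, LinearMap.mem_range, hL]
    exact ⟨fun ⟨x, y, h⟩ => ⟨(x, y), h.symm⟩, fun ⟨x, h⟩ => ⟨x.1, x.2, h.symm⟩⟩
  rw [e2, key]
  rfl

theorem ind_sub_fourier (Λ : AddSubgroup (ℤ × ℤ)) (M : ℕ) [NeZero M]
    (hM : ∀ k : ℤ × ℤ, ((M : ℤ) * k.1, (M : ℤ) * k.2) ∈ Λ) (k : ℤ × ℤ) :
    (Λ.index : ℂ) * (ind (k ∈ Λ) : ℝ) = ∑ a : ZMod M × ZMod M,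
      (ind (∀ h ∈ Λ, (M : ℤ) ∣ a.1.val * h.1 + a.2.val * h.2) : ℝ)
        * (ee (k.1 * (a.1.val / M)) * ee (k.2 * (a.2.val / M))) := by
  classical
  let φ : ℤ × ℤ →+ ZMod M × ZMod M :=
    AddMonoidHom.prodMap (Int.castAddHom (ZMod M)) (Int.castAddHom (ZMod M))
  have hφ : ∀ h : ℤ × ℤ, φ h = ((h.1 : ZMod M), (h.2 : ZMod M)) := fun h => rfl
  have hsurj : Function.Surjective φ := fun a =>
    ⟨(a.1.val, a.2.val), by rw [hφ]; simp⟩
  have hker : φ.ker ≤ Λ := by
    intro h hh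
    rw [AddMonoidHom.mem_ker, hφ, Prod.mk_eq_zero, ZMod.intCast_zmod_eq_zero_iff_dvd,
      ZMod.intCast_zmod_eq_zero_iff_dvd] at hh
    obtain ⟨⟨u, hu⟩, ⟨v, hv⟩⟩ := hh
    have := hM (u, v)
    rwa [← hu, ← hv] at this
  set H := Λ.map φ with hH
  have hind : H.index = Λ.index := AddSubgroup.index_map_eq Λ hsurj hker
  have hcard : Fintype.card H * Λ.index = M * M := by
    rw [← hind, ← Nat.card_eq_fintype_card, AddSubgroup.card_mul_index]
    simp
  have hmem : φ k ∈ H ↔ k ∈ Λ := by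
    rw [← AddSubgroup.mem_comap, hH, AddSubgroup.comap_map_eq, sup_eq_left.2 hker]
  let χ : ZMod M × ZMod M → ZMod M × ZMod M → ℂ :=
    fun a x => ZMod.stdAddChar (a.1 * x.1 + a.2 * x.2)
  have hχadd : ∀ a x x', χ a (x + x') = χ a x * χ a x' := by
    intro a x x'
    simp only [χ, ← AddChar.map_add_eq_mul, Prod.fst_add, Prod.snd_add]
    congr 1; ring
  have h1 : ∀ x : ZMod M × ZMod M, ∑ a, χ a x = if x = 0 then ((M * M : ℕ) : ℂ) else 0 := by
    intro x
    simp only [χ, AddChar.map_add_eq_mul]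
    rw [Fintype.sum_prod_type]
    simp only
    rw [← sum_mul_sum, AddChar.sum_mulShift _ (ZMod.isPrimitive_stdAddChar M),
      AddChar.sum_mulShift _ (ZMod.isPrimitive_stdAddChar M), ZMod.card]
    by_cases h1 : x.1 = 0 <;> by_cases h2 : x.2 = 0 <;> simp [h1, h2, Prod.ext_iff]
  have h2 : ∀ a : ZMod M × ZMod M, ∑ h : H, χ a (-h) = (Fintype.card H : ℂ) *
      (ind (∀ h ∈ Λ, (M : ℤ) ∣ a.1.val * h.1 + a.2.val * h.2) : ℝ) := by
    intro a
    have hiff : ∀ h : ℤ × ℤ, χ a (φ h) = 1 ↔ (M : ℤ) ∣ a.1.val * h.1 + a.2.val * h.2 := by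
      intro h
      rw [← ZMod.intCast_zmod_eq_zero_iff_dvd, ← (ZMod.stdAddChar (N := M)).map_zero_eq_one,
        ZMod.injective_stdAddChar.eq_iff, hφ]
      simp
    by_cases hc : ∀ h ∈ Λ, (M : ℤ) ∣ a.1.val * h.1 + a.2.val * h.2
    · rw [ind_pos hc]
      have : ∀ h : H, χ a (-h) = 1 := by
        intro h
        obtain ⟨h', hh', e⟩ := (H.neg_mem h.2)
        rw [← e, hiff]
        exact hc h' hh'
      simp [this]
    · rw [ind_neg hc]
      push Not at hc
      obtain ⟨h₀, hh₀, hne⟩ := hc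
      rw [← hiff] at hne
      have hm : -φ h₀ ∈ H := H.neg_mem ⟨h₀, hh₀, rfl⟩
      have e := Equiv.sum_comp (Equiv.addLeft (⟨-φ h₀, hm⟩ : H)) (fun h : H => χ a (-h))
      simp only [Equiv.coe_addLeft, AddSubgroup.coe_add, neg_add, neg_neg, hχadd] at e
      rw [← mul_sum] at e
      have : (χ a (φ h₀) - 1) * ∑ h : H, χ a (-h) = 0 := by linear_combination e
      simpa using (mul_eq_zero.1 this).resolve_left (sub_ne_zero.2 hne)
  have h3 : ∀ a : ZMod M × ZMod M,
      ee (k.1 * (a.1.val / M)) * ee (k.2 * (a.2.val / M)) = χ a (φ k) := by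
    intro a
    have := stdAddChar_eq_ee M (a.1.val * k.1 + a.2.val * k.2)
    rw [← ee_add]
    simp only [χ, hφ]
    push_cast at this
    simp only [ZMod.natCast_val, ZMod.cast_id', id_eq] at this
    rw [this]
    congr 1
    simp only [ZMod.natCast_val]
    ring
  have hc0 : (Fintype.card H : ℂ) ≠ 0 := by exact_mod_cast Fintype.card_ne_zero
  apply mul_left_cancel₀ hc0
  simp_rw [h3]
  rw [mul_sum]
  simp_rw [← mul_assoc, ← h2, sum_mul, ← hχadd]
  rw [sum_comm]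
  simp_rw [h1]
  have e4 : (Fintype.card H : ℂ) * Λ.index = ((M * M : ℕ) : ℂ) := by exact_mod_cast hcard
  rw [e4]
  by_cases hk : k ∈ Λ
  · rw [ind_pos hk, sum_eq_single (⟨φ k, hmem.2 hk⟩ : H)]
    · simp
    · intro h _ hne
      rw [if_neg]
      intro e
      apply hne
      ext1
      simp only
      rw [neg_add_eq_zero] at e
      exact e
    · simp
  · rw [ind_neg hk]
    symm
    simp only [ofReal_zero, mul_zero]
    refine sum_eq_zero (fun h _ => if_neg (fun e => hk (hmem.1 ?_)))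
    rw [neg_add_eq_zero] at e
    rw [← e]
    exact h.2

/-- The fraction attached to a residue. -/
def frac {M : ℕ} (a : ZMod M) : ℚ := (a.val : ℚ) / M

theorem frac_cast {M : ℕ} (a : ZMod M) : ((frac a : ℚ) : ℝ) = a.val / M := by
  simp [frac]

theorem den_dvd_iff {M : ℕ} [NeZero M] (a : ZMod M) (t : ℤ) :
    ((frac a).den : ℤ) ∣ t ↔ (M : ℤ) ∣ a.val * t := by
  have hM : (M : ℚ) ≠ 0 := by exact_mod_cast NeZero.ne M
  have h1 : (a.val : ℤ) * (frac a).den = (frac a).num * M := by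
    have := Rat.mul_den_eq_num (frac a)
    nth_rewrite 1 [frac] at this
    field_simp at this
    exact_mod_cast (by rw [this]; ring : ((a.val : ℚ) * (frac a).den = (frac a).num * M))
  constructor
  · rintro ⟨u, rfl⟩
    rw [← mul_assoc, h1]
    exact ((dvd_mul_left _ _).mul_right _)
  · rintro ⟨v, hv⟩
    have hM' : (M : ℤ) ≠ 0 := by exact_mod_cast NeZero.ne M
    have h2 : (frac a).num * t = (frac a).den * v := by
      apply mul_left_cancel₀ hM'
      linear_combination (-t) * h1 + (frac a).den * hv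
    have hc : IsCoprime ((frac a).den : ℤ) (frac a).num := by
      rw [Int.isCoprime_iff_gcd_eq_one, Int.gcd_comm]
      exact (frac a).reduced
    exact hc.dvd_of_dvd_mul_left ⟨v, h2⟩

theorem sum_frac_le {M : ℕ} [NeZero M] (D : ℝ) (f : ℚ → ℝ) (hf : ∀ q, 0 ≤ f q)
    (hD : ∀ q : ℚ, D < q.den → f q = 0) :
    ∑ a : ZMod M, f (frac a) ≤ ∑ q ∈ farey D, f q := by
  classical
  have hM : (0 : ℚ) < M := by exact_mod_cast Nat.pos_of_ne_zero (NeZero.ne M)
  have hinj : Function.Injective (frac : ZMod M → ℚ) := by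
    intro a b h
    unfold frac at h
    rw [div_left_inj' hM.ne'] at h
    exact ZMod.val_injective M (by exact_mod_cast h)
  rw [← sum_image (f := f) (fun a _ b _ h => hinj h)]
  rw [← sum_filter_of_ne (p := fun q : ℚ => (q.den : ℝ) ≤ D)
    (fun q _ h => by by_contra hc; exact h (hD q (not_le.1 hc)))]
  refine sum_le_sum_of_subset_of_nonneg (fun q hq => ?_) (fun q _ _ => hf q)
  obtain ⟨h1, h2⟩ := mem_filter.1 hq
  obtain ⟨a, -, rfl⟩ := mem_image.1 h1
  refine mem_farey.2 ⟨by unfold frac; positivity, ?_, h2⟩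
  unfold frac
  rw [div_lt_one hM]
  exact_mod_cast ZMod.val_lt a

end Pool.Agent.Lib.MP_d48457_nt
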