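import Pool.Agent.Lib.MP_d48457_nt.Final

set_option autoImplicit false

namespace Pool.Agent.Lib.MP_d48457_nt

open QuadraticAlgebra Finset Filter Topology

theorem exists_RQ_of {a b : ℤ} (hpos : 0 < b ^ 2 + 4 * a) (hns : ¬ IsSquare (b ^ 2 + 4 * a))
    (H : ∀ (x y : ℚ) (T N : ℤ), T = 2 * x + b * y → N = x * x + b * x * y - a * y * y →
      ∃ x' y' : ℤ, x' = x ∧ y' = y) : ∃ F : RQ, F.a = a ∧ F.b = b := by
  have : Fact (∀ r : ℚ, r ^ 2 ≠ a + b * r) := ⟨fun r hr => hns (Rat.isSquare_intCast_iff.1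
    ⟨2 * r - b, by push_cast; linear_combination (-4) * hr⟩)⟩
  let φ : QuadraticAlgebra ℤ a b →+* QuadraticAlgebra ℚ a b :=
    { toFun := fun z => ⟨z.re, z.im⟩
      map_one' := by ext <;> simp
      map_mul' := fun z w => by ext <;> simp
      map_zero' := by ext <;> simp
      map_add' := fun z w => by ext <;> simp }
  have hφ : Function.Injective φ := fun z w h => QuadraticAlgebra.ext
    (Int.cast_injective (α := ℚ) (congrArg QuadraticAlgebra.re h))
    (Int.cast_injective (α := ℚ) (congrArg QuadraticAlgebra.im h))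
  have : IsDomain (QuadraticAlgebra ℤ a b) := hφ.isDomain φ
  let := φ.toAlgebra
  have : IsScalarTower ℤ (QuadraticAlgebra ℤ a b) (QuadraticAlgebra ℚ a b) :=
    IsScalarTower.of_algebraMap_eq' (Subsingleton.elim _ _)
  have : IsIntegralClosure (QuadraticAlgebra ℤ a b) ℤ (QuadraticAlgebra ℚ a b) := by
    refine ⟨hφ, fun {z} => ⟨fun hz => ?_, ?_⟩⟩
    · have h1 : IsIntegral ℤ (star z) := hz.map (starRingEnd _).toIntAlgHom
      have h2 := hz.add h1
      have h3 := hz.mul h1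
      rw [← algebraMap_trace_eq_add_star, isIntegral_algebraMap_iff algebraMap_injective,
        IsIntegrallyClosed.isIntegral_iff] at h2
      rw [← algebraMap_norm_eq_mul_star, isIntegral_algebraMap_iff algebraMap_injective,
        IsIntegrallyClosed.isIntegral_iff] at h3
      obtain ⟨T, hT⟩ := h2
      obtain ⟨N, hN⟩ := h3
      obtain ⟨x, y, hx, hy⟩ := H z.re z.im T N hT hN
      exact ⟨⟨x, y⟩, QuadraticAlgebra.ext hx hy⟩
    · rintro ⟨w, rfl⟩
      exact (Algebra.IsIntegral.isIntegral w).algebraMap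
  have := IsIntegralClosure.isDedekindDomain ℤ ℚ (QuadraticAlgebra ℚ a b) (QuadraticAlgebra ℤ a b)
  have := ClassGroup.fintypeOfAdmissibleOfFinite (S := QuadraticAlgebra ℤ a b) ℚ
    (QuadraticAlgebra ℚ a b) AbsoluteValue.absIsAdmissible
  obtain ⟨s, h1, h2⟩ := Pell.Solution₁.exists_pos_of_not_isSquare hpos hns
  refine ⟨⟨a, b, hpos, inferInstance, ⟨s.x - b * s.y, 2 * s.y⟩, ?_, ?_⟩, rfl, rfl⟩
  · rw [norm_def]
    linear_combination s.prop
  · have h3 : (1 : ℝ) < s.x := by exact_mod_cast h1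
    have h4 : (0 : ℝ) < s.y := by exact_mod_cast h2
    have h5 := mul_nonneg h4.le (Real.sqrt_nonneg (b ^ 2 + 4 * a))
    push_cast
    linarith

theorem int_of_squarefree {d : ℕ} (hd : Squarefree d) {q : ℚ} {n : ℤ} (h : d * q ^ 2 = n) :
    ∃ m : ℤ, (m : ℚ) = q := by
  have h1 : (d : ℤ) * q.num ^ 2 = n * q.den ^ 2 := by
    have h2 : (d : ℚ) * q.num ^ 2 = n * q.den ^ 2 := by
      rw [← h, ← Rat.mul_den_eq_num]; ring
    exact_mod_cast h2
  have h2 : q.den ^ 2 ∣ d * q.num.natAbs ^ 2 := by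
    rw [← Int.natCast_dvd_natCast]
    push_cast
    rw [sq_abs, h1]
    exact dvd_mul_left _ _
  have h3 := hd q.den (by
    rw [← sq]; exact (Nat.Coprime.pow 2 2 q.reduced.symm).dvd_of_dvd_mul_right h2)
  exact ⟨q.num, Rat.coe_int_num_of_den_eq_one (Nat.isUnit_iff.1 h3)⟩

theorem exists_RQ {D : ℕ} (hD : ¬ IsSquare D) : ∃ (F : RQ) (f : ℕ), f ≠ 0 ∧
    (F.b ^ 2 + 4 * F.a) * f ^ 2 = 4 * D ∧ Even (F.b * f) := by
  obtain ⟨d, f, h1, hf, rfl, h2⟩ := Nat.sq_mul_squarefree_of_pos (n := D)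
    (Nat.pos_of_ne_zero (fun h => hD (h ▸ IsSquare.zero)))
  have h3 : ¬ IsSquare d := fun h => hD ((IsSquare.sq f).mul h)
  have h4 : ¬ 4 ∣ d := fun h => by simpa using h2 2 h
  by_cases h5 : d % 4 = 1
  · obtain ⟨a, ha⟩ : ∃ a : ℤ, (d : ℤ) = 1 ^ 2 + 4 * a := ⟨d / 4, by omega⟩
    obtain ⟨F, a1, a2⟩ := exists_RQ_of (a := a) (b := 1) (by omega)
      (by rw [← ha, Int.isSquare_natCast_iff]; exact h3) (fun x y T N hT hN => by
        have b1 : (d : ℚ) = 1 ^ 2 + 4 * a := by exact_mod_cast ha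
        have b2 : (d : ℚ) * y ^ 2 = (T ^ 2 - 4 * N : ℤ) := by
          push_cast at hT hN ⊢
          rw [b1, hT, hN]; ring
        obtain ⟨m, rfl⟩ := int_of_squarefree h2 b2
        have b3 : (d : ℤ) * m ^ 2 = T ^ 2 - 4 * N := by exact_mod_cast b2
        obtain ⟨c, hc⟩ : Even (T - m) := by
          have b4 : Even (T ^ 2 - m ^ 2) := ⟨2 * (N + a * m ^ 2), by
            rw [ha] at b3; linear_combination -b3⟩
          simpa [parity_simps] using b4
        refine ⟨c, m, ?_, rfl⟩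
        have b5 : (T : ℚ) - m = c + c := by exact_mod_cast hc
        push_cast at hT
        linarith)
    refine ⟨F, 2 * f, by omega, ?_, ?_⟩
    · rw [a1, a2, ← ha]; push_cast; ring
    · rw [a2]; simp
  · obtain ⟨F, a1, a2⟩ := exists_RQ_of (a := d) (b := 0) (by omega)
      (fun ⟨r, hr⟩ => h3 (Rat.isSquare_natCast_iff.1 ⟨r / 2, by
        have : (0 : ℚ) ^ 2 + 4 * d = r * r := by exact_mod_cast hr
        linarith⟩)) (fun x y T N hT hN => by
        have b2 : (d : ℚ) * (2 * y) ^ 2 = (T ^ 2 - 4 * N : ℤ) := by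
          push_cast at hT hN ⊢
          rw [hT, hN]; ring
        obtain ⟨m, hm⟩ := int_of_squarefree h2 b2
        rw [← hm] at b2
        have b3 : (d : ℤ) * m ^ 2 = T ^ 2 - 4 * N := by exact_mod_cast b2
        have b4 : Even T ∧ Even m := by
          obtain ⟨e, he⟩ : ∃ e : ℤ, (d : ℤ) = 4 * e + 2 ∨ (d : ℤ) = 4 * e + 3 := ⟨d / 4, by omega⟩
          rcases Int.even_or_odd' T with ⟨u, rfl | rfl⟩ <;>
          rcases Int.even_or_odd' m with ⟨v, rfl | rfl⟩ <;>
          rcases he with he | he <;> rw [he] at b3 <;>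
          first
          | exact ⟨even_two_mul _, even_two_mul _⟩
          | (exfalso; ring_nf at b3; omega)
        obtain ⟨⟨u, hu⟩, v, hv⟩ := b4
        have b5 : (T : ℚ) = u + u := by exact_mod_cast hu
        have b6 : (m : ℚ) = v + v := by exact_mod_cast hv
        push_cast at hT
        exact ⟨u, v, by linarith, by linarith⟩)
    refine ⟨F, f, by omega, ?_, ?_⟩
    · rw [a1, a2]; push_cast; ring
    · rw [a2]; simp

theorem thin_main {D : ℕ} (hD : ¬ IsSquare D) :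
    Tendsto (fun K : ℕ => (∑ k ∈ range K, ind (¬ ∃ p m : ℕ, p.Prime ∧ D * k ^ 2 = p + m ^ 2)) / K)
      atTop (𝓝 0) := by
  obtain ⟨F, f, h1, h2, h3⟩ := exists_RQ hD
  exact F.main_RQ h1 h2 h3

end Pool.Agent.Lib.MP_d48457_nt
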