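import Pool.Agent.Lib.MP_d48457_nt.Decomp

set_option autoImplicit false

namespace Pool.Agent.Lib.MP_d48457_nt

open QuadraticAlgebra Finset Filter Topology

theorem exists_sm_le {δ : ℝ} (hδ : 0 < δ) : ∃ (m J : ℕ) (Q η : ℝ), 1 ≤ m ∧ 1 ≤ J ∧ 1 ≤ Q ∧ 0 < η ∧
    ∀ R, 5 / δ ≤ R → sm m J Q η R ≤ δ := by
  obtain ⟨m, hm⟩ := exists_nat_gt (5 / δ)
  have hm0 : (0 : ℝ) < m := lt_trans (by positivity) hm
  obtain ⟨J, hJ⟩ := exists_nat_gt (5 * m / δ)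
  have hJ0 : (0 : ℝ) < J := lt_trans (by positivity) hJ
  have hJ1 : 1 ≤ J := by exact_mod_cast hJ0
  have hJ2 : (1 : ℝ) ≤ J := by exact_mod_cast hJ1
  have hs : √(√((J : ℝ) ^ 4)) = J := by
    rw [show (J : ℝ) ^ 4 = (J ^ 2) ^ 2 by ring, Real.sqrt_sq (by positivity),
      Real.sqrt_sq hJ0.le]
  refine ⟨m, J, J ^ 4, √(δ / 5 / (m * J ^ 2 * (J ^ 4) ^ 2)), by exact_mod_cast hm0, hJ1,
    one_le_pow₀ hJ2, by positivity, fun R hR => ?_⟩
  have hR0 : 0 < R := lt_of_lt_of_le (by positivity) hR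
  have h1 : 1 / (m : ℝ) ≤ δ / 5 := by
    rw [div_lt_iff₀ hδ] at hm
    rw [div_le_div_iff₀ hm0 (by norm_num)]; linarith
  have h2 : (m : ℝ) / J ≤ δ / 5 := by
    rw [div_lt_iff₀ hδ] at hJ
    rw [div_le_div_iff₀ hJ0 (by norm_num)]; linarith
  have h3 : 1 / R ≤ δ / 5 := by
    rw [div_le_iff₀ hδ] at hR
    rw [div_le_div_iff₀ hR0 (by norm_num)]; linarith
  rw [sm, hs, Real.sq_sqrt (by positivity), mul_div_cancel₀ _ (by positivity)]
  linarith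

namespace RQ

variable (F : RQ)

theorem total_bound : ∃ C : ℝ, 0 < C ∧ ∀ {y : ℝ} {u : ℕ}, 2 ≤ y → 1200 ≤ u → F.EE ≤ y ^ 12 →
    Real.log (y ^ (1200 * u ^ 3)) ≤ y ^ 12 →
    ∀ {g : ℤ → ℝ}, (∀ k, |g k| ≤ 1) → ∀ {Q θ : ℝ}, 1 ≤ Q →
    Unif Q θ g → ∀ {m J : ℕ}, 1 ≤ m → (m : ℝ) ≤ y ^ 12 → 1 ≤ J → (J : ℝ) ≤ y ^ 12 →
    ∀ {s : ℝ}, sm m J Q (θ / y ^ (1200 * u ^ 3)) (y ^ 12) ≤ s →
    |∑ z ∈ F.Om (y ^ (1200 * u ^ 3)), ind (Ideal.absNorm (Ideal.span {z})).Prime * g z.im|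
      ≤ C * (y ^ (1200 * u ^ 3)) ^ 2 * ((s + 1 / u ^ 2) / F.Gy (y ^ (1200 * u ^ 2)) + 1 / y
        + Real.log (y ^ (1200 * u ^ 3)) * √s / F.Gy y ^ 2
        + Real.log y / F.Gy (y ^ (1200 * u ^ 2)) ^ 2) := by
  obtain ⟨C₁, hC₁, h₁⟩ := F.typeI
  obtain ⟨C₂, hC₂, h₂⟩ := F.hh_bound
  have hE := F.one_le_EE
  have hc1 := F.one_le_c1
  refine ⟨C₁ + 12 * C₂ + 10 ^ 8 * (F.EE ^ 2 + F.c1), by positivity, ?_⟩
  intro y u hy hu hER hlog g hg Q θ hQ hU m J hm hmR hJ hJR s hs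
  have hy1 : 1 ≤ y := by linarith
  have hp : ∀ {a b : ℕ}, a ≤ b → y ^ a ≤ y ^ b := fun h => pow_le_pow_right₀ hy1 h
  have hu2 : 1200 * u ^ 2 ≤ u ^ 3 := by rw [pow_succ' u 2]; gcongr
  have hu3 : 1200 ≤ u ^ 2 := hu.trans (Nat.le_self_pow (by norm_num) u)
  set K := y ^ (1200 * u ^ 3) with hK
  set y₀ := y ^ (1200 * u ^ 2) with hy₀
  set R₁ := y ^ (12 * u ^ 3) with hR₁
  have a1 : 2 * (y ^ 12) ^ 100 ≤ y₀ := by
    calc _ ≤ y * (y ^ 12) ^ 100 := by gcongr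
      _ = y ^ 1201 := by ring
      _ ≤ _ := hp (by omega)
  have a2 : (y₀ ^ 12) ^ 20 * (y ^ 12) ^ 100 ≤ K := by
    rw [hy₀, ← pow_mul, ← pow_mul, ← pow_mul, ← pow_add]
    exact hp (by omega)
  have a3 : y₀ ^ 12 ≤ R₁ := by rw [hy₀, ← pow_mul]; exact hp (by omega)
  have a4 : y ^ 12 ≤ R₁ := hp (by omega)
  have a5 : R₁ ^ 11 ≤ K := by rw [hR₁, ← pow_mul]; exact hp (by omega)
  have a6 : y ≤ y₀ := le_self_pow₀ hy1 (by omega)
  have hy2 : 2 ≤ y₀ := hy.trans a6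
  have hR1 : 1 ≤ R₁ := one_le_pow₀ hy1
  have hK2 : 2 ≤ K := hy.trans (le_self_pow₀ hy1 (by omega))
  have hK0 : 0 < K := by linarith
  have a7 : y₀ ≤ R₁ := (le_self_pow₀ (by linarith) (by norm_num)).trans a3
  have hG := F.one_le_Gy y
  have hG0 := F.one_le_Gy y₀
  have hsm := sm_nonneg (m := m) (J := J) (Q := Q) (t := θ / K) (R := y ^ 12) (by positivity)
    (by positivity) (by positivity)
  have hs0 : 0 ≤ s := hsm.trans hs
  have k1 := h₁ hy2 a3 (hER.trans a4) a5 hg hQ hU hm hJ (hJR.trans a4)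
  have k2 := h₂ hy le_rfl hER hlog a1 le_rfl a2 hg hQ hU hm hmR hJ hJR
  have k3 := F.fundamental hy2 a3 (a₁ := K) (a₂ := 4 * K) (b₁ := -(4 * K)) (b₂ := -K) (s := 3 * K)
    (by linarith) (by linarith) (by linarith)
  have k4 := F.sum_Om_le hK0 (fun I => ind (F.rough y₀ I ∧ ¬ Squarefree (Ideal.absNorm I)))
    (fun _ => ind_nonneg _)
  have k5 := F.count_not_squarefree (y := y₀) (t := 16 * K ^ 2) (by linarith) (by positivity)
  have e1 : ∑ z ∈ F.Om K, ind (Ideal.absNorm (Ideal.span {z})).Prime * g z.im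
      = ∑ z ∈ F.Om K, F.nu y₀ R₁ ⊤ z * g z.im
        - ∑ z ∈ F.Om K, F.hh y₀ (16 * K ^ 2) (Ideal.span {z}) * g z.im
        - ∑ z ∈ F.Om K, ((F.nu y₀ R₁ ⊤ z - ind (F.rough y₀ (Ideal.span {z})))
          + (ind (F.rough y₀ (Ideal.span {z})) - ind (Ideal.absNorm (Ideal.span {z})).Prime
            - F.hh y₀ (16 * K ^ 2) (Ideal.span {z}))) * g z.im := by
    rw [← sum_sub_distrib, ← sum_sub_distrib]
    exact sum_congr rfl (fun z _ => by ring)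
  have k6 : |∑ z ∈ F.Om K, ((F.nu y₀ R₁ ⊤ z - ind (F.rough y₀ (Ideal.span {z})))
          + (ind (F.rough y₀ (Ideal.span {z})) - ind (Ideal.absNorm (Ideal.span {z})).Prime
            - F.hh y₀ (16 * K ^ 2) (Ideal.span {z}))) * g z.im|
      ≤ ∑ z ∈ F.Om K, |F.nu y₀ R₁ ⊤ z - ind (F.rough y₀ (Ideal.span {z}))|
        + ∑ z ∈ F.Om K, ind (F.rough y₀ (Ideal.span {z}) ∧
          ¬ Squarefree (Ideal.absNorm (Ideal.span {z}))) := by
    rw [← sum_add_distrib]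
    refine (abs_sum_le_sum_abs _ _).trans (sum_le_sum (fun z hz => ?_))
    obtain ⟨b1, b2⟩ := F.nrm_Om hK0 hz
    have b3 : K ≤ K ^ 2 := le_self_pow₀ (by linarith) (by norm_num)
    rw [abs_mul]
    refine (mul_le_of_le_one_right (abs_nonneg _) (hg _)).trans ((abs_add_le _ _).trans
      (add_le_add le_rfl (F.ramare (fun h => ?_) (fun h => ?_) ?_ b2)))
    · rw [h, nrm, Ideal.absNorm_bot, Nat.cast_zero] at b1; linarith
    · rw [h, F.nrm_top] at b1; linarith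
    · exact (a7.trans ((le_self_pow₀ hR1 (by norm_num)).trans a5)).trans (b3.trans b1)
  have hu0 : (0 : ℝ) < u := by exact_mod_cast (by omega : 0 < u)
  have hly : 0 < Real.log y := Real.log_pos (by linarith)
  have b1 : Real.log y₀ / Real.log R₁ = 100 / u := by
    rw [hy₀, hR₁, Real.log_pow, Real.log_pow]; push_cast; field_simp; ring
  have b2 : ((F.box K (4 * K) (-(4 * K)) (-K)).card : ℝ) ≤ 16 * K ^ 2 :=
    (F.card_box_le (by linarith) (by linarith)).trans (by nlinarith)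
  have b3 : 2 * (y₀ + 1) * (64 * F.c0 ^ 2 * (3 * K + y₀ ^ 2 * R₁ ^ 2) * R₁ ^ 8)
      ≤ 1024 * F.EE ^ 2 * (K ^ 2 * (1 / y)) := by
    have c1 : y₀ ^ 2 * R₁ ^ 2 ≤ K := by
      calc _ ≤ R₁ ^ 2 * R₁ ^ 2 := by gcongr
        _ = R₁ ^ 4 := by ring
        _ ≤ _ := (pow_le_pow_right₀ hR1 (by norm_num)).trans a5
    have c2 : R₁ * R₁ ^ 8 ≤ K * (1 / y) := by
      rw [mul_one_div, le_div_iff₀ (by linarith)]
      calc _ ≤ R₁ * R₁ ^ 8 * R₁ := by gcongr; linarith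
        _ = R₁ ^ 10 := by ring
        _ ≤ _ := (pow_le_pow_right₀ hR1 (by norm_num)).trans a5
    have c3 := F.c0_le
    have c4 := F.one_le_c0
    calc _ ≤ 2 * (2 * R₁) * (64 * F.EE ^ 2 * (4 * K) * R₁ ^ 8) := by gcongr <;> linarith
      _ = 1024 * F.EE ^ 2 * (K * (R₁ * R₁ ^ 8)) := by ring
      _ ≤ 1024 * F.EE ^ 2 * (K * (K * (1 / y))) := by gcongr
      _ = _ := by ring
  have b4 : 48 * ((F.box K (4 * K) (-(4 * K)) (-K)).card : ℝ) / F.Gy y₀ *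
      (Real.log y₀ / Real.log R₁) ^ 2 ≤ 7680000 * (K ^ 2 * (1 / u ^ 2 / F.Gy y₀)) := by
    rw [b1]
    calc _ ≤ 48 * (16 * K ^ 2) / F.Gy y₀ * (100 / u) ^ 2 := by gcongr
      _ = _ := by ring
  have b5 : 12 * F.c1 * (16 * K ^ 2) / y₀ ≤ 192 * F.c1 * (K ^ 2 * (1 / y)) := by
    calc _ ≤ 12 * F.c1 * (16 * K ^ 2) / y := by gcongr
      _ = _ := by ring
  have b6 : C₁ * (K ^ 2 / F.Gy y₀) * sm m J Q (θ / K) R₁ ≤ C₁ * (K ^ 2 * (s / F.Gy y₀)) := by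
    have : sm m J Q (θ / K) R₁ ≤ s := le_trans (by unfold sm; gcongr) hs
    calc _ ≤ C₁ * (K ^ 2 / F.Gy y₀) * s := by gcongr
      _ = _ := by ring
  have hlK : 0 ≤ Real.log K := Real.log_nonneg (by linarith)
  have b7 : C₂ * (Real.log K * (K ^ 2 / F.Gy y ^ 2) * √(sm m J Q (θ / K) (y ^ 12))
        + Real.log (y ^ 12) * (K ^ 2 / F.Gy y₀ ^ 2))
      ≤ C₂ * (K ^ 2 * (Real.log K * √s / F.Gy y ^ 2))
        + 12 * C₂ * (K ^ 2 * (Real.log y / F.Gy y₀ ^ 2)) := by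
    calc _ ≤ C₂ * (Real.log K * (K ^ 2 / F.Gy y ^ 2) * √s
        + Real.log (y ^ 12) * (K ^ 2 / F.Gy y₀ ^ 2)) := by gcongr
      _ = _ := by rw [Real.log_pow y 12]; push_cast; ring
  rw [e1]
  refine (abs_sub _ _).trans ((add_le_add (abs_sub _ _) k6).trans ?_)
  set T1 := K ^ 2 * (s / F.Gy y₀)
  set T2 := K ^ 2 * (1 / u ^ 2 / F.Gy y₀)
  set T3 := K ^ 2 * (1 / y)
  set T4 := K ^ 2 * (Real.log K * √s / F.Gy y ^ 2)
  set T5 := K ^ 2 * (Real.log y / F.Gy y₀ ^ 2)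
  have t1 : 0 ≤ T1 := by positivity
  have t2 : 0 ≤ T2 := by positivity
  have t3 : 0 ≤ T3 := by positivity
  have t4 : 0 ≤ T4 := by positivity
  have t5 : 0 ≤ T5 := by positivity
  have hE2 : 1 ≤ F.EE ^ 2 := one_le_pow₀ hE
  set C := C₁ + 12 * C₂ + 10 ^ 8 * (F.EE ^ 2 + F.c1) with hC
  calc _ ≤ C₁ * T1 + 7680000 * T2 + (1024 * F.EE ^ 2 + 19200 * F.c1) * T3 + C₂ * T4
        + 12 * C₂ * T5 := by
        unfold Om at k1 k2 k4 ⊢
        linarith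
    _ ≤ C * T1 + C * T2 + C * T3 + C * T4 + C * T5 := by gcongr <;> linarith
    _ = _ := by simp only [T1, T2, T3, T4, T5]; ring

theorem main_small {ε : ℝ} (hε : 0 < ε) : ∃ Q η : ℝ, 1 ≤ Q ∧ 0 < η ∧ ∀ᶠ K : ℝ in atTop,
    ∀ g : ℤ → ℝ, (∀ k, |g k| ≤ 1) → Unif Q (η * K) g →
    |∑ z ∈ F.Om K, ind (Ideal.absNorm (Ideal.span {z})).Prime * g z.im|
      ≤ ε * (K ^ 2 / Real.log K) := by
  obtain ⟨C, hC, h⟩ := F.total_bound
  obtain ⟨c, hc, hG⟩ := F.Gy_ge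
  obtain ⟨u, hu⟩ : ∃ u : ℕ, 1200 ≤ u ∧ C * (1 / c + 1 / c ^ 2) / u ≤ ε / 3 := by
    have h1 : Tendsto (fun u : ℕ => C * (1 / c + 1 / c ^ 2) / u) atTop (𝓝 0) :=
      tendsto_const_div_atTop_nhds_zero_nat _
    exact ((eventually_ge_atTop 1200).and (h1.eventually (ge_mem_nhds (by positivity)))).exists
  obtain ⟨hu, hu1⟩ := hu
  have hu0 : (0 : ℝ) < u := by exact_mod_cast (by omega : 0 < u)
  obtain ⟨δ, hδ, hδ1⟩ : ∃ δ : ℝ, 0 < δ ∧
      C * (δ * u / c + (1200 * u ^ 3) ^ 2 * √δ / c ^ 2) ≤ ε / 3 := by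
    have h1 : Continuous (fun δ : ℝ => C * (δ * u / c + (1200 * u ^ 3) ^ 2 * √δ / c ^ 2)) := by
      fun_prop
    have h2 := (h1.tendsto 0).mono_left (nhdsWithin_le_nhds (s := Set.Ioi 0))
    simp only [zero_mul, zero_div, Real.sqrt_zero, mul_zero, add_zero] at h2
    exact ((show ∀ᶠ δ : ℝ in 𝓝[>] 0, 0 < δ from self_mem_nhdsWithin).and
      (h2.eventually (ge_mem_nhds (by positivity)))).exists
  obtain ⟨m, J, Q, η, hm, hJ, hQ, hη, hsm⟩ := exists_sm_le hδ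
  refine ⟨Q, η, hQ, hη, ?_⟩
  have hn : 1200 * u ^ 3 ≠ 0 := by positivity
  have hlog : Tendsto (fun y : ℝ => (1200 * u ^ 3 : ℝ) * Real.log y ^ 1 / (1 * y + 0)) atTop
      (𝓝 0) := by
    simpa [mul_div_assoc] using
      (Real.tendsto_pow_log_div_mul_add_atTop 1 0 1 one_ne_zero).const_mul (1200 * u ^ 3 : ℝ)
  have key : ∀ᶠ y : ℝ in atTop, ∀ g : ℤ → ℝ, (∀ k, |g k| ≤ 1) →
      Unif Q (η * y ^ (1200 * u ^ 3)) g →
      |∑ z ∈ F.Om (y ^ (1200 * u ^ 3)), ind (Ideal.absNorm (Ideal.span {z})).Prime * g z.im|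
        ≤ ε * ((y ^ (1200 * u ^ 3)) ^ 2 / Real.log (y ^ (1200 * u ^ 3))) := by
    filter_upwards [eventually_ge_atTop 2, eventually_ge_atTop F.EE, eventually_ge_atTop (m : ℝ),
      eventually_ge_atTop (J : ℝ), eventually_ge_atTop (5 / δ), hG,
      (tendsto_pow_atTop (n := 1200 * u ^ 2) (by positivity)).eventually hG,
      hlog.eventually (ge_mem_nhds one_pos),
      hlog.eventually (ge_mem_nhds (show 0 < ε / 3 / C by positivity))]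
      with y hy hE hm' hJ' hδ' hG1 hG2 hl1 hl2 g hg hU
    have hy0 : 0 < y := by linarith
    have hy12 : y ≤ y ^ 12 := le_self_pow₀ (by linarith) (by norm_num)
    have hly : 0 < Real.log y := Real.log_pos (by linarith)
    simp only [pow_one, one_mul, add_zero] at hl1 hl2
    have hL : Real.log (y ^ (1200 * u ^ 3)) = 1200 * u ^ 3 * Real.log y := by
      rw [Real.log_pow]; push_cast; ring
    rw [Real.log_pow] at hG2
    push_cast at hG2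
    refine (h hy hu (hE.trans hy12) (by
      rw [hL]; rw [div_le_one hy0] at hl1; linarith) hg hQ hU hm (hm'.trans hy12) hJ
      (hJ'.trans hy12) (s := δ) (by
        rw [mul_div_cancel_right₀ _ (by positivity)]; exact hsm _ (hδ'.trans hy12))).trans ?_
    rw [hL]
    set K := y ^ (1200 * u ^ 3)
    set l := Real.log y
    calc _ ≤ C * K ^ 2 * ((δ + 1 / u ^ 2) / (c * (1200 * u ^ 2 * l)) + 1 / y
        + 1200 * u ^ 3 * l * √δ / (c * l) ^ 2 + l / (c * (1200 * u ^ 2 * l)) ^ 2) := by gcongr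
      _ = (C * (δ * u / c + (1200 * u ^ 3) ^ 2 * √δ / c ^ 2)
          + C * (1 / c + 1 / 1200 * (1 / c ^ 2)) / u + C * (1200 * u ^ 3 * l / y)) *
          (K ^ 2 / (1200 * u ^ 3 * l)) := by field_simp; ring
      _ ≤ _ := by
        have h1 : C * (1 / c + 1 / 1200 * (1 / c ^ 2)) / u ≤ C * (1 / c + 1 / c ^ 2) / u := by
          gcongr
          have : 0 < 1 / c ^ 2 := by positivity
          linarith
        have h2 : C * (1200 * u ^ 3 * l / y) ≤ ε / 3 := by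
          rw [le_div_iff₀ hC] at hl2; linarith
        gcongr
        linarith
  have ht : Tendsto (fun K : ℝ => K ^ ((1200 * u ^ 3 : ℕ) : ℝ)⁻¹) atTop atTop :=
    tendsto_rpow_atTop (by positivity)
  filter_upwards [ht.eventually key, eventually_ge_atTop 0] with K hK hK0
  rwa [Real.rpow_inv_natCast_pow hK0 hn] at hK

end RQ

end Pool.Agent.Lib.MP_d48457_nt
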