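import Pool.Agent.Lib.MP_d48457_nt.Strip
import Pool.Agent.Lib.MP_d48457_nt.Small

set_option autoImplicit false

namespace Pool.Agent.Lib.MP_d48457_nt

open QuadraticAlgebra Finset Filter Topology

theorem cell_div {W t : ℕ} (i : ℤ) {a s : ℕ} (ha : a < W) (hs : s < t) :
    ((i * t + s) * W + a) / (W * t : ℕ) = i ∧ ((i * t + s) * W + a) % W = a ∧
      ((i * t + s) * W + a) / W = i * t + s := by
  have h1 : (0 : ℤ) < W := by omega
  have h2 : (0 : ℤ) < t := by omega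
  have h3 : ((i * t + s) * W + a) / W = i * t + s := by
    rw [add_comm, Int.add_mul_ediv_right _ _ h1.ne', Int.ediv_eq_zero_of_lt (by omega) (by omega),
      zero_add]
  refine ⟨?_, ?_, h3⟩
  · rw [Nat.cast_mul, ← Int.ediv_ediv_of_nonneg h1.le, h3, add_comm,
      Int.add_mul_ediv_right _ _ h2.ne', Int.ediv_eq_zero_of_lt (by omega) (by omega), zero_add]
  · rw [add_comm, Int.add_mul_emod_self_right, Int.emod_eq_of_lt (by omega) (by omega)]

theorem sum_block {M : Type*} [AddCommMonoid M] (Φ : ℤ → M) {W : ℕ} (hW : W ≠ 0) (t : ℕ) (i : ℤ) :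
    ∑ y ∈ Ico (i * (W * t : ℕ)) ((i + 1) * (W * t : ℕ)), Φ y
      = ∑ a ∈ range W, ∑ s ∈ range t, Φ ((i * t + s) * W + a) := by
  have h1 : (0 : ℤ) < W := by omega
  rw [← sum_product']
  symm
  have key : ∀ y ∈ Ico (i * (W * t : ℕ)) ((i + 1) * (W * t : ℕ)),
      0 ≤ y / W - i * t ∧ y / W - i * t < t := fun y hy => by
    obtain ⟨a1, a2⟩ := mem_Ico.1 hy
    push_cast at a1 a2
    have a3 : i * t ≤ y / W := (Int.le_ediv_iff_mul_le h1).2 (by linarith)
    have a4 : y / W < (i + 1) * t := (Int.ediv_lt_iff_lt_mul h1).2 (by linarith)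
    constructor <;> linarith
  refine sum_nbij' (fun x => (i * t + x.2) * W + x.1)
    (fun y => ((y % W).toNat, (y / W - i * t).toNat)) (fun x hx => ?_) (fun y hy => ?_)
    (fun x hx => ?_) (fun y hy => ?_) (fun _ _ => rfl)
  · simp only [mem_product, mem_range] at hx
    have a1 : (x.1 : ℤ) + 1 ≤ W := by omega
    have a2 : (x.2 : ℤ) + 1 ≤ t := by omega
    have a3 := mul_le_mul_of_nonneg_right a2 h1.le
    rw [mem_Ico]
    push_cast
    constructor
    · have : (0 : ℤ) ≤ x.2 * W + x.1 := by positivity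
      linarith
    · linarith
  · have a1 := key y hy
    have a2 := Int.emod_lt_of_pos y h1
    simp only [mem_product, mem_range]
    omega
  · simp only [mem_product, mem_range] at hx
    obtain ⟨-, a1, a2⟩ := cell_div i hx.1 hx.2
    simp only [a1, a2, add_sub_cancel_left, Int.toNat_natCast]
  · have a1 := key y hy
    simp only [Int.toNat_of_nonneg a1.1, Int.toNat_of_nonneg (Int.emod_nonneg y h1.ne'),
      add_sub_cancel]
    exact Int.ediv_mul_add_emod y W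

theorem sum_Ico_split {M : Type*} [AddCommMonoid M] (Φ : ℤ → M) {a b c : ℤ} (h1 : a ≤ b)
    (h2 : b ≤ c) : ∑ y ∈ Ico a c, Φ y = ∑ y ∈ Ico a b, Φ y + ∑ y ∈ Ico b c, Φ y := by
  rw [← sum_union (Ico_disjoint_Ico_consecutive a b c), Ico_union_Ico_eq_Ico h1 h2]

theorem sum_blocks {M : Type*} [AddCommMonoid M] (Φ : ℤ → M) (h : ℕ) (i : ℤ) (n : ℕ) :
    ∑ y ∈ Ico (i * h) ((i + n) * h), Φ y
      = ∑ j ∈ range n, ∑ y ∈ Ico ((i + j) * h) ((i + j + 1) * h), Φ y := by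
  induction n with
  | zero => simp
  | succ n ih =>
    have h0 : (0 : ℤ) ≤ h := by positivity
    have h1 : (0 : ℤ) ≤ n * h := by positivity
    rw [sum_range_succ, ← ih, Nat.cast_succ, ← add_assoc]
    exact sum_Ico_split Φ (by linarith) (by linarith)

theorem norm_sum_le_of_blocks (G : ℤ → ℂ) (hG : ∀ y, ‖G y‖ ≤ 1) {h : ℕ} (h0 : h ≠ 0)
    (hz : ∀ i : ℤ, ∑ y ∈ Ico (i * h) ((i + 1) * h), G y = 0) (A : ℤ) (H : ℕ) :
    ‖∑ y ∈ Ico A (A + H), G y‖ ≤ 2 * h := by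
  have h1 : (0 : ℤ) < h := by omega
  have key : ∀ B : ℤ, ‖∑ y ∈ Ico (B / h * h) B, G y‖ ≤ h := fun B => by
    refine (norm_sum_le _ _).trans ((sum_le_card_nsmul _ _ 1 (fun y _ => hG y)).trans ?_)
    rw [Int.card_Ico, nsmul_eq_mul, mul_one, Nat.cast_le]
    have := Int.emod_lt_of_pos B h1
    have := Int.ediv_mul_add_emod B h
    omega
  have hle : ∀ B : ℤ, B / h * h ≤ B := fun B => Int.ediv_mul_le B h1.ne'
  have h2 : A / h ≤ (A + H) / h := Int.ediv_le_ediv h1 (by omega)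
  have h3 := sum_blocks G h (A / h) ((A + H) / h - A / h).toNat
  rw [Int.toNat_of_nonneg (by omega), add_sub_cancel, sum_eq_zero (fun j _ => hz _)] at h3
  have h4 := sum_Ico_split G (hle A) (show A ≤ A + H by omega)
  rw [sum_Ico_split G (mul_le_mul_of_nonneg_right h2 h1.le) (hle _), h3, zero_add] at h4
  rw [eq_sub_of_add_eq' h4.symm]
  linarith [norm_sub_le (∑ y ∈ Ico ((A + H) / h * h) (A + H), G y) (∑ y ∈ Ico (A / h * h) A, G y),
    key A, key (A + H)]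

/-- The average of `f` over the cell of `y`. -/
noncomputable def avg (f : ℤ → ℝ) (W t : ℕ) (y : ℤ) : ℝ :=
  (∑ s ∈ range t, f ((y / (W * t : ℕ) * t + s) * W + y % W)) / t

theorem avg_mem {f : ℤ → ℝ} (h0 : ∀ y, 0 ≤ f y) (h1 : ∀ y, f y ≤ 1) (W t : ℕ) (y : ℤ) :
    0 ≤ avg f W t y ∧ avg f W t y ≤ 1 :=
  ⟨div_nonneg (sum_nonneg (fun _ _ => h0 _)) (Nat.cast_nonneg _), div_le_one_of_le₀
    ((sum_le_card_nsmul _ _ 1 (fun _ _ => h1 _)).trans (by simp)) (Nat.cast_nonneg _)⟩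

theorem abs_res_le {f : ℤ → ℝ} (h0 : ∀ y, 0 ≤ f y) (h1 : ∀ y, f y ≤ 1) (W t : ℕ) (B : ℤ → Prop)
    (y : ℤ) : |ind (B (y / (W * t : ℕ))) * (f y - avg f W t y)| ≤ 1 := by
  obtain ⟨a1, a2⟩ := avg_mem h0 h1 W t y
  rw [abs_mul, abs_of_nonneg (ind_nonneg _)]
  exact mul_le_one₀ (ind_le_one _) (abs_nonneg _)
    (abs_le.2 ⟨by linarith [h0 y], by linarith [h1 y]⟩)

theorem unif_res {f : ℤ → ℝ} (h0 : ∀ y, 0 ≤ f y) (h1 : ∀ y, f y ≤ 1) (Q : ℝ) {t : ℕ} (ht : t ≠ 0)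
    (B : ℤ → Prop) : Unif Q (2 * (⌊Q⌋₊.factorial * t : ℕ)) (fun y =>
      ind (B (y / (⌊Q⌋₊.factorial * t : ℕ))) * (f y - avg f ⌊Q⌋₊.factorial t y)) := by
  intro q hq A H
  obtain ⟨w, hw⟩ := Nat.dvd_factorial q.den_pos (Nat.le_floor hq)
  have hW := ⌊Q⌋₊.factorial_ne_zero
  set W := ⌊Q⌋₊.factorial
  refine norm_sum_le_of_blocks _ (fun y => ?_) (Nat.mul_ne_zero hW ht) (fun i => ?_) A H
  · rw [norm_mul, norm_ee, mul_one, Complex.norm_real]
    exact abs_res_le h0 h1 W t B y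
  · rw [sum_block _ hW]
    refine sum_eq_zero (fun a ha => ?_)
    rw [sum_congr rfl (g := fun s : ℕ => ((ind (B i) * (f ((i * t + s) * W + a)
      - (∑ s ∈ range t, f ((i * t + s) * W + a)) / t) : ℝ) : ℂ) * ee (a * q)) (fun s hs => ?_)]
    · rw [← sum_mul, ← Complex.ofReal_sum, ← mul_sum, sum_sub_distrib, sum_const, card_range,
        nsmul_eq_mul, mul_div_cancel₀ _ (Nat.cast_ne_zero.2 ht)]
      simp
    · obtain ⟨a1, a2, -⟩ := cell_div i (mem_range.1 ha) (mem_range.1 hs)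
      have a3 : (((i * t + s) * W + a : ℤ) : ℝ) * q = ((i * t + s) * w * q.num : ℤ) + a * q := by
        have a4 : (q : ℝ) * q.den = q.num := by exact_mod_cast Rat.mul_den_eq_num q
        rw [hw]
        push_cast
        linear_combination ((i * t + s) * w : ℝ) * a4
      simp only [avg, a1, a2]
      rw [a3, ee_add, ee_int, one_mul]

theorem dens_zero {f : ℤ → ℝ} (h0 : ∀ y, 0 ≤ f y) (h1 : ∀ y, f y ≤ 1)
    (h : ∀ ε : ℝ, 0 < ε → ∃ L : ℕ, L ≠ 0 ∧ ∀ᶠ t : ℕ in atTop,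
      ∑ y ∈ Ico (L * t : ℤ) (2 * (L * t)), f y ≤ ε * (L * t)) :
    Tendsto (fun Y : ℕ => (∑ y ∈ Ico (0 : ℤ) Y, f y) / Y) atTop (𝓝 0) := by
  refine tendsto_order.2 ⟨fun a ha => Eventually.of_forall (fun Y => ha.trans_le
    (div_nonneg (sum_nonneg (fun _ _ => h0 _)) (Nat.cast_nonneg _))), fun ε hε => ?_⟩
  obtain ⟨L, hL, h2⟩ := h (ε / 4) (by positivity)
  obtain ⟨t₀, h2⟩ := eventually_atTop.1 h2
  have hL0 : (0 : ℝ) < L := Nat.cast_pos.2 (Nat.pos_of_ne_zero hL)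
  have hmono : ∀ {A B : ℤ}, A ≤ B → ∑ y ∈ Ico (0 : ℤ) A, f y ≤ ∑ y ∈ Ico (0 : ℤ) B, f y :=
    fun hAB => sum_le_sum_of_subset_of_nonneg (Ico_subset_Ico_right hAB) (fun _ _ _ => h0 _)
  have key : ∀ t : ℕ, ∑ y ∈ Ico (0 : ℤ) (L * t), f y ≤ L * (2 * t₀ + 3) + ε / 2 * (L * t) := by
    intro t
    induction t using Nat.strong_induction_on with
    | _ t ih =>
      by_cases ht : t < 2 * t₀ + 3
      · refine (sum_le_card_nsmul _ _ 1 (fun y _ => h1 y)).trans ?_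
        rw [Int.card_Ico, sub_zero, ← Nat.cast_mul, Int.toNat_natCast, nsmul_eq_mul, mul_one]
        have a1 : (t : ℝ) ≤ 2 * t₀ + 3 := by exact_mod_cast ht.le
        have a2 := mul_le_mul_of_nonneg_left a1 hL0.le
        push_cast
        exact a2.trans (le_add_of_nonneg_right (by positivity))
      · have a1 := ih ((t + 1) / 2) (by omega)
        have a2 := h2 ((t + 1) / 2) (by omega)
        have a3 : (3 : ℝ) * ((t + 1) / 2 : ℕ) ≤ 2 * t := by
          exact_mod_cast (by omega : 3 * ((t + 1) / 2) ≤ 2 * t)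
        have a4 : (t : ℤ) ≤ 2 * ((t + 1) / 2 : ℕ) := by omega
        generalize (t + 1) / 2 = u at *
        have a5 : (0 : ℤ) ≤ L * u := by positivity
        refine (hmono (B := 2 * (L * u)) (by nlinarith)).trans ?_
        rw [sum_Ico_split f a5 (by linarith)]
        nlinarith [mul_le_mul_of_nonneg_left a3 (mul_pos hε hL0).le]
  have h3 := (tendsto_const_div_atTop_nhds_zero_nat (L * (2 * t₀ + 3) + ε / 2 * L : ℝ)).eventually
    (gt_mem_nhds (half_pos hε))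
  filter_upwards [h3, eventually_gt_atTop 0] with Y a1 a2
  have a3 : (0 : ℝ) < Y := Nat.cast_pos.2 a2
  rw [div_lt_iff₀ a3] at a1 ⊢
  have a4 := Nat.lt_mul_div_succ Y (Nat.pos_of_ne_zero hL)
  have a5 : (L : ℝ) * (Y / L : ℕ) ≤ Y := by exact_mod_cast Nat.mul_div_le Y L
  have a6 := (hmono (A := Y) (by exact_mod_cast a4.le)).trans (key (Y / L + 1))
  rw [Nat.cast_succ] at a6
  nlinarith [mul_le_mul_of_nonneg_left a5 hε.le]

namespace RQ

variable (F : RQ)

theorem block_small (P : ℤ → Prop) (hP1 : ∀ y, P y → Even (F.b * y))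
    (hP2 : ∀ z : F.O, P z.im → 0 < F.σ₁ z → F.σ₂ z < 0 →
      ¬ (Ideal.absNorm (Ideal.span {z})).Prime) (ε : ℝ) (hε : 0 < ε) :
    ∃ L : ℕ, L ≠ 0 ∧ ∀ᶠ t : ℕ in atTop,
      ∑ y ∈ Ico (L * t : ℤ) (2 * (L * t)), ind (P y) ≤ ε * (L * t) := by
  classical
  obtain ⟨C, hC, hloc⟩ := F.local_bound
  obtain ⟨c, hc, hstr⟩ := F.strip
  obtain ⟨τ, hτ⟩ : ∃ τ, τ = ε / (2 * C) := ⟨_, rfl⟩
  have hτ0 : 0 < τ := by rw [hτ]; positivity
  obtain ⟨Q, η, -, hη, hsm⟩ := F.main_small (show 0 < ε * τ * c / 6 by positivity)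
  obtain ⟨J, hJ⟩ := exists_nat_gt (6 / η)
  have hJ0 : (0 : ℝ) < J := lt_trans (by positivity) hJ
  have hU := fun t ht => unif_res (f := fun y => ind (P y)) (fun _ => ind_nonneg _)
    (fun _ => ind_le_one _) Q (t := t) ht (fun i => J ≤ i ∧ i < 2 * J)
  have hW := ⌊Q⌋₊.factorial_ne_zero
  generalize ⌊Q⌋₊.factorial = W at hU hW
  have hW0 : (0 : ℝ) < W := Nat.cast_pos.2 (Nat.pos_of_ne_zero hW)
  have hδ := F.one_le_δ
  have := F.finite_RW hW
  have hG : (0 : ℝ) < Nat.card (F.RW W)ˣ := by exact_mod_cast Nat.card_pos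
  have hG1 := F.card_units_le hW
  obtain ⟨hl1, hl2⟩ := hloc hW
  generalize ∑ y ∈ range W, F.AW W y = Φ at hG1 hl1
  have hΦ0 : 0 < Φ := by linarith
  refine ⟨J * W, Nat.mul_ne_zero (Nat.cast_pos.1 hJ0).ne' hW, ?_⟩
  have hK : Tendsto (fun t : ℕ => F.δ * J * W / 3 * t) atTop atTop :=
    tendsto_natCast_atTop_atTop.const_mul_atTop (by positivity)
  have hev := (eventually_all_finset (range J ×ˢ range W ×ˢ range W)
    (p := fun x (K : ℝ) => ind (Nat.Coprime (QuadraticAlgebra.norm (⟨x.2.2, x.2.1⟩ : F.O)).natAbs W)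
      * (c * (3 / J) / Nat.card (F.RW W)ˣ * (K ^ 2 / Real.log K)) ≤ ∑ z ∈ F.Om K,
      ind (F.cl W z = (Ideal.Quotient.mk _ (⟨x.2.2, x.2.1⟩ : F.O), 1, -1) ∧
        3 * (J + x.1) / J * K < F.δ * z.im ∧ F.δ * z.im < 3 * (J + x.1 + 1) / J * K ∧
        (Ideal.absNorm (Ideal.span {z})).Prime))).2 (fun x hx => by
      by_cases h : Nat.Coprime (QuadraticAlgebra.norm (⟨x.2.2, x.2.1⟩ : F.O)).natAbs W
      · have a1 : IsUnit ((Ideal.Quotient.mk _ (⟨x.2.2, x.2.1⟩ : F.O), 1, -1) : F.RW W) :=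
          Prod.isUnit_iff.2 ⟨F.isUnit_mk.2 h, Prod.isUnit_iff.2 ⟨isUnit_one, isUnit_one.neg⟩⟩
        have a2 : (x.1 : ℝ) + 1 ≤ J := by exact_mod_cast mem_range.1 (mem_product.1 hx).1
        have a3 : (0 : ℝ) ≤ x.1 := Nat.cast_nonneg _
        filter_upwards [hstr hW a1.unit rfl (β₁ := 3 * (J + x.1) / J) (β₂ := 3 * (J + x.1 + 1) / J)
          (by rw [le_div_iff₀ hJ0]; linarith) (div_lt_div_of_pos_right (by linarith) hJ0)
          (by rw [div_le_iff₀ hJ0]; linarith)] with K hK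
        rw [ind_pos h, one_mul]
        rwa [← sub_div, show 3 * (J + x.1 + 1 : ℝ) - 3 * (J + x.1) = 3 by ring] at hK
      · rw [ind_neg h]
        exact Eventually.of_forall (fun K => by
          rw [zero_mul]; exact sum_nonneg (fun _ _ => ind_nonneg _)))
  filter_upwards [hK.eventually hev, hK.eventually hsm, hK.eventually (eventually_gt_atTop 1),
    eventually_ne_atTop 0] with t a1 a2 a3 ht
  have ht0 : (0 : ℝ) < t := Nat.cast_pos.2 (Nat.pos_of_ne_zero ht)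
  obtain ⟨K, hKd⟩ : ∃ K, K = F.δ * J * W / 3 * t := ⟨_, rfl⟩
  rw [← hKd] at a1 a2 a3
  clear hev hstr hsm hloc hK
  have hK0 : 0 < K := by linarith
  have hV : 0 < K ^ 2 / Real.log K := div_pos (by positivity) (Real.log_pos a3)
  have b1 := (abs_le.1 (a2 _ (abs_res_le (f := fun y => ind (P y)) (fun _ => ind_nonneg _)
    (fun _ => ind_le_one _) W t (fun i => J ≤ i ∧ i < 2 * J))
    (fun q hq A H => (hU t ht q hq A H).trans (by
      rw [div_lt_iff₀ hη] at hJ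
      have c1 : 6 ≤ F.δ * (J * η) := by nlinarith
      have c2 := mul_le_mul_of_nonneg_right c1 (mul_pos hW0 ht0).le
      rw [hKd]; push_cast; linarith)))).1
  obtain ⟨n, hn⟩ : ∃ n : ℕ → ℕ → ℝ, ∀ i a : ℕ,
    n i a = ∑ s ∈ range t, ind (P (((J + i) * t + s) * W + a)) := ⟨_, fun _ _ => rfl⟩
  have hn0 : ∀ i a, 0 ≤ n i a := fun _ _ => (hn _ _).symm ▸ sum_nonneg (fun _ _ => ind_nonneg _)
  have b2 : ∑ x ∈ range J ×ˢ range W ×ˢ range W, n x.1 x.2.1 / t *
      (ind (Nat.Coprime (QuadraticAlgebra.norm (⟨x.2.2, x.2.1⟩ : F.O)).natAbs W)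
      * (c * (3 / J) / Nat.card (F.RW W)ˣ * (K ^ 2 / Real.log K)))
      ≤ ε * τ * c / 6 * (K ^ 2 / Real.log K) := by
    refine (sum_le_sum (fun x hx => mul_le_mul_of_nonneg_left (a1 x hx)
      (div_nonneg (hn0 _ _) ht0.le))).trans (le_trans ?_ (neg_le.1 b1))
    simp only [mul_sum]
    rw [sum_comm, ← sum_neg_distrib]
    refine sum_le_sum (fun z hz => ?_)
    obtain ⟨c1, -, -, c2⟩ := F.mem_box.1 hz
    have c3 : ind (Ideal.absNorm (Ideal.span {z})).Prime * ind (P z.im) = 0 := by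
      rw [← ind_and]
      exact ind_neg (fun h => hP2 z h.2 (by linarith) (by linarith) h.1)
    rw [mul_left_comm, mul_sub, c3, zero_sub, mul_neg, neg_neg]
    have c4 : ∀ x ∈ range J ×ˢ range W ×ˢ range W,
        (F.cl W z = (Ideal.Quotient.mk _ (⟨x.2.2, x.2.1⟩ : F.O), 1, -1) ∧
        3 * (J + x.1) / J * K < F.δ * z.im ∧ F.δ * z.im < 3 * (J + x.1 + 1) / J * K ∧
        (Ideal.absNorm (Ideal.span {z})).Prime) →
        z.im / (W * t : ℕ) = J + x.1 ∧ z.im % W = x.2.1 ∧ z.re % W = x.2.2 := by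
      rintro x hx ⟨d1, d2, d3, -⟩
      simp only [mem_product, mem_range] at hx
      obtain ⟨d4, d5⟩ := F.mk_eq_iff.1 (congrArg Prod.fst d1)
      refine ⟨?_, d5.trans (Int.emod_eq_of_lt (by simp) (by simp [hx.2.1])),
        d4.trans (Int.emod_eq_of_lt (by simp) (by simp [hx.2.2]))⟩
      rw [show 3 * (J + x.1) / J * K = F.δ * ((J + x.1) * (W * t)) by rw [hKd]; field_simp] at d2
      rw [show 3 * (J + x.1 + 1) / J * K = F.δ * ((J + x.1 + 1) * (W * t)) by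
        rw [hKd]; field_simp] at d3
      have d6 : ((J + x.1) * (W * t : ℕ) : ℤ) < z.im := by
        exact_mod_cast lt_of_mul_lt_mul_left d2 F.δ_pos.le
      have d7 : z.im < ((J + x.1 + 1) * (W * t : ℕ) : ℤ) := by
        exact_mod_cast lt_of_mul_lt_mul_left d3 F.δ_pos.le
      have d8 : (0 : ℤ) < (W * t : ℕ) := by exact_mod_cast Nat.pos_of_ne_zero (Nat.mul_ne_zero hW ht)
      exact le_antisymm (Int.lt_add_one_iff.1 ((Int.ediv_lt_iff_lt_mul d8).2 d7))
        ((Int.le_ediv_iff_mul_le d8).2 d6.le)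
    by_cases h : ∃ x ∈ range J ×ˢ range W ×ˢ range W,
        (F.cl W z = (Ideal.Quotient.mk _ (⟨x.2.2, x.2.1⟩ : F.O), 1, -1) ∧
        3 * (J + x.1) / J * K < F.δ * z.im ∧ F.δ * z.im < 3 * (J + x.1 + 1) / J * K ∧
        (Ideal.absNorm (Ideal.span {z})).Prime)
    · obtain ⟨x, hx, h⟩ := h
      obtain ⟨d1, d2, d3⟩ := c4 x hx h
      have d4 := mem_range.1 (mem_product.1 hx).1
      rw [sum_eq_single_of_mem x hx (fun x' hx' hne => by
        rw [ind_neg (fun h' => hne ?_), mul_zero]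
        obtain ⟨e1, e2, e3⟩ := c4 x' hx' h'
        exact Prod.ext (by omega) (Prod.ext (by omega) (by omega))), ind_pos h, ind_pos h.2.2.2,
        ind_pos (by omega), avg, d1, d2]
      simp [hn]
    · rw [sum_eq_zero (fun x hx => by rw [ind_neg (fun h' => h ⟨x, hx, h'⟩), mul_zero])]
      exact mul_nonneg (ind_nonneg _) (mul_nonneg (ind_nonneg _)
        (avg_mem (fun _ => ind_nonneg _) (fun _ => ind_le_one _) _ _ _).1)
  have b3 : ∑ i ∈ range J, ∑ a ∈ range W, n i a * F.AW W a ≤ ε * τ / 2 * (J * t * Φ) := by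
    have c1 : (∑ i ∈ range J, ∑ a ∈ range W, n i a * F.AW W a) *
        (c * (3 / J) / Nat.card (F.RW W)ˣ * (K ^ 2 / Real.log K) / t)
        ≤ ε * τ * c / 6 * (K ^ 2 / Real.log K) := by
      refine le_trans (le_of_eq ?_) b2
      simp only [sum_product, AW, sum_mul, mul_sum]
      exact sum_congr rfl (fun _ _ => sum_congr rfl (fun _ _ => sum_congr rfl (fun _ _ => by ring)))
    generalize K ^ 2 / Real.log K = V at c1 hV
    rw [← le_div_iff₀ (by positivity)] at c1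
    refine c1.trans ?_
    calc _ = ε * τ / 2 * (J * t * (Nat.card (F.RW W)ˣ / 9)) := by field_simp; ring
      _ ≤ _ := by gcongr; linarith
  have b4 : ∑ y ∈ Ico ((J * W : ℕ) * t : ℤ) (2 * ((J * W : ℕ) * t)), ind (P y)
      = ∑ i ∈ range J, ∑ a ∈ range W, n i a := by
    rw [show ((J * W : ℕ) * t : ℤ) = J * (W * t : ℕ) by push_cast; ring, ← mul_assoc, two_mul,
      sum_blocks]
    simp only [hn]
    exact sum_congr rfl (fun i _ => sum_block _ hW t _)
  have b5 : ∀ i a : ℕ, n i a ≤ τ * Φ / W * t * (F.AW W a)⁻¹ + W / (τ * Φ) * (n i a * F.AW W a) := by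
    intro i a
    rcases (hn0 i a).eq_or_lt with h | h
    · rw [← h]
      have := F.AW_nonneg W a
      positivity
    · obtain ⟨s, -, hs⟩ := exists_ne_zero_of_sum_ne_zero (hn i a ▸ h.ne')
      have c1 := hl2 _ _ (hP1 _ (by_contra (fun h' => hs (ind_neg h'))))
      have c2 : n i a ≤ t := (hn i a).trans_le
        ((sum_le_card_nsmul _ _ 1 (fun _ _ => ind_le_one _)).trans (by simp))
      obtain ⟨v, hv⟩ : ∃ v, v = τ * Φ / W * (F.AW W a)⁻¹ := ⟨_, rfl⟩
      have c3 : 0 < v := by rw [hv]; positivity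
      have c4 : 1 ≤ v + v⁻¹ := by
        rcases le_total 1 v with h' | h'
        · exact h'.trans (le_add_of_nonneg_right (by positivity))
        · exact ((one_le_inv₀ c3).2 h').trans (le_add_of_nonneg_left c3.le)
      calc n i a ≤ n i a * (v + v⁻¹) := le_mul_of_one_le_right h.le c4
        _ ≤ t * v + n i a * v⁻¹ := by rw [mul_add]; gcongr
        _ = _ := by rw [hv]; field_simp
  rw [b4]
  refine (sum_le_sum (fun i _ => sum_le_sum (fun a _ => b5 i a))).trans ?_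
  simp only [sum_add_distrib, ← mul_sum, sum_const, card_range, nsmul_eq_mul]
  calc _ ≤ J * (τ / W * t * (C * W ^ 2)) + W / (τ * Φ) * (ε * τ / 2 * (J * t * Φ)) := by
        refine add_le_add (le_trans (le_of_eq ?_) (mul_le_mul_of_nonneg_left
          (mul_le_mul_of_nonneg_left hl1 (show 0 ≤ τ / W * t by positivity)) hJ0.le))
          (mul_le_mul_of_nonneg_left b3 (by positivity))
        ring
    _ = _ := by rw [hτ]; push_cast; field_simp; ring

theorem main_RQ {D f : ℕ} (hf : f ≠ 0) (h1 : (F.b ^ 2 + 4 * F.a) * f ^ 2 = 4 * D)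
    (h2 : Even (F.b * f)) :
    Tendsto (fun K : ℕ => (∑ k ∈ range K, ind (¬ ∃ p m : ℕ, p.Prime ∧ D * k ^ 2 = p + m ^ 2)) / K)
      atTop (𝓝 0) := by
  let P : ℤ → Prop := fun y => ∃ k : ℕ, y = f * k ∧ ¬ ∃ p m : ℕ, p.Prime ∧ D * k ^ 2 = p + m ^ 2
  have h3 := dens_zero (fun _ => ind_nonneg _) (fun _ => ind_le_one _) (F.block_small P (by
    rintro _ ⟨k, rfl, -⟩
    rw [← mul_assoc]; exact h2.mul_right _) (by
    rintro z ⟨k, a1, a2⟩ a3 a4 a5
    obtain ⟨b, hb⟩ := h2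
    refine a2 ⟨_, (z.re + b * k).natAbs, a5, ?_⟩
    have a6 : z.norm < 0 := by
      have := mul_neg_of_pos_of_neg a3 a4
      rw [F.σ_mul] at this
      exact_mod_cast this
    rw [F.absNorm_span]
    zify
    rw [abs_of_neg a6, sq_abs, norm_def, a1]
    refine mul_left_cancel₀ (by norm_num : (4 : ℤ) ≠ 0) ?_
    linear_combination (-(k : ℤ) ^ 2) * h1 + (4 * z.re * k + k ^ 2 * (F.b * f + 2 * b)) * hb))
  have hf0 : (0 : ℝ) < f := Nat.cast_pos.2 (Nat.pos_of_ne_zero hf)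
  have h4 := (h3.comp (tendsto_id.const_mul_atTop' (Nat.pos_of_ne_zero hf))).const_mul (f : ℝ)
  rw [mul_zero] at h4
  refine squeeze_zero (fun K => div_nonneg (sum_nonneg (fun _ _ => ind_nonneg _))
    (Nat.cast_nonneg _)) (fun K => ?_) h4
  simp only [Function.comp, id, Nat.cast_mul]
  rw [← div_div, ← mul_div_assoc, mul_div_cancel₀ _ hf0.ne']
  refine div_le_div_of_nonneg_right ?_ (Nat.cast_nonneg _)
  classical
  rw [sum_ind_eq_card, sum_ind_eq_card, Nat.cast_le]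
  refine card_le_card_of_injOn (fun k => (f * k : ℤ)) (fun k hk => ?_) (fun k _ k' _ h => ?_)
  · obtain ⟨a1, a2⟩ := mem_filter.1 hk
    refine mem_coe.2 (mem_filter.2 ⟨mem_Ico.2 ⟨by positivity, ?_⟩, k, rfl, a2⟩)
    exact mul_lt_mul_of_pos_left (by exact_mod_cast mem_range.1 a1) (by omega)
  · exact_mod_cast mul_left_cancel₀ (Nat.cast_ne_zero.2 hf) h

end RQ

end Pool.Agent.Lib.MP_d48457_nt
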