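import Pool.Agent.Lib.MP_d48457_nt.Hecke3

set_option autoImplicit false

namespace Pool.Agent.Lib.MP_d48457_nt

open QuadraticAlgebra Finset Filter Topology MeasureTheory

theorem exists_minorant {Λ : ℝ} [Fact (0 < Λ)] (m : ℝ) {ρ : ℝ} (hρ : 0 < ρ) (hρΛ : ρ ≤ Λ) :
    ∃ T ∈ Submodule.span ℂ (Set.range (fourier (T := Λ))), ρ / (4 * Λ) ≤ (fourierCoeff T 0).re ∧
      ∀ x : ℝ, (T (x : AddCircle Λ)).re ≤ ind (∃ k : ℤ, |x + k * Λ - m| < ρ) := by
  have hΛ : 0 < Λ := Fact.out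
  let P : AddCircle Λ → ℝ := fun x => max 0 (1 - ‖x - (m : AddCircle Λ)‖ / ρ)
  have hP : Continuous P := by fun_prop
  have hint : ∀ T : C(AddCircle Λ, ℂ), Integrable T AddCircle.haarAddCircle :=
    fun T => T.continuous.integrable_of_hasCompactSupport (HasCompactSupport.of_compactSpace _)
  set ε := ρ / (8 * Λ) with hε
  have hε0 : 0 < ε := by positivity
  let Q : C(AddCircle Λ, ℂ) := ⟨fun x => ((P x - ε : ℝ) : ℂ), by fun_prop⟩
  have hQ : Q ∈ closure ((Submodule.span ℂ (Set.range (fourier (T := Λ)))) :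
      Set C(AddCircle Λ, ℂ)) := by
    rw [← Submodule.topologicalClosure_coe, span_fourier_closure_eq_top]; trivial
  obtain ⟨T, hT, hd⟩ := Metric.mem_closure_iff.1 hQ ε hε0
  have h1 : ∀ x, |P x - ε - (T x).re| ≤ ε := fun x => by
    have a1 := (ContinuousMap.dist_apply_le_dist x).trans hd.le
    rw [dist_eq_norm] at a1
    simpa [Q] using (Complex.abs_re_le_norm _).trans a1
  refine ⟨T, hT, ?_, fun x => ?_⟩
  · have a1 : (fourierCoeff T 0).re = ∫ x, (T x).re ∂AddCircle.haarAddCircle := by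
      simp only [fourierCoeff, neg_zero, fourier_zero, one_smul]
      exact (integral_re (hint T)).symm
    have hB : MeasurableSet (Metric.closedBall (m : AddCircle Λ) (ρ / 2)) := measurableSet_closedBall
    have a2 : AddCircle.haarAddCircle.real (Metric.closedBall (m : AddCircle Λ) (ρ / 2)) = ρ / Λ := by
      have b1 := AddCircle.volume_closedBall Λ (x := (m : AddCircle Λ)) (ρ / 2)
      rw [AddCircle.volume_eq_smul_haarAddCircle, Measure.smul_apply, smul_eq_mul,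
        min_eq_right (by linarith)] at b1
      have b2 := congrArg ENNReal.toReal b1
      rw [ENNReal.toReal_mul, ENNReal.toReal_ofReal hΛ.le, ENNReal.toReal_ofReal (by linarith)] at b2
      rw [Measure.real, eq_div_iff hΛ.ne']
      linarith
    have a3 := integral_mono (μ := AddCircle.haarAddCircle) (f := fun x =>
      (Metric.closedBall (m : AddCircle Λ) (ρ / 2)).indicator (fun _ => (1 / 2 : ℝ)) x - 2 * ε)
      (g := fun x => (T x).re) (((integrable_const _).indicator hB).sub (integrable_const _))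
      (hint T).re (fun x => by
        have b1 := (abs_le.1 (h1 x)).2
        have b2 : (Metric.closedBall (m : AddCircle Λ) (ρ / 2)).indicator (fun _ => (1 / 2 : ℝ)) x
            ≤ P x := by
          by_cases hx : x ∈ Metric.closedBall (m : AddCircle Λ) (ρ / 2)
          · rw [Set.indicator_of_mem hx]
            refine le_max_of_le_right ?_
            rw [mem_closedBall_iff_norm, le_div_iff₀ (by norm_num)] at hx
            have : ‖x - (m : AddCircle Λ)‖ / ρ ≤ 1 / 2 := by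
              rw [div_le_div_iff₀ hρ (by norm_num)]; linarith
            linarith
          · rw [Set.indicator_of_notMem hx]; exact le_max_left _ _
        simp only
        linarith)
    rw [integral_sub ((integrable_const _).indicator hB) (integrable_const _),
      integral_indicator_const _ hB, a2, integral_const, probReal_univ, one_smul, smul_eq_mul] at a3
    rw [a1]
    refine le_trans (le_of_eq ?_) a3
    rw [hε]; field_simp; ring
  · have a1 := (abs_le.1 (h1 x)).1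
    refine le_trans (show _ ≤ P x by linarith) ?_
    by_cases h : ∃ k : ℤ, |x + k * Λ - m| < ρ
    · rw [ind_pos h]
      exact max_le zero_le_one (sub_le_self _ (by positivity))
    · rw [ind_neg h]
      refine max_le le_rfl ?_
      rw [sub_nonpos, one_le_div hρ, ← AddCircle.coe_sub, AddCircle.norm_eq]
      refine not_lt.1 (fun h' => h ⟨-round (Λ⁻¹ * (x - m)), ?_⟩)
      rwa [show x + ((-round (Λ⁻¹ * (x - m)) : ℤ) : ℝ) * Λ - m
        = x - m - round (Λ⁻¹ * (x - m)) * Λ by push_cast; ring]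

namespace RQ

variable (F : RQ)

theorem exists_n {W : ℕ} (hW : W ≠ 0) : ∃ n : ℕ, n ≠ 0 ∧ 1 ≤ n * (2 * Real.log F.e) ∧
    F.cl W ((F.u ^ n : F.Oˣ) : F.O) = 1 := by
  have := F.finite_RW hW
  have hl := F.log_e_pos
  obtain ⟨j, hj⟩ := exists_nat_gt (1 / (2 * Real.log F.e))
  have h0 : (0 : ℝ) < j := lt_trans (by positivity) hj
  have h1 : 0 < Nat.card (F.RW W)ˣ := Nat.card_pos
  refine ⟨Nat.card (F.RW W)ˣ * j, Nat.mul_ne_zero h1.ne' (by exact_mod_cast h0.ne'), ?_, ?_⟩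
  · rw [div_lt_iff₀ (by positivity)] at hj
    push_cast
    rw [mul_assoc]
    exact one_le_mul_of_one_le_of_one_le (by exact_mod_cast h1) hj.le
  · have : Units.map (F.cl W) (F.u ^ (Nat.card (F.RW W)ˣ * j)) = 1 := by
      rw [map_pow, pow_mul, pow_card_eq_one', one_pow]
    exact congrArg Units.val this

theorem le_card_UQ {n : ℕ} (hn : n ≠ 0) : n ≤ Nat.card (F.UQ n) := by
  have := F.finite_UQ hn
  have key := Nat.card_le_card_of_injective (fun j : Fin n =>
    (QuotientGroup.mk (F.u ^ ((j : ℕ) : ℤ)) : F.UQ n)) (fun i j h => by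
      obtain ⟨k, hk⟩ := QuotientGroup.eq.1 h
      simp only [← zpow_natCast, ← zpow_mul, ← zpow_neg, ← zpow_add] at hk
      have h1 : (n : ℤ) * k = -(i : ℕ) + (j : ℕ) := F.u_zpow_inj hk
      have h2 := i.2
      have h3 := j.2
      have h4 := Int.eq_zero_of_abs_lt_dvd ⟨k, h1.symm⟩ (by rw [abs_lt]; omega)
      exact Fin.ext (by omega))
  simpa using key

theorem cnt_le {W n : ℕ} (hn : n ≠ 0) [Fintype (F.UQ n)]
    (hu : F.cl W ((F.u ^ n : F.Oˣ) : F.O) = 1) (g : (F.RW W)ˣ) (m ρ : ℝ) (J : Ideal F.O)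
    {S : Finset F.O} (A : F.O → Prop)
    (hS : ∀ z, Ideal.span {z} = J → F.cl W z = g → |F.ph z - m| < ρ → z ∈ S ∧ A z) :
    ∑ c : F.UQ n, ind (F.cl W (F.pg J * (c.out : F.Oˣ)) = g) * ind (∃ k : ℤ,
      |F.ph (F.pg J * (c.out : F.Oˣ)) + k * (n * (2 * Real.log F.e)) - m| < ρ)
      ≤ ∑ z ∈ S, ind (A z) := by
  classical
  simp only [← ind_and]
  rw [sum_ind_eq_card, sum_ind_eq_card]
  by_cases hz : F.pg J = 0
  · rw [filter_eq_empty_iff.2 (fun c _ h => F.not_cop_zero W (F.isUnit_cl.1 (by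
      rw [hz, zero_mul] at h; rw [h.1]; exact g.isUnit)))]
    simp
  have hJ : J = Ideal.span {F.pg J} := ((F.pg_spec J).resolve_right (fun h => hz h.2)).2
  have hex : ∀ c : F.UQ n, ∃ k : ℤ, (∃ k : ℤ, |F.ph (F.pg J * (c.out : F.Oˣ))
      + k * (n * (2 * Real.log F.e)) - m| < ρ) → |F.ph (F.pg J * (c.out : F.Oˣ))
      + k * (n * (2 * Real.log F.e)) - m| < ρ := fun c => by
    by_cases h : ∃ k : ℤ, |F.ph (F.pg J * (c.out : F.Oˣ)) + k * (n * (2 * Real.log F.e)) - m| < ρ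
    · exact ⟨h.choose, fun _ => h.choose_spec⟩
    · exact ⟨0, fun h' => (h h').elim⟩
  choose k hk using hex
  refine Nat.cast_le.2 (card_le_card_of_injOn (fun c => F.par n (F.pg J) (c, k c)) (fun c hc => ?_)
    (fun c _ c' _ h => congrArg Prod.fst (F.par_inj hn hz h)))
  obtain ⟨h1, h2⟩ := (mem_filter.1 hc).2
  refine mem_coe.2 (mem_filter.2 (hS _ ((F.span_par _ _ _).trans hJ.symm) ?_ (by
    rw [F.ph_par hz]; exact hk c h2)))
  have h3 : Units.map (F.cl W) (F.u ^ n) = 1 := Units.ext hu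
  have h4 : F.cl W ((F.u ^ (n * k c) : F.Oˣ) : F.O) = 1 := by
    change ((Units.map (F.cl W) (F.u ^ (n * k c)) : (F.RW W)ˣ) : F.RW W) = 1
    rw [zpow_mul, zpow_natCast, map_zpow, h3, one_zpow, Units.val_one]
  simp only [par]
  rw [map_mul, h4, mul_one, h1]

open ArithmeticFunction in
theorem bb_le {w : Ideal F.O → ℂ} {ν : ℝ} (hν : 0 ≤ ν) (h1 : ∀ J, (w J).re ≤ ν) {S : Finset F.O}
    (A : F.O → Prop) (k : ℕ) (h2 : k.Prime → ∀ J, Ideal.absNorm J = k →
      (w J).re ≤ ∑ z ∈ S, ind (A z ∧ Ideal.span {z} = J)) :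
    (F.bb w k).re ≤ Real.log k * ∑ z ∈ S, ind (A z ∧ Ideal.absNorm (Ideal.span {z}) = k)
      + 2 * ν * (if ¬ k.Prime then vonMangoldt k else 0) := by
  have h0 : 0 ≤ Real.log k * ∑ z ∈ S, ind (A z ∧ Ideal.absNorm (Ideal.span {z}) = k) :=
    mul_nonneg (Real.log_natCast_nonneg _) (sum_nonneg (fun _ _ => ind_nonneg _))
  rw [bb_apply, Complex.re_sum]
  simp only [Complex.re_mul_ofReal]
  by_cases hk : k.Prime
  · rw [if_neg (not_not.2 hk), mul_zero, add_zero]
    have h3 : ∀ x ∈ F.ppN k, x.2 = 1 ∧ Ideal.absNorm x.1 = k := fun x hx => by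
      have h4 := (F.mem_ppN.1 hx).2.2
      have h5 := Nat.Prime.eq_one_of_pow (h4 ▸ hk)
      exact ⟨h5, by rwa [h5, pow_one] at h4⟩
    refine (sum_le_sum (g := fun x => Real.log k * ∑ z ∈ S, ind (A z ∧ Ideal.span {z} = x.1))
      (fun x hx => ?_)).trans ?_
    · rw [(h3 x hx).1, pow_one, (h3 x hx).2, mul_comm]
      exact mul_le_mul_of_nonneg_left (h2 hk _ (h3 x hx).2) (Real.log_natCast_nonneg _)
    · rw [← mul_sum, sum_comm]
      refine mul_le_mul_of_nonneg_left (sum_le_sum (fun z _ => ?_)) (Real.log_natCast_nonneg _)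
      by_cases h : (Ideal.span {z}, 1) ∈ F.ppN k
      · rw [sum_eq_single_of_mem _ h (fun x hx hne => ind_neg (fun h => hne
          (Prod.ext h.2.symm (h3 x hx).1)))]
        exact ind_mono (fun h' => ⟨h'.1, (h3 _ h).2⟩)
      · rw [sum_eq_zero (fun x hx => ind_neg (fun h' => h (by
          rw [h'.2, ← (h3 x hx).1]; exact hx)))]
        exact ind_nonneg _
  · rw [if_pos hk]
    refine le_trans ?_ (le_add_of_nonneg_left h0)
    refine (sum_le_sum (fun x _ => mul_le_mul_of_nonneg_right (h1 _)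
      (Real.log_natCast_nonneg _))).trans ?_
    rw [← mul_sum, mul_comm 2, mul_assoc]
    exact mul_le_mul_of_nonneg_left (F.Lam_le k) hν

/-- The counting condition. -/
def Cnd (W : ℕ) (g : F.RW W) (m ρ a b : ℝ) (z : F.O) : Prop :=
  F.cl W z = g ∧ |F.ph z - m| < ρ ∧ a < F.nrm (Ideal.span {z}) ∧ F.nrm (Ideal.span {z}) ≤ b ∧
    (Ideal.absNorm (Ideal.span {z})).Prime

theorem HP : ∃ c₀ : ℝ, 0 < c₀ ∧ ∀ {W : ℕ}, W ≠ 0 → ∀ (g : (F.RW W)ˣ) (m : ℝ) {ρ t₁ t₂ : ℝ},
    0 < ρ → ρ ≤ 1 → 0 < t₁ → t₁ < t₂ → ∀ᶠ X : ℝ in atTop, ∀ S : Finset F.O,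
      (∀ z, F.Cnd W g m ρ (t₁ * X) (t₂ * X) z → z ∈ S) →
      c₀ * (t₂ - t₁) * ρ / Nat.card (F.RW W)ˣ * (X / Real.log X)
        ≤ ∑ z ∈ S, ind (F.Cnd W g m ρ (t₁ * X) (t₂ * X) z) := by
  have hl := F.log_e_pos
  have hh : (0 : ℝ) < Nat.card (ClassGroup F.O)ˣ := by exact_mod_cast Nat.card_pos
  refine ⟨1 / (64 * Nat.card (ClassGroup F.O)ˣ * Real.log F.e), by positivity, ?_⟩
  intro W hW g m ρ t₁ t₂ hρ hρ1 ht₁ ht₂
  obtain ⟨n, hn, hn1, hu⟩ := F.exists_n hW
  have := F.finite_UQ hn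
  have := Fintype.ofFinite (F.UQ n)
  have := F.finite_RW hW
  have hG : (0 : ℝ) < Nat.card (F.RW W)ˣ := by exact_mod_cast Nat.card_pos
  have hn0 : (0 : ℝ) < n := Nat.cast_pos.2 (Nat.pos_of_ne_zero hn)
  set Λ := n * (2 * Real.log F.e) with hΛ
  have : Fact (0 < Λ) := ⟨by linarith⟩
  obtain ⟨T, hT, hT1, hT2⟩ := exists_minorant (Λ := Λ) m hρ (by linarith)
  have hA := F.asym_T hW hΛ hu g T hT
  set w : Ideal F.O → ℂ := fun J => ∑ c : F.UQ n, ind (F.cl W (F.pg J * (c.out : F.Oˣ)) = g) *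
    T (F.ph (F.pg J * (c.out : F.Oˣ)) : ℝ) with hw
  set ν : ℝ := ((Nat.card (F.UQ n) : ℕ) : ℝ) with hν
  have hν1 : (n : ℝ) ≤ ν := by rw [hν]; exact_mod_cast F.le_card_UQ hn
  set δ := ρ / (8 * Nat.card (ClassGroup F.O)ˣ * Real.log F.e * Nat.card (F.RW W)ˣ) with hδ
  have hδ0 : 0 < δ := by positivity
  set d : ℂ := Nat.card (F.UQ n) * F.d0 W / Nat.card (F.RW W)ˣ * fourierCoeff T 0 with hd
  have hd1 : δ ≤ d.re := by
    have a1 : d = ((ν * F.d0 W / Nat.card (F.RW W)ˣ : ℝ) : ℂ) * fourierCoeff T 0 := by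
      rw [hd, hν]; push_cast; rfl
    have a2 := F.le_d0 W
    have a3 : 0 ≤ F.d0 W := le_trans (by positivity) a2
    rw [a1, Complex.re_ofReal_mul]
    calc δ = n * (1 / Nat.card (ClassGroup F.O)ˣ) / Nat.card (F.RW W)ˣ * (ρ / (4 * Λ)) := by
          rw [hδ, hΛ]; field_simp; ring
      _ ≤ _ := by gcongr
  have hre : ∀ J, (w J).re ≤ ∑ c : F.UQ n, ind (F.cl W (F.pg J * (c.out : F.Oˣ)) = g) *
      ind (∃ k : ℤ, |F.ph (F.pg J * (c.out : F.Oˣ)) + k * Λ - m| < ρ) := fun J => by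
    rw [hw, Complex.re_sum]
    exact sum_le_sum (fun c _ => by
      rw [Complex.re_ofReal_mul]; exact mul_le_mul_of_nonneg_left (hT2 _) (ind_nonneg _))
  have hre1 : ∀ J, (w J).re ≤ ν := fun J => (hre J).trans ((sum_le_card_nsmul _ _ 1 (fun c _ =>
    mul_le_one₀ (ind_le_one _) (ind_nonneg _) (ind_le_one _))).trans (by simp [hν]))
  have ht : 0 < t₂ := by linarith
  have hlim : ∀ t : ℝ, 0 < t → Tendsto (fun X : ℝ => (∑ k ∈ Icc 1 ⌊t * X⌋₊, F.bb w k).re / X)
      atTop (𝓝 (t * d.re)) := by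
    intro t ht
    refine (((Complex.continuous_re.tendsto _).comp (hA.comp
      (tendsto_id.const_mul_atTop ht))).const_mul t).congr (fun X => ?_)
    simp only [Function.comp, id, Complex.div_ofReal_re]
    field_simp
  have h1 := ((hlim t₂ ht).sub (hlim t₁ ht₁)).eventually (lt_mem_nhds
    (show (t₂ - t₁) * δ / 2 < t₂ * d.re - t₁ * d.re by
      have := mul_le_mul_of_nonneg_left hd1 (sub_pos.2 ht₂).le
      have := mul_pos (sub_pos.2 ht₂) hδ0
      linarith))
  have h2 : Tendsto (fun X : ℝ => 2 * ν * ((Chebyshev.psi (t₂ * X) - Chebyshev.theta (t₂ * X)) / X))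
      atTop (𝓝 0) := by
    have a0 : (fun x : ℝ => √x) =o[atTop] (fun x => x) := by
      refine Asymptotics.isLittleO_of_tendsto' (by
        filter_upwards [eventually_gt_atTop 0] with x hx h using absurd h hx.ne') ?_
      refine (Real.tendsto_sqrt_atTop.inv_tendsto_atTop).congr (fun x => ?_)
      simp [Real.sqrt_div_self']
    have a1 := ((Chebyshev.isBigO_psi_sub_theta_sqrt.trans_isLittleO a0).tendsto_div_nhds_zero.comp
      (tendsto_id.const_mul_atTop ht)).const_mul (2 * ν * t₂)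
    rw [mul_zero] at a1
    refine a1.congr (fun X => ?_)
    simp only [Function.comp, id, Pi.sub_apply]
    field_simp
  filter_upwards [h1, h2.eventually (gt_mem_nhds (show 0 < (t₂ - t₁) * δ / 4 by
    have := mul_pos (sub_pos.2 ht₂) hδ0
    positivity)), eventually_gt_atTop 1, eventually_ge_atTop t₂, eventually_ge_atTop (1 / t₂)]
    with X a1 a2 a3 a4 a5 S hS
  have hX0 : 0 < X := by linarith
  have hlX := Real.log_pos a3
  have hfl : ⌊t₁ * X⌋₊ ≤ ⌊t₂ * X⌋₊ := Nat.floor_le_floor (by gcongr)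
  set N := ∑ z ∈ S, ind (F.Cnd W g m ρ (t₁ * X) (t₂ * X) z) with hN
  have b1 : (∑ k ∈ Icc 1 ⌊t₂ * X⌋₊, F.bb w k).re - (∑ k ∈ Icc 1 ⌊t₁ * X⌋₊, F.bb w k).re
      ≤ 2 * Real.log X * N + 2 * ν * (Chebyshev.psi (t₂ * X) - Chebyshev.theta (t₂ * X)) := by
    rw [show Icc 1 ⌊t₂ * X⌋₊ = Ioc 0 ⌊t₂ * X⌋₊ from rfl, show Icc 1 ⌊t₁ * X⌋₊ = Ioc 0 ⌊t₁ * X⌋₊ from rfl,
      ← sum_Ioc_consecutive _ (Nat.zero_le _) hfl, Complex.add_re, add_sub_cancel_left,
      Complex.re_sum]
    refine (sum_le_sum (fun k hk => F.bb_le (by linarith) hre1 (S := S)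
      (F.Cnd W g m ρ (t₁ * X) (t₂ * X)) k (fun hp J hJ => (hre J).trans
        (F.cnt_le hn hu g m ρ J _ (fun z c1 c2 c3 => ?_))))).trans ?_
    · have c4 : F.Cnd W g m ρ (t₁ * X) (t₂ * X) z := by
        refine ⟨c2, c3, ?_, ?_, by rwa [c1, hJ]⟩
        · rw [c1, nrm, hJ]; exact Nat.lt_of_floor_lt (mem_Ioc.1 hk).1
        · rw [c1, nrm, hJ]; exact (Nat.le_floor_iff (by positivity)).1 (mem_Ioc.1 hk).2
      exact ⟨hS z c4, c4, c1⟩
    rw [sum_add_distrib, ← mul_sum]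
    refine add_le_add ?_ (mul_le_mul_of_nonneg_left ?_ (by linarith))
    · refine (sum_le_sum (g := fun k => 2 * Real.log X * ∑ z ∈ S,
        ind (F.Cnd W g m ρ (t₁ * X) (t₂ * X) z ∧ Ideal.absNorm (Ideal.span {z}) = k))
        (fun k hk => mul_le_mul_of_nonneg_right ?_ (sum_nonneg (fun _ _ => ind_nonneg _)))).trans ?_
      · have c1 : (k : ℝ) ≤ t₂ * X := (Nat.le_floor_iff (by positivity)).1 (mem_Ioc.1 hk).2
        have c2 : (0 : ℝ) < k := Nat.cast_pos.2 ((Nat.zero_le _).trans_lt (mem_Ioc.1 hk).1)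
        have c3 := Real.log_le_log c2 (c1.trans (show t₂ * X ≤ X ^ 2 by nlinarith))
        rwa [Real.log_pow, Nat.cast_ofNat] at c3
      · rw [← mul_sum, sum_comm]
        refine mul_le_mul_of_nonneg_left (sum_le_sum (fun z _ => ?_)) (by positivity)
        simp only [ind_and, ← mul_sum]
        refine mul_le_of_le_one_right (ind_nonneg _) ?_
        rw [sum_ind_eq_card]
        refine Nat.cast_le_one.2 (card_le_one.2 (fun a ha b hb => ?_))
        exact (mem_filter.1 ha).2.symm.trans (mem_filter.1 hb).2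
    · rw [Chebyshev.psi_sub_theta_eq_sum_not_prime, sum_filter]
      exact sum_le_sum_of_subset_of_nonneg (Ioc_subset_Ioc_left (Nat.zero_le _)) (fun k _ _ => by
        split_ifs
        · exact le_rfl
        · exact ArithmeticFunction.vonMangoldt_nonneg)
  rw [← sub_div, lt_div_iff₀ hX0] at a1
  rw [← mul_div_assoc, div_lt_iff₀ hX0] at a2
  have b2 : (t₂ - t₁) * δ / 4 * X ≤ 2 * Real.log X * N := by linarith
  calc _ = (t₂ - t₁) * δ / 4 * X / (2 * Real.log X) := by rw [hδ]; field_simp; ring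
    _ ≤ _ := by rw [div_le_iff₀ (by positivity)]; linarith

end RQ

end Pool.Agent.Lib.MP_d48457_nt
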