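import Pool.Agent.Lib.helper22.Landau

set_option autoImplicit false

namespace Pool.Agent.Lib.MP_d48457_nt

open MeasureTheory Set Filter Topology Complex Asymptotics

/-- A smooth bump. -/
structure Bp (η : ℝ) (β : ℝ → ℝ) : Prop where
  pos : 0 < η
  cd : ContDiff ℝ 2 β
  nn : ∀ x, 0 ≤ β x
  supp : ∀ x, β x ≠ 0 ↔ |x| < η

theorem exists_Bp {η : ℝ} (hη : 0 < η) : ∃ β, Bp η β := by
  let f : ContDiffBump (0 : ℝ) := ⟨η / 2, η, by linarith, by linarith⟩
  refine ⟨f, hη, f.contDiff, fun x => f.nonneg, fun x => ?_⟩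
  rw [← Function.mem_support, f.support_eq, mem_ball_zero_iff, Real.norm_eq_abs]

lemma isBigO_of_ev_zero {l : Filter ℝ} {f : ℝ → ℂ} (g : ℝ → ℝ) (h : ∀ᶠ x in l, f x = 0) :
    f =O[l] g := (isBigO_zero g l).congr' (h.mono fun _ hx => hx.symm) EventuallyEq.rfl

namespace Bp

variable {η : ℝ} {β : ℝ → ℝ} (h : Bp η β)
include h

theorem zero_of_le {t : ℝ} (h0 : 0 < t) (ht : t ≤ Real.exp (-η)) : β (Real.log t) = 0 := by
  by_contra h'
  have h1 := (abs_lt.1 ((h.supp _).1 h')).1
  rw [← Real.log_le_iff_le_exp h0] at ht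
  linarith

theorem zero_of_ge {t : ℝ} (ht : Real.exp η ≤ t) : β (Real.log t) = 0 := by
  by_contra h'
  have h1 := (abs_lt.1 ((h.supp _).1 h')).2
  rw [← Real.le_log_iff_exp_le ((Real.exp_pos η).trans_le ht)] at ht
  linarith

theorem contOn : ContinuousOn (fun t => (β (Real.log t) : ℂ)) (Ioi 0) :=
  continuous_ofReal.comp_continuousOn (h.cd.continuous.comp_continuousOn
    (Real.continuousOn_log.mono fun _ hx => ne_of_gt hx))

theorem top (g : ℝ → ℝ) : (fun t => (β (Real.log t) : ℂ)) =O[atTop] g :=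
  isBigO_of_ev_zero g ((eventually_ge_atTop _).mono fun _ ht => by rw [h.zero_of_ge ht, ofReal_zero])

theorem bot (g : ℝ → ℝ) : (fun t => (β (Real.log t) : ℂ)) =O[𝓝[>] 0] g :=
  isBigO_of_ev_zero g (by
    filter_upwards [Ioc_mem_nhdsGT (Real.exp_pos (-η))] with t ht
    rw [h.zero_of_le ht.1 ht.2, ofReal_zero])

theorem conv (s : ℂ) : MellinConvergent (fun t => (β (Real.log t) : ℂ)) s :=
  mellinConvergent_of_isBigO_rpow (a := s.re + 1) (b := s.re - 1)
    (h.contOn.locallyIntegrableOn measurableSet_Ioi) (h.top _) (by linarith) (h.bot _) (by linarith)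

theorem diff : Differentiable ℂ (fun s => mellin (fun t => (β (Real.log t) : ℂ)) (-s)) :=
  fun s => (mellin_differentiableAt_of_isBigO_rpow (a := (-s).re + 1) (b := (-s).re - 1)
    (h.contOn.locallyIntegrableOn measurableSet_Ioi) (h.top _) (by linarith) (h.bot _)
    (by linarith)).comp s differentiableAt_id.neg

theorem mellin_ne {s : ℂ} (hs : |s.im| * η ≤ 1) :
    mellin (fun t => (β (Real.log t) : ℂ)) (-s) ≠ 0 := by
  intro h0
  have hi := h.conv (-s)
  have h1 := congrArg Complex.re h0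
  rw [mellin, ← RCLike.re_to_complex, ← integral_re hi, zero_re] at h1
  have hre : ∀ t : ℝ, 0 < t → RCLike.re ((t : ℂ) ^ (-s - 1) • (β (Real.log t) : ℂ))
      = Real.exp (Real.log t * (-s - 1).re) * Real.cos (Real.log t * (-s - 1).im)
        * β (Real.log t) := by
    intro t ht
    rw [RCLike.re_to_complex, smul_eq_mul, re_mul_ofReal,
      cpow_def_of_ne_zero (ofReal_ne_zero.2 ht.ne'), ← ofReal_log ht.le, exp_re, re_ofReal_mul,
      im_ofReal_mul]
  have hpos : ∀ t : ℝ, β (Real.log t) ≠ 0 → 0 < Real.cos (Real.log t * (-s - 1).im) := by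
    intro t ht
    have h2 := (h.supp _).1 ht
    have h3 : |Real.log t * (-s - 1).im| ≤ 1 := by
      rw [abs_mul, mul_comm]
      simp only [sub_im, neg_im, one_im, sub_zero, abs_neg]
      exact (mul_le_mul_of_nonneg_left h2.le (abs_nonneg _)).trans hs
    exact Real.cos_pos_of_le_one h3
  refine ne_of_gt ((setIntegral_pos_iff_support_of_nonneg_ae ?_ hi.re).2 ?_) h1
  · filter_upwards [ae_restrict_mem measurableSet_Ioi] with t ht
    rw [Pi.zero_apply, hre t ht]
    by_cases h2 : β (Real.log t) = 0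
    · rw [h2, mul_zero]
    · exact mul_nonneg (mul_pos (Real.exp_pos _) (hpos t h2)).le (h.nn _)
  · refine lt_of_lt_of_le ?_ (measure_mono (s := Ioo 1 (Real.exp η)) (fun t ht => ?_))
    · rw [Real.volume_Ioo, ENNReal.ofReal_pos, sub_pos]
      exact Real.one_lt_exp_iff.2 h.pos
    · have ht0 : 0 < t := one_pos.trans ht.1
      have h2 : β (Real.log t) ≠ 0 := (h.supp _).2 (by
        rw [abs_of_pos (Real.log_pos ht.1), Real.log_lt_iff_lt_exp ht0]; exact ht.2)
      refine ⟨?_, ht0⟩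
      rw [Function.mem_support, hre t ht0]
      exact mul_ne_zero (mul_pos (Real.exp_pos _) (hpos t h2)).ne' h2

theorem term_zero {X : ℝ} (hX : 0 < X) {m : ℕ} (hm : Real.exp η * X ≤ m) :
    β (Real.log (X * (m : ℝ)⁻¹)) = 0 := by
  have hm0 : (0 : ℝ) < m := lt_of_lt_of_le (by positivity) hm
  refine h.zero_of_le (by positivity) ?_
  rw [Real.exp_neg, ← div_eq_mul_inv, div_le_iff₀ hm0, ← div_eq_inv_mul,
    le_div_iff₀ (Real.exp_pos η)]
  linarith

theorem tsum_eq (a : ℕ → ℂ) {X : ℝ} (hX : 0 < X) {N : ℕ} (hN : Real.exp η * X ≤ N) :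
    ∑' m : ℕ, a m * β (Real.log (X * (m : ℝ)⁻¹))
      = ∑ m ∈ Finset.range N, a m * β (Real.log (X * (m : ℝ)⁻¹)) := by
  refine tsum_eq_sum fun m hm => ?_
  rw [Finset.mem_range, not_lt] at hm
  rw [h.term_zero hX (hN.trans (Nat.cast_le.mpr hm)), ofReal_zero, mul_zero]

theorem contZ (a : ℕ → ℂ) (h0 : a 0 = 0) :
    ContinuousOn (fun X : ℝ => ∑' m : ℕ, a m * β (Real.log (X * (m : ℝ)⁻¹))) (Ioi 0) := by
  intro x hx
  have hx0 : 0 < x := hx
  obtain ⟨N, hN⟩ := exists_nat_ge (Real.exp η * (x + 1))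
  have h1 : ContinuousWithinAt (fun X : ℝ => ∑ m ∈ Finset.range N,
      a m * β (Real.log (X * (m : ℝ)⁻¹))) (Ioi 0) x := by
    refine (continuousOn_finsetSum _ fun m _ => ?_) x hx
    rcases Nat.eq_zero_or_pos m with rfl | hm
    · simp only [h0, zero_mul]; exact continuousOn_const
    · have hm' : (0 : ℝ) < m := Nat.cast_pos.2 hm
      exact continuousOn_const.mul (h.contOn.comp (continuous_mul_const _).continuousOn
        (fun X hX => mul_pos hX (inv_pos.2 hm')))
  have h2 : ∀ X, 0 < X → X < x + 1 → ∑' m : ℕ, a m * β (Real.log (X * (m : ℝ)⁻¹))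
      = ∑ m ∈ Finset.range N, a m * β (Real.log (X * (m : ℝ)⁻¹)) := fun X h0 h1 =>
    h.tsum_eq a h0 (le_trans (by gcongr) hN)
  refine h1.congr_of_eventuallyEq ?_ (h2 x hx0 (by linarith))
  filter_upwards [self_mem_nhdsWithin, nhdsWithin_le_nhds (Iio_mem_nhds (lt_add_one x))]
    with X h0 h1 using h2 X h0 h1

theorem mellinZ (a : ℕ → ℂ) (h0 : a 0 = 0) {s : ℂ} (hsum : LSeriesSummable a s) :
    mellin (fun X : ℝ => ∑' m : ℕ, a m * β (Real.log (X * (m : ℝ)⁻¹))) (-s)
      = LSeries a s * mellin (fun t => (β (Real.log t) : ℂ)) (-s) := by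
  have key : ∀ (a : ℕ → ℂ), a 0 = 0 → ∀ (s : ℂ) (m : ℕ),
      MellinConvergent (fun X : ℝ => a m * β (Real.log (X * (m : ℝ)⁻¹))) (-s) ∧
      mellin (fun X : ℝ => a m * β (Real.log (X * (m : ℝ)⁻¹))) (-s)
        = LSeries.term a s m * mellin (fun t => (β (Real.log t) : ℂ)) (-s) := by
    intro a h0 s m
    by_cases hm : m = 0
    · subst hm
      simp [h0, MellinConvergent, mellin]
    · have hm' : (0 : ℝ) < m := Nat.cast_pos.mpr (Nat.pos_of_ne_zero hm)
      have h1 := (MellinConvergent.comp_mul_left (inv_pos.mpr hm')).mpr (h.conv (-s))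
      simp only [mul_comm (m : ℝ)⁻¹] at h1
      have h2 := hasMellin_const_smul h1 (a m)
      refine ⟨h2.1, h2.2.trans ?_⟩
      rw [mellin_comp_mul_right (fun t => (β (Real.log t) : ℂ)) _ (inv_pos.mpr hm'),
        LSeries.term_of_ne_zero hm, neg_neg,
        ofReal_inv, ofReal_natCast, inv_cpow _ _ (by rw [natCast_arg]; exact Real.pi_ne_zero.symm)]
      simp only [smul_eq_mul]
      ring
  have hnorm : ∀ m : ℕ, ((∫ X in Ioi (0 : ℝ), ‖(X : ℂ) ^ (-s - 1) •
      (a m * β (Real.log (X * (m : ℝ)⁻¹)))‖ : ℝ) : ℂ)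
      = LSeries.term (fun n => (‖a n‖ : ℂ)) s.re m *
        mellin (fun t => (β (Real.log t) : ℂ)) (-(s.re : ℂ)) := by
    intro m
    rw [← (key _ (by simp [h0]) _ m).2, mellin, ← integral_complex_ofReal]
    refine setIntegral_congr_fun measurableSet_Ioi fun X hX => ?_
    have hX0 : 0 < X := hX
    simp only [smul_eq_mul]
    rw [norm_mul, norm_cpow_eq_rpow_re_of_pos hX0, norm_mul, norm_real,
      Real.norm_of_nonneg (h.nn _), ofReal_mul, ofReal_cpow hX0.le]
    simp
  have hs2 : Summable fun m : ℕ => ∫ X in Ioi (0 : ℝ), ‖(X : ℂ) ^ (-s - 1) •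
      (a m * β (Real.log (X * (m : ℝ)⁻¹)))‖ := by
    rw [← summable_ofReal]
    simp only [hnorm]
    refine Summable.mul_right _ (Summable.of_norm (hsum.norm.congr fun m => ?_))
    simp [LSeries.norm_term_eq]
  have h1 := hasSum_integral_of_summable_integral_norm (μ := volume.restrict (Ioi 0))
    (F := fun m (X : ℝ) => (X : ℂ) ^ (-s - 1) • (a m * β (Real.log (X * (m : ℝ)⁻¹))))
    (fun m => (key a h0 s m).1) hs2
  refine HasSum.unique ?_ (hsum.hasSum.mul_right _)
  simp only [← (key a h0 s _).2]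
  have e : mellin (fun X : ℝ => ∑' m : ℕ, a m * β (Real.log (X * (m : ℝ)⁻¹))) (-s)
      = ∫ X in Ioi (0 : ℝ), ∑' m, (X : ℂ) ^ (-s - 1) • (a m * β (Real.log (X * (m : ℝ)⁻¹))) := by
    rw [mellin]
    refine setIntegral_congr_fun measurableSet_Ioi fun X _ => ?_
    simp only [smul_eq_mul]
    rw [tsum_mul_left]
  rw [e]
  exact h1

theorem ext_one (a : ℕ → ℂ) (h0 : a 0 = 0) (hsum : ∀ s : ℂ, 1 < s.re → LSeriesSummable a s)
    {c : ℂ} {C : ℝ}
    (hZ : ∀ X : ℝ, 1 ≤ X → ‖∑' m : ℕ, a m * β (Real.log (X * (m : ℝ)⁻¹)) - c * X‖ ≤ C) :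
    ∃ E : ℂ → ℂ, DifferentiableOn ℂ E {s | 0 < s.re} ∧ E 1 = c ∧ ∀ s : ℂ, 1 < s.re →
      E s = (s - 1) * LSeries a s * mellin (fun t => (β (Real.log t) : ℂ)) (-s) := by
  set Z : ℝ → ℂ := fun X => ∑' m : ℕ, a m * β (Real.log (X * (m : ℝ)⁻¹)) with hZdef
  set P : ℝ → ℂ := indicator (Ioi 1) (fun X => c * X) with hP
  have hPi : LocallyIntegrableOn P (Ioi 0) := by
    refine LocallyIntegrable.locallyIntegrableOn ?_ _
    exact LocallyIntegrable.indicator (Continuous.locallyIntegrable (by fun_prop)) measurableSet_Ioi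
  have hEi : LocallyIntegrableOn (fun X => Z X - P X) (Ioi 0) :=
    ((h.contZ a h0).locallyIntegrableOn measurableSet_Ioi).sub hPi
  have hEtop : (fun X => Z X - P X) =O[atTop] (· ^ (-(0 : ℝ))) := by
    refine IsBigO.of_bound C ?_
    filter_upwards [eventually_gt_atTop 1] with X hX
    rw [hP, indicator_of_mem (show X ∈ Ioi (1 : ℝ) from hX)]
    simpa using hZ X hX.le
  have hEbot : ∀ g : ℝ → ℝ, (fun X => Z X - P X) =O[𝓝[>] 0] g := by
    intro g
    refine isBigO_of_ev_zero g ?_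
    filter_upwards [Ioc_mem_nhdsGT (Real.exp_pos (-η))] with X hX
    have h1 : X ≤ 1 := hX.2.trans (Real.exp_le_one_iff.mpr (by linarith [h.pos]))
    rw [hP, indicator_of_notMem (show X ∉ Ioi (1 : ℝ) from not_lt.mpr h1), sub_zero, hZdef]
    simp only
    rw [h.tsum_eq a hX.1 (N := 1) (by
      have := mul_le_mul_of_nonneg_left hX.2 (Real.exp_pos η).le
      rwa [← Real.exp_add, add_neg_cancel, Real.exp_zero, ← Nat.cast_one] at this)]
    simp [h0]
  refine ⟨fun s => (s - 1) * mellin (fun X => Z X - P X) (-s) + c, fun s hs => ?_, by simp,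
    fun s hs => ?_⟩
  · have h1 : DifferentiableAt ℂ (mellin (fun X => Z X - P X)) (-s) :=
      mellin_differentiableAt_of_isBigO_rpow (b := -s.re - 1) hEi hEtop (by simpa using hs)
        (hEbot _) (by simp)
    have h2 : DifferentiableAt ℂ (fun s => mellin (fun X => Z X - P X) (-s)) s :=
      h1.comp s differentiableAt_id.neg
    refine DifferentiableAt.differentiableWithinAt ?_
    fun_prop
  · have hs1 : s - 1 ≠ 0 := by
      intro h; rw [sub_eq_zero] at h; rw [h] at hs; simp at hs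
    have hEc : MellinConvergent (fun X => Z X - P X) (-s) :=
      mellinConvergent_of_isBigO_rpow (b := -s.re - 1) hEi hEtop (by simp; linarith)
        (hEbot _) (by simp)
    have hfun : (fun X : ℝ => (X : ℂ) ^ (-s - 1) • P X)
        = indicator (Ioi 1) (fun X : ℝ => c * (X : ℂ) ^ (-s)) := by
      funext X
      by_cases hX : X ∈ Ioi (1 : ℝ)
      · have hX0 : (X : ℂ) ≠ 0 := ofReal_ne_zero.mpr (by linarith [mem_Ioi.mp hX])
        rw [hP, indicator_of_mem hX, indicator_of_mem hX, cpow_sub _ _ hX0, cpow_one, smul_eq_mul]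
        field_simp
      · rw [hP, indicator_of_notMem hX, indicator_of_notMem hX, smul_zero]
    have hre : (-s).re < -1 := by simpa using hs
    have hPc : MellinConvergent P (-s) := by
      rw [MellinConvergent, hfun]
      refine Integrable.integrableOn ?_
      rw [integrable_indicator_iff measurableSet_Ioi]
      exact (integrableOn_Ioi_cpow_of_lt hre one_pos).const_mul _
    have hPm : mellin P (-s) = c / (s - 1) := by
      rw [mellin, hfun, setIntegral_indicator measurableSet_Ioi, Ioi_inter_Ioi,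
        max_eq_right zero_le_one, integral_const_mul, integral_Ioi_cpow_of_lt hre one_pos]
      simp only [ofReal_one, one_cpow]
      have : -s + 1 ≠ 0 := by intro h; apply hs1; linear_combination -h
      field_simp
      ring
    have h1 := (hasMellin_add hEc hPc).2
    simp only [sub_add_cancel] at h1
    have h2 := h.mellinZ a h0 (hsum s hs)
    have h4 : mellin (fun X => Z X - P X) (-s)
        = LSeries a s * mellin (fun t => (β (Real.log t) : ℂ)) (-s) - c / (s - 1) := by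
      rw [← h2, ← hPm, eq_sub_iff_add_eq, ← h1]
    simp only
    rw [h4]
    field_simp
    ring

end Bp

theorem ext_glue (a : ℕ → ℂ) (h0 : a 0 = 0) (hsum : ∀ s : ℂ, 1 < s.re → LSeriesSummable a s)
    (p : Prop) (hZ : ∀ η β, Bp η β → ∃ (c : ℂ) (C : ℝ), (p → c = 0) ∧
      ∀ X : ℝ, 1 ≤ X → ‖∑' m : ℕ, a m * β (Real.log (X * (m : ℝ)⁻¹)) - c * X‖ ≤ C) :
    ∃ H : ℂ → ℂ, DifferentiableOn ℂ H {s | 0 < s.re} ∧ (p → H 1 = 0) ∧
      ∀ s : ℂ, 1 < s.re → H s = (s - 1) * LSeries a s := by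
  let U : ℕ → Set ℂ := fun n => {s | 0 < s.re} ∩ {s | |s.im| < n}
  have hUo : ∀ n, IsOpen (U n) := fun n => (isOpen_lt continuous_const continuous_re).inter
    (isOpen_lt continuous_im.abs continuous_const)
  have hex : ∀ n : ℕ, ∃ H : ℂ → ℂ, DifferentiableOn ℂ H (U n) ∧ (p → H 1 = 0) ∧
      ∀ s ∈ U n, 1 < s.re → H s = (s - 1) * LSeries a s := by
    intro n
    obtain ⟨β, hβ⟩ := exists_Bp (η := 1 / (n + 1)) (by positivity)
    obtain ⟨c, C, hc, hC⟩ := hZ _ β hβ
    obtain ⟨E, hE1, hE2, hE3⟩ := hβ.ext_one a h0 hsum hC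
    have hne : ∀ s ∈ U n, mellin (fun t => (β (Real.log t) : ℂ)) (-s) ≠ 0 := fun s hs =>
      hβ.mellin_ne (by
        rw [mul_one_div, div_le_one (by positivity)]
        linarith [show |s.im| < n from hs.2])
    refine ⟨fun s => E s / mellin (fun t => (β (Real.log t) : ℂ)) (-s),
      (hE1.mono inter_subset_left).div hβ.diff.differentiableOn hne, fun hp => ?_,
      fun s hs h1 => ?_⟩
    · simp only [hE2, hc hp, zero_div]
    · simp only
      rw [hE3 s h1, mul_div_cancel_right₀ _ (hne s hs)]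
  choose H h1 h2 h3 using hex
  have hagree : ∀ n m : ℕ, n ≤ m → EqOn (H n) (H m) (U n) := by
    intro n m hnm
    have hsub : U n ⊆ U m := fun s hs => ⟨hs.1, (show |s.im| < n from hs.2).trans_le
      (show (n : ℝ) ≤ m from Nat.cast_le.2 hnm)⟩
    intro s hs
    have hn : (0 : ℝ) < n := (abs_nonneg _).trans_lt hs.2
    have h2U : (2 : ℂ) ∈ U n := ⟨by simp, by simpa using hn⟩
    have hconv : Convex ℝ (U n) := by
      refine (convex_halfSpace_re_gt 0).inter ?_
      have : {s : ℂ | |s.im| < n} = {s : ℂ | -n < s.im} ∩ {s : ℂ | s.im < n} := by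
        ext s; simp [abs_lt]
      rw [this]
      exact (convex_halfSpace_im_gt _).inter (convex_halfSpace_im_lt _)
    refine ((h1 n).analyticOnNhd (hUo n)).eqOn_of_preconnected_of_eventuallyEq
      (((h1 m).mono hsub).analyticOnNhd (hUo n)) hconv.isPreconnected h2U ?_ hs
    filter_upwards [(hUo n).mem_nhds h2U, (isOpen_lt continuous_const continuous_re).mem_nhds
      (show (2 : ℂ) ∈ {s : ℂ | 1 < s.re} by simp)] with z hz hz1
    rw [h3 n z hz hz1, h3 m z (hsub hz) hz1]
  have hmem : ∀ s : ℂ, 0 < s.re → s ∈ U (⌊|s.im|⌋₊ + 1) := fun s hs =>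
    ⟨hs, by simpa using Nat.lt_floor_add_one |s.im|⟩
  refine ⟨fun s => H (⌊|s.im|⌋₊ + 1) s, fun s hs => ?_, fun hp => h2 _ hp,
    fun s hs => h3 _ s (hmem s (by linarith)) hs⟩
  have hs1 := hmem s hs
  refine (((h1 _).differentiableAt ((hUo _).mem_nhds hs1)).congr_of_eventuallyEq
    ?_).differentiableWithinAt
  filter_upwards [(hUo _).mem_nhds hs1] with z hz
  refine hagree _ _ (Nat.succ_le_succ (Nat.le_of_lt_succ ?_)) (hmem z hz.1)
  exact (Nat.floor_lt (abs_nonneg _)).2 hz.2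

end Pool.Agent.Lib.MP_d48457_nt
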