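import Pool.Agent.Lib.MP_d48457_nt.Riem
import Pool.Agent.Lib.MP_d48457_nt.Mell
import Pool.Agent.Lib.MP_d48457_nt.Decomp

set_option autoImplicit false

namespace Pool.Agent.Lib.MP_d48457_nt

open QuadraticAlgebra Finset Filter Topology

/-- A smooth partition of unity. -/
noncomputable def pu (Λ x : ℝ) : ℝ :=
  Real.smoothTransition (x / Λ) - Real.smoothTransition (x / Λ - 1)

theorem pu_contDiff (Λ : ℝ) : ContDiff ℝ 2 (pu Λ) :=
  (Real.smoothTransition.contDiff.comp (by fun_prop)).sub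
    (Real.smoothTransition.contDiff.comp (by fun_prop))

theorem pu_supp {Λ x : ℝ} (hΛ : 0 < Λ) (h : pu Λ x ≠ 0) : 0 < x ∧ x < 2 * Λ := by
  constructor
  · by_contra h1
    have h2 : x / Λ ≤ 0 := div_nonpos_of_nonpos_of_nonneg (not_lt.1 h1) hΛ.le
    exact h (by rw [pu, Real.smoothTransition.zero_of_nonpos h2,
      Real.smoothTransition.zero_of_nonpos (by linarith), sub_zero])
  · by_contra h1
    have h2 : 2 ≤ x / Λ := (le_div_iff₀ hΛ).2 (not_lt.1 h1)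
    exact h (by rw [pu, Real.smoothTransition.one_of_one_le (by linarith),
      Real.smoothTransition.one_of_one_le (by linarith), sub_self])

theorem pu_hasSum {Λ : ℝ} (hΛ : 0 < Λ) (x : ℝ) : HasSum (fun k : ℤ => pu Λ (x + k * Λ)) 1 := by
  have e : ∀ k : ℤ, (x + k * Λ) / Λ = x / Λ + k := fun k => by field_simp
  have h1 := Int.floor_le (x / Λ)
  have h2 := Int.lt_floor_add_one (x / Λ)
  have key := hasSum_sum_of_ne_finset_zero (f := fun k : ℤ => pu Λ (x + k * Λ))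
    (s := {-⌊x / Λ⌋, -⌊x / Λ⌋ + 1}) (L := SummationFilter.unconditional ℤ) (fun k hk => by
      by_contra h
      obtain ⟨a1, a2⟩ := pu_supp hΛ h
      have b1 : 0 < x / Λ + k := by rw [← e]; positivity
      have b2 : x / Λ + k < 2 := by rw [← e, div_lt_iff₀ hΛ]; exact a2
      have c1 : ((-⌊x / Λ⌋ - 1 : ℤ) : ℝ) < k := by push_cast; linarith
      have c2 : (k : ℝ) < ((-⌊x / Λ⌋ + 2 : ℤ) : ℝ) := by push_cast; linarith
      have d1 := Int.cast_lt.1 c1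
      have d2 := Int.cast_lt.1 c2
      simp only [mem_insert, mem_singleton] at hk
      omega)
  rw [sum_pair (by omega)] at key
  have e2 : pu Λ (x + ((-⌊x / Λ⌋ : ℤ) : ℝ) * Λ) + pu Λ (x + ((-⌊x / Λ⌋ + 1 : ℤ) : ℝ) * Λ) = 1 := by
    rw [pu, pu, e, e]
    push_cast
    rw [Real.smoothTransition.zero_of_nonpos (x := x / Λ + -⌊x / Λ⌋ - 1) (by linarith),
      Real.smoothTransition.one_of_one_le (x := x / Λ + (-⌊x / Λ⌋ + 1)) (by linarith),
      show x / Λ + (-⌊x / Λ⌋ + 1) - 1 = x / Λ + -⌊x / Λ⌋ by ring]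
    ring
  rwa [e2] at key

open Classical in
/-- The kernel on the positive quadrant. -/
noncomputable def ker (β : ℝ → ℝ) (Λ τ : ℝ) (p : ℝ × ℝ) : ℂ :=
  if 0 < p.1 ∧ 0 < p.2 then (β (-(Real.log p.1 + Real.log p.2)) * pu Λ (Real.log p.1 - Real.log p.2) : ℝ)
    * Complex.exp (Complex.I * (τ * (Real.log p.1 - Real.log p.2) : ℝ)) else 0

theorem ker_aux {η Λ a b : ℝ} {β : ℝ → ℝ} (h : Bp η β) (hΛ : 0 < Λ)
    (h0 : β (-(a + b)) * pu Λ (a - b) ≠ 0) : |a| < η + 2 * Λ ∧ |b| < η + 2 * Λ := by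
  have h1 := abs_lt.1 ((h.supp _).1 (left_ne_zero_of_mul h0))
  have h2 := pu_supp hΛ (right_ne_zero_of_mul h0)
  have := h.pos
  rw [abs_lt, abs_lt]
  refine ⟨⟨?_, ?_⟩, ?_, ?_⟩ <;> linarith [h1.1, h1.2, h2.1, h2.2]

theorem ker_supp {η Λ τ : ℝ} {β : ℝ → ℝ} (h : Bp η β) (hΛ : 0 < Λ) {p : ℝ × ℝ}
    (hp : ker β Λ τ p ≠ 0) : (Real.exp (-(η + 2 * Λ)) < p.1 ∧ p.1 < Real.exp (η + 2 * Λ)) ∧
      Real.exp (-(η + 2 * Λ)) < p.2 ∧ p.2 < Real.exp (η + 2 * Λ) := by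
  unfold ker at hp
  split_ifs at hp with h1
  · obtain ⟨a1, a2⟩ := ker_aux h hΛ (Complex.ofReal_ne_zero.1 (left_ne_zero_of_mul hp))
    rw [abs_lt, Real.lt_log_iff_exp_lt h1.1, Real.log_lt_iff_lt_exp h1.1] at a1
    rw [abs_lt, Real.lt_log_iff_exp_lt h1.2, Real.log_lt_iff_lt_exp h1.2] at a2
    exact ⟨a1, a2⟩
  · exact (hp rfl).elim

theorem ker_contDiff {η Λ τ : ℝ} {β : ℝ → ℝ} (h : Bp η β) (hΛ : 0 < Λ) :
    ContDiff ℝ 2 (ker β Λ τ) := by
  refine contDiff_iff_contDiffAt.2 (fun p => ?_)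
  by_cases hp : 0 < p.1 ∧ 0 < p.2
  · have h1 : ContDiffAt ℝ 2 (fun q : ℝ × ℝ => Real.log q.1) p := contDiffAt_fst.log hp.1.ne'
    have h2 : ContDiffAt ℝ 2 (fun q : ℝ × ℝ => Real.log q.2) p := contDiffAt_snd.log hp.2.ne'
    have h3 : ∀ {f : ℝ × ℝ → ℝ}, ContDiffAt ℝ 2 f p → ContDiffAt ℝ 2 (fun q => (f q : ℂ)) p :=
      fun hf => Complex.ofRealCLM.contDiff.contDiffAt.comp p hf
    refine ((h3 ((h.cd.contDiffAt.comp p (h1.add h2).neg).mul ((pu_contDiff Λ).contDiffAt.comp p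
      (h1.sub h2)))).mul ((contDiffAt_const (c := Complex.I)).mul
        (h3 ((contDiffAt_const (c := τ)).mul (h1.sub h2)))).cexp).congr_of_eventuallyEq ?_
    filter_upwards [continuous_fst.continuousAt.eventually (lt_mem_nhds hp.1),
      continuous_snd.continuousAt.eventually (lt_mem_nhds hp.2)] with q a1 a2
    exact if_pos ⟨a1, a2⟩
  · refine (contDiffAt_const (c := (0 : ℂ))).congr_of_eventuallyEq ?_
    have he := Real.exp_pos (-(η + 2 * Λ))
    rcases not_and_or.1 hp with h1 | h1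
    · filter_upwards [continuous_fst.continuousAt.eventually
        (gt_mem_nhds ((not_lt.1 h1).trans_lt he))] with q a1
      by_contra a2
      linarith [(ker_supp h hΛ a2).1.1]
    · filter_upwards [continuous_snd.continuousAt.eventually
        (gt_mem_nhds ((not_lt.1 h1).trans_lt he))] with q a1
      by_contra a2
      linarith [(ker_supp h hΛ a2).2.1]

theorem sign_eq_of_pos {s : SignType} {x : ℝ} (h : 0 < (s : ℝ) * x) : s = SignType.sign x := by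
  rcases s.trichotomy with rfl | rfl | rfl
  · simp at h; rw [sign_neg h]
  · simp at h
  · simp at h; rw [sign_pos h]

namespace RQ

variable (F : RQ)

/-- Residues together with signs. -/
abbrev RW (W : ℕ) := (F.O ⧸ Ideal.span {(W : F.O)}) × SignType × SignType

/-- The residue and sign data of an element. -/
noncomputable def cl (W : ℕ) : F.O →* F.RW W where
  toFun z := (Ideal.Quotient.mk _ z, SignType.sign (F.σ₁ z), SignType.sign (F.σ₂ z))
  map_one' := by simp [Prod.ext_iff]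
  map_mul' z w := by simp only [map_mul, sign_mul]; rfl

theorem cl_apply (W : ℕ) (z : F.O) : F.cl W z =
    (Ideal.Quotient.mk _ z, SignType.sign (F.σ₁ z), SignType.sign (F.σ₂ z)) := rfl

/-- The hyperbolic angle. -/
noncomputable def ph (z : F.O) : ℝ := Real.log (F.σ₁ z) - Real.log (F.σ₂ z)

theorem ph_mul {z w : F.O} (hz : z ≠ 0) (hw : w ≠ 0) : F.ph (z * w) = F.ph z + F.ph w := by
  simp only [ph, map_mul]
  rw [Real.log_mul (F.σ₁_ne_zero hz) (F.σ₁_ne_zero hw),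
    Real.log_mul (F.σ₂_ne_zero hz) (F.σ₂_ne_zero hw)]
  ring

theorem log_e_pos : 0 < Real.log F.e := Real.log_pos F.one_lt_e

theorem ph_u (k : ℤ) : F.ph ((F.u ^ k : F.Oˣ) : F.O) = k * (2 * Real.log F.e) := by
  rw [ph, F.σ₁_u_zpow, F.σ₂_u_zpow, Real.log_zpow, Real.log_zpow]
  push_cast
  ring

theorem u_zpow_inj : Function.Injective (fun k : ℤ => F.u ^ k) := by
  intro k k' h
  have h1 := congrArg (fun v : F.Oˣ => F.ph v) h
  simp only [ph_u] at h1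
  exact_mod_cast mul_right_cancel₀ (by linarith [F.log_e_pos]) h1

/-- Units modulo a power of the distinguished unit. -/
abbrev UQ (n : ℕ) := F.Oˣ ⧸ Subgroup.zpowers (F.u ^ n)

theorem finite_UQ {n : ℕ} (hn : n ≠ 0) : Finite (F.UQ n) := by
  have hΛ : 0 < n * (2 * Real.log F.e) := by
    have := F.log_e_pos
    have : (0 : ℝ) < n := Nat.cast_pos.2 (Nat.pos_of_ne_zero hn)
    positivity
  set Λ := n * (2 * Real.log F.e) with hΛd
  set M := Real.exp Λ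
  have hfin : {γ : F.Oˣ | (γ : F.O) ∈ F.box (-M) M (-M) M}.Finite :=
    (finite_toSet _).preimage Units.val_injective.injOn
  refine Set.finite_univ_iff.1 ((hfin.image QuotientGroup.mk).subset (fun c _ => ?_))
  obtain ⟨γ, rfl⟩ := QuotientGroup.mk_surjective c
  set k := ⌊F.ph γ / Λ⌋
  refine ⟨γ * (F.u ^ n) ^ (-k), ?_, QuotientGroup.mk_mul_of_mem _ (Subgroup.zpow_mem_zpowers _ _)⟩
  have h1 : F.ph ((γ * (F.u ^ n) ^ (-k) : F.Oˣ) : F.O) = F.ph γ - k * Λ := by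
    rw [Units.val_mul, F.ph_mul γ.ne_zero (Units.ne_zero _), ← zpow_natCast, ← zpow_mul, F.ph_u,
      hΛd]
    push_cast
    ring
  have h2 := Int.floor_le (F.ph γ / Λ)
  have h3 := Int.lt_floor_add_one (F.ph γ / Λ)
  rw [le_div_iff₀ hΛ] at h2
  rw [div_lt_iff₀ hΛ] at h3
  set v := γ * (F.u ^ n) ^ (-k)
  have h4 := F.nrm_span v
  rw [Ideal.span_singleton_eq_top.2 v.isUnit, F.nrm_top] at h4
  have h5 := congrArg Real.log h4
  have a1 := F.σ₁_ne_zero v.ne_zero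
  have a2 := F.σ₂_ne_zero v.ne_zero
  rw [Real.log_one, Real.log_mul (abs_ne_zero.2 a1) (abs_ne_zero.2 a2), Real.log_abs,
    Real.log_abs] at h5
  rw [ph] at h1
  have b1 : |F.σ₁ v| ≤ M := by
    rw [← Real.log_le_iff_le_exp (abs_pos.2 a1), Real.log_abs]; linarith
  have b2 : |F.σ₂ v| ≤ M := by
    rw [← Real.log_le_iff_le_exp (abs_pos.2 a2), Real.log_abs]; linarith
  exact F.mem_box.2 ⟨(abs_le.1 b1).1, (abs_le.1 b1).2, (abs_le.1 b2).1, (abs_le.1 b2).2⟩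

/-- Parametrisation of the generators. -/
noncomputable def par (n : ℕ) (z₀ : F.O) (x : F.UQ n × ℤ) : F.O :=
  z₀ * (x.1.out : F.Oˣ) * ((F.u ^ (n * x.2) : F.Oˣ) : F.O)

theorem par_inj {n : ℕ} (hn : n ≠ 0) {z₀ : F.O} (hz : z₀ ≠ 0) :
    Function.Injective (F.par n z₀) := by
  rintro ⟨c, k⟩ ⟨c', k'⟩ h
  simp only [par, mul_assoc, ← Units.val_mul] at h
  have h1 := Units.val_injective (mul_left_cancel₀ hz h)
  have hm : ∀ j : ℤ, F.u ^ (n * j) ∈ Subgroup.zpowers (F.u ^ n) := fun j => by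
    rw [zpow_mul, zpow_natCast]; exact Subgroup.zpow_mem_zpowers _ _
  have h2 := congrArg (QuotientGroup.mk (s := Subgroup.zpowers (F.u ^ n))) h1
  rw [QuotientGroup.mk_mul_of_mem _ (hm _), QuotientGroup.mk_mul_of_mem _ (hm _),
    QuotientGroup.out_eq', QuotientGroup.out_eq'] at h2
  subst h2
  have h3 := F.u_zpow_inj (mul_left_cancel h1)
  rw [mul_left_cancel₀ (by exact_mod_cast hn) h3]

theorem span_par (n : ℕ) (z₀ : F.O) (x : F.UQ n × ℤ) :
    Ideal.span {F.par n z₀ x} = Ideal.span {z₀} := by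
  rw [par, Ideal.span_singleton_mul_right_unit (Units.isUnit _),
    Ideal.span_singleton_mul_right_unit (Units.isUnit _)]

theorem exists_par (n : ℕ) {z₀ z : F.O} (h : Ideal.span {z} = Ideal.span {z₀}) :
    ∃ x, F.par n z₀ x = z := by
  obtain ⟨γ, rfl⟩ := Ideal.span_singleton_eq_span_singleton.1 h.symm
  obtain ⟨⟨v, k, rfl⟩, hv⟩ := QuotientGroup.mk_out_eq_mul (Subgroup.zpowers (F.u ^ n)) γ
  refine ⟨(QuotientGroup.mk γ, -k), ?_⟩
  simp only [par]
  rw [hv, mul_assoc, ← Units.val_mul]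
  congr 2
  simp only [mul_assoc, ← zpow_natCast, ← zpow_mul, ← zpow_add]
  simp

theorem ph_par {n : ℕ} {z₀ : F.O} (hz : z₀ ≠ 0) (c : F.UQ n) (k : ℤ) :
    F.ph (F.par n z₀ (c, k)) = F.ph (z₀ * (c.out : F.Oˣ)) + k * (n * (2 * Real.log F.e)) := by
  rw [par, F.ph_mul (mul_ne_zero hz (Units.ne_zero _)) (Units.ne_zero _), F.ph_u]
  push_cast
  ring

theorem sum_pu {z₀ : F.O} (hz : z₀ ≠ 0) {S : Finset F.O}
    (hS : ∀ z, Ideal.span {z} = Ideal.span {z₀} → pu (2 * Real.log F.e) (F.ph z) ≠ 0 → z ∈ S) :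
    ∑ z ∈ S, ind (Ideal.span {z} = Ideal.span {z₀}) * pu (2 * Real.log F.e) (F.ph z)
      = Nat.card (F.UQ 1) := by
  have := F.finite_UQ one_ne_zero
  have := Fintype.ofFinite (F.UQ 1)
  have h1 := hasSum_sum_of_ne_finset_zero (f := fun z => ind (Ideal.span {z} = Ideal.span {z₀}) *
    pu (2 * Real.log F.e) (F.ph z)) (s := S) (L := SummationFilter.unconditional _) (fun z hz => by
      by_contra h
      refine hz (hS z ?_ (right_ne_zero_of_mul h))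
      by_contra h'
      exact left_ne_zero_of_mul h (ind_neg h'))
  have h2 := ((F.par_inj one_ne_zero hz).hasSum_iff (fun z hz => by
    rw [ind_neg (fun h => hz (F.exists_par 1 h)), zero_mul])).2 h1
  have h3 := h2.prod_fiberwise (g := fun _ => 1) (fun c => by
    simp only [Function.comp, ind_pos (F.span_par _ _ _), one_mul, F.ph_par hz, Nat.cast_one]
    exact pu_hasSum (by linarith [F.log_e_pos]) _)
  rw [h3.unique (hasSum_fintype _)]
  simp

/-- Ideals prime to the modulus. -/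
def cop (W : ℕ) (I : Ideal F.O) : Prop := I ≠ ⊥ ∧ Nat.Coprime (Ideal.absNorm I) W

theorem cop_mul {W : ℕ} {I J : Ideal F.O} : F.cop W (I * J) ↔ F.cop W I ∧ F.cop W J := by
  simp only [cop, map_mul, Nat.coprime_mul_iff_left, ← Ideal.zero_eq_bot, mul_ne_zero_iff]
  tauto

theorem cop_top (W : ℕ) : F.cop W ⊤ := ⟨by simp, by simp⟩

theorem la_hecke {η τ : ℝ} {β : ℝ → ℝ} (h : Bp η β) {W : ℕ} (hW : W ≠ 0) (c : F.RW W → ℂ) :
    ∃ A : ℂ, ∀ a : Ideal F.O, F.cop W a → F.LA (Real.exp (η + 2 * (2 * Real.log F.e)))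
      (fun T z => ind (z ∈ a ∧ z ≠ 0) * (c (F.cl W z) * Complex.exp (Complex.I * (τ * F.ph z : ℝ)))
        * (β (Real.log (T ^ 2 * (F.nrm (Ideal.span {z}))⁻¹)) * pu (2 * Real.log F.e) (F.ph z) : ℝ))
      (A / Ideal.absNorm a) := by
  have hΛ : 0 < 2 * Real.log F.e := by linarith [F.log_e_pos]
  set Λ := 2 * Real.log F.e
  have habs : ∀ (s : SignType) (x : ℝ), 0 < (s : ℝ) * x → |x| = s * x := fun s x hx => by
    rw [sign_eq_of_pos hx, sign_mul_self]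
  have hex := fun s : SignType × SignType => F.la_ideal
    (H := fun p => ker β Λ τ ((s.1 : ℝ) * p.1, (s.2 : ℝ) * p.2))
    ((ker_contDiff h hΛ).comp (by fun_prop)) (R := Real.exp (η + 2 * Λ)) (fun p hp => by
      obtain ⟨⟨a1, a2⟩, a3, a4⟩ := ker_supp h hΛ hp
      rw [habs _ _ ((Real.exp_pos _).trans a1), habs _ _ ((Real.exp_pos _).trans a3)]
      exact ⟨a2.le, a4.le⟩) hW (fun ρ => c (ρ, s))
  choose A hA using hex
  refine ⟨∑ s, A s, fun a ha => (LA.sum univ (fun s => hA s a ha.1 ha.2)).congr (fun T z hT => ?_)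
    (by rw [sum_div])⟩
  have hT0 : 0 < T := by linarith
  by_cases hz : z = 0
  · subst hz
    rw [ind_neg (q := _ ∧ (0 : F.O) ≠ 0) (fun h => h.2 rfl)]
    simp [ker]
  rw [sum_eq_single (SignType.sign (F.σ₁ z), SignType.sign (F.σ₂ z)) (fun s _ hs => ?_)
    (fun h => (h (mem_univ _)).elim)]
  · have a1 := abs_pos.2 (F.σ₁_ne_zero hz)
    have a2 := abs_pos.2 (F.σ₂_ne_zero hz)
    simp only [← mul_div_assoc, sign_mul_self]
    rw [ker, if_pos ⟨div_pos a1 hT0, div_pos a2 hT0⟩, ind_and, ind_pos hz, cl_apply, F.nrm_span,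
      ph]
    simp only
    rw [Real.log_div a1.ne' hT0.ne', Real.log_div a2.ne' hT0.ne', Real.log_mul (by positivity)
      (by positivity), Real.log_inv, Real.log_mul a1.ne' a2.ne', Real.log_pow, Real.log_abs,
      Real.log_abs, sub_sub_sub_cancel_right]
    rw [show -(Real.log (F.σ₁ z) - Real.log T + (Real.log (F.σ₂ z) - Real.log T))
      = ((2 : ℕ) : ℝ) * Real.log T + -(Real.log (F.σ₁ z) + Real.log (F.σ₂ z)) by push_cast; ring]
    push_cast
    ring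
  · rw [ker, if_neg, mul_zero]
    rintro ⟨b1, b2⟩
    simp only [← mul_div_assoc] at b1 b2
    exact hs (Prod.ext (sign_eq_of_pos ((div_pos_iff_of_pos_right hT0).1 b1))
      (sign_eq_of_pos ((div_pos_iff_of_pos_right hT0).1 b2)))

theorem mem_box_of_ne {η T : ℝ} {β : ℝ → ℝ} (h : Bp η β) (hT : 0 < T) {z : F.O} (hz : z ≠ 0)
    (h0 : β (Real.log (T ^ 2 * (F.nrm (Ideal.span {z}))⁻¹)) * pu (2 * Real.log F.e) (F.ph z) ≠ 0) :
    z ∈ F.box (-(Real.exp (η + 2 * (2 * Real.log F.e)) * T))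
      (Real.exp (η + 2 * (2 * Real.log F.e)) * T) (-(Real.exp (η + 2 * (2 * Real.log F.e)) * T))
      (Real.exp (η + 2 * (2 * Real.log F.e)) * T) := by
  have a1 := abs_pos.2 (F.σ₁_ne_zero hz)
  have a2 := abs_pos.2 (F.σ₂_ne_zero hz)
  obtain ⟨b1, b2⟩ := ker_aux (a := Real.log (|F.σ₁ z| / T)) (b := Real.log (|F.σ₂ z| / T)) h
    (Λ := 2 * Real.log F.e) (by linarith [F.log_e_pos]) (by
      rw [F.nrm_span, Real.log_mul (by positivity) (by positivity), Real.log_inv,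
        Real.log_mul a1.ne' a2.ne', Real.log_pow, ph] at h0
      rw [Real.log_div a1.ne' hT.ne', Real.log_div a2.ne' hT.ne', sub_sub_sub_cancel_right,
        show -(Real.log |F.σ₁ z| - Real.log T + (Real.log |F.σ₂ z| - Real.log T))
        = ((2 : ℕ) : ℝ) * Real.log T + -(Real.log |F.σ₁ z| + Real.log |F.σ₂ z|) by push_cast; ring]
      simpa only [Real.log_abs] using h0)
  have c1 := (abs_lt.1 b1).2
  have c2 := (abs_lt.1 b2).2
  rw [Real.log_lt_iff_lt_exp (by positivity), div_lt_iff₀ hT, abs_lt] at c1 c2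
  exact F.mem_box.2 ⟨c1.1.le, c1.2.le, c2.1.le, c2.2.le⟩

/-- Hecke characters. -/
structure Hk (W : ℕ) (Ψ : Ideal F.O → ℂ) : Prop where
  mul : ∀ I J, Ψ (I * J) = Ψ I * Ψ J
  one : Ψ ⊤ = 1
  nrm1 : ∀ I, F.cop W I → ‖Ψ I‖ = 1
  zero : ∀ I, ¬ F.cop W I → Ψ I = 0
  form : ∃ (c : F.RW W → ℂ) (τ : ℝ), ∀ z, z ≠ 0 →
    Ψ (Ideal.span {z}) = c (F.cl W z) * Complex.exp (Complex.I * (τ * F.ph z : ℝ))

theorem nrm_le_of_ne {η X : ℝ} {β : ℝ → ℝ} (h : Bp η β) (hX : 0 < X) {I : Ideal F.O}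
    (h0 : β (Real.log (X * (F.nrm I)⁻¹)) ≠ 0) : F.nrm I ≤ Real.exp η * X :=
  (not_le.1 (fun h1 => h0 (h.term_zero hX h1))).le

theorem theta_cls {η : ℝ} {β : ℝ → ℝ} (h : Bp η β) {W : ℕ} (hW : W ≠ 0) {Ψ : Ideal F.O → ℂ}
    (hΨ : F.Hk W Ψ) (D : ClassGroup F.O) : ∃ κ : ℂ, ∀ q, F.cop W q → ∃ C : ℝ, ∀ X : ℝ, 1 ≤ X →
      ‖∑ I ∈ F.idl (Real.exp η * X), ind (F.cls I = D ∧ q ∣ I) * Ψ I *
        β (Real.log (X * (F.nrm I)⁻¹)) - κ * X / Ideal.absNorm q‖ ≤ C := by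
  by_cases hD : ∃ I, F.cop W I ∧ F.cls I = D
  swap
  · refine ⟨0, fun q _ => ⟨0, fun X _ => ?_⟩⟩
    rw [sum_eq_zero (fun I _ => ?_)]
    · simp
    · by_cases h1 : F.cop W I
      · rw [ind_neg (q := _ ∧ _) (fun h2 => hD ⟨I, h1, h2.1⟩)]; simp
      · rw [hΨ.zero I h1]; simp
  obtain ⟨I₀, hI₀, rfl⟩ := hD
  obtain ⟨b, hb, hcb, hbc⟩ := F.exists_compl hI₀.1
  have hbc' : F.cop W b := ⟨hb, hbc ▸ hI₀.2⟩
  have hcl : ∀ I, I ≠ ⊥ → (F.cls I = F.cls I₀ ↔ ∃ z, I * b = Ideal.span {z}) := by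
    intro I hI
    have h1 := (F.cls_eq_one_iff (mul_ne_zero hI₀.1 hb)).2 ⟨_, hcb⟩
    rw [← F.cls_eq_one_iff (mul_ne_zero hI hb), F.cls_mul hI hb, ← h1, F.cls_mul hI₀.1 hb,
      mul_left_inj]
  obtain ⟨c, τ, hc⟩ := hΨ.form
  obtain ⟨A, hA⟩ := F.la_hecke (τ := τ) h hW c
  have := F.finite_UQ one_ne_zero
  have hν : (Nat.card (F.UQ 1) : ℂ) ≠ 0 := by exact_mod_cast Nat.card_pos.ne'
  have hΨb : Ψ b ≠ 0 := by rw [← norm_ne_zero_iff, hΨ.nrm1 b hbc']; exact one_ne_zero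
  refine ⟨A / (Ψ b * Nat.card (F.UQ 1)), fun q hq => ?_⟩
  obtain ⟨C, hC⟩ := hA (q * b) (F.cop_mul.2 ⟨hq, hbc'⟩)
  refine ⟨C / ‖Ψ b * Nat.card (F.UQ 1)‖, fun X hX => ?_⟩
  have hb1 := F.one_le_nrm hb
  have hX0 : 0 < X := by linarith
  have hT2 : √(F.nrm b * X) ^ 2 = F.nrm b * X := Real.sq_sqrt (by positivity)
  have hT1 : 1 ≤ √(F.nrm b * X) := Real.one_le_sqrt.2 (one_le_mul_of_one_le_of_one_le hb1 hX)
  have key := hC _ hT1
  set T := √(F.nrm b * X)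
  set B := F.box (-(Real.exp (η + 2 * (2 * Real.log F.e)) * T))
      (Real.exp (η + 2 * (2 * Real.log F.e)) * T) (-(Real.exp (η + 2 * (2 * Real.log F.e)) * T))
      (Real.exp (η + 2 * (2 * Real.log F.e)) * T)
  have hw : ∀ {I : Ideal F.O} {z : F.O}, Ideal.span {z} = I * b →
      T ^ 2 * (F.nrm (Ideal.span {z}))⁻¹ = X * (F.nrm I)⁻¹ := by
    intro I z hz
    rw [hz, hT2, F.nrm_mul, mul_inv]
    field_simp
  have e1 : ∑ z ∈ B, ind (z ∈ q * b ∧ z ≠ 0) * (c (F.cl W z) *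
      Complex.exp (Complex.I * (τ * F.ph z : ℝ))) *
      (β (Real.log (T ^ 2 * (F.nrm (Ideal.span {z}))⁻¹)) * pu (2 * Real.log F.e) (F.ph z) : ℝ)
      = (Ψ b * Nat.card (F.UQ 1)) * ∑ I ∈ F.idl (Real.exp η * X), ind (F.cls I = F.cls I₀ ∧ q ∣ I)
        * Ψ I * β (Real.log (X * (F.nrm I)⁻¹)) := by
    have e2 : ∀ I ∈ F.idl (Real.exp η * X), (Ψ b * Nat.card (F.UQ 1)) *
        (ind (F.cls I = F.cls I₀ ∧ q ∣ I) * Ψ I * β (Real.log (X * (F.nrm I)⁻¹)))
        = ∑ z ∈ B, ind (q ∣ I) * Ψ (I * b) * β (Real.log (X * (F.nrm I)⁻¹)) *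
          (ind (Ideal.span {z} = I * b) * pu (2 * Real.log F.e) (F.ph z) : ℝ) := by
      intro I hI
      have hI0 := (F.mem_idl.1 hI).1
      rw [← mul_sum, ← Complex.ofReal_sum]
      by_cases h1 : F.cls I = F.cls I₀
      · by_cases h2 : β (Real.log (X * (F.nrm I)⁻¹)) = 0
        · simp [h2]
        obtain ⟨z₀, hz₀⟩ := (hcl I hI0).1 h1
        have hne : ∀ z, Ideal.span {z} = Ideal.span {z₀} → z ≠ 0 := by
          rintro z h3 rfl
          rw [← hz₀, Ideal.span_singleton_zero] at h3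
          exact mul_ne_zero hI0 hb h3.symm
        rw [hΨ.mul, hz₀, F.sum_pu (hne _ rfl) (fun z h3 h4 => F.mem_box_of_ne h (by linarith)
          (hne z h3) (by rw [hw (h3.trans hz₀.symm)]; exact mul_ne_zero h2 h4)), ind_and,
          ind_pos h1]
        push_cast
        ring
      · rw [ind_neg (q := _ ∧ _) (fun h => h1 h.1), sum_eq_zero (fun z _ => by
          rw [ind_neg (fun h => h1 ((hcl I hI0).2 ⟨z, h.symm⟩)), zero_mul])]
        simp
    rw [mul_sum, sum_congr rfl e2, sum_comm]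
    refine sum_congr rfl (fun z _ => ?_)
    by_cases h1 : z ∈ q * b ∧ z ≠ 0
    · obtain ⟨J, hJ⟩ := F.dvd_span_iff.2 h1.1
      have hJ' : Ideal.span {z} = q * J * b := by rw [hJ]; ring
      have hne : q * J ≠ ⊥ := fun h => h1.2 (by simpa [h] using hJ')
      rw [sum_eq_single (q * J) (fun I _ hI => ?_) (fun hI => ?_), ind_pos h1, ← hc z h1.2,
        ind_pos (dvd_mul_right _ _), ← hJ', ind_pos rfl, hw hJ']
      · push_cast; ring
      · rw [ind_neg (q := _ = _) (fun h => hI (mul_right_cancel₀ hb (h.symm.trans hJ')))]; simp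
      · have : β (Real.log (X * (F.nrm (q * J))⁻¹)) = 0 := by
          by_contra h2
          exact hI (F.mem_idl.2 ⟨hne, F.nrm_le_of_ne h hX0 h2⟩)
        simp [this]
    · rw [ind_neg h1, sum_eq_zero (fun I hI => ?_)]
      · simp
      by_cases h2 : q ∣ I
      · rw [ind_neg (q := Ideal.span {z} = I * b) (fun h => h1 ⟨F.dvd_span_iff.1
          (by rw [h]; exact mul_dvd_mul_right h2 b), ?_⟩)]
        · simp
        · rintro rfl
          rw [Ideal.span_singleton_zero] at h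
          exact mul_ne_zero (F.mem_idl.1 hI).1 hb h.symm
      · rw [ind_neg h2]; simp
  rw [e1] at key
  have hne := mul_ne_zero hΨb hν
  rw [le_div_iff₀ (norm_pos_iff.2 hne), ← norm_mul]
  refine le_trans (le_of_eq ?_) key
  congr 1
  have h1 : ((T : ℂ)) ^ 2 = (Ideal.absNorm b : ℂ) * X := by exact_mod_cast hT2
  have h2 : (Ideal.absNorm b : ℂ) ≠ 0 := by exact_mod_cast (F.absNorm_pos hb).ne'
  rw [h1, map_mul]
  push_cast
  field_simp

theorem theta {η : ℝ} {β : ℝ → ℝ} (h : Bp η β) {W : ℕ} (hW : W ≠ 0) {Ψ : Ideal F.O → ℂ}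
    (hΨ : F.Hk W Ψ) : ∃ (κ : ℂ) (C : ℝ), ((∃ q, F.cop W q ∧ Ψ q ≠ 1) → κ = 0) ∧ ∀ X : ℝ, 1 ≤ X →
      ‖∑ I ∈ F.idl (Real.exp η * X), Ψ I * β (Real.log (X * (F.nrm I)⁻¹)) - κ * X‖ ≤ C := by
  classical
  choose κ hκ using F.theta_cls h hW hΨ
  have key : ∀ q, F.cop W q → ∃ C : ℝ, ∀ X : ℝ, 1 ≤ X →
      ‖∑ I ∈ F.idl (Real.exp η * X), ind (q ∣ I) * Ψ I *
        β (Real.log (X * (F.nrm I)⁻¹)) - (∑ D, κ D) * X / Ideal.absNorm q‖ ≤ C := by
    intro q hq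
    choose C hC using fun D => hκ D q hq
    refine ⟨∑ D, C D, fun X hX => le_trans (le_of_eq ?_) ((norm_sum_le _ _).trans
      (sum_le_sum (fun D _ => hC D X hX)))⟩
    rw [sum_sub_distrib, sum_comm, ← sum_div, ← sum_mul]
    congr 2
    refine sum_congr rfl (fun I _ => ?_)
    rw [sum_eq_single (F.cls I) (fun D _ hD => by
      rw [ind_neg (q := _ ∧ _) (fun h => hD h.1.symm)]; simp) (fun h => (h (mem_univ _)).elim),
      ind_and, ind_pos rfl, one_mul]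
  obtain ⟨C, hC⟩ := key ⊤ (F.cop_top W)
  simp only [← Ideal.one_eq_top, one_dvd, ind_pos, map_one, Nat.cast_one, div_one,
    Complex.ofReal_one, one_mul] at hC
  refine ⟨_, C, ?_, hC⟩
  rintro ⟨q, hq, hq1⟩
  obtain ⟨C', hC'⟩ := key q hq
  have hq2 := F.one_le_nrm hq.1
  have hb : ∀ Y : ℝ, 1 ≤ Y → ‖(∑ D, κ D) * (1 - Ψ q)‖ * Y ≤ C' + C := by
    intro Y hY
    have h1 := hC' (F.nrm q * Y) (one_le_mul_of_one_le_of_one_le hq2 hY)
    have h2 := hC Y hY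
    have e1 : ∑ I ∈ F.idl (Real.exp η * (F.nrm q * Y)), ind (q ∣ I) * Ψ I *
        β (Real.log (F.nrm q * Y * (F.nrm I)⁻¹))
        = Ψ q * ∑ I ∈ F.idl (Real.exp η * Y), Ψ I * β (Real.log (Y * (F.nrm I)⁻¹)) := by
      rw [mul_sum]
      symm
      refine sum_of_injOn (fun J => q * J) (fun a _ b _ h => mul_left_cancel₀ hq.1 h)
        (fun J hJ => ?_) (fun I hI hI' => ?_) (fun J _ => ?_)
      · obtain ⟨a1, a2⟩ := F.mem_idl.1 hJ
        refine F.mem_idl.2 ⟨mul_ne_zero hq.1 a1, ?_⟩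
        rw [F.nrm_mul, mul_left_comm]
        gcongr
      · rw [ind_neg]
        · simp
        rintro ⟨J, rfl⟩
        obtain ⟨a1, a2⟩ := F.mem_idl.1 hI
        refine hI' ⟨J, F.mem_idl.2 ⟨right_ne_zero_of_mul a1, ?_⟩, rfl⟩
        rw [F.nrm_mul, mul_left_comm] at a2
        exact le_of_mul_le_mul_left a2 (by linarith)
      · rw [ind_pos (dvd_mul_right _ _), hΨ.mul, F.nrm_mul, show F.nrm q * Y *
          (F.nrm q * F.nrm J)⁻¹ = Y * (F.nrm J)⁻¹ by rw [mul_inv]; field_simp]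
        push_cast
        ring
    rw [e1] at h1
    have h3 : (Ideal.absNorm q : ℂ) ≠ 0 := by exact_mod_cast (F.absNorm_pos hq.1).ne'
    have h4 : (∑ D, κ D) * ((F.nrm q * Y : ℝ) : ℂ) / Ideal.absNorm q = (∑ D, κ D) * Y := by
      unfold nrm; push_cast; field_simp
    rw [h4] at h1
    set S := ∑ I ∈ F.idl (Real.exp η * Y), Ψ I * β (Real.log (Y * (F.nrm I)⁻¹))
    set k := ∑ D, κ D
    have h5 : k * (1 - Ψ q) * Y = Ψ q * (S - k * Y) - (Ψ q * S - k * Y) := by ring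
    have h6 := norm_sub_le (Ψ q * (S - k * Y)) (Ψ q * S - k * Y)
    rw [← h5, norm_mul, norm_mul (Ψ q), hΨ.nrm1 q hq, Complex.norm_real, Real.norm_eq_abs,
      abs_of_pos (by linarith)] at h6
    linarith
  by_contra h0
  have h1 := norm_pos_iff.2 (mul_ne_zero h0 (sub_ne_zero.2 hq1.symm))
  have h2 := hb 1 le_rfl
  have h3 := hb ((C' + C) / ‖(∑ D, κ D) * (1 - Ψ q)‖ + 1) (by
    have : 0 ≤ (C' + C) / ‖(∑ D, κ D) * (1 - Ψ q)‖ := div_nonneg (by linarith) h1.le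
    linarith)
  rw [mul_add, mul_div_cancel₀ _ h1.ne'] at h3
  linarith

end RQ

end Pool.Agent.Lib.MP_d48457_nt
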