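import Pool.Agent.Lib.MP_d48457_nt.Hecke2

set_option autoImplicit false

namespace Pool.Agent.Lib.MP_d48457_nt

open QuadraticAlgebra Finset Filter Topology

theorem exists_extend {Z S : Type} [CommMonoid Z] [CommMonoid S] [IsCancelMul S] (f : Z →* S)
    (ξ : Z →* Circle) (h : ∀ z z', f z = f z' → ξ z = ξ z') :
    ∃ Ψ : S →* Circle, ∀ z, Ψ (f z) = ξ z := by
  let φ := Algebra.GrothendieckGroup.lift ((Algebra.GrothendieckGroup.of (M := S)).comp f)
  let ξ' := Algebra.GrothendieckGroup.lift ξ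
  have hker : φ.ker ≤ ξ'.ker := by
    intro x hx
    rw [MonoidHom.mem_ker, Algebra.GrothendieckGroup.lift_apply, div_eq_one] at hx ⊢
    exact h _ _ (Algebra.GrothendieckGroup.of_injective hx)
  let : DivisibleBy (Additive Circle) ℤ := divisibleByOfSMulRightSurj _ _ (fun {n} hn w => by
    obtain ⟨t, ht⟩ := Circle.exp_surjective w.toMul
    refine ⟨Additive.ofMul (Circle.exp (t / n)), ?_⟩
    change Additive.ofMul (Circle.exp (t / n) ^ n) = w
    rw [← Circle.exp_intCast_mul, mul_div_cancel₀ _ (by exact_mod_cast hn), ht]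
    rfl)
  obtain ⟨g, hg⟩ := (Module.Baer.of_divisible (Additive Circle)).extension_property_addMonoidHom
    (MonoidHom.toAdditive (QuotientGroup.kerLift φ)) (QuotientGroup.kerLift_injective φ)
    (MonoidHom.toAdditive (QuotientGroup.lift φ.ker ξ' hker))
  refine ⟨(MonoidHom.toAdditive.symm g).comp Algebra.GrothendieckGroup.of, fun z => ?_⟩
  have h1 : φ (Algebra.GrothendieckGroup.of z) = Algebra.GrothendieckGroup.of (f z) :=
    DFunLike.congr_fun (Algebra.GrothendieckGroup.lift.left_inv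
      ((Algebra.GrothendieckGroup.of (M := S)).comp f)) z
  have h2 : ξ' (Algebra.GrothendieckGroup.of z) = ξ z :=
    DFunLike.congr_fun (Algebra.GrothendieckGroup.lift.left_inv ξ) z
  have h3 := DFunLike.congr_fun hg (Additive.ofMul (QuotientGroup.mk
    (Algebra.GrothendieckGroup.of z)))
  change g (Additive.ofMul (φ _)) = Additive.ofMul (ξ' _) at h3
  rw [h1, h2] at h3
  exact congrArg Additive.toMul h3

open Classical in
theorem sum_mulChar {M : Type} [CommMonoid M] [Finite M] [Fintype (MulChar M ℂ)] (a : M) :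
    ∑ χ : MulChar M ℂ, χ a = ind (a = 1) * Nat.card Mˣ := by
  by_cases ha : a = 1
  · simp only [ha, map_one, sum_const, card_univ, nsmul_eq_mul, mul_one, ind_pos,
      ← Nat.card_eq_fintype_card, MulChar.card_eq_card_units_of_hasEnoughRootsOfUnity]
    simp
  · obtain ⟨χ, hχ⟩ := MulChar.exists_apply_ne_one_of_hasEnoughRootsOfUnity M ℂ ha
    rw [ind_neg ha, Complex.ofReal_zero, zero_mul]
    refine eq_zero_of_mul_eq_self_left hχ ?_
    simp only [mul_sum, ← MulChar.mul_apply]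
    exact Fintype.sum_bijective _ (Group.mulLeft_bijective χ) _ _ fun χ' ↦ rfl

theorem norm_mulChar {M : Type} [CommMonoid M] [Finite M] (χ : MulChar M ℂ) {a : M}
    (ha : IsUnit a) : ‖χ a‖ = 1 := by
  have h1 : ‖χ a‖ ^ Nat.card Mˣ = 1 := by
    obtain ⟨v, rfl⟩ := ha
    rw [← norm_pow, ← map_pow, ← Units.val_pow_eq_pow_val, pow_card_eq_one', Units.val_one, map_one,
      NormOneClass.norm_one]
  exact (pow_eq_one_iff_of_nonneg (norm_nonneg _) Nat.card_pos.ne').1 h1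

namespace RQ

variable {F : RQ}

theorem Asym.congr {w w' : Ideal F.O → ℂ} {δ δ' : ℂ} (h : F.Asym w δ) (hw : ∀ I, w I = w' I)
    (hδ : δ = δ') : F.Asym w' δ' := by
  rwa [← hδ, ← funext hw]

theorem Asym.const_mul {w : Ideal F.O → ℂ} {δ : ℂ} (h : F.Asym w δ) (c : ℂ) :
    F.Asym (fun I => c * w I) (c * δ) := by
  refine (Tendsto.const_mul c h).congr (fun x => ?_)
  simp only [bb_apply, mul_sum, ← mul_div_assoc, mul_assoc]

theorem Asym.add {w w' : Ideal F.O → ℂ} {δ δ' : ℂ} (h : F.Asym w δ) (h' : F.Asym w' δ') :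
    F.Asym (fun I => w I + w' I) (δ + δ') := by
  refine (Tendsto.add h h').congr (fun x => ?_)
  simp only [bb_apply, ← add_div, ← sum_add_distrib, add_mul]

theorem asym_zero : F.Asym (fun _ => 0) 0 := by
  simp [Asym, bb_apply]

theorem Asym.sum {ι : Type*} (s : Finset ι) {w : ι → Ideal F.O → ℂ} {δ : ι → ℂ}
    (h : ∀ i, F.Asym (w i) (δ i)) : F.Asym (fun I => ∑ i ∈ s, w i I) (∑ i ∈ s, δ i) := by
  classical
  induction s using Finset.induction_on with
  | empty => simpa using asym_zero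
  | insert a s ha ih => simpa only [sum_insert ha] using (h a).add ih

variable (F)

theorem finite_RW {W : ℕ} (hW : W ≠ 0) : Finite (F.RW W) := by
  have hW0 : Ideal.absNorm (Ideal.span {(W : F.O)}) ≠ 0 := by
    rw [F.absNorm_span_nat]; positivity
  have : Finite (F.O ⧸ Ideal.span {(W : F.O)}) := Nat.finite_of_card_ne_zero hW0
  infer_instance

/-- Characters on elements. -/
noncomputable def Xi {W : ℕ} (χ : MulChar (F.RW W) ℂ) (τ : ℝ) (z : F.O) : ℂ :=
  χ (F.cl W z) * Complex.exp (Complex.I * (τ * F.ph z : ℝ))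

theorem Xi_zero_of {W : ℕ} (χ : MulChar (F.RW W) ℂ) (τ : ℝ) {z : F.O}
    (h : ¬ F.cop W (Ideal.span {z})) : F.Xi χ τ z = 0 := by
  rw [Xi, χ.map_nonunit (fun h' => h (F.isUnit_cl.1 h')), zero_mul]

theorem not_cop_zero (W : ℕ) : ¬ F.cop W (Ideal.span {0}) := fun h => h.1 (by simp)

theorem Xi_mul {W : ℕ} (χ : MulChar (F.RW W) ℂ) (τ : ℝ) (z w : F.O) :
    F.Xi χ τ (z * w) = F.Xi χ τ z * F.Xi χ τ w := by
  by_cases hz : z = 0
  · rw [hz, zero_mul, F.Xi_zero_of χ τ (F.not_cop_zero W), zero_mul]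
  by_cases hw : w = 0
  · rw [hw, mul_zero, F.Xi_zero_of χ τ (F.not_cop_zero W), mul_zero]
  rw [Xi, Xi, Xi, F.ph_mul hz hw, map_mul, map_mul, mul_add, Complex.ofReal_add, mul_add,
    Complex.exp_add]
  ring

theorem Xi_one {W : ℕ} (χ : MulChar (F.RW W) ℂ) (τ : ℝ) : F.Xi χ τ 1 = 1 := by
  simp [Xi, ph]

theorem exists_hk {W : ℕ} (hW : W ≠ 0) (χ : MulChar (F.RW W) ℂ) (τ : ℝ)
    (h : ∀ γ : F.Oˣ, F.Xi χ τ γ = 1) :
    ∃ Ψ, F.Hk W Ψ ∧ ∀ z, Ψ (Ideal.span {z}) = F.Xi χ τ z := by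
  classical
  have := F.finite_RW hW
  let S : Submonoid (Ideal F.O) := ⟨⟨{I | F.cop W I}, fun a b => F.cop_mul.2 ⟨a, b⟩⟩,
    by simpa using F.cop_top W⟩
  let Z : Submonoid F.O := ⟨⟨{z | F.cop W (Ideal.span {z})}, fun {a b} ha hb => by
    have := F.cop_mul.2 ⟨ha, hb⟩
    rwa [Ideal.span_singleton_mul_span_singleton] at this⟩, by simpa using F.cop_top W⟩
  have : IsLeftCancelMul S := ⟨fun a _ _ h => Subtype.ext
    (mul_left_cancel₀ a.2.1 (congrArg Subtype.val h))⟩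
  have : IsCancelMul S := CommMagma.IsLeftCancelMul.toIsCancelMul S
  let f : Z →* S := ⟨⟨fun z => ⟨Ideal.span {z.1}, z.2⟩, Subtype.ext (by simp)⟩, fun a b =>
    Subtype.ext (Ideal.span_singleton_mul_span_singleton _ _).symm⟩
  let ξ : Z →* Circle := ⟨⟨fun z => ⟨F.Xi χ τ z, mem_sphere_zero_iff_norm.2 (by
    rw [Xi, norm_mul, norm_mulChar χ (F.isUnit_cl.2 z.2), Complex.norm_exp_I_mul_ofReal,
      mul_one])⟩, Circle.ext (F.Xi_one χ τ)⟩, fun a b => Circle.ext (F.Xi_mul χ τ _ _)⟩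
  obtain ⟨Ψ, hΨ⟩ := exists_extend f ξ (fun z z' hz => by
    obtain ⟨γ, hγ⟩ := Ideal.span_singleton_eq_span_singleton.1 (congrArg Subtype.val hz)
    refine Circle.ext ?_
    change F.Xi χ τ z = F.Xi χ τ z'
    rw [← hγ, F.Xi_mul, h, mul_one])
  have hf : ∀ z, (if h : F.cop W (Ideal.span {z}) then (Ψ ⟨_, h⟩ : ℂ) else 0) = F.Xi χ τ z := by
    intro z
    split_ifs with h1
    · exact congrArg Subtype.val (hΨ ⟨z, h1⟩)
    · exact (F.Xi_zero_of χ τ h1).symm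
  refine ⟨fun I => if h : F.cop W I then (Ψ ⟨I, h⟩ : ℂ) else 0, ⟨fun I J => ?_, ?_,
    fun I hI => by rw [dif_pos hI, Circle.norm_coe], fun I hI => dif_neg hI,
    χ, τ, fun z _ => hf z⟩, hf⟩
  · by_cases hI : F.cop W I
    · by_cases hJ : F.cop W J
      · rw [dif_pos hI, dif_pos hJ, dif_pos (F.cop_mul.2 ⟨hI, hJ⟩), ← Circle.coe_mul, ← map_mul]
        rfl
      · rw [dif_neg hJ, dif_neg (fun h => hJ (F.cop_mul.1 h).2), mul_zero]
    · rw [dif_neg hI, dif_neg (fun h => hI (F.cop_mul.1 h).1), zero_mul]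
  · have := hf 1
    rwa [Ideal.span_singleton_one, F.Xi_one] at this

noncomputable instance : Fintype (MulChar (ClassGroup F.O) ℂ) := Fintype.ofFinite _

theorem cls_span (z : F.O) : F.cls (Ideal.span {z}) = 1 := by
  by_cases hz : Ideal.span {z} = ⊥
  · simp [cls, hz]
  · exact (F.cls_eq_one_iff hz).2 ⟨z, rfl⟩

theorem asym_pr {W : ℕ} (hW : W ≠ 0) {Ψ : Ideal F.O → ℂ} (h : F.Hk W Ψ) :
    F.Asym (fun I => Ψ I * ind (F.cls I = 1)) ((∑ ψ : MulChar (ClassGroup F.O) ℂ,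
      ind (∀ q, F.cop W q → Ψ q * ψ (F.cls q) = 1)) / Nat.card (ClassGroup F.O)ˣ : ℝ) := by
  have h0 : (Nat.card (ClassGroup F.O)ˣ : ℂ) ≠ 0 := by exact_mod_cast Nat.card_pos.ne'
  have h1 : ∀ ψ : MulChar (ClassGroup F.O) ℂ, F.Hk W (fun I => Ψ I * ψ (F.cls I)) := by
    intro ψ
    obtain ⟨c, τ, hc⟩ := h.form
    refine ⟨fun I J => ?_, ?_, fun I hI => ?_, fun I hI => by rw [h.zero I hI, zero_mul], c, τ,
      fun z hz => by rw [F.cls_span, map_one, mul_one, hc z hz]⟩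
    · by_cases hI : I = ⊥
      · rw [h.mul, h.zero I (fun h => h.1 hI)]; simp
      by_cases hJ : J = ⊥
      · rw [h.mul, h.zero J (fun h => h.1 hJ)]; simp
      rw [h.mul, F.cls_mul hI hJ, map_mul]; ring
    · rw [h.one, ← Ideal.span_singleton_one, F.cls_span, map_one, mul_one]
    · rw [norm_mul, h.nrm1 I hI, norm_mulChar ψ (Group.isUnit _), mul_one]
  refine ((Asym.sum univ (fun ψ => (h1 ψ).asym hW)).const_mul
    (Nat.card (ClassGroup F.O)ˣ : ℂ)⁻¹).congr (fun I => ?_) ?_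
  · rw [← mul_sum, sum_mulChar]; field_simp
  · push_cast; ring

/-- The density of principal ideals. -/
noncomputable def d0 (W : ℕ) : ℝ := (∑ ψ : MulChar (ClassGroup F.O) ℂ,
  ind (∀ q, F.cop W q → F.Psi0 W q * ψ (F.cls q) = 1)) / Nat.card (ClassGroup F.O)ˣ

theorem le_d0 (W : ℕ) : 1 / (Nat.card (ClassGroup F.O)ˣ : ℝ) ≤ F.d0 W := by
  refine div_le_div_of_nonneg_right ?_ (Nat.cast_nonneg _)
  refine le_trans (le_of_eq (ind_pos (fun q hq => ?_)).symm) (single_le_sum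
    (f := fun ψ : MulChar (ClassGroup F.O) ℂ => ind (∀ q, F.cop W q →
      F.Psi0 W q * ψ (F.cls q) = 1)) (fun _ _ => ind_nonneg _) (mem_univ 1))
  rw [MulChar.one_apply (Group.isUnit _), Psi0, ind_pos hq]; simp

theorem exists_near' {W : ℕ} (hW : W ≠ 0) (z₁ : F.O) (s t : ℝ) : ∃ z : F.O,
    Ideal.Quotient.mk (Ideal.span {(W : F.O)}) z = Ideal.Quotient.mk _ z₁ ∧
    s ≤ F.σ₁ z ∧ F.σ₁ z < s + W * F.c0 ∧ t ≤ F.σ₂ z ∧ F.σ₂ z < t + W * F.c0 := by
  have hW0 : (0 : ℝ) < W := Nat.cast_pos.2 (Nat.pos_of_ne_zero hW)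
  obtain ⟨v, h1, h2, h3, h4⟩ := F.exists_near ((s - F.σ₁ z₁) / W) ((t - F.σ₂ z₁) / W)
  rw [div_le_iff₀ hW0] at h1 h3
  rw [← sub_lt_iff_lt_add, lt_div_iff₀ hW0] at h2 h4
  refine ⟨z₁ + W * v, Ideal.Quotient.eq.2 (Ideal.mem_span_singleton.2 ⟨v, by ring⟩), ?_⟩
  simp only [map_add, map_mul, map_natCast]
  refine ⟨?_, ?_, ?_, ?_⟩ <;> linarith

theorem exists_Xi_ne {W : ℕ} (hW : W ≠ 0) (χ : MulChar (F.RW W) ℂ) (τ : ℝ)
    (h : ¬ (χ = 1 ∧ τ = 0)) : ∃ z, F.cop W (Ideal.span {z}) ∧ F.Xi χ τ z ≠ 1 := by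
  by_cases hτ : τ = 0
  · obtain ⟨g, hg⟩ := MulChar.ne_one_iff.1 (fun h' => h ⟨h', hτ⟩)
    obtain ⟨z₁, hz₁⟩ := Ideal.Quotient.mk_surjective g.1.1
    have key : ∀ s : SignType, IsUnit s → ∃ a : ℝ, ∀ x, a ≤ x → x < a + W * F.c0 →
        SignType.sign x = s := by
      intro s hs
      rcases s.trichotomy with rfl | rfl | rfl
      · exact ⟨-(W * F.c0), fun x _ h => sign_neg (by linarith)⟩
      · exact absurd hs not_isUnit_zero
      · exact ⟨1, fun x h _ => sign_pos (by linarith)⟩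
    obtain ⟨-, u1, u2⟩ : IsUnit g.1.1 ∧ IsUnit g.1.2.1 ∧ IsUnit g.1.2.2 := by
      have := g.isUnit
      rwa [Prod.isUnit_iff, Prod.isUnit_iff] at this
    obtain ⟨a, ha⟩ := key _ u1
    obtain ⟨b, hb⟩ := key _ u2
    obtain ⟨z, h1, h2, h3, h4, h5⟩ := F.exists_near' hW z₁ a b
    have h6 : F.cl W z = g := by rw [cl_apply, h1, hz₁, ha _ h2 h3, hb _ h4 h5]
    exact ⟨z, F.isUnit_cl.1 (h6 ▸ g.isUnit), by simpa [Xi, hτ, h6] using hg⟩
  · have hτ' := abs_pos.2 hτ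
    have hL : 0 < W * F.c0 := mul_pos (Nat.cast_pos.2 (Nat.pos_of_ne_zero hW))
      (by linarith [F.one_le_c0])
    set L := W * F.c0
    obtain ⟨z, h1, h2, h3, h4, h5⟩ := F.exists_near' hW 1 (2 * L * |τ| + L) (2 * L * |τ|)
    have a0 : 0 < 2 * L * |τ| := by positivity
    have a1 : 0 < F.σ₂ z := by linarith
    have a2 : 0 < F.σ₁ z := by linarith
    have h6 : F.cl W z = 1 := by rw [cl_apply, h1, sign_pos a1, sign_pos a2]; rfl
    refine ⟨z, F.isUnit_cl.1 (h6 ▸ isUnit_one), ?_⟩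
    rw [Xi, h6, map_one, one_mul, Ne, Complex.exp_eq_one_iff]
    rintro ⟨k, hk⟩
    have b1 : τ * F.ph z = k * (2 * Real.pi) := by simpa using congrArg Complex.im hk
    have b2 : 0 < F.ph z := sub_pos.2 (Real.log_lt_log a1 (by linarith))
    have b3 : F.ph z * |τ| ≤ 1 := by
      rw [ph, ← Real.log_div a2.ne' a1.ne', ← le_div_iff₀ hτ']
      refine (Real.log_le_sub_one_of_pos (by positivity)).trans ?_
      rw [div_sub_one a1.ne', div_le_div_iff₀ a1 hτ']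
      nlinarith
    have b4 : |(k : ℝ)| * (2 * Real.pi) ≤ 1 := by
      rw [← abs_of_pos Real.two_pi_pos, ← abs_mul, ← b1, abs_mul, abs_of_pos b2]; linarith
    have b5 : |(k : ℝ)| < 1 := by nlinarith [Real.pi_gt_three, abs_nonneg (k : ℝ)]
    have b6 : k = 0 := by
      rw [← Int.cast_abs] at b5
      exact Int.abs_lt_one_iff.1 (by exact_mod_cast b5)
    rw [b6, Int.cast_zero, zero_mul] at b1
    exact mul_ne_zero hτ b2.ne' b1

open Classical in
/-- A generator of a principal ideal. -/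
noncomputable def pg (J : Ideal F.O) : F.O :=
  if h : ∃ z, J = Ideal.span {z} then h.choose else 0

theorem pg_spec (J : Ideal F.O) : (F.cls J = 1 ∧ J = Ideal.span {F.pg J}) ∨
    (F.cls J ≠ 1 ∧ F.pg J = 0) := by
  unfold pg
  split_ifs with h
  · exact Or.inl ⟨by rw [h.choose_spec, F.cls_span], h.choose_spec⟩
  · exact Or.inr ⟨fun h' => h ((F.cls_eq_one_iff (fun h0 => h ⟨0, by simp [h0]⟩)).1 h'), rfl⟩

theorem asym_Xi {W n : ℕ} (hW : W ≠ 0) [Fintype (F.UQ n)] (χ : MulChar (F.RW W) ℂ) (τ : ℝ)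
    (hu : F.Xi χ τ ((F.u ^ n : F.Oˣ) : F.O) = 1) :
    F.Asym (fun J => ∑ c : F.UQ n, F.Xi χ τ (F.pg J * (c.out : F.Oˣ)))
      (Nat.card (F.UQ n) * F.d0 W * ind (χ = 1 ∧ τ = 0)) := by
  have h10 : ∀ z, F.Psi0 W (Ideal.span {z}) = F.Xi (1 : MulChar (F.RW W) ℂ) 0 z := fun z => by
    by_cases hz : F.cop W (Ideal.span {z})
    · simp [Psi0, Xi, ind_pos hz, MulChar.one_apply (F.isUnit_cl.2 hz)]
    · simp [Psi0, F.Xi_zero_of _ _ hz, ind_neg hz]
  by_cases h : ∀ γ : F.Oˣ, F.Xi χ τ γ = 1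
  · have key : ∀ Ψ : Ideal F.O → ℂ, (∀ z, Ψ (Ideal.span {z}) = F.Xi χ τ z) → ∀ J,
        Nat.card (F.UQ n) * (Ψ J * ind (F.cls J = 1))
        = ∑ c : F.UQ n, F.Xi χ τ (F.pg J * (c.out : F.Oˣ)) := by
      intro Ψ hΨ J
      simp only [F.Xi_mul, h, mul_one, sum_const, card_univ, nsmul_eq_mul, Nat.card_eq_fintype_card]
      rcases F.pg_spec J with ⟨a1, a2⟩ | ⟨a1, a2⟩
      · rw [ind_pos a1, ← hΨ, ← a2]; simp
      · rw [ind_neg a1, a2, F.Xi_zero_of _ _ (F.not_cop_zero W)]; simp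
    by_cases h1 : χ = 1 ∧ τ = 0
    · refine ((F.asym_pr hW (F.hk0 W)).const_mul _).congr (key _ (by
        rw [h1.1, h1.2]; exact h10)) ?_
      rw [ind_pos h1, d0]; simp
    · obtain ⟨Ψ, hΨ, hΨ'⟩ := F.exists_hk hW χ τ h
      obtain ⟨z, a1, a2⟩ := F.exists_Xi_ne hW χ τ h1
      refine ((F.asym_pr hW hΨ).const_mul _).congr (key _ hΨ') ?_
      rw [ind_neg h1, sum_eq_zero (fun ψ _ => ind_neg (fun h2 => a2 (by
        simpa [hΨ', F.cls_span] using h2 _ a1)))]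
      simp
  · let f : F.Oˣ →* ℂ := ⟨⟨fun γ => F.Xi χ τ γ, F.Xi_one χ τ⟩, fun a b => F.Xi_mul χ τ _ _⟩
    let f' : F.UQ n →* ℂ := QuotientGroup.lift _ f (by
      rw [Subgroup.zpowers_le]; exact hu)
    have h1 := sum_hom_units_eq_zero f' (fun h1 => h (fun γ =>
      DFunLike.congr_fun h1 (QuotientGroup.mk γ)))
    have h2 : ∀ c : F.UQ n, f' c = F.Xi χ τ (c.out : F.Oˣ) := fun c => by
      conv_lhs => rw [← QuotientGroup.out_eq' c]
      rfl
    refine asym_zero.congr (fun J => ?_) ?_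
    · simp only [F.Xi_mul, ← mul_sum, ← h2, h1, mul_zero]
    · rw [ind_neg (fun h3 => h (fun γ => by
        rw [h3.1, h3.2, ← h10, Ideal.span_singleton_eq_top.2 γ.isUnit, (F.hk0 W).one]))]
      simp

theorem asym_T {W n : ℕ} (hW : W ≠ 0) [Fintype (F.UQ n)] {Λ : ℝ} [Fact (0 < Λ)]
    (hΛ : Λ = n * (2 * Real.log F.e)) (hu : F.cl W ((F.u ^ n : F.Oˣ) : F.O) = 1) (g : (F.RW W)ˣ)
    (T : C(AddCircle Λ, ℂ)) (hT : T ∈ Submodule.span ℂ (Set.range (fourier (T := Λ)))) :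
    F.Asym (fun J => ∑ c : F.UQ n, ind (F.cl W (F.pg J * (c.out : F.Oˣ)) = g) *
        T (F.ph (F.pg J * (c.out : F.Oˣ)) : ℝ))
      (Nat.card (F.UQ n) * F.d0 W / Nat.card (F.RW W)ˣ * fourierCoeff T 0) := by
  have := F.finite_RW hW
  have := Fintype.ofFinite (MulChar (F.RW W) ℂ)
  have hΛ0 : 0 < Λ := Fact.out
  have hint : ∀ T : C(AddCircle Λ, ℂ), MeasureTheory.Integrable T AddCircle.haarAddCircle :=
    fun T => T.continuous.integrable_of_hasCompactSupport (HasCompactSupport.of_compactSpace _)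
  induction hT using Submodule.span_induction with
  | mem T hT =>
    obtain ⟨k, rfl⟩ := hT
    have h0 : (Nat.card (F.RW W)ˣ : ℂ) ≠ 0 := by exact_mod_cast Nat.card_pos.ne'
    have h1 : ∀ x : ℝ, fourier k (x : AddCircle Λ)
        = Complex.exp (Complex.I * (2 * Real.pi * k / Λ * x : ℝ)) := fun x => by
      rw [fourier_coe_apply]; congr 1; push_cast; ring
    refine ((Asym.sum univ (fun χ => (F.asym_Xi (n := n) hW χ (2 * Real.pi * k / Λ) ?_).const_mul
      (χ (g⁻¹ : (F.RW W)ˣ)))).const_mul (Nat.card (F.RW W)ˣ : ℂ)⁻¹).congr (fun J => ?_) ?_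
    · rw [Xi, hu, map_one, one_mul, ← zpow_natCast, F.ph_u, Int.cast_natCast, ← hΛ,
        div_mul_cancel₀ _ hΛ0.ne', Complex.exp_eq_one_iff]
      exact ⟨k, by push_cast; ring⟩
    · simp only [mul_sum]
      rw [sum_comm]
      refine sum_congr rfl (fun c _ => ?_)
      simp only [Xi, ← mul_assoc, h1]
      simp only [mul_assoc _ (_ : ℂ) (DFunLike.coe (F := MulChar (F.RW W) ℂ) _ _), ← map_mul]
      rw [← sum_mul, ← mul_sum, sum_mulChar, ind_congr (Units.inv_mul_eq_one.trans eq_comm)]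
      field_simp
    · rw [sum_eq_single 1 (fun χ _ hχ => by rw [ind_neg (fun h => hχ h.1)]; simp)
        (fun h => (h (mem_univ _)).elim), MulChar.one_apply_coe, fourierCoeff_fourier]
      by_cases hk : k = 0
      · rw [ind_pos ⟨rfl, by simp [hk]⟩, hk, Pi.single_eq_same]; push_cast; ring
      · rw [ind_neg (fun h => hk (by simpa [hΛ0.ne'] using h.2)), Pi.single_eq_of_ne (Ne.symm hk)]
        simp
  | zero => simpa [fourierCoeff] using asym_zero
  | add T T' _ _ h h' =>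
    refine (h.add h').congr (fun J => ?_) ?_
    · simp only [← sum_add_distrib, ContinuousMap.add_apply, mul_add]
    · rw [ContinuousMap.coe_add, fourierCoeff.add (hint T) (hint T'), Pi.add_apply, mul_add]
  | smul c T _ h =>
    refine (h.const_mul c).congr (fun J => ?_) ?_
    · simp only [mul_sum, ContinuousMap.smul_apply, smul_eq_mul, mul_left_comm]
    · rw [ContinuousMap.coe_smul, fourierCoeff.const_smul, smul_eq_mul, mul_left_comm]

end RQ

end Pool.Agent.Lib.MP_d48457_nt
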