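import Pool.Agent.Lib.MP_d48457_nt.Count

set_option autoImplicit false

namespace Pool.Agent.Lib.MP_d48457_nt

open QuadraticAlgebra Finset Filter

namespace RQ

variable (F : RQ)

theorem finite_idl (t : ℝ) : {I : Ideal F.O | I ≠ ⊥ ∧ F.nrm I ≤ t}.Finite := by
  refine (Ideal.finite_setOfPred_absNorm_le ⌊t⌋₊).subset ?_
  rintro I ⟨-, h⟩
  exact Nat.le_floor h

/-- Nonzero ideals of norm at most `t`. -/
noncomputable def idl (t : ℝ) : Finset (Ideal F.O) := (F.finite_idl t).toFinset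

theorem mem_idl {t : ℝ} {I : Ideal F.O} : I ∈ F.idl t ↔ I ≠ ⊥ ∧ F.nrm I ≤ t := by
  simp [idl]

theorem one_le_nrm {I : Ideal F.O} (h : I ≠ ⊥) : 1 ≤ F.nrm I := by
  unfold nrm
  exact_mod_cast F.absNorm_pos h

theorem nrm_nonneg (I : Ideal F.O) : 0 ≤ F.nrm I := Nat.cast_nonneg _

theorem nrm_mul (I J : Ideal F.O) : F.nrm (I * J) = F.nrm I * F.nrm J := by
  simp [nrm]

theorem nrm_top : F.nrm ⊤ = 1 := by simp [nrm]

theorem nrm_span (z : F.O) : F.nrm (Ideal.span {z}) = |F.σ₁ z| * |F.σ₂ z| := F.absNorm_span_real z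

noncomputable instance : Fintype (ClassGroup F.O) := Fintype.ofFinite _

/-- Sum of the norms of the class representatives. -/
noncomputable def cs : ℝ := ∑ C : ClassGroup F.O, F.nrm (F.rep C)

theorem nrm_rep_le (C : ClassGroup F.O) : F.nrm (F.rep C) ≤ F.cs :=
  single_le_sum (f := fun C => F.nrm (F.rep C)) (fun _ _ => F.nrm_nonneg _) (mem_univ C)

theorem one_le_cs : 1 ≤ F.cs := (F.one_le_nrm (F.rep_ne 1)).trans (F.nrm_rep_le 1)

theorem card_cls_le : (Fintype.card (ClassGroup F.O) : ℝ) ≤ F.cs := by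
  have := sum_le_sum (s := univ) (fun (C : ClassGroup F.O) _ => F.one_le_nrm (F.rep_ne C))
  simpa [cs] using this

theorem gen_mem_box {t : ℝ} {I : Ideal F.O} (hI : I ∈ F.idl t) :
    F.gen I ∈ F.box (-(F.e * √(t * F.cs))) (F.e * √(t * F.cs)) (-(F.e * √(t * F.cs)))
      (F.e * √(t * F.cs)) := by
  obtain ⟨h0, h1⟩ := F.mem_idl.1 hI
  obtain ⟨-, h2, -, h3⟩ := F.gen_bounds h0
  have h4 : √((Ideal.absNorm I : ℝ) * Ideal.absNorm (F.rep (F.cls I))) ≤ √(t * F.cs) :=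
    Real.sqrt_le_sqrt (mul_le_mul h1 (F.nrm_rep_le _) (F.nrm_nonneg _)
      ((F.nrm_nonneg _).trans h1))
  have h5 := mul_le_mul_of_nonneg_left h4 F.e_pos.le
  have h6 := abs_le.1 (h2.trans h5)
  have h7 := abs_le.1 (h3.trans h5)
  exact F.mem_box.2 ⟨h6.1, h6.2, h7.1, h7.2⟩

theorem card_sym_box_le {ρ : ℝ} (hρ : 1 ≤ ρ) : ((F.box (-ρ) ρ (-ρ) ρ).card : ℝ) ≤ 16 * ρ ^ 2 := by
  refine (F.card_box_le (by linarith) (by linarith)).trans ?_
  nlinarith

theorem sum_idl_le (t : ℝ) (A : Ideal F.O → Prop) (f : ClassGroup F.O → F.O → ℝ)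
    (hf : ∀ C z, 0 ≤ f C z) (hA : ∀ I, I ≠ ⊥ → A I → 1 ≤ f (F.cls I) (F.gen I)) :
    ∑ I ∈ F.idl t, ind (A I) ≤ ∑ C : ClassGroup F.O, ∑ z ∈ F.box (-(F.e * √(t * F.cs)))
      (F.e * √(t * F.cs)) (-(F.e * √(t * F.cs))) (F.e * √(t * F.cs)), f C z := by
  classical
  rw [← sum_fiberwise_of_maps_to (g := F.cls) (t := univ) (fun _ _ => mem_univ _)]
  refine sum_le_sum (fun C _ => ?_)
  have h1 : ∑ I ∈ F.idl t with F.cls I = C, ind (A I)
      ≤ ∑ I ∈ F.idl t with F.cls I = C, f C (F.gen I) := by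
    refine sum_le_sum (fun I hI => ?_)
    obtain ⟨h2, h3⟩ := mem_filter.1 hI
    by_cases h : A I
    · rw [ind_pos h, ← h3]
      exact hA I (F.mem_idl.1 h2).1 h
    · rw [ind_neg h]; exact hf _ _
  refine h1.trans ?_
  rw [← sum_image (f := f C) (g := F.gen) (fun I hI J hJ h => by
    obtain ⟨h2, h3⟩ := mem_filter.1 hI
    obtain ⟨h4, h5⟩ := mem_filter.1 hJ
    exact F.gen_inj (F.mem_idl.1 h2).1 (F.mem_idl.1 h4).1 (h3.trans h5.symm) h)]
  refine sum_le_sum_of_subset_of_nonneg (fun z hz => ?_) (fun z _ _ => hf _ _)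
  obtain ⟨I, hI, rfl⟩ := mem_image.1 hz
  exact F.gen_mem_box (mem_filter.1 hI).1

theorem one_le_rho {t : ℝ} (ht : 1 ≤ t) : 1 ≤ F.e * √(t * F.cs) := by
  have h1 := F.one_le_cs
  have h2 : 1 ≤ √(t * F.cs) := Real.one_le_sqrt.2 (by nlinarith)
  nlinarith [F.one_lt_e]

/-- The constant in the ideal count. -/
noncomputable def c1 : ℝ := 16 * F.e ^ 2 * F.cs ^ 2

theorem one_le_c1 : 1 ≤ F.c1 := by
  have h1 := F.one_le_cs
  have h2 := F.one_lt_e
  unfold c1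
  have : 1 ≤ F.e ^ 2 := one_le_pow₀ h2.le
  have : 1 ≤ F.cs ^ 2 := one_le_pow₀ h1
  nlinarith

theorem card_idl_le {t : ℝ} (ht : 0 ≤ t) : ((F.idl t).card : ℝ) ≤ F.c1 * t := by
  have hc := F.one_le_c1
  rcases lt_or_ge t 1 with h | h
  · have : F.idl t = ∅ := by
      refine eq_empty_of_forall_notMem (fun I hI => ?_)
      obtain ⟨h0, h1⟩ := F.mem_idl.1 hI
      linarith [F.one_le_nrm h0]
    rw [this]; simp; positivity
  have h1 := F.sum_idl_le t (fun _ => True) (fun _ _ => 1) (fun _ _ => zero_le_one)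
    (fun _ _ _ => le_rfl)
  simp only [ind_pos trivial, sum_const, nsmul_eq_mul, mul_one, card_univ] at h1
  refine h1.trans ?_
  have h2 := F.card_sym_box_le (F.one_le_rho h)
  have h3 := F.one_le_cs
  rw [mul_pow, Real.sq_sqrt (by positivity)] at h2
  calc _ ≤ F.cs * (16 * (F.e ^ 2 * (t * F.cs))) :=
        mul_le_mul F.card_cls_le h2 (Nat.cast_nonneg _) (by linarith)
    _ = _ := by unfold c1; ring

theorem count_rough_idl : ∃ C : ℝ, 0 < C ∧ ∀ y R t : ℝ, 2 ≤ y → y ^ 12 ≤ R → 1 ≤ t →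
    ∑ I ∈ F.idl t, ind (F.rough y I) ≤ C * (t / F.Gy y + (√t + R ^ 2) * R ^ 8) := by
  have hc0 := F.one_le_c0
  have hcs := F.one_le_cs
  have he := F.one_lt_e
  refine ⟨128 * F.c0 ^ 2 * F.e ^ 2 * F.cs ^ 2, by positivity, fun y R t hy hR ht => ?_⟩
  have h1 := F.sum_idl_le t (F.rough y) (fun C z => ind (z ∈ F.rep C) * F.nu y R (F.rep C) z)
    (fun _ _ => mul_nonneg (ind_nonneg _) (F.nu_nonneg _ _ _ _)) (fun I hI h => by
      rw [ind_pos (F.gen_mem hI), F.nu_eq_one R (F.rep_ne _) (F.span_gen hI) h, one_mul])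
  refine h1.trans ?_
  set ρ := F.e * √(t * F.cs) with hρ
  have hρ1 : 1 ≤ ρ := F.one_le_rho ht
  have hG := F.one_le_Gy y
  have hR1 : 1 < R := (F.hH_of_le hy hR (empty_subset _)).1
  have h2 := F.card_sym_box_le hρ1
  have hρ2 : ρ ^ 2 = F.e ^ 2 * (t * F.cs) := by rw [hρ, mul_pow, Real.sq_sqrt (by positivity)]
  have hρ3 : ρ ≤ F.e * F.cs * √t := by
    rw [hρ, Real.sqrt_mul (by linarith), mul_assoc, mul_comm (√t)]
    have : √F.cs ≤ F.cs := Real.sqrt_le_iff.2 ⟨by linarith, by nlinarith⟩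
    gcongr
  have h3 : ∀ C : ClassGroup F.O, ∑ z ∈ F.box (-ρ) ρ (-ρ) ρ,
      ind (z ∈ F.rep C) * F.nu y R (F.rep C) z
      ≤ 128 * F.c0 ^ 2 * F.e ^ 2 * F.cs * (t / F.Gy y + (√t + R ^ 2) * R ^ 8) := by
    intro C
    refine (F.sum_nu_le hy hR (F.rep_ne C) (s := 2 * ρ) (by linarith) (by linarith)
      (by linarith)).trans ?_
    have h4 := F.nrm_rep_le C
    have h5 := Real.sqrt_nonneg t
    have e1 : 4 * ((F.box (-ρ) ρ (-ρ) ρ).card : ℝ) / F.Gy y
        ≤ 128 * F.c0 ^ 2 * F.e ^ 2 * F.cs * (t / F.Gy y) := by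
      rw [← mul_div_assoc]
      apply div_le_div_of_nonneg_right _ (by linarith)
      have : 1 ≤ F.c0 ^ 2 := one_le_pow₀ hc0
      have : 0 ≤ F.e ^ 2 * (t * F.cs) := by positivity
      nlinarith
    have e2 : 2 * ρ + F.nrm (F.rep C) * R ^ 2 ≤ 2 * F.e ^ 2 * F.cs * (√t + R ^ 2) := by
      have a1 : F.e * F.cs * √t ≤ F.e ^ 2 * F.cs * √t := by gcongr; nlinarith
      have a2 : F.nrm (F.rep C) * R ^ 2 ≤ F.e ^ 2 * F.cs * R ^ 2 := by
        gcongr; nlinarith [one_le_pow₀ (n := 2) he.le]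
      have : 0 ≤ F.e ^ 2 * F.cs * R ^ 2 := by positivity
      nlinarith
    have e3 : 64 * F.c0 ^ 2 * (2 * ρ + F.nrm (F.rep C) * R ^ 2) * R ^ 8
        ≤ 64 * F.c0 ^ 2 * (2 * F.e ^ 2 * F.cs * (√t + R ^ 2)) * R ^ 8 := by gcongr
    nlinarith
  refine (sum_le_sum (fun C _ => h3 C)).trans ?_
  rw [sum_const, nsmul_eq_mul, card_univ]
  have : 0 ≤ t / F.Gy y + (√t + R ^ 2) * R ^ 8 := by positivity
  calc _ ≤ F.cs * (128 * F.c0 ^ 2 * F.e ^ 2 * F.cs * (t / F.Gy y + (√t + R ^ 2) * R ^ 8)) :=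
        mul_le_mul_of_nonneg_right F.card_cls_le (by positivity)
    _ = _ := by ring

theorem count_not_squarefree {y t : ℝ} (hy : 1 ≤ y) (ht : 0 ≤ t) :
    ∑ I ∈ F.idl t, ind (F.rough y I ∧ ¬ Squarefree (Ideal.absNorm I)) ≤ 12 * F.c1 * t / y := by
  classical
  rw [sum_ind_eq_card]
  let Fib : ℕ → Finset (Ideal F.O) := fun l => (F.PP (l + 1)).filter (fun P => F.ell P = l)
  have hFib : ∀ l, (Fib l).card ≤ 2 := fun l => F.fiber_card_le (l := l) (fun P hP =>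
    ⟨F.PP_prime (mem_filter.1 hP).1, (mem_filter.1 hP).2⟩)
  have hmem : ∀ l P, Prime P → F.ell P = l → P ∈ Fib l := fun l P hP h =>
    mem_filter.2 ⟨F.mem_PP.2 ⟨hP, by rw [h]; linarith⟩, h⟩
  have hm : 1 ≤ ⌈y⌉₊ := Nat.one_le_iff_ne_zero.2 (Nat.ceil_pos.2 (by linarith)).ne'
  have hsub : (F.idl t).filter (fun I => F.rough y I ∧ ¬ Squarefree (Ideal.absNorm I))
      ⊆ (Ioo (⌈y⌉₊ - 1) (⌊t⌋₊ + 1)).biUnion (fun l => (Fib l ×ˢ insert ⊤ (Fib l)).biUnion
        (fun p => (F.idl (t / l ^ 2)).image (fun J => p.1 * p.2 * J))) := by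
    intro I hI
    obtain ⟨hI1, hr, hsq⟩ := mem_filter.1 hI
    obtain ⟨h0, h1⟩ := F.mem_idl.1 hI1
    rw [Nat.squarefree_iff_prime_squarefree] at hsq
    push Not at hsq
    obtain ⟨l, hl, hd⟩ := hsq
    have hl1 : l ∣ Ideal.absNorm I := (dvd_mul_right l l).trans hd
    have hl0 : (0 : ℝ) < l := by exact_mod_cast hl.pos
    have key : ∃ P ∈ Fib l, ∃ Q ∈ insert ⊤ (Fib l), ∃ J, I = P * Q * J ∧
        l ^ 2 ≤ Ideal.absNorm (P * Q) := by
      obtain ⟨P, hP, hPl, J, hJ⟩ := F.exists_prime_dvd hl hl1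
      have h2 := F.absNorm_dvd_ell_sq hP
      rw [hPl, Nat.dvd_prime_pow hl] at h2
      obtain ⟨k, hk, hk'⟩ := h2
      interval_cases k
      · have := F.two_le_absNorm hP
        rw [hk'] at this
        simp at this
      · rw [hJ, map_mul, hk', pow_one] at hd
        obtain ⟨Q, hQ, hQl, J', hJ'⟩ := F.exists_prime_dvd hl
          (Nat.dvd_of_mul_dvd_mul_left hl.pos hd)
        refine ⟨P, hmem l P hP hPl, Q, mem_insert_of_mem (hmem l Q hQ hQl), J',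
          by rw [hJ, hJ', mul_assoc], ?_⟩
        rw [map_mul, hk', pow_one, sq]
        exact Nat.mul_le_mul_left l (hQl ▸ F.ell_le hQ)
      · exact ⟨P, hmem l P hP hPl, ⊤, mem_insert_self _ _, J, by simpa using hJ,
          by simp [hk']⟩
    obtain ⟨P, hP, Q, hQ, J, hJ, hle⟩ := key
    refine mem_biUnion.2 ⟨l, mem_Ioo.2 ⟨?_, ?_⟩, mem_biUnion.2 ⟨(P, Q), mem_product.2 ⟨hP, hQ⟩,
      mem_image.2 ⟨J, F.mem_idl.2 ⟨?_, ?_⟩, hJ.symm⟩⟩⟩
    · have := Nat.ceil_le.2 (hr l hl hl1)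
      omega
    · have h2 := Nat.le_of_dvd (F.absNorm_pos h0) hl1
      have h3 : Ideal.absNorm I ≤ ⌊t⌋₊ := Nat.le_floor h1
      omega
    · rintro rfl
      exact h0 (by rw [hJ]; simp)
    · rw [le_div_iff₀ (by positivity)]
      rw [hJ, F.nrm_mul] at h1
      have h2 : (l : ℝ) ^ 2 ≤ F.nrm (P * Q) := by unfold nrm; exact_mod_cast hle
      have := F.nrm_nonneg J
      nlinarith
  have h1 := (card_le_card hsub).trans card_biUnion_le
  have h2 : ∀ l ∈ Ioo (⌈y⌉₊ - 1) (⌊t⌋₊ + 1), ((((Fib l ×ˢ insert ⊤ (Fib l)).biUnion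
        (fun p => (F.idl (t / l ^ 2)).image (fun J => p.1 * p.2 * J))).card : ℕ) : ℝ)
      ≤ 6 * F.c1 * t * ((l : ℝ) ^ 2)⁻¹ := by
    intro l _
    have h3 : ((Fib l ×ˢ insert ⊤ (Fib l)).biUnion
        (fun p => (F.idl (t / l ^ 2)).image (fun J => p.1 * p.2 * J))).card
        ≤ 6 * (F.idl (t / l ^ 2)).card := by
      refine card_biUnion_le.trans ((sum_le_sum (fun p _ => card_image_le)).trans ?_)
      rw [sum_const, smul_eq_mul, card_product]
      have h4 := hFib l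
      have h5 := card_insert_le ⊤ (Fib l)
      refine Nat.mul_le_mul_right _ ?_
      nlinarith
    have h4 := F.card_idl_le (t := t / l ^ 2) (by positivity)
    have h5 : ((((Fib l ×ˢ insert ⊤ (Fib l)).biUnion
        (fun p => (F.idl (t / l ^ 2)).image (fun J => p.1 * p.2 * J))).card : ℕ) : ℝ)
        ≤ 6 * (F.idl (t / l ^ 2)).card := by exact_mod_cast h3
    have h6 : 6 * F.c1 * t * ((l : ℝ) ^ 2)⁻¹ = 6 * (F.c1 * (t / l ^ 2)) := by ring
    linarith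
  have h3 : (((F.idl t).filter (fun I => F.rough y I ∧ ¬ Squarefree (Ideal.absNorm I))).card : ℝ)
      ≤ ∑ l ∈ Ioo (⌈y⌉₊ - 1) (⌊t⌋₊ + 1), 6 * F.c1 * t * ((l : ℝ) ^ 2)⁻¹ := by
    refine le_trans ?_ (sum_le_sum h2)
    exact_mod_cast h1
  refine h3.trans ?_
  rw [← mul_sum]
  have h4 := sum_Ioo_inv_sq_le (α := ℝ) (⌈y⌉₊ - 1) (⌊t⌋₊ + 1)
  have h5 : (2 : ℝ) / (((⌈y⌉₊ - 1 : ℕ) : ℝ) + 1) ≤ 2 / y := by
    apply div_le_div_of_nonneg_left (by norm_num) (by linarith)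
    rw [Nat.cast_sub hm]
    have := Nat.le_ceil y
    push_cast
    linarith
  have hc := F.one_le_c1
  calc _ ≤ 6 * F.c1 * t * (2 / y) := mul_le_mul_of_nonneg_left (h4.trans h5) (by positivity)
    _ = _ := by ring

theorem euler_ineq (t : ℝ) (P' : Finset (Ideal F.O)) (hP : ∀ P ∈ P', Prime P) :
    ∑ I ∈ F.idl t, ind (∀ P, Prime P → P ∣ I → P ∈ P') / F.nrm I ≤ Ginf P' F.nrm := by
  classical
  induction P' using Finset.induction_on with
  | empty =>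
    have : ∀ I ∈ F.idl t, ind (∀ P, Prime P → P ∣ I → P ∈ (∅ : Finset (Ideal F.O))) / F.nrm I
        ≤ if I = ⊤ then 1 else 0 := by
      intro I hI
      split_ifs with h
      · rw [h, F.nrm_top, div_one]; exact ind_le_one _
      · rw [ind_neg, zero_div]
        intro h'
        obtain ⟨P, hP, hd⟩ := WfDvdMonoid.exists_irreducible_factor
          (fun hu => h (Ideal.isUnit_iff.1 hu)) (F.mem_idl.1 hI).1
        exact notMem_empty _ (h' P hP.prime hd)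
    refine (sum_le_sum this).trans ?_
    rw [sum_ite_eq']
    unfold Ginf
    split_ifs <;> simp
  | insert Q P' hQ ih =>
    have hQp := hP Q (mem_insert_self _ _)
    have ih' := ih (fun P h => hP P (mem_insert_of_mem h))
    have hn : 2 ≤ F.nrm Q := F.two_le_nrm hP Q (mem_insert_self _ _)
    set f : Ideal F.O → ℝ := fun I => ind (∀ P, Prime P → P ∣ I → P ∈ insert Q P') / F.nrm I
      with hf
    have hf0 : ∀ I, 0 ≤ f I := fun I => div_nonneg (ind_nonneg _) (F.nrm_nonneg _)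
    have h1 : ∑ I ∈ F.idl t with ¬ Q ∣ I, f I ≤ Ginf P' F.nrm := by
      refine le_trans ?_ ih'
      rw [sum_filter]
      refine sum_le_sum (fun I _ => ?_)
      split_ifs with h
      · exact div_nonneg (ind_nonneg _) (F.nrm_nonneg _)
      · refine div_le_div_of_nonneg_right (ind_mono (fun h' P hP hd => ?_)) (F.nrm_nonneg _)
        rcases mem_insert.1 (h' P hP hd) with rfl | h2
        · exact (h hd).elim
        · exact h2
    have h2 : ∑ I ∈ F.idl t with Q ∣ I, f I ≤ (∑ I ∈ F.idl t, f I) / F.nrm Q := by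
      have hsub : (F.idl t).filter (Q ∣ ·) ⊆ (F.idl t).image (Q * ·) := by
        intro I hI
        obtain ⟨hI1, J, rfl⟩ := mem_filter.1 hI
        obtain ⟨h0, h3⟩ := F.mem_idl.1 hI1
        refine mem_image.2 ⟨J, F.mem_idl.2 ⟨right_ne_zero_of_mul h0, ?_⟩, rfl⟩
        rw [F.nrm_mul] at h3
        nlinarith [F.nrm_nonneg J]
      refine (sum_le_sum_of_subset_of_nonneg hsub (fun I _ _ => hf0 I)).trans ?_
      rw [sum_image (fun I _ J _ h => mul_left_cancel₀ hQp.ne_zero h), sum_div]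
      refine sum_le_sum (fun J _ => ?_)
      simp only [hf]
      rw [F.nrm_mul, div_div, mul_comm (F.nrm J)]
      refine div_le_div_of_nonneg_right (ind_mono (fun h' P hP hd => h' P hP (hd.mul_left _))) ?_
      exact mul_nonneg (F.nrm_nonneg _) (F.nrm_nonneg _)
    have h3 := sum_filter_add_sum_filter_not (F.idl t) (Q ∣ ·) f
    have h4 : Ginf (insert Q P') F.nrm = (1 + 1 / (F.nrm Q - 1)) * Ginf P' F.nrm := by
      unfold Ginf
      rw [prod_insert hQ]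
    rw [h4]
    change ∑ I ∈ F.idl t, f I ≤ _
    set S := ∑ I ∈ F.idl t, f I
    have h5 : S * (1 - 1 / F.nrm Q) ≤ Ginf P' F.nrm := by
      rw [mul_sub, mul_one, mul_one_div]; linarith
    have h6 : 0 < 1 + 1 / (F.nrm Q - 1) := by
      have : 0 < F.nrm Q - 1 := by linarith
      positivity
    have h7 : (1 + 1 / (F.nrm Q - 1)) * (1 - 1 / F.nrm Q) = 1 := by
      have : F.nrm Q - 1 ≠ 0 := by linarith
      field_simp
      ring
    calc S = (1 + 1 / (F.nrm Q - 1)) * (S * (1 - 1 / F.nrm Q)) := by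
          rw [mul_left_comm, h7, mul_one]
      _ ≤ _ := mul_le_mul_of_nonneg_left h5 h6.le

theorem exists_near (s t : ℝ) : ∃ z : F.O, s ≤ F.σ₁ z ∧ F.σ₁ z < s + F.c0 ∧
    t ≤ F.σ₂ z ∧ F.σ₂ z < t + F.c0 := by
  have hδ := F.δ_pos
  set y : ℤ := ⌈(s - t) / F.δ⌉ with hy
  set x : ℤ := ⌈t - y * ((F.b - F.δ) / 2)⌉ with hx
  have h1 := Int.le_ceil ((s - t) / F.δ)
  have h2 := Int.ceil_lt_add_one ((s - t) / F.δ)
  have h3 := Int.le_ceil (t - y * ((F.b - F.δ) / 2))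
  have h4 := Int.ceil_lt_add_one (t - y * ((F.b - F.δ) / 2))
  rw [← hy] at h1 h2
  rw [← hx] at h3 h4
  rw [div_le_iff₀ hδ] at h1
  have h2' : (y - 1 : ℝ) * F.δ < s - t := by rw [← lt_div_iff₀ hδ]; linarith
  have h5 := abs_nonneg (F.b : ℝ)
  refine ⟨⟨x, y⟩, ?_, ?_, ?_, ?_⟩ <;> simp only [σ₁_apply, σ₂_apply, c0] <;> nlinarith

theorem card_box_ge (a b : ℝ) (m : ℕ) :
    m ^ 2 ≤ (F.box a (a + m * F.c0) b (b + m * F.c0)).card := by
  classical
  have hc := F.one_le_c0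
  choose z h1 h2 h3 h4 using fun p : ℕ × ℕ => F.exists_near (a + p.1 * F.c0) (b + p.2 * F.c0)
  have : (range m ×ˢ range m).card ≤ (F.box a (a + m * F.c0) b (b + m * F.c0)).card := by
    refine card_le_card_of_injOn z (fun p hp => ?_) (fun p _ q _ h => ?_)
    · obtain ⟨e1, e2⟩ := mem_product.1 hp
      have e1' : (p.1 : ℝ) + 1 ≤ m := by exact_mod_cast mem_range.1 e1
      have e2' : (p.2 : ℝ) + 1 ≤ m := by exact_mod_cast mem_range.1 e2
      have := h1 p; have := h2 p; have := h3 p; have := h4 p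
      have : (0 : ℝ) ≤ p.1 := Nat.cast_nonneg _
      have : (0 : ℝ) ≤ p.2 := Nat.cast_nonneg _
      exact mem_coe.2 (F.mem_box.2 ⟨by nlinarith, by nlinarith, by nlinarith, by nlinarith⟩)
    · have a1 := h1 p; have a2 := h2 p; have a3 := h3 p; have a4 := h4 p
      have b1 := h1 q; have b2 := h2 q; have b3 := h3 q; have b4 := h4 q
      rw [h] at a1 a2 a3 a4
      have key : ∀ i j : ℕ, (i : ℝ) * F.c0 < j * F.c0 + F.c0 → i ≤ j := by
        intro i j hij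
        have : (i : ℝ) < j + 1 := by nlinarith
        have : i < j + 1 := by exact_mod_cast this
        omega
      exact Prod.ext (le_antisymm (key _ _ (by linarith)) (key _ _ (by linarith)))
        (le_antisymm (key _ _ (by linarith)) (key _ _ (by linarith)))
  simpa [sq] using this

theorem sum_inv_nrm_ge {A : ℝ} (hA : 2 * F.c0 ≤ A) (t : ℝ) (ht : 4 * A ^ 2 ≤ t) :
    1 / (576 * F.c0 ^ 2) ≤ ∑ I ∈ F.idl t, ind (A ^ 2 ≤ F.nrm I ∧ F.nrm I ≤ 4 * A ^ 2) / F.nrm I := by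
  classical
  have hc := F.one_le_c0
  have hA0 : 0 < A := by linarith
  set m := ⌊A / F.c0⌋₊ with hm
  have hm1 : (m : ℝ) * F.c0 ≤ A := by
    rw [← le_div_iff₀ (by linarith)]; exact Nat.floor_le (by positivity)
  have hm2 : A ≤ 2 * m * F.c0 := by
    have := Nat.lt_floor_add_one (A / F.c0)
    rw [← hm, div_lt_iff₀ (by linarith)] at this
    nlinarith
  set B := F.box A (A + m * F.c0) A (A + m * F.c0) with hB
  have hB1 : ∀ z ∈ B, A ≤ |F.σ₁ z| ∧ |F.σ₁ z| ≤ 2 * A ∧ A ≤ |F.σ₂ z| ∧ |F.σ₂ z| ≤ 2 * A := by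
    intro z hz
    obtain ⟨h1, h2, h3, h4⟩ := F.mem_box.1 hz
    rw [abs_of_pos (by linarith), abs_of_pos (by linarith)]
    exact ⟨h1, by linarith, h3, by linarith⟩
  set S := B.image (fun z => Ideal.span {z}) with hS
  have h1 : B.card ≤ 36 * S.card := by
    refine card_le_mul_card_image B 36 (fun I _ => ?_)
    have := F.card_assoc_le 2 (by norm_num) A hA0 I (B.filter (fun z => Ideal.span {z} = I))
      (fun z hz => ⟨(mem_filter.1 hz).2, hB1 z (mem_filter.1 hz).1⟩)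
    norm_num at this
    exact_mod_cast this
  have h2 : (m : ℝ) ^ 2 ≤ 36 * S.card := by exact_mod_cast (F.card_box_ge A A m).trans h1
  have h3 : ∀ I ∈ S, I ∈ F.idl t ∧ A ^ 2 ≤ F.nrm I ∧ F.nrm I ≤ 4 * A ^ 2 := by
    intro I hI
    obtain ⟨z, hz, rfl⟩ := mem_image.1 hI
    obtain ⟨e1, e2, e3, e4⟩ := hB1 z hz
    have e5 : A ^ 2 ≤ F.nrm (Ideal.span {z}) := by rw [F.nrm_span]; nlinarith
    have e6 : F.nrm (Ideal.span {z}) ≤ 4 * A ^ 2 := by rw [F.nrm_span]; nlinarith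
    refine ⟨F.mem_idl.2 ⟨?_, by linarith⟩, e5, e6⟩
    intro h
    rw [h] at e5
    simp [nrm] at e5
    nlinarith
  have h4 : ∑ I ∈ S, 1 / (4 * A ^ 2)
      ≤ ∑ I ∈ F.idl t, ind (A ^ 2 ≤ F.nrm I ∧ F.nrm I ≤ 4 * A ^ 2) / F.nrm I := by
    refine le_trans (sum_le_sum (fun I hI => ?_)) (sum_le_sum_of_subset_of_nonneg
      (fun I hI => (h3 I hI).1) (fun I _ _ => div_nonneg (ind_nonneg _) (F.nrm_nonneg _)))
    obtain ⟨-, e1, e2⟩ := h3 I hI
    rw [ind_pos ⟨e1, e2⟩]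
    exact one_div_le_one_div_of_le (by nlinarith) e2
  refine le_trans ?_ h4
  rw [sum_const, nsmul_eq_mul, mul_one_div, div_le_div_iff₀ (by positivity) (by positivity)]
  have h5 : A ^ 2 ≤ (2 * m * F.c0) ^ 2 := pow_le_pow_left₀ hA0.le hm2 2
  nlinarith [sq_nonneg F.c0]

theorem Gy_ge : ∃ c : ℝ, 0 < c ∧ ∀ᶠ y in atTop, c * Real.log y ≤ F.Gy y := by
  classical
  have hc := F.one_le_c0
  obtain ⟨i₀, hi₀⟩ := pow_unbounded_of_one_lt (2 * F.c0) (by norm_num : (1 : ℝ) < 3)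
  refine ⟨1 / (576 * F.c0 ^ 2) / 6, by positivity, ?_⟩
  filter_upwards [eventually_ge_atTop 5,
    Real.tendsto_log_atTop.eventually_ge_atTop (6 * (i₀ + 2) : ℝ)] with y hy hlog
  obtain ⟨m, hm1, hm2⟩ := exists_nat_pow_near (x := y / 5) (y := 9) (by linarith) (by norm_num)
  have hm3 : Real.log y ≤ 3 * (m + 2) := by
    have h1 : y ≤ 9 ^ (m + 2) := by
      rw [div_lt_iff₀ (by norm_num)] at hm2
      rw [pow_succ]
      have : (0 : ℝ) < 9 ^ (m + 1) := by positivity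
      linarith
    have h2 := Real.log_le_log (by linarith) h1
    rw [Real.log_pow] at h2
    have h3 : Real.log 9 ≤ 3 := by
      rw [show (9 : ℝ) = 3 ^ 2 by norm_num, Real.log_pow]
      have h4 : Real.log 3 ≤ Real.log 4 := Real.log_le_log (by norm_num) (by norm_num)
      rw [show (4 : ℝ) = 2 ^ 2 by norm_num, Real.log_pow] at h4
      have := Real.log_two_lt_d9
      push_cast at h4 ⊢
      linarith
    push_cast at h2
    have : (0 : ℝ) ≤ m + 2 := by positivity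
    nlinarith
  set t := 4 * (9 : ℝ) ^ m with ht
  have hty : t < y := by
    rw [le_div_iff₀ (by norm_num)] at hm1
    have : (0 : ℝ) < 9 ^ m := by positivity
    linarith
  have h1 := F.euler_ineq t (F.PP y) (fun _ h => F.PP_prime h)
  have h2 : ∑ I ∈ F.idl t, 1 / F.nrm I
      = ∑ I ∈ F.idl t, ind (∀ P, Prime P → P ∣ I → P ∈ F.PP y) / F.nrm I := by
    refine sum_congr rfl (fun I hI => ?_)
    obtain ⟨h0, h3⟩ := F.mem_idl.1 hI
    rw [ind_pos]
    intro P hP hd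
    refine F.mem_PP.2 ⟨hP, lt_of_le_of_lt (le_trans ?_ h3) hty⟩
    unfold nrm
    exact_mod_cast (F.ell_le hP).trans (Nat.le_of_dvd (F.absNorm_pos h0)
      (map_dvd Ideal.absNorm hd))
  have h3 : ∑ i ∈ Ico i₀ m, ∑ I ∈ F.idl t,
      ind (((3 : ℝ) ^ i) ^ 2 ≤ F.nrm I ∧ F.nrm I ≤ 4 * ((3 : ℝ) ^ i) ^ 2) / F.nrm I
      ≤ ∑ I ∈ F.idl t, 1 / F.nrm I := by
    rw [sum_comm]
    refine sum_le_sum (fun I _ => ?_)
    rw [← sum_div]
    apply div_le_div_of_nonneg_right _ (F.nrm_nonneg _)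
    rw [sum_ind_eq_card]
    have : (filter (fun i : ℕ => ((3 : ℝ) ^ i) ^ 2 ≤ F.nrm I ∧ F.nrm I ≤ 4 * ((3 : ℝ) ^ i) ^ 2)
        (Ico i₀ m)).card ≤ 1 := by
      refine card_le_one.2 (fun i hi j hj => ?_)
      obtain ⟨-, a1, a2⟩ := mem_filter.1 hi
      obtain ⟨-, b1, b2⟩ := mem_filter.1 hj
      have key : ∀ i j : ℕ, ((3 : ℝ) ^ i) ^ 2 ≤ 4 * ((3 : ℝ) ^ j) ^ 2 → i ≤ j := by
        intro i j h
        by_contra hc
        have h5 : (3 : ℝ) ^ (j + 1) ≤ 3 ^ i := pow_le_pow_right₀ (by norm_num) (by omega)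
        rw [pow_succ] at h5
        have : (0 : ℝ) < 3 ^ j := by positivity
        nlinarith
      exact le_antisymm (key _ _ (a1.trans b2)) (key _ _ (b1.trans a2))
    exact_mod_cast this
  have h4 : ∀ i ∈ Ico i₀ m, 1 / (576 * F.c0 ^ 2) ≤ ∑ I ∈ F.idl t,
      ind (((3 : ℝ) ^ i) ^ 2 ≤ F.nrm I ∧ F.nrm I ≤ 4 * ((3 : ℝ) ^ i) ^ 2) / F.nrm I := by
    intro i hi
    obtain ⟨a1, a2⟩ := mem_Ico.1 hi
    refine F.sum_inv_nrm_ge (hi₀.le.trans (pow_le_pow_right₀ (by norm_num) a1)) t ?_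
    rw [ht, ← pow_mul, mul_comm i 2, pow_mul]
    norm_num
    exact pow_le_pow_right₀ (by norm_num) a2.le
  have h5 := (sum_le_sum h4).trans (h3.trans (h2 ▸ h1))
  rw [sum_const, nsmul_eq_mul, Nat.card_Ico] at h5
  have h6 : Real.log y / 6 ≤ ((m - i₀ : ℕ) : ℝ) := by
    have : (i₀ : ℝ) ≤ m := by linarith
    rw [Nat.cast_sub (by exact_mod_cast this)]
    linarith
  refine le_trans ?_ h5
  have : 0 ≤ 1 / (576 * F.c0 ^ 2) := by positivity
  nlinarith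

end RQ

end Pool.Agent.Lib.MP_d48457_nt
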