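import Pool.Agent.Lib.MP_d48457_nt.HP

set_option autoImplicit false

namespace Pool.Agent.Lib.MP_d48457_nt

open QuadraticAlgebra Finset

theorem crt_sum {ι : Type} [Fintype ι] [DecidableEq ι] (p : ι → ℕ) [∀ i, NeZero (p i)]
    (hc : Pairwise (Function.onFun Nat.Coprime p)) {W : ℕ} (hW : W ≠ 0) (hd : ∀ i, p i ∣ W) :
    ∃ κ : ℝ, κ * ∏ i, (p i : ℝ) = W ∧ ∀ G : ∀ i, ZMod (p i) → ℝ,
      ∑ x ∈ range W, ∏ i, G i (x : ZMod (p i)) = κ * ∏ i, ∑ v, G i v := by
  classical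
  have : NeZero W := ⟨hW⟩
  let φ : ZMod W →+* ∀ i, ZMod (p i) := RingHom.pi (fun i => ZMod.castHom (hd i) (ZMod (p i)))
  have hs : ∀ v, v ∈ Set.range φ := fun v => by
    obtain ⟨n, hn⟩ := ZMod.intCast_surjective ((ZMod.prodEquivPi p hc).symm v)
    refine ⟨n, ?_⟩
    rw [map_intCast, ← map_intCast (ZMod.prodEquivPi p hc), hn, RingEquiv.apply_symm_apply]
  have key : ∀ G : ∀ i, ZMod (p i) → ℝ, ∑ x ∈ range W, ∏ i, G i (x : ZMod (p i))
      = (#{g | φ g = 0} : ℕ) * ∏ i, ∑ v, G i v := fun G => by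
    have h1 : ∑ x ∈ range W, ∏ i, G i (x : ZMod (p i)) = ∑ u : ZMod W, ∏ i, G i (φ u i) := by
      refine sum_nbij' (fun x => (x : ZMod W)) ZMod.val (fun _ _ => mem_univ _)
        (fun u _ => mem_range.2 (ZMod.val_lt u)) (fun x hx => ZMod.val_cast_of_lt (mem_range.1 hx))
        (fun u _ => ZMod.natCast_zmod_val u) (fun x _ => ?_)
      rw [map_natCast]; rfl
    rw [h1, prod_univ_sum, Fintype.piFinset_univ, mul_sum,
      ← sum_fiberwise_of_maps_to (g := φ) (t := univ) (fun _ _ => mem_univ _)]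
    refine sum_congr rfl (fun v _ => ?_)
    rw [sum_congr rfl (g := fun _ => ∏ i, G i (v i)) (fun u hu => by rw [(mem_filter.1 hu).2]),
      sum_const, nsmul_eq_mul, AddMonoidHom.card_fiber_eq_of_mem_range φ (hs v) (hs 0)]
  refine ⟨_, ?_, key⟩
  simpa [ZMod.card] using (key (fun _ _ => 1)).symm

/-- The number of `x` modulo `l` with `x + y ω` of norm prime to `l`. -/
noncomputable def al (a b : ℤ) (l : ℕ) [NeZero l] (y : ZMod l) : ℝ :=
  ∑ x : ZMod l, ind (x * x + b * x * y - a * y * y ≠ 0)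

theorem al_le (a b : ℤ) (l : ℕ) [NeZero l] (y : ZMod l) : al a b l y ≤ l :=
  (sum_le_card_nsmul _ _ 1 (fun _ _ => ind_le_one _)).trans (by simp [ZMod.card])

theorem al_nonneg (a b : ℤ) (l : ℕ) [NeZero l] (y : ZMod l) : 0 ≤ al a b l y :=
  sum_nonneg (fun _ _ => ind_nonneg _)

theorem al_inv_le (a b : ℤ) (l : ℕ) [NeZero l] (y : ZMod l) : (al a b l y)⁻¹ ≤ 1 := by
  classical
  rw [al, sum_ind_eq_card]
  exact Nat.cast_inv_le_one _

open Polynomial in
theorem le_al (a b : ℤ) (l : ℕ) [NeZero l] (hl : l.Prime) (y : ZMod l) :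
    (l : ℝ) - 2 ≤ al a b l y := by
  classical
  have : Fact l.Prime := ⟨hl⟩
  have h1 := card_filter_add_card_filter_not (s := (univ : Finset (ZMod l)))
    (fun x => x * x + b * x * y - a * y * y = 0)
  rw [card_univ, ZMod.card] at h1
  have h2 : #{x : ZMod l | x * x + b * x * y - a * y * y = 0} ≤ 2 := by
    have h3 : (C 1 * X ^ 2 + C (b * y) * X + C (-(a * y * y)) : (ZMod l)[X]).natDegree = 2 :=
      natDegree_quadratic one_ne_zero
    refine le_trans (card_le_degree_of_subset_roots (fun x hx => ?_)) h3.le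
    rw [mem_roots (by intro h; rw [h] at h3; simp at h3), IsRoot.def]
    have := (mem_filter.1 hx).2
    simp only [eval_add, eval_mul, eval_C, eval_pow, eval_X]
    linear_combination this
  rw [al, sum_ind_eq_card, sub_le_iff_le_add]
  exact_mod_cast (by omega : l ≤ #{x : ZMod l | ¬ x * x + b * x * y - a * y * y = 0} + 2)

theorem al_pos (a b : ℤ) (l : ℕ) [NeZero l] (hl : l.Prime) {y : ℤ} (hy : Even (b * y)) :
    0 < al a b l y := by
  rcases hl.eq_two_or_odd' with rfl | h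
  · have h1 : ∀ a b y : ZMod 2, b * y = 0 → ∃ x : ZMod 2, x * x + b * x * y - a * y * y ≠ 0 := by
      decide
    obtain ⟨x, hx⟩ := h1 a b y (by
      rw [← Int.cast_mul, ZMod.intCast_zmod_eq_zero_iff_dvd]; exact hy.two_dvd)
    exact lt_of_lt_of_le (by rw [ind_pos hx]; exact one_pos) (single_le_sum
      (f := fun x : ZMod 2 => ind (x * x + b * x * y - a * y * y ≠ 0))
      (fun _ _ => ind_nonneg _) (mem_univ x))
  · have h1 : (3 : ℝ) ≤ l := by
      have := hl.two_le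
      obtain ⟨k, hk⟩ := h
      exact_mod_cast (by omega : 3 ≤ l)
    linarith [le_al a b l hl y]

theorem al_kant (a b : ℤ) (l : ℕ) [NeZero l] (hl : l.Prime) :
    (∑ y, al a b l y) * ∑ y, (al a b l y)⁻¹ ≤ l ^ 2 * (1 + 4 * ((l : ℝ) ^ 2)⁻¹) := by
  have h0 : (2 : ℝ) ≤ l := by exact_mod_cast hl.two_le
  have hA : 0 ≤ ∑ y, al a b l y := sum_nonneg (fun _ _ => al_nonneg _ _ _ _)
  have hB : 0 ≤ ∑ y, (al a b l y)⁻¹ := sum_nonneg (fun _ _ => inv_nonneg.2 (al_nonneg _ _ _ _))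
  rw [show (l : ℝ) ^ 2 * (1 + 4 * ((l : ℝ) ^ 2)⁻¹) = l ^ 2 + 4 by field_simp]
  rcases hl.eq_two_or_odd' with rfl | h
  · have h1 := sum_le_card_nsmul univ _ _ (fun y _ => al_le a b 2 y)
    have h2 := sum_le_card_nsmul univ _ _ (fun y _ => al_inv_le a b 2 y)
    simp only [card_univ, ZMod.card, nsmul_eq_mul, Nat.cast_ofNat] at h1 h2 ⊢
    nlinarith
  · have h1 : (3 : ℝ) ≤ l := by
      have := hl.two_le
      obtain ⟨k, hk⟩ := h
      exact_mod_cast (by omega : 3 ≤ l)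
    have h2 := sum_le_card_nsmul univ (fun y => al a b l y + (l - 2) * l * (al a b l y)⁻¹)
      (2 * l - 2) (fun y _ => by
        have a1 := le_al a b l hl y
        have a2 := al_le a b l y
        have a3 : 0 < al a b l y := by linarith
        rw [← div_eq_mul_inv, ← le_sub_iff_add_le', div_le_iff₀ a3]
        nlinarith [mul_nonneg (sub_nonneg.2 a1) (sub_nonneg.2 a2)])
    rw [sum_add_distrib, ← mul_sum, card_univ, ZMod.card, nsmul_eq_mul] at h2
    set A := ∑ y, al a b l y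
    set B := ∑ y, (al a b l y)⁻¹
    have h3 : 0 < ((l : ℝ) - 2) * l := by nlinarith
    have h4 : 4 * (A * ((l - 2) * l * B)) ≤ (l * (2 * l - 2)) ^ 2 :=
      le_trans (by nlinarith [sq_nonneg (A - (l - 2) * l * B)])
        (pow_le_pow_left₀ (by positivity) h2 2)
    refine le_of_mul_le_mul_left ?_ h3
    nlinarith

namespace RQ

variable (F : RQ)

/-- The number of `x` modulo `W` with `x + y ω` of norm prime to `W`. -/
noncomputable def AW (W : ℕ) (y : ℤ) : ℝ :=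
  ∑ x ∈ range W, ind (Nat.Coprime (QuadraticAlgebra.norm (⟨x, y⟩ : F.O)).natAbs W)

theorem AW_nonneg (W : ℕ) (y : ℤ) : 0 ≤ F.AW W y := sum_nonneg (fun _ _ => ind_nonneg _)

theorem local_bound : ∃ C : ℝ, 0 < C ∧ ∀ {W : ℕ}, W ≠ 0 →
    (∑ y ∈ range W, F.AW W y) * ∑ y ∈ range W, (F.AW W y)⁻¹ ≤ C * W ^ 2 ∧
    ∀ (m : ℤ) (y : ℤ), Even (F.b * (m * W + y)) → 0 < F.AW W y := by
  refine ⟨Real.exp 8, Real.exp_pos _, fun {W} hW => ?_⟩
  have hp : ∀ i : W.primeFactors, (i : ℕ).Prime := fun i => Nat.prime_of_mem_primeFactors i.2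
  have hd : ∀ i : W.primeFactors, (i : ℕ) ∣ W := fun i => Nat.dvd_of_mem_primeFactors i.2
  have : ∀ i : W.primeFactors, NeZero (i : ℕ) := fun i => ⟨(hp i).ne_zero⟩
  obtain ⟨κ, h1, h2⟩ := crt_sum (fun i : W.primeFactors => (i : ℕ))
    (fun i j h => (Nat.coprime_primes (hp i) (hp j)).2 (fun h' => h (Subtype.ext h'))) hW hd
  have hW0 : (0 : ℝ) < W := Nat.cast_pos.2 (Nat.pos_of_ne_zero hW)
  have hκ : 0 < κ := by
    rw [← h1] at hW0
    exact (pos_iff_pos_of_mul_pos hW0).2 (prod_pos (fun i _ => Nat.cast_pos.2 (hp i).pos))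
  have h3 : ∀ y : ℤ, F.AW W y = κ * ∏ i : W.primeFactors, al F.a F.b i y := fun y => by
    refine Eq.trans (sum_congr rfl (fun x _ => ?_)) (h2 (fun i x =>
      ind (x * x + F.b * x * y - F.a * y * y ≠ 0)))
    rw [← ind_forall]
    refine ind_congr ?_
    have e : ∀ i : W.primeFactors, ((x : ZMod i) * x + F.b * x * y - F.a * y * y = 0) ↔
        (i : ℕ) ∣ (QuadraticAlgebra.norm (⟨x, y⟩ : F.O)).natAbs := fun i => by
      rw [← Int.natCast_dvd, ← ZMod.intCast_zmod_eq_zero_iff_dvd, norm_def]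
      push_cast
      rfl
    rw [← not_iff_not, Nat.Prime.not_coprime_iff_dvd]
    simp only [mem_univ, forall_const, Ne, e, not_forall, not_not]
    exact ⟨fun ⟨l, a1, a2, a3⟩ => ⟨⟨l, Nat.mem_primeFactors.2 ⟨a1, a3, hW⟩⟩, a2⟩,
      fun ⟨i, hi⟩ => ⟨i, hp i, hi, hd i⟩⟩
  refine ⟨?_, fun m y hy => ?_⟩
  · simp only [h3, mul_inv, ← mul_sum, ← prod_inv_distrib, Int.cast_natCast]
    rw [h2 (fun i y => al F.a F.b i y), h2 (fun i y => (al F.a F.b i y)⁻¹), ← h1,
      inv_mul_cancel_left₀ hκ.ne', mul_assoc, mul_assoc, ← prod_mul_distrib, ← mul_assoc, mul_pow,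
      mul_left_comm, ← sq, ← prod_pow]
    refine mul_le_mul_of_nonneg_left ?_ (by positivity)
    refine (prod_le_prod (fun (i : W.primeFactors) _ => mul_nonneg (sum_nonneg (fun _ _ => al_nonneg _ _ _ _))
      (sum_nonneg (fun _ _ => inv_nonneg.2 (al_nonneg _ _ _ _))))
      (fun i _ => al_kant F.a F.b i (hp i))).trans ?_
    rw [prod_mul_distrib, mul_comm]
    refine mul_le_mul_of_nonneg_right ((Real.prod_one_add_le_exp_sum _ (fun _ => by
      positivity)).trans (Real.exp_le_exp.2 ?_)) (by positivity)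
    rw [← mul_sum, sum_coe_sort W.primeFactors (fun l => ((l : ℝ) ^ 2)⁻¹)]
    have a1 := sum_Ioo_inv_sq_le (α := ℝ) 0 (W + 1)
    have a2 := sum_le_sum_of_subset_of_nonneg (s := W.primeFactors) (t := Ioo 0 (W + 1))
      (f := fun l : ℕ => ((l : ℝ) ^ 2)⁻¹) (fun l hl => mem_Ioo.2
        ⟨(Nat.prime_of_mem_primeFactors hl).pos, Nat.lt_succ_of_le (Nat.le_of_mem_primeFactors hl)⟩)
      (fun _ _ _ => by positivity)
    norm_num at a1 a2 ⊢
    linarith
  · rw [h3]
    refine mul_pos hκ (prod_pos (fun i _ => ?_))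
    have := al_pos F.a F.b i (hp i) hy
    rwa [Int.cast_add, Int.cast_mul, Int.cast_natCast, (ZMod.natCast_eq_zero_iff _ _).2 (hd i),
      mul_zero, zero_add] at this

theorem isUnit_mk {W : ℕ} {z : F.O} : IsUnit (Ideal.Quotient.mk (Ideal.span {(W : F.O)}) z) ↔
    Nat.Coprime z.norm.natAbs W := by
  rw [isUnit_iff_exists_inv, ← Int.natAbs_natCast W, ← Int.isCoprime_iff_nat_coprime,
    Int.natAbs_natCast]
  constructor
  · rintro ⟨b, hb⟩
    obtain ⟨b, rfl⟩ := Ideal.Quotient.mk_surjective b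
    rw [← map_mul, ← map_one (Ideal.Quotient.mk _), Ideal.Quotient.eq,
      Ideal.mem_span_singleton] at hb
    obtain ⟨v, hv⟩ := hb
    have h1 := congrArg QuadraticAlgebra.norm (eq_add_of_sub_eq hv)
    rw [map_mul, norm_def ((W : F.O) * v + 1)] at h1
    simp only [re_add, im_add, re_mul, im_mul, re_natCast, im_natCast, re_one, im_one] at h1
    exact ⟨b.norm, -(2 * v.re + W * v.re * v.re + F.b * v.im + W * F.b * v.re * v.im
      - F.a * W * v.im * v.im), by linear_combination h1⟩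
  · rintro ⟨a, b, hab⟩
    refine ⟨Ideal.Quotient.mk _ (a * star z), ?_⟩
    rw [← map_mul, ← map_one (Ideal.Quotient.mk _), Ideal.Quotient.eq, Ideal.mem_span_singleton]
    refine ⟨-b, ?_⟩
    have h1 := congrArg (Int.cast : ℤ → F.O) hab
    have h2 : ((z.norm : ℤ) : F.O) = z * star z := by
      rw [← algebraMap_norm_eq_mul_star]; simp
    push_cast at h1
    linear_combination h1 - (a : F.O) * h2

theorem mk_eq_iff {W : ℕ} {z w : F.O} : Ideal.Quotient.mk (Ideal.span {(W : F.O)}) z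
    = Ideal.Quotient.mk _ w ↔ z.re % W = w.re % W ∧ z.im % W = w.im % W := by
  rw [Ideal.Quotient.eq, Ideal.mem_span_singleton, ← Int.cast_natCast, F.natCast_dvd_iff,
    re_sub, im_sub, Int.emod_eq_emod_iff_emod_sub_eq_zero, Int.emod_eq_emod_iff_emod_sub_eq_zero,
    Int.dvd_iff_emod_eq_zero, Int.dvd_iff_emod_eq_zero]

theorem card_units_le {W : ℕ} (hW : W ≠ 0) :
    (Nat.card (F.RW W)ˣ : ℝ) ≤ 9 * ∑ y ∈ range W, F.AW W y := by
  classical
  have := F.finite_RW hW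
  have := Fintype.ofFinite (F.RW W)
  have hW0 : (0 : ℤ) < W := by exact_mod_cast Nat.pos_of_ne_zero hW
  have h1 : Nat.card (F.RW W)ˣ = #{g : F.RW W | IsUnit g} := by
    rw [← Fintype.card_subtype, ← Nat.card_eq_fintype_card]
    exact Nat.card_congr (Submonoid.unitsTypeEquivIsUnitSubmonoid.toEquiv)
  have h2 : #{g : F.RW W | IsUnit g} ≤ #((univ : Finset (SignType × SignType)) ×ˢ
      ((range W ×ˢ range W).filter (fun x =>
        Nat.Coprime (QuadraticAlgebra.norm (⟨x.2, x.1⟩ : F.O)).natAbs W))) := by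
    refine card_le_card_of_surjOn (fun x => (Ideal.Quotient.mk _ (⟨x.2.2, x.2.1⟩ : F.O), x.1))
      (fun g hg => ?_)
    obtain ⟨z, hz⟩ := Ideal.Quotient.mk_surjective g.1
    have a1 : Ideal.Quotient.mk (Ideal.span {(W : F.O)})
        (⟨(z.re % W).toNat, (z.im % W).toNat⟩ : F.O) = g.1 := by
      rw [← hz, F.mk_eq_iff, Int.toNat_of_nonneg (Int.emod_nonneg _ hW0.ne'),
        Int.toNat_of_nonneg (Int.emod_nonneg _ hW0.ne')]
      simp
    refine ⟨(g.2, (z.im % W).toNat, (z.re % W).toNat), ?_, Prod.ext a1 rfl⟩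
    have a2 := Int.emod_lt_of_pos z.re hW0
    have a3 := Int.emod_lt_of_pos z.im hW0
    simp only [coe_product, coe_univ, coe_filter, mem_product, mem_range, Set.mem_prod,
      Set.mem_univ, Set.mem_ofPred_eq, true_and]
    refine ⟨⟨by omega, by omega⟩, F.isUnit_mk.1 ?_⟩
    rw [a1]
    exact (Prod.isUnit_iff.1 (mem_filter.1 (mem_coe.1 hg)).2).1
  rw [card_product, ← h1] at h2
  refine (Nat.cast_le.2 h2).trans (le_of_eq ?_)
  rw [Nat.cast_mul, ← sum_ind_eq_card, sum_product]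
  congr 1

end RQ

end Pool.Agent.Lib.MP_d48457_nt
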