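import Pool.Agent.Lib.MP_d48457_nt.Dual
import Pool.Agent.Lib.MP_d48457_nt.Count

set_option autoImplicit false

namespace Pool.Agent.Lib.MP_d48457_nt

open QuadraticAlgebra Finset

namespace RQ

variable (F : RQ)

theorem eq_prod_of_dvd (U : Finset (Ideal F.O)) (hU : ∀ P ∈ U, Prime P) (J : Ideal F.O)
    (h : J ∣ ∏ P ∈ U, P) : ∃ T ⊆ U, J = ∏ P ∈ T, P := by
  induction U using Finset.induction_on generalizing J with
  | empty =>
    rw [prod_empty] at h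
    exact ⟨∅, subset_refl _, by rw [prod_empty]; exact isUnit_iff_eq_one.1 (isUnit_of_dvd_one h)⟩
  | insert Q U hQ ih =>
    rw [prod_insert hQ] at h
    obtain ⟨J₁, J₂, h1, h2, rfl⟩ := exists_dvd_and_dvd_of_dvd_mul h
    obtain ⟨T, hT, rfl⟩ := ih (fun P h => hU P (mem_insert_of_mem h)) J₂ h2
    rcases (hU Q (mem_insert_self _ _)).irreducible.dvd_iff.1 h1 with h3 | h3
    · exact ⟨T, hT.trans (subset_insert _ _), by rw [isUnit_iff_eq_one.1 h3, one_mul]⟩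
    · refine ⟨insert Q T, insert_subset_insert _ hT, ?_⟩
      rw [prod_insert (fun h => hQ (hT h)), associated_iff_eq.1 h3]

theorem prod_dvd_prod_iff {T U : Finset (Ideal F.O)} (hT : ∀ P ∈ T, Prime P)
    (hU : ∀ P ∈ U, Prime P) : ∏ P ∈ T, P ∣ ∏ P ∈ U, P ↔ T ⊆ U := by
  constructor
  · intro h P hP
    have h1 := (F.prod_dvd_iff hT).1 h P hP
    obtain ⟨Q, hQ, h2⟩ := ((hT P hP).dvd_finsetProd_iff (fun P : Ideal F.O => P)).1 h1
    have := associated_iff_eq.1 ((hT P hP).associated_of_dvd (hU Q hQ) h2)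
    rwa [this]
  · intro h
    exact prod_dvd_prod_of_subset T U (fun P : Ideal F.O => P) h

/-- The annihilator ideal of a frequency. -/
def ann (b : Ideal F.O) (M : ℕ) (ξ : F.O) : Ideal F.O where
  carrier := {x | ∀ w ∈ b, (M : F.O) ∣ x * w * ξ}
  add_mem' := fun hx hy w hw => by
    rw [add_mul, add_mul]; exact dvd_add (hx w hw) (hy w hw)
  zero_mem' := fun w _ => by simp
  smul_mem' := fun r x hx w hw => by
    rw [smul_eq_mul, mul_assoc, mul_assoc, ← mul_assoc x]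
    exact (hx w hw).mul_left r

theorem mem_ann {b : Ideal F.O} {M : ℕ} {ξ x : F.O} :
    x ∈ F.ann b M ξ ↔ ∀ w ∈ b, (M : F.O) ∣ x * w * ξ := Iff.rfl

theorem ann_dvd_iff {b d : Ideal F.O} {M : ℕ} {ξ : F.O} :
    F.ann b M ξ ∣ d ↔ ∀ v ∈ d * b, (M : F.O) ∣ v * ξ := by
  rw [Ideal.dvd_iff_le]
  constructor
  · intro h v hv
    refine Submodule.mul_induction_on hv (fun x hx w hw => h hx w hw) (fun x y hx hy => ?_)
    rw [add_mul]; exact dvd_add hx hy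
  · intro h x hx w hw
    exact h _ (Ideal.mul_mem_mul hx hw)

theorem ann_dvd_iff_im {b d : Ideal F.O} {M : ℕ} {ξ : F.O} :
    F.ann b M ξ ∣ d ↔ ∀ v ∈ d * b, (M : ℤ) ∣ (v * ξ).im := by
  rw [ann_dvd_iff]
  constructor
  · intro h v hv
    have := h v hv
    rw [← Int.cast_natCast] at this
    exact (F.natCast_dvd_iff.1 this).2
  · intro h v hv
    rw [← Int.cast_natCast, F.intCast_dvd_iff_im]
    intro w
    rw [← mul_assoc]
    exact h _ (Ideal.mul_mem_left _ w hv)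

/-- The part of the radical dividing `d`. -/
noncomputable def r1 (d : ℕ) (T : Finset (Ideal F.O)) : ℕ :=
  ∏ l ∈ (T.image F.ell).filter (· ∣ d), l

/-- The part of the radical not dividing `d`. -/
noncomputable def r2 (d : ℕ) (T : Finset (Ideal F.O)) : ℕ :=
  ∏ l ∈ (T.image F.ell).filter (fun l => ¬ l ∣ d), l

theorem r1_mul_r2 (d : ℕ) (T : Finset (Ideal F.O)) : F.r1 d T * F.r2 d T = F.rad T :=
  prod_filter_mul_prod_filter_not _ _ _

theorem r1_pos (d : ℕ) {T : Finset (Ideal F.O)} (hT : ∀ P ∈ T, Prime P) : 0 < F.r1 d T :=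
  Nat.pos_of_mul_pos_right (by rw [F.r1_mul_r2]; exact F.rad_pos hT)

theorem r2_pos (d : ℕ) {T : Finset (Ideal F.O)} (hT : ∀ P ∈ T, Prime P) : 0 < F.r2 d T :=
  Nat.pos_of_mul_pos_left (by rw [F.r1_mul_r2]; exact F.rad_pos hT)

theorem coprime_r2 (d : ℕ) {T : Finset (Ideal F.O)} (hT : ∀ P ∈ T, Prime P) :
    Nat.Coprime d (F.r2 d T) := by
  refine Nat.Coprime.prod_right (fun l hl => ?_)
  obtain ⟨h1, h2⟩ := mem_filter.1 hl
  obtain ⟨P, hP, rfl⟩ := mem_image.1 h1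
  exact ((Nat.Prime.coprime_iff_not_dvd (F.ell_prime (hT P hP))).2 h2).symm

/-- The fibre hypothesis on an element. -/
def Fib (y : ℝ) (b : Ideal F.O) (c' : ℝ) (π : F.O) : Prop :=
  ∀ T ⊆ F.PP y, ∃ v ∈ (∏ P ∈ T, P) * b, ∃ e : ℕ, 0 < e ∧ (v * π).im = e ∧
    (e : ℝ) * F.rad T ≤ c' * ∏ P ∈ T, F.nrm P

theorem card_dvd_le {M : ℕ} [NeZero M] {e : ℕ} (he : 0 < e) (S : Finset (ZMod M))
    (hS : ∀ a ∈ S, ∀ a' ∈ S, (M : ℤ) ∣ ((a.val : ℤ) - a'.val) * e) : S.card ≤ e := by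
  have hM : 0 < M := Nat.pos_of_ne_zero (NeZero.ne M)
  rw [← card_range e]
  refine card_le_card_of_injOn (fun a => a.val * e / M) (fun a _ => ?_) (fun a ha a' ha' h => ?_)
  · rw [mem_coe, mem_range, Nat.div_lt_iff_lt_mul hM, mul_comm e]
    exact Nat.mul_lt_mul_of_pos_right (ZMod.val_lt a) he
  · have h1 := hS a ha a' ha'
    have h2 : a.val * e % M = a'.val * e % M := by
      have : a'.val * e ≡ a.val * e [MOD M] := by
        rw [Nat.modEq_iff_dvd]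
        push_cast
        rwa [← sub_mul]
      exact this.symm
    have h3 := Nat.div_add_mod (a.val * e) M
    have h4 := Nat.div_add_mod (a'.val * e) M
    simp only at h
    rw [h, h2, h4] at h3
    exact ZMod.val_injective M (Nat.eq_of_mul_eq_mul_right he h3.symm)

theorem one_side {y c' : ℝ} {b : Ideal F.O} {π₁ π₂ : F.O} (h1 : F.Fib y b c' π₁)
    (h2 : F.Fib y b c' π₂) {M : ℕ} [NeZero M] (a₁ : ZMod M) {T : Finset (Ideal F.O)}
    (hT : T ⊆ F.PP y) :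
    ∑ a₂ : ZMod M, ind (F.ann b M ((a₁.val : F.O) * π₁ + (a₂.val : F.O) * π₂) = ∏ P ∈ T, P)
        * √((frac a₁).den / (frac a₂).den)
      ≤ (c' * (∏ P ∈ T, F.nrm P) / F.rad T) * √(c' * F.r1 (frac a₁).den T / F.r2 (frac a₁).den T)
        * ind (((frac a₁).den : ℤ) ∣ (Ideal.absNorm b * F.rad T : ℕ) * F.det π₁ π₂) := by
  classical
  have hTp : ∀ P ∈ T, Prime P := fun P h => F.PP_prime (hT h)
  set d₁ := (frac a₁).den with hd₁
  set S := univ.filter (fun a₂ : ZMod M =>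
    F.ann b M ((a₁.val : F.O) * π₁ + (a₂.val : F.O) * π₂) = ∏ P ∈ T, P) with hS
  have hrad : (0 : ℝ) < F.rad T := by exact_mod_cast F.rad_pos hTp
  obtain ⟨v, hv, e, he, hve, hle⟩ := h2 T hT
  obtain ⟨v₀, hv₀, e₀, he₀, hve₀, hle₀⟩ := h1 ∅ (empty_subset _)
  simp only [prod_empty, one_mul, rad, image_empty, Nat.cast_one, mul_one] at hv₀ hle₀
  have hmem : ∀ a₂ ∈ S, ∀ u ∈ (∏ P ∈ T, P) * b,
      (M : ℤ) ∣ a₁.val * (u * π₁).im + a₂.val * (u * π₂).im := by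
    intro a₂ ha₂ u hu
    have := F.ann_dvd_iff_im.1 (dvd_of_eq (mem_filter.1 ha₂).2) u hu
    have e : (u * ((a₁.val : F.O) * π₁ + (a₂.val : F.O) * π₂)).im
        = a₁.val * (u * π₁).im + a₂.val * (u * π₂).im := by
      simp only [im_mul, re_mul, re_add, im_add, re_natCast, im_natCast]
      ring
    rwa [e] at this
  have hcard : (S.card : ℝ) ≤ c' * (∏ P ∈ T, F.nrm P) / F.rad T := by
    have : S.card ≤ e := card_dvd_le he S (fun a ha a' ha' => by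
      have := dvd_sub (hmem a ha v hv) (hmem a' ha' v hv)
      rw [hve, add_sub_add_left_eq_sub, ← sub_mul] at this
      exact this)
    rw [le_div_iff₀ hrad]
    refine le_trans ?_ hle
    gcongr
  have hsq : ∀ a₂ ∈ S, √((d₁ : ℝ) / (frac a₂).den) ≤ √(c' * F.r1 d₁ T / F.r2 d₁ T) := by
    intro a₂ ha₂
    apply Real.sqrt_le_sqrt
    set d₂ := (frac a₂).den with hd₂
    have hd₂0 : 0 < d₂ := (frac a₂).den_pos
    have k1 : (M : ℤ) ∣ a₁.val * d₁ := (den_dvd_iff a₁ _).1 dvd_rfl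
    have k2 : (M : ℤ) ∣ a₂.val * d₂ := (den_dvd_iff a₂ _).1 dvd_rfl
    have k3 : ((d₁ * d₂ : ℕ) : F.O) ∈ ∏ P ∈ T, P := by
      rw [← (mem_filter.1 ha₂).2, F.mem_ann]
      intro w _
      obtain ⟨s, hs⟩ := k1
      obtain ⟨t, ht⟩ := k2
      have hs' := congrArg (fun x : ℤ => (x : F.O)) hs
      have ht' := congrArg (fun x : ℤ => (x : F.O)) ht
      simp only [Int.cast_mul, Int.cast_natCast] at hs' ht'
      refine ⟨w * (s * d₂ * π₁ + t * d₁ * π₂), ?_⟩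
      push_cast
      linear_combination (w * d₂ * π₁) * hs' + (w * d₁ * π₂) * ht'
    have k4 : F.r2 d₁ T ∣ d₂ := by
      refine (F.coprime_r2 d₁ hTp).symm.dvd_of_dvd_mul_left ?_
      refine Dvd.dvd.trans (Dvd.intro_left _ (F.r1_mul_r2 d₁ T)) (F.rad_dvd hTp (fun P hP => ?_))
      refine F.ell_dvd_of_mem (hTp P hP) ?_
      exact Ideal.le_of_dvd (dvd_prod_of_mem (fun P : Ideal F.O => P) hP) k3
    obtain ⟨d', hd'⟩ := k4
    have hd'0 : 0 < d' := Nat.pos_of_mul_pos_left (hd' ▸ hd₂0)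
    have k5 : ((F.rad T * d' : ℕ) : F.O) * v₀ ∈ (∏ P ∈ T, P) * b := by
      refine Ideal.mul_mem_mul ?_ hv₀
      push_cast
      exact Ideal.mul_mem_right _ _ (F.rad_mem hTp)
    have k6 := hmem a₂ ha₂ _ k5
    have k7 : (M : ℤ) ∣ a₂.val * (((F.rad T * d' : ℕ) : F.O) * v₀ * π₂).im := by
      have : (((F.rad T * d' : ℕ) : F.O) * v₀ * π₂).im = d₂ * (F.r1 d₁ T * (v₀ * π₂).im) := by
        rw [mul_assoc, ← nsmul_eq_mul, im_smul, nsmul_eq_mul, ← F.r1_mul_r2 d₁ T, hd']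
        push_cast
        ring
      rw [this, ← mul_assoc]
      exact k2.mul_right _
    have k8 := (Int.dvd_add_left k7).1 k6
    have k8' : (((F.rad T * d' : ℕ) : F.O) * v₀ * π₁).im
        = (F.r2 d₁ T * (F.r1 d₁ T * d' * e₀) : ℕ) := by
      rw [mul_assoc, ← nsmul_eq_mul, im_smul, nsmul_eq_mul, hve₀, ← F.r1_mul_r2 d₁ T]
      push_cast
      ring
    rw [k8', ← den_dvd_iff, ← hd₁] at k8
    have k9 : d₁ ∣ F.r2 d₁ T * (F.r1 d₁ T * d' * e₀) := by exact_mod_cast k8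
    have k10 := Nat.le_of_dvd (by have := F.r1_pos d₁ hTp; positivity)
      ((F.coprime_r2 d₁ hTp).dvd_of_dvd_mul_left k9)
    have k11 : (d₁ : ℝ) ≤ F.r1 d₁ T * d' * e₀ := by exact_mod_cast k10
    have k12 : (0 : ℝ) < F.r2 d₁ T := by exact_mod_cast F.r2_pos d₁ hTp
    have k13 : (0 : ℝ) < d' := by exact_mod_cast hd'0
    rw [hd']
    push_cast
    rw [div_le_div_iff₀ (by positivity) k12]
    have k14 : (F.r1 d₁ T : ℝ) * d' * e₀ ≤ F.r1 d₁ T * d' * c' := by gcongr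
    nlinarith
  have hsum : ∑ a₂ : ZMod M,
      ind (F.ann b M ((a₁.val : F.O) * π₁ + (a₂.val : F.O) * π₂) = ∏ P ∈ T, P)
        * √((d₁ : ℝ) / (frac a₂).den) = ∑ a₂ ∈ S, √((d₁ : ℝ) / (frac a₂).den) := by
    rw [hS, sum_filter]
    refine sum_congr rfl (fun a₂ _ => ?_)
    split_ifs with h
    · rw [ind_pos h, one_mul]
    · rw [ind_neg h, zero_mul]
  rw [hsum]
  rcases S.eq_empty_or_nonempty with h | ⟨a₂, ha₂⟩
  · rw [h, sum_empty]
    exact mul_nonneg (mul_nonneg ((Nat.cast_nonneg _).trans hcard) (Real.sqrt_nonneg _))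
      (ind_nonneg _)
  rw [ind_pos, mul_one]
  · refine (sum_le_sum hsq).trans ?_
    rw [sum_const, nsmul_eq_mul]
    exact mul_le_mul_of_nonneg_right hcard (Real.sqrt_nonneg _)
  · rw [hd₁, den_dvd_iff]
    have k1 : ((F.rad T : ℕ) : F.O) * (Ideal.absNorm b : ℕ) * star π₂ ∈ (∏ P ∈ T, P) * b :=
      Ideal.mul_mem_right _ _ (Ideal.mul_mem_mul (F.rad_mem hTp) (Ideal.absNorm_mem b))
    have k2 := hmem a₂ ha₂ _ k1
    rw [← dvd_neg]
    refine k2.trans (dvd_of_eq ?_)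
    simp only [det, im_mul, re_mul, re_star, im_star, re_natCast, im_natCast]
    push_cast
    ring

/-- The linear map attached to a pair. -/
def Tm (π₁ π₂ : F.O) : F.O →+ ℤ × ℤ where
  toFun w := ((w * π₁).im, (w * π₂).im)
  map_zero' := by simp
  map_add' v w := by simp only [add_mul, im_add, Prod.mk_add_mk]

theorem Tm_apply (π₁ π₂ w : F.O) : F.Tm π₁ π₂ w = ((w * π₁).im, (w * π₂).im) := rfl

theorem Tm_inj {π₁ π₂ : F.O} (h : F.det π₁ π₂ ≠ 0) : Function.Injective (F.Tm π₁ π₂) := by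
  rw [injective_iff_map_eq_zero]
  intro w hw
  rw [Tm_apply, Prod.mk_eq_zero] at hw
  obtain ⟨h1, h2⟩ := hw
  simp only [im_mul] at h1 h2
  have e1 : F.det π₁ π₂ * w.im = 0 := by
    unfold det; linear_combination π₂.im * h1 - π₁.im * h2
  have e2 : F.det π₁ π₂ * w.re = 0 := by
    unfold det
    linear_combination (-(π₂.re + F.b * π₂.im)) * h1 + (π₁.re + F.b * π₁.im) * h2
  exact QuadraticAlgebra.ext ((mul_eq_zero.1 e2).resolve_left h) ((mul_eq_zero.1 e1).resolve_left h)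

theorem Tm_range_index {π₁ π₂ : F.O} (h : F.det π₁ π₂ ≠ 0) :
    (F.Tm π₁ π₂).range.index = (F.det π₁ π₂).natAbs := by
  have e : π₁.im * (π₂.re + F.b * π₂.im) - (π₁.re + F.b * π₁.im) * π₂.im = -F.det π₁ π₂ := by
    unfold det; ring
  rw [index_range_lin π₁.im (π₁.re + F.b * π₁.im) π₂.im (π₂.re + F.b * π₂.im)
    (by rw [e]; exact neg_ne_zero.2 h), e, Int.natAbs_neg]
  intro k
  rw [AddMonoidHom.mem_range]
  constructor
  · rintro ⟨w, rfl⟩
    refine ⟨w.re, w.im, ?_⟩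
    rw [Tm_apply]
    simp only [im_mul]
    congr 1 <;> ring
  · rintro ⟨x, y, rfl⟩
    refine ⟨⟨x, y⟩, ?_⟩
    rw [Tm_apply]
    simp only [im_mul]
    congr 1 <;> ring

theorem Tm_adj (π₁ π₂ : F.O) (k : ℤ × ℤ) :
    F.Tm π₁ π₂ (k.2 * star π₁ - k.1 * star π₂) = (F.det π₁ π₂ * k.1, F.det π₁ π₂ * k.2) := by
  rw [Tm_apply]
  simp only [det, im_mul, re_mul, re_star, im_star, re_intCast, im_intCast, re_sub, im_sub,
    Int.cast_id]
  congr 1 <;> ring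

/-- The arithmetic weight of a denominator. -/
noncomputable def ZZ (y R : ℝ) (c : ℕ) (c' : ℝ) (d : ℕ) (Δ : ℤ) : ℝ :=
  ∑ T ∈ (F.PP y).powerset, |cc (F.PP y) F.nrm (sa (F.PP y) F.nrm R) T| *
    ((c' * (∏ P ∈ T, F.nrm P) / F.rad T) * √(c' * F.r1 d T / F.r2 d T)
      * ind ((d : ℤ) ∣ (c * F.rad T : ℕ) * Δ))

theorem prod_nrm_nonneg (T : Finset (Ideal F.O)) : 0 ≤ ∏ P ∈ T, F.nrm P :=
  prod_nonneg (fun _ _ => Nat.cast_nonneg _)

theorem ZZ_nonneg (y R : ℝ) (c : ℕ) {c' : ℝ} (hc' : 0 ≤ c') (d : ℕ) (Δ : ℤ) :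
    0 ≤ F.ZZ y R c c' d Δ := by
  refine sum_nonneg (fun T _ => ?_)
  have := F.prod_nrm_nonneg T
  have := ind_nonneg ((d : ℤ) ∣ (c * F.rad T : ℕ) * Δ)
  positivity

theorem ZZ_neg (y R : ℝ) (c : ℕ) (c' : ℝ) (d : ℕ) (Δ : ℤ) :
    F.ZZ y R c c' d (-Δ) = F.ZZ y R c c' d Δ := by
  unfold ZZ
  simp_rw [mul_neg, dvd_neg]

theorem rad_le_real {T : Finset (Ideal F.O)} (hT : ∀ P ∈ T, Prime P) :
    (F.rad T : ℝ) ≤ ∏ P ∈ T, F.nrm P := by
  unfold nrm
  exact_mod_cast F.rad_le hT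

theorem ZZ_eq_zero {y R : ℝ} (hR : 1 < R) {c : ℕ} (hc : c ≠ 0) (c' : ℝ) {d : ℕ} {Δ : ℤ}
    (hΔ : Δ ≠ 0) (hd : c * R ^ 2 * |(Δ : ℝ)| < d) : F.ZZ y R c c' d Δ = 0 := by
  refine sum_eq_zero (fun T hT => ?_)
  rw [mem_powerset] at hT
  have hTp : ∀ P ∈ T, Prime P := fun P h => F.PP_prime (hT h)
  by_cases h : R ^ 2 < ∏ P ∈ T, F.nrm P
  · rw [cc_eq_zero (F.two_le_nrm (fun _ h => F.PP_prime h)) _ (by linarith)
      (fun r _ h => sa_supp hR h) h, abs_zero, zero_mul]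
  · rw [ind_neg, mul_zero, mul_zero]
    intro hdvd
    have h1 : ((c * F.rad T : ℕ) : ℤ) * Δ ≠ 0 :=
      mul_ne_zero (by exact_mod_cast mul_ne_zero hc (F.rad_pos hTp).ne') hΔ
    have h2 := Int.le_of_dvd (abs_pos.2 h1) ((dvd_abs _ _).2 hdvd)
    have h3 : (d : ℝ) ≤ |((c * F.rad T : ℕ) : ℝ) * Δ| := by exact_mod_cast h2
    rw [abs_mul, Nat.abs_cast] at h3
    push_cast at h3
    have h4 := (F.rad_le_real hTp).trans (not_lt.1 h)
    have h5 : (c : ℝ) * F.rad T * |(Δ : ℝ)| ≤ c * R ^ 2 * |(Δ : ℝ)| := by gcongr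
    linarith

theorem pair_bound {y R c' D s : ℝ} (hR : 1 < R) (hc' : 0 ≤ c') (hs : 0 < s) {b : Ideal F.O}
    (hb : b ≠ ⊥) {π₁ π₂ : F.O} (hdet : F.det π₁ π₂ ≠ 0) (h1 : F.Fib y b c' π₁)
    (h2 : F.Fib y b c' π₂) (hD : Ideal.absNorm b * R ^ 2 * |(F.det π₁ π₂ : ℝ)| ≤ D)
    (g₁ g₂ : ℤ → ℝ) (I₁ I₂ : Finset ℤ) (X : Finset F.O)
    (hX : ∀ w, w ∈ X ↔ (w * π₁).im ∈ I₁ ∧ (w * π₂).im ∈ I₂) :
    |∑ w ∈ X, ind (w ∈ b) * F.nu y R b w * (g₁ (w * π₁).im * g₂ (w * π₂).im)|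
      ≤ 1 / (2 * |(F.det π₁ π₂ : ℝ)|) *
        (s * ∑ q ∈ farey D, ‖ghat g₁ I₁ q‖ ^ 2 * F.ZZ y R (Ideal.absNorm b) c' q.den (F.det π₁ π₂)
        + s⁻¹ * ∑ q ∈ farey D,
          ‖ghat g₂ I₂ q‖ ^ 2 * F.ZZ y R (Ideal.absNorm b) c' q.den (F.det π₁ π₂)) := by
  set PP := F.PP y with hPP
  have hPp : ∀ P ∈ PP, Prime P := fun _ h => F.PP_prime h
  have hn := F.two_le_nrm hPp
  set a := sa PP F.nrm R with ha
  set c := Ideal.absNorm b with hc
  have hc0 : 0 < c := F.absNorm_pos hb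
  set Δ := F.det π₁ π₂ with hΔ
  set M := F.rad PP * c * Δ.natAbs with hM
  have : NeZero M := ⟨mul_ne_zero (mul_ne_zero (F.rad_pos hPp).ne' hc0.ne')
    (Int.natAbs_ne_zero.2 hdet)⟩
  let ξ : ZMod M × ZMod M → F.O := fun a => (a.1.val : F.O) * π₁ + (a.2.val : F.O) * π₂
  let G : ZMod M × ZMod M → ℂ := fun a => ghat g₁ I₁ (frac a.1) * ghat g₂ I₂ (frac a.2)
  have hΔ0 : (0 : ℝ) < |(Δ : ℝ)| := abs_pos.2 (by exact_mod_cast hdet)
  have step1 : ∀ U ⊆ PP,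
      ((∑ w ∈ X, ind (w ∈ (∏ P ∈ U, P) * b) * (g₁ (w * π₁).im * g₂ (w * π₂).im) : ℝ) : ℂ)
      = ((1 / (c * |(Δ : ℝ)|) : ℝ) : ℂ) * ∑ a : ZMod M × ZMod M,
        ((ind (F.ann b M (ξ a) ∣ ∏ P ∈ U, P) / ∏ P ∈ U, F.nrm P : ℝ) : ℂ) * G a := by
    intro U hU
    have hUp : ∀ P ∈ U, Prime P := fun P h => hPp P (hU h)
    set Λ := ((∏ P ∈ U, P) * b).toAddSubgroup.map (F.Tm π₁ π₂) with hΛ
    have hNU : (0 : ℝ) < ∏ P ∈ U, F.nrm P := prod_pos (fun P hP => by linarith [hn P (hU hP)])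
    have hidx : (Λ.index : ℝ) = (∏ P ∈ U, F.nrm P) * (c * |(Δ : ℝ)|) := by
      rw [hΛ, AddSubgroup.index_map_of_injective _ (F.Tm_inj hdet), F.Tm_range_index hdet,
        ← Ideal.absNorm_eq_index, map_mul, map_prod]
      push_cast
      rw [Nat.cast_natAbs, Int.cast_abs, mul_assoc]
      rfl
    have hMΛ : ∀ k : ℤ × ℤ, ((M : ℤ) * k.1, (M : ℤ) * k.2) ∈ Λ := by
      intro k
      refine ⟨((F.rad PP * c : ℕ) * Δ.sign : ℤ) • ((k.2 : F.O) * star π₁ - k.1 * star π₂), ?_, ?_⟩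
      · rw [zsmul_eq_mul]
        push_cast
        refine Ideal.mul_mem_right _ _ (Ideal.mul_mem_right _ _ (Ideal.mul_mem_mul ?_
          (Ideal.absNorm_mem b)))
        exact Ideal.le_of_dvd (prod_dvd_prod_of_subset U PP (fun P : Ideal F.O => P) hU)
          (F.rad_mem hPp)
      · rw [map_zsmul, Tm_adj, hM]
        have := Int.sign_mul_self_eq_natAbs Δ
        simp only [Prod.smul_mk, smul_eq_mul, Prod.mk.injEq]
        push_cast at this ⊢
        constructor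
        · linear_combination (F.rad PP * c * k.1) * this
        · linear_combination (F.rad PP * c * k.2) * this
    have e1 : ∑ w ∈ X, ind (w ∈ (∏ P ∈ U, P) * b) * (g₁ (w * π₁).im * g₂ (w * π₂).im)
        = ∑ k ∈ I₁ ×ˢ I₂, ind (k ∈ Λ) * (g₁ k.1 * g₂ k.2) := by
      refine sum_of_injOn (F.Tm π₁ π₂) (F.Tm_inj hdet).injOn
        (fun w hw => mem_product.2 ((hX w).1 hw)) (fun k hk hk' => ?_) (fun w _ => ?_)
      · rw [ind_neg, zero_mul]
        rintro ⟨w, -, rfl⟩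
        exact hk' ⟨w, (hX w).2 (mem_product.1 hk), rfl⟩
      · congr 1
        refine ind_congr ?_
        rw [hΛ, AddSubgroup.mem_map_iff_mem (F.Tm_inj hdet)]
        rfl
    have e2 : ∀ a : ZMod M × ZMod M, (∀ h ∈ Λ, (M : ℤ) ∣ a.1.val * h.1 + a.2.val * h.2)
        ↔ F.ann b M (ξ a) ∣ ∏ P ∈ U, P := by
      intro a
      rw [F.ann_dvd_iff_im]
      have : ∀ v : F.O, (v * ξ a).im
          = a.1.val * (F.Tm π₁ π₂ v).1 + a.2.val * (F.Tm π₁ π₂ v).2 := by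
        intro v
        simp only [ξ, Tm_apply, im_mul, re_mul, re_add, im_add, re_natCast, im_natCast]
        ring
      simp_rw [this]
      constructor
      · intro h v hv
        exact h _ ⟨v, hv, rfl⟩
      · rintro h _ ⟨v, hv, rfl⟩
        exact h v hv
    have hidx0 : (Λ.index : ℂ) ≠ 0 := by
      have : (Λ.index : ℝ) ≠ 0 := by rw [hidx]; positivity
      exact_mod_cast this
    apply mul_left_cancel₀ hidx0
    rw [e1]
    push_cast
    rw [mul_sum]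
    simp_rw [← mul_assoc, ind_sub_fourier Λ M hMΛ, sum_mul, e2]
    rw [sum_comm, mul_sum]
    refine sum_congr rfl (fun a _ => ?_)
    have hidx' : (Λ.index : ℂ) = (∏ P ∈ U, (F.nrm P : ℂ)) * (c * ((|(Δ : ℝ)| : ℝ) : ℂ)) := by
      exact_mod_cast congrArg (fun x : ℝ => (x : ℂ)) hidx
    have hNU' : (∏ P ∈ U, (F.nrm P : ℂ)) ≠ 0 := by exact_mod_cast hNU.ne'
    have hc1 : (c : ℂ) ≠ 0 := by exact_mod_cast hc0.ne'
    have hΔ1 : ((|(Δ : ℝ)| : ℝ) : ℂ) ≠ 0 := by exact_mod_cast hΔ0.ne'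
    rw [hidx']
    simp only [G, ghat, frac_cast]
    rw [sum_mul_sum, ← sum_product', mul_sum, mul_sum]
    refine sum_congr rfl (fun k _ => ?_)
    field_simp
  let κ : ZMod M × ZMod M → ℝ := fun x => ∑ S ∈ PP.powerset, ∑ S' ∈ PP.powerset,
    lam PP F.nrm a S * lam PP F.nrm a S' *
      (ind (F.ann b M (ξ x) ∣ ∏ P ∈ S ∪ S', P) / ∏ P ∈ S ∪ S', F.nrm P)
  have step2 : ((∑ w ∈ X, ind (w ∈ b) * F.nu y R b w * (g₁ (w * π₁).im * g₂ (w * π₂).im) : ℝ) : ℂ)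
      = ((1 / (c * |(Δ : ℝ)|) : ℝ) : ℂ) * ∑ x : ZMod M × ZMod M, (κ x : ℂ) * G x := by
    have e1 : ∑ w ∈ X, ind (w ∈ b) * F.nu y R b w * (g₁ (w * π₁).im * g₂ (w * π₂).im)
        = ∑ S ∈ PP.powerset, ∑ S' ∈ PP.powerset, lam PP F.nrm a S * lam PP F.nrm a S' *
          ∑ w ∈ X, ind (w ∈ (∏ P ∈ S ∪ S', P) * b) * (g₁ (w * π₁).im * g₂ (w * π₂).im) := by
      unfold nu
      simp_rw [beta_sq, mul_sum, sum_mul]
      rw [sum_comm]
      refine sum_congr rfl (fun S hS => ?_)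
      rw [sum_comm]
      refine sum_congr rfl (fun S' hS' => sum_congr rfl (fun w _ => ?_))
      have hU : ∀ P ∈ S ∪ S', Prime P :=
        fun P h => hPp P (union_subset (mem_powerset.1 hS) (mem_powerset.1 hS') h)
      by_cases hw : w ∈ b
      · rw [ind_pos hw, ind_congr (F.mem_prod_mul_iff hU hb hw)]
        ring
      · rw [ind_neg hw, ind_neg (q := w ∈ (∏ P ∈ S ∪ S', P) * b)
          (fun h => hw (Ideal.mul_le_right h))]
        ring
    rw [e1]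
    simp only [κ]
    rw [Complex.ofReal_sum]
    simp_rw [Complex.ofReal_sum (s := PP.powerset), sum_mul]
    rw [sum_comm (s := univ), mul_sum]
    refine sum_congr rfl (fun S hS => ?_)
    rw [sum_comm (s := univ), mul_sum]
    refine sum_congr rfl (fun S' hS' => ?_)
    rw [Complex.ofReal_mul, step1 _ (union_subset (mem_powerset.1 hS) (mem_powerset.1 hS')),
      mul_left_comm, mul_sum]
    congr 1
    refine sum_congr rfl (fun x _ => ?_)
    push_cast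
    ring
  have step3 : ∀ x, |κ x| ≤ ∑ T ∈ PP.powerset,
      |cc PP F.nrm a T| * ind (F.ann b M (ξ x) = ∏ P ∈ T, P) := by
    intro x
    have hnn : ∀ T ∈ PP.powerset, 0 ≤ |cc PP F.nrm a T| * ind (F.ann b M (ξ x) = ∏ P ∈ T, P) :=
      fun T _ => mul_nonneg (abs_nonneg _) (ind_nonneg _)
    by_cases h : ∃ T ⊆ PP, F.ann b M (ξ x) = ∏ P ∈ T, P
    · obtain ⟨T, hT, h⟩ := h
      refine le_trans (le_of_eq ?_) (single_le_sum hnn (mem_powerset.2 hT))
      rw [ind_pos h, mul_one]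
      congr 1
      refine sum_congr rfl (fun S hS => sum_congr rfl (fun S' hS' => ?_))
      rw [h, ind_congr (F.prod_dvd_prod_iff (fun P h => hPp P (hT h))
        (fun P h => hPp P (union_subset (mem_powerset.1 hS) (mem_powerset.1 hS') h)))]
    · have : κ x = 0 := by
        refine sum_eq_zero (fun S hS => sum_eq_zero (fun S' hS' => ?_))
        have hU := union_subset (mem_powerset.1 hS) (mem_powerset.1 hS')
        rw [ind_neg, zero_div, mul_zero]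
        intro hd
        obtain ⟨T, hT, h'⟩ := F.eq_prod_of_dvd _ (fun P h => hPp P (hU h)) _ hd
        exact h ⟨T, hT.trans hU, h'⟩
      rw [this, abs_zero]
      exact sum_nonneg hnn
  have step4 : ∀ x : ZMod M × ZMod M, ‖G x‖ ≤
      (s * (‖ghat g₁ I₁ (frac x.1)‖ ^ 2 * √((frac x.1).den / (frac x.2).den))
      + s⁻¹ * (‖ghat g₂ I₂ (frac x.2)‖ ^ 2 * √((frac x.2).den / (frac x.1).den))) / 2 := by
    intro x
    have d1 : (0 : ℝ) < (frac x.1).den := by exact_mod_cast (frac x.1).den_pos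
    have d2 : (0 : ℝ) < (frac x.2).den := by exact_mod_cast (frac x.2).den_pos
    have e : √(((frac x.2).den : ℝ) / (frac x.1).den) = (√((frac x.1).den / (frac x.2).den))⁻¹ := by
      rw [← Real.sqrt_inv, inv_div]
    have ht : 0 < √(((frac x.1).den : ℝ) / (frac x.2).den) := Real.sqrt_pos.2 (by positivity)
    rw [e]
    simp only [G, norm_mul]
    set t := √(((frac x.1).den : ℝ) / (frac x.2).den)
    set A := ‖ghat g₁ I₁ (frac x.1)‖
    set B := ‖ghat g₂ I₂ (frac x.2)‖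
    have : (s * (A ^ 2 * t) + s⁻¹ * (B ^ 2 * t⁻¹)) / 2 - A * B
        = (s * t * A - B) ^ 2 / (2 * (s * t)) := by
      field_simp
      ring
    have h0 : 0 ≤ (s * t * A - B) ^ 2 / (2 * (s * t)) := by positivity
    linarith
  have hZ0 : ∀ q : ℚ, D < q.den → F.ZZ y R c c' q.den Δ = 0 :=
    fun q h => F.ZZ_eq_zero hR hc0.ne' c' hdet (hD.trans_lt h)
  have step5 : ∑ x : ZMod M × ZMod M, |κ x| *
      (‖ghat g₁ I₁ (frac x.1)‖ ^ 2 * √((frac x.1).den / (frac x.2).den))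
      ≤ ∑ q ∈ farey D, ‖ghat g₁ I₁ q‖ ^ 2 * F.ZZ y R c c' q.den Δ := by
    refine le_trans ?_ (sum_frac_le (M := M) D
      (fun q => ‖ghat g₁ I₁ q‖ ^ 2 * F.ZZ y R c c' q.den Δ)
      (fun q => mul_nonneg (by positivity) (F.ZZ_nonneg _ _ _ hc' _ _))
      (fun q h => by rw [hZ0 q h, mul_zero]))
    rw [Fintype.sum_prod_type]
    refine sum_le_sum (fun a₁ _ => ?_)
    refine (sum_le_sum (fun a₂ _ => mul_le_mul_of_nonneg_right (step3 (a₁, a₂))
      (by positivity))).trans ?_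
    simp_rw [sum_mul]
    rw [sum_comm]
    unfold ZZ
    rw [mul_sum]
    refine sum_le_sum (fun T hT => ?_)
    have := F.one_side h1 h2 a₁ (mem_powerset.1 hT)
    refine le_trans (le_of_eq ?_) (mul_le_mul_of_nonneg_left (mul_le_mul_of_nonneg_left this
      (abs_nonneg _)) (by positivity))
    rw [mul_sum, mul_sum]
    exact sum_congr rfl (fun a₂ _ => by simp only [ξ]; ring)
  have step6 : ∑ x : ZMod M × ZMod M, |κ x| *
      (‖ghat g₂ I₂ (frac x.2)‖ ^ 2 * √((frac x.2).den / (frac x.1).den))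
      ≤ ∑ q ∈ farey D, ‖ghat g₂ I₂ q‖ ^ 2 * F.ZZ y R c c' q.den Δ := by
    refine le_trans ?_ (sum_frac_le (M := M) D
      (fun q => ‖ghat g₂ I₂ q‖ ^ 2 * F.ZZ y R c c' q.den Δ)
      (fun q => mul_nonneg (by positivity) (F.ZZ_nonneg _ _ _ hc' _ _))
      (fun q h => by rw [hZ0 q h, mul_zero]))
    rw [Fintype.sum_prod_type_right]
    refine sum_le_sum (fun a₂ _ => ?_)
    refine (sum_le_sum (fun a₁ _ => mul_le_mul_of_nonneg_right (step3 (a₁, a₂))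
      (by positivity))).trans ?_
    simp_rw [sum_mul]
    rw [sum_comm, ← F.ZZ_neg, hΔ, ← F.det_swap]
    unfold ZZ
    rw [mul_sum]
    refine sum_le_sum (fun T hT => ?_)
    have := F.one_side h2 h1 a₂ (mem_powerset.1 hT)
    refine le_trans (le_of_eq ?_) (mul_le_mul_of_nonneg_left (mul_le_mul_of_nonneg_left this
      (abs_nonneg _)) (by positivity))
    rw [mul_sum, mul_sum]
    exact sum_congr rfl (fun a₁ _ => by simp only [ξ, add_comm]; ring)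
  have fin := congrArg Norm.norm step2
  rw [Complex.norm_real, Real.norm_eq_abs, norm_mul, Complex.norm_real, Real.norm_eq_abs,
    abs_of_pos (by positivity : 0 < 1 / (c * |(Δ : ℝ)|))] at fin
  rw [fin]
  have h3 : ‖∑ x : ZMod M × ZMod M, (κ x : ℂ) * G x‖ ≤
      (s * ∑ q ∈ farey D, ‖ghat g₁ I₁ q‖ ^ 2 * F.ZZ y R c c' q.den Δ
        + s⁻¹ * ∑ q ∈ farey D, ‖ghat g₂ I₂ q‖ ^ 2 * F.ZZ y R c c' q.den Δ) / 2 := by
    refine (norm_sum_le _ _).trans ?_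
    refine (sum_le_sum (fun x _ => ?_)).trans (b := ∑ x : ZMod M × ZMod M,
      (s * (|κ x| * (‖ghat g₁ I₁ (frac x.1)‖ ^ 2 * √((frac x.1).den / (frac x.2).den)))
      + s⁻¹ * (|κ x| * (‖ghat g₂ I₂ (frac x.2)‖ ^ 2 * √((frac x.2).den / (frac x.1).den)))) / 2)
      ?_
    · rw [norm_mul, Complex.norm_real, Real.norm_eq_abs]
      refine (mul_le_mul_of_nonneg_left (step4 x) (abs_nonneg _)).trans (le_of_eq (by ring))
    · rw [← sum_div, sum_add_distrib, ← mul_sum, ← mul_sum]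
      gcongr
  have h4 : 1 / (c * |(Δ : ℝ)|) ≤ 1 / |(Δ : ℝ)| := by
    apply one_div_le_one_div_of_le hΔ0
    have : (1 : ℝ) ≤ c := by exact_mod_cast hc0
    nlinarith
  refine (mul_le_mul h4 h3 (norm_nonneg _) (by positivity)).trans (le_of_eq (by ring))

end RQ

end Pool.Agent.Lib.MP_d48457_nt
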