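import Pool.Agent.Lib.MP_d48457_nt.Pair

set_option autoImplicit false

namespace Pool.Agent.Lib.MP_d48457_nt

open QuadraticAlgebra Finset

theorem pow_omega_le (B : ℝ) (hB : 1 ≤ B) :
    ∃ C : ℝ, 0 < C ∧ ∀ d : ℕ, d ≠ 0 → B ^ d.primeFactors.card ≤ C * √(√d) := by
  refine ⟨B ^ ⌈B ^ 4⌉₊, by positivity, fun d hd => ?_⟩
  rw [← card_filter_add_card_filter_not (s := d.primeFactors) (fun l => l < ⌈B ^ 4⌉₊), pow_add]
  refine mul_le_mul (pow_le_pow_right₀ hB ?_) ?_ (by positivity) (by positivity)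
  · exact (card_le_card (fun l hl => mem_range.2 (mem_filter.1 hl).2)).trans
      (card_range _).le
  · apply Real.le_sqrt_of_sq_le
    apply Real.le_sqrt_of_sq_le
    rw [← pow_mul, ← pow_mul, mul_comm, pow_mul]
    have h1 : (B ^ (2 * 2)) ^ (d.primeFactors.filter (fun l => ¬ l < ⌈B ^ 4⌉₊)).card
        ≤ ∏ l ∈ d.primeFactors.filter (fun l => ¬ l < ⌈B ^ 4⌉₊), (l : ℝ) := by
      rw [← prod_const]
      refine prod_le_prod (fun _ _ => by positivity) (fun l hl => ?_)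
      exact Nat.ceil_le.1 (not_lt.1 (mem_filter.1 hl).2)
    refine h1.trans ?_
    have h2 : ∏ l ∈ d.primeFactors.filter (fun l => ¬ l < ⌈B ^ 4⌉₊), l ≤ d :=
      Nat.le_of_dvd (Nat.pos_of_ne_zero hd) ((prod_dvd_prod_of_subset _ _ (fun l => l)
        (filter_subset _ _)).trans (Nat.prod_primeFactors_dvd d))
    rw [← Nat.cast_prod]
    exact_mod_cast h2

theorem summable_32 : Summable (fun n : ℕ => 1 / ((n : ℝ) * √n)) := by
  have := Real.summable_one_div_nat_rpow.2 (show (1 : ℝ) < 3 / 2 by norm_num)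
  refine this.congr (fun n => ?_)
  rw [Real.sqrt_eq_rpow, show (3 / 2 : ℝ) = 1 + 1 / 2 by norm_num,
    Real.rpow_add' (Nat.cast_nonneg n) (by norm_num), Real.rpow_one]

namespace RQ

variable (F : RQ)

/-- The basic weighted sum of Fourier coefficients. -/
noncomputable def WW (y R : ℝ) (d : ℕ) : ℝ :=
  ∑ T ∈ (F.PP y).powerset, |cc (F.PP y) F.nrm (sa (F.PP y) F.nrm R) T| *
    ((∏ P ∈ T, F.nrm P) / F.rad T * √(F.r1 d T / F.r2 d T) * F.r1 d T)

theorem exists_red (d : ℕ) (c : ℕ) (hc : c ≠ 0) {T : Finset (Ideal F.O)}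
    (hT : ∀ P ∈ T, Prime P) : ∃ q : ℕ, q ∣ d ∧ d ≤ q * (c * F.r1 d T) ∧
      ∀ Δ : ℤ, (d : ℤ) ∣ (c * F.rad T : ℕ) * Δ → (q : ℤ) ∣ Δ := by
  have h0 : 0 < c * F.r1 d T := Nat.mul_pos (Nat.pos_of_ne_zero hc) (F.r1_pos d hT)
  have hg : 0 < Nat.gcd d (c * F.r1 d T) := Nat.gcd_pos_of_pos_right _ h0
  refine ⟨d / Nat.gcd d (c * F.r1 d T), Nat.div_dvd_of_dvd (Nat.gcd_dvd_left _ _), ?_,
    fun Δ h => ?_⟩
  · nth_rewrite 1 [← Nat.div_mul_cancel (Nat.gcd_dvd_left d (c * F.r1 d T))]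
    exact Nat.mul_le_mul_left _ (Nat.gcd_le_right _ h0)
  · rw [Int.natCast_dvd] at h ⊢
    rw [Int.natAbs_mul, Int.natAbs_natCast, ← F.r1_mul_r2 d T] at h
    have h1 : d ∣ F.r2 d T * (c * F.r1 d T * Δ.natAbs) := h.trans (dvd_of_eq (by ring))
    have h2 := (F.coprime_r2 d hT).dvd_of_dvd_mul_left h1
    have h3 := Nat.coprime_div_gcd_div_gcd hg
    refine h3.dvd_of_dvd_mul_left ?_
    rw [← Nat.mul_dvd_mul_iff_right hg, Nat.div_mul_cancel (Nat.gcd_dvd_left _ _),
      mul_right_comm, Nat.div_mul_cancel (Nat.gcd_dvd_right _ _)]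
    exact h2

theorem sum_ZZ_le (y R : ℝ) {c : ℕ} (hc : c ≠ 0) {c' : ℝ} (hc' : 0 ≤ c') {d : ℕ} (hd : d ≠ 0)
    {α : Type*} (X : Finset α) (Δ : α → ℤ) {B : ℝ} (hB : 0 ≤ B)
    (h : ∀ q : ℕ, q ∣ d → ∑ x ∈ X, ind ((q : ℤ) ∣ Δ x) ≤ B / q) :
    ∑ x ∈ X, F.ZZ y R c c' d (Δ x) ≤ c' * √c' * c * B / d * F.WW y R d := by
  unfold ZZ WW
  rw [sum_comm, mul_sum]
  refine sum_le_sum (fun T hT => ?_)
  have hTp : ∀ P ∈ T, Prime P := fun P h => F.PP_prime (mem_powerset.1 hT h)
  obtain ⟨q, hq1, hq2, hq3⟩ := F.exists_red d c hc hTp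
  have hq0 : (0 : ℝ) < q := by exact_mod_cast Nat.pos_of_dvd_of_pos hq1 (Nat.pos_of_ne_zero hd)
  have hd0 : (0 : ℝ) < d := by exact_mod_cast Nat.pos_of_ne_zero hd
  have h1 : ∑ x ∈ X, ind ((d : ℤ) ∣ (c * F.rad T : ℕ) * Δ x) ≤ c * B / d * F.r1 d T := by
    refine (sum_le_sum (fun x _ => ind_mono (hq3 _))).trans ((h q hq1).trans ?_)
    have : (d : ℝ) ≤ q * (c * F.r1 d T) := by exact_mod_cast hq2
    rw [div_mul_eq_mul_div, div_le_div_iff₀ hq0 hd0]
    nlinarith
  rw [← mul_sum, ← mul_sum, mul_left_comm (c' * √c' * c * B / d)]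
  apply mul_le_mul_of_nonneg_left _ (abs_nonneg _)
  have := F.prod_nrm_nonneg T
  refine (mul_le_mul_of_nonneg_left h1 (by positivity)).trans (le_of_eq ?_)
  rw [mul_div_assoc c' (F.r1 d T : ℝ), Real.sqrt_mul hc']
  ring

theorem WW_le_crude {y R : ℝ} (hy : 2 ≤ y) (hR : y ^ 12 ≤ R) (d : ℕ) :
    F.WW y R d ≤ 4 * R ^ 12 := by
  obtain ⟨hR1, hH⟩ := F.hH_of_le hy hR (subset_refl _)
  have hP : ∀ P ∈ F.PP y, Prime P := fun _ h => F.PP_prime h
  have hn := F.two_le_nrm hP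
  have hG := F.one_le_Gy y
  have h1 : ∀ T ∈ (F.PP y).powerset, |cc (F.PP y) F.nrm (sa (F.PP y) F.nrm R) T| *
      ((∏ P ∈ T, F.nrm P) / F.rad T * √(F.r1 d T / F.r2 d T) * F.r1 d T)
      ≤ 4 * R ^ 6 * ∏ P ∈ T, ((6 : ℕ) : ℝ) / F.nrm P := by
    intro T hT
    rw [mem_powerset] at hT
    have hTp : ∀ P ∈ T, Prime P := fun P h => hP P (hT h)
    have hp0 : 0 ≤ ∏ P ∈ T, ((6 : ℕ) : ℝ) / F.nrm P :=
      prod_nonneg (fun P _ => div_nonneg (Nat.cast_nonneg _) (Nat.cast_nonneg _))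
    by_cases h : R ^ 2 < ∏ P ∈ T, F.nrm P
    · rw [cc_eq_zero hn _ (by linarith) (fun r _ h => sa_supp hR1 h) h, abs_zero, zero_mul]
      positivity
    push Not at h
    have a1 : (1 : ℝ) ≤ F.r1 d T := by exact_mod_cast F.r1_pos d hTp
    have a2 : (1 : ℝ) ≤ F.r2 d T := by exact_mod_cast F.r2_pos d hTp
    have a3 : (F.r1 d T : ℝ) * F.r2 d T = F.rad T := by exact_mod_cast F.r1_mul_r2 d T
    have a4 := (F.rad_le_real hTp).trans h
    have a5 : (F.r1 d T : ℝ) ≤ R ^ 2 := by nlinarith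
    have a6 : √((F.r1 d T : ℝ) / F.r2 d T) ≤ R ^ 2 := by
      refine Real.sqrt_le_iff.2 ⟨by positivity, (div_le_self (by linarith) a2).trans ?_⟩
      nlinarith
    have a7 : (∏ P ∈ T, F.nrm P) / F.rad T ≤ R ^ 2 :=
      (div_le_self (F.prod_nrm_nonneg T) (by nlinarith)).trans h
    have a8 : |cc (F.PP y) F.nrm (sa (F.PP y) F.nrm R) T|
        ≤ 4 * ∏ P ∈ T, ((6 : ℕ) : ℝ) / F.nrm P := by
      refine (abs_cc_sa_le hn hR1 hH hT).trans (mul_le_mul (div_le_self (by norm_num) hG)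
        (prod_le_prod (fun P hP => ?_) (fun P hP => ?_))
        (prod_nonneg (fun P hP => ?_)) (by norm_num))
      · exact div_nonneg (by norm_num) (by linarith [hn P (hT hP)])
      · have := hn P (hT hP)
        rw [div_le_div_iff₀ (by linarith) (by linarith)]
        push_cast
        linarith
      · exact div_nonneg (by norm_num) (by linarith [hn P (hT hP)])
    have a9 : (∏ P ∈ T, F.nrm P) / F.rad T * √(F.r1 d T / F.r2 d T) * F.r1 d T
        ≤ R ^ 2 * R ^ 2 * R ^ 2 := by gcongr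
    have a10 := F.prod_nrm_nonneg T
    refine (mul_le_mul a8 a9 (by positivity) (by positivity)).trans (le_of_eq (by ring))
  refine (sum_le_sum h1).trans ?_
  rw [← mul_sum, ← prod_one_add]
  have := prod_one_add_le hn hR1 hH 6
  calc _ ≤ 4 * R ^ 6 * R ^ 6 := by gcongr
    _ = _ := by ring

theorem WW_le : ∃ C : ℝ, 0 < C ∧ ∀ y R : ℝ, 2 ≤ y → y ^ 12 ≤ R → ∀ d : ℕ, d ≠ 0 →
    4 ^ d.primeFactors.card * F.WW y R d / d ≤ C / (F.Gy y * √(√d)) := by
  obtain ⟨C₁, hC₁, hC⟩ := pow_omega_le 580 (by norm_num)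
  set S := ∑' n : ℕ, 1 / ((n : ℝ) * √n) with hS
  refine ⟨4 * C₁ * Real.exp (144 * S), by positivity, fun y R hy hR d hd => ?_⟩
  obtain ⟨hR1, hH⟩ := F.hH_of_le hy hR (subset_refl _)
  have hP : ∀ P ∈ F.PP y, Prime P := fun _ h => F.PP_prime h
  have hn := F.two_le_nrm hP
  have hG := F.one_le_Gy y
  have hd0 : (0 : ℝ) < d := by exact_mod_cast Nat.pos_of_ne_zero hd
  let φ : ℕ → ℝ := fun l => if l ∣ d then √l else 1 / (l * √l)
  have hφ : ∀ l, 0 ≤ φ l := fun l => by simp only [φ]; split_ifs <;> positivity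
  set L := (F.PP y).image F.ell with hL
  have h1 : ∀ T ∈ (F.PP y).powerset, |cc (F.PP y) F.nrm (sa (F.PP y) F.nrm R) T| *
      ((∏ P ∈ T, F.nrm P) / F.rad T * √(F.r1 d T / F.r2 d T) * F.r1 d T)
      ≤ 4 / F.Gy y * ∏ l ∈ T.image F.ell, 36 * φ l := by
    intro T hT
    rw [mem_powerset] at hT
    have hTp : ∀ P ∈ T, Prime P := fun P h => hP P (hT h)
    have a1 : (0 : ℝ) < F.r1 d T := by exact_mod_cast F.r1_pos d hTp
    have a2 : (0 : ℝ) < F.r2 d T := by exact_mod_cast F.r2_pos d hTp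
    have a3 : (F.r1 d T : ℝ) * F.r2 d T = F.rad T := by exact_mod_cast F.r1_mul_r2 d T
    have a4 : ∏ l ∈ T.image F.ell, φ l = √(F.r1 d T) / (F.r2 d T * √(F.r2 d T)) := by
      simp only [φ]
      rw [prod_ite, r1, r2]
      push_cast
      rw [Real.sqrt_prod _ (fun _ _ => Nat.cast_nonneg _),
        Real.sqrt_prod _ (fun _ _ => Nat.cast_nonneg _), prod_div_distrib, prod_const_one,
        prod_mul_distrib]
      ring
    have a5 : T.card ≤ 2 * (T.image F.ell).card :=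
      card_le_mul_card_image T 2 (fun l _ => F.fiber_card_le (l := l) (fun P hP =>
        ⟨hTp P (mem_filter.1 hP).1, (mem_filter.1 hP).2⟩))
    have a6 : (∏ P ∈ T, 3 / (F.nrm P - 1)) * ∏ P ∈ T, F.nrm P ≤ 36 ^ (T.image F.ell).card := by
      rw [← prod_mul_distrib, show (36 : ℝ) = 6 ^ 2 by norm_num, ← pow_mul]
      refine le_trans ?_ (pow_le_pow_right₀ (by norm_num) a5)
      rw [← prod_const]
      refine prod_le_prod (fun P hP => ?_) (fun P hP => ?_)
      · have := hn P (hT hP)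
        exact mul_nonneg (div_nonneg (by norm_num) (by linarith)) (by linarith)
      · have := hn P (hT hP)
        rw [div_mul_eq_mul_div, div_le_iff₀ (by linarith)]
        linarith
    have a7 := F.prod_nrm_nonneg T
    have a8 : (∏ P ∈ T, F.nrm P) / F.rad T * √(F.r1 d T / F.r2 d T) * F.r1 d T
        = (∏ P ∈ T, F.nrm P) * (√(F.r1 d T) / (F.r2 d T * √(F.r2 d T))) := by
      rw [← a3, Real.sqrt_div a1.le]
      field_simp
    rw [a8, prod_mul_distrib, prod_const, a4]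
    refine (mul_le_mul_of_nonneg_right (abs_cc_sa_le hn hR1 hH hT) (by positivity)).trans ?_
    rw [mul_assoc, ← mul_assoc (∏ P ∈ T, 3 / (F.nrm P - 1))]
    exact mul_le_mul_of_nonneg_left (mul_le_mul_of_nonneg_right a6 (by positivity))
      (div_nonneg (by norm_num) (zero_le_one.trans hG))
  have h2 : ∑ T ∈ (F.PP y).powerset, ∏ l ∈ T.image F.ell, 36 * φ l
      ≤ ∏ l ∈ L, (1 + 144 * φ l) := by
    rw [prod_one_add, ← sum_fiberwise_of_maps_to (g := fun T => T.image F.ell)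
      (t := L.powerset) (fun T hT => mem_powerset.2 (image_subset_image (mem_powerset.1 hT)))]
    refine sum_le_sum (fun A _ => ?_)
    rw [sum_congr rfl (g := fun _ => ∏ l ∈ A, 36 * φ l) (fun T hT => by rw [(mem_filter.1 hT).2]),
      sum_const, nsmul_eq_mul]
    have b1 : ((F.PP y).filter (fun P => F.ell P ∈ A)).card ≤ 2 * A.card :=
      card_le_mul_card_image_of_maps_to (f := F.ell) (fun P hP => (mem_filter.1 hP).2) 2
        (fun l _ => F.fiber_card_le (l := l) (fun P hP' =>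
          ⟨hP P (mem_filter.1 (mem_filter.1 hP').1).1, (mem_filter.1 hP').2⟩))
    have b2 : ((F.PP y).powerset.filter (fun T => T.image F.ell = A)).card ≤ 4 ^ A.card := by
      refine le_trans (card_le_card (t := ((F.PP y).filter (fun P => F.ell P ∈ A)).powerset)
        (fun T hT => ?_)) ?_
      · obtain ⟨e1, e2⟩ := mem_filter.1 hT
        refine mem_powerset.2 (fun P hP => mem_filter.2 ⟨mem_powerset.1 e1 hP, ?_⟩)
        rw [← e2]; exact mem_image_of_mem _ hP
      · rw [card_powerset, show 4 = 2 ^ 2 by norm_num, ← pow_mul]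
        exact Nat.pow_le_pow_right (by norm_num) b1
    have b3 : (((F.PP y).powerset.filter (fun T => T.image F.ell = A)).card : ℝ)
        ≤ 4 ^ A.card := by exact_mod_cast b2
    refine (mul_le_mul_of_nonneg_right b3 (prod_nonneg (fun l _ => by
      have := hφ l; positivity))).trans (le_of_eq ?_)
    rw [← prod_const, ← prod_mul_distrib]
    exact prod_congr rfl (fun l _ => by ring)
  have hLp : ∀ l ∈ L, l.Prime := fun l hl => by
    obtain ⟨P, hP', rfl⟩ := mem_image.1 hl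
    exact F.ell_prime (hP P hP')
  have h3 : ∏ l ∈ L, (1 + 144 * φ l) ≤ (145 ^ d.primeFactors.card * √d) * Real.exp (144 * S) := by
    rw [← prod_filter_mul_prod_filter_not L (· ∣ d)]
    refine mul_le_mul ?_ ?_ (prod_nonneg (fun l _ => by have := hφ l; positivity)) (by positivity)
    · have c1 : L.filter (· ∣ d) ⊆ d.primeFactors := fun l hl =>
        Nat.mem_primeFactors.2 ⟨hLp l (mem_filter.1 hl).1, (mem_filter.1 hl).2, hd⟩
      have c2 : ∀ l ∈ d.primeFactors, 1 ≤ √(l : ℝ) := fun l hl =>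
        Real.one_le_sqrt.2 (by exact_mod_cast (Nat.prime_of_mem_primeFactors hl).one_le)
      calc _ ≤ ∏ l ∈ L.filter (· ∣ d), 145 * √(l : ℝ) := by
            refine prod_le_prod (fun l _ => by have := hφ l; positivity) (fun l hl => ?_)
            simp only [φ, if_pos (mem_filter.1 hl).2]
            linarith [c2 l (c1 hl)]
        _ ≤ ∏ l ∈ d.primeFactors, 145 * √(l : ℝ) :=
            prod_le_prod_of_subset_of_one_le c1 (fun _ _ => by positivity)
              (fun l hl _ => by linarith [c2 l hl])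
        _ ≤ _ := by
            rw [prod_mul_distrib, prod_const, ← Real.sqrt_prod _ (fun _ _ => Nat.cast_nonneg _)]
            gcongr
            rw [← Nat.cast_prod]
            exact_mod_cast Nat.le_of_dvd (Nat.pos_of_ne_zero hd) (Nat.prod_primeFactors_dvd d)
    · calc _ ≤ ∏ l ∈ L.filter (fun l => ¬ l ∣ d), Real.exp (144 * (1 / (l * √l))) := by
            refine prod_le_prod (fun l _ => by have := hφ l; positivity) (fun l hl => ?_)
            simp only [φ, if_neg (mem_filter.1 hl).2]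
            linarith [Real.add_one_le_exp (144 * (1 / ((l : ℝ) * √l)))]
        _ ≤ _ := by
            rw [← Real.exp_sum, ← mul_sum]
            gcongr
            exact summable_32.sum_le_tsum _ (fun _ _ => by positivity)
  have h4 : F.WW y R d ≤ 4 / F.Gy y * ((145 ^ d.primeFactors.card * √d) * Real.exp (144 * S)) := by
    refine (sum_le_sum h1).trans ?_
    rw [← mul_sum]
    exact mul_le_mul_of_nonneg_left (h2.trans h3) (by positivity)
  have h5 := hC d hd
  rw [show (580 : ℝ) = 4 * 145 by norm_num, mul_pow] at h5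
  have e1 : √(d : ℝ) * √d = d := Real.mul_self_sqrt hd0.le
  have e2 : √(√(d : ℝ)) * √(√d) = √d := Real.mul_self_sqrt (Real.sqrt_nonneg _)
  have e3 : 0 < √(√(d : ℝ)) := by positivity
  rw [div_le_div_iff₀ hd0 (by positivity)]
  calc _ ≤ 4 ^ d.primeFactors.card * (4 / F.Gy y * ((145 ^ d.primeFactors.card * √d)
        * Real.exp (144 * S))) * (F.Gy y * √(√d)) := by gcongr
    _ = 4 * Real.exp (144 * S) * √d * √(√d)
        * (4 ^ d.primeFactors.card * 145 ^ d.primeFactors.card) := by field_simp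
    _ ≤ 4 * Real.exp (144 * S) * √d * √(√d) * (C₁ * √(√d)) := by gcongr
    _ = 4 * C₁ * Real.exp (144 * S) * (√d * (√(√d) * √(√d))) := by ring
    _ = _ := by rw [e2, e1]

end RQ

end Pool.Agent.Lib.MP_d48457_nt
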