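import Pool.Agent.Lib.MP_d48457_nt.BoxPair
import Pool.Agent.Lib.MP_d48457_nt.ZSum
import Pool.Agent.Lib.MP_d48457_nt.Ideals

set_option autoImplicit false

namespace Pool.Agent.Lib.MP_d48457_nt

open QuadraticAlgebra Finset

/-- Small exponential sums at rationals with small denominator. -/
def Unif (Q θ : ℝ) (g : ℤ → ℝ) : Prop :=
  ∀ q : ℚ, (q.den : ℝ) ≤ Q → ∀ (A : ℤ) (H : ℕ), ‖ghat g (Ico A (A + H)) q‖ ≤ θ

theorem card_farey_le {Q : ℝ} (hQ : 1 ≤ Q) : ((farey Q).card : ℝ) ≤ 4 * Q ^ 2 := by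
  have h : (farey Q).card ≤ (Icc (0 : ℤ) ⌊Q⌋₊ ×ˢ Icc 0 ⌊Q⌋₊).card := by
    refine card_le_card_of_injOn (fun q : ℚ => (q.num, q.den)) (fun q hq => ?_)
      (fun q _ r _ h => Rat.ext (congrArg Prod.fst h) (congrArg Prod.snd h))
    obtain ⟨h0, h1, h2⟩ := mem_farey.1 hq
    have h3 : q.den ≤ ⌊Q⌋₊ := Nat.le_floor h2
    have h4 := Rat.num_lt_denom_iff.2 h1
    refine mem_coe.2 (mem_product.2 ⟨mem_Icc.2 ⟨Rat.num_nonneg.2 h0, ?_⟩,
      mem_Icc.2 ⟨Nat.zero_le _, h3⟩⟩)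
    simp only
    omega
  rw [card_product, Int.card_Icc, Nat.card_Icc] at h
  have e : ((⌊Q⌋₊ : ℤ) + 1 - 0).toNat = ⌊Q⌋₊ + 1 := by omega
  rw [e, Nat.sub_zero] at h
  have h2 : ((farey Q).card : ℝ) ≤ (⌊Q⌋₊ + 1) * (⌊Q⌋₊ + 1) := by exact_mod_cast h
  have h3 := Nat.floor_le (show 0 ≤ Q by linarith)
  have h4 : (0 : ℝ) ≤ ⌊Q⌋₊ := Nat.cast_nonneg _
  nlinarith

theorem card_Icc_sym (J : ℕ) : ((Icc (-(J : ℤ)) J).card : ℝ) = 2 * J + 1 := by
  rw [Int.card_Icc]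
  have : ((J : ℤ) + 1 - -(J : ℤ)).toNat = 2 * J + 1 := by omega
  rw [this]; push_cast; ring

theorem sum_farey_ind_le {D D' : ℝ} (f : ℚ → ℝ) (hf : ∀ q, 0 ≤ f q) :
    ∑ q ∈ farey D, ind ((q.den : ℝ) ≤ D') * f q ≤ ∑ q ∈ farey D', f q := by
  classical
  have : ∑ q ∈ farey D, ind ((q.den : ℝ) ≤ D') * f q
      = ∑ q ∈ (farey D).filter (fun q => (q.den : ℝ) ≤ D'), f q := by
    rw [sum_filter]
    refine sum_congr rfl (fun q _ => ?_)
    split_ifs with h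
    · rw [ind_pos h, one_mul]
    · rw [ind_neg h, zero_mul]
  rw [this]
  refine sum_le_sum_of_subset_of_nonneg (fun q hq => ?_) (fun q _ _ => hf q)
  obtain ⟨h1, h2⟩ := mem_filter.1 hq
  obtain ⟨a1, a2, -⟩ := mem_farey.1 h1
  exact mem_farey.2 ⟨a1, a2, h2⟩

theorem AA_le {g : ℤ → ℝ} (hg : ∀ k, |g k| ≤ 1) {Q θ D₀ D B₁ B₂ : ℝ} (hU : Unif Q θ g)
    (hQ : 1 ≤ Q) (hD₀ : 1 ≤ D₀) (hD : 1 ≤ D) (hB₁ : 0 ≤ B₁) (hB₂ : 0 ≤ B₂) (H J : ℕ) (Z : ℕ → ℝ)
    (h1 : ∀ d : ℕ, d ≠ 0 → d ≤ D₀ → Z d ≤ B₁ / √(√d)) (h2 : ∀ d : ℕ, D₀ < d → Z d ≤ B₂ / d) :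
    AA g H J D Z ≤ (2 * J + 1) * (B₁ * (4 * Q ^ 2 * θ ^ 2 + (H + 2 * D₀ ^ 3) * H / √(√Q))
      + B₂ * ((1 + 2 * Real.log D) * ((H / D₀ + 4 * D * (3 + 2 * Real.log D)) * H))) := by
  unfold AA
  rw [← card_Icc_sym, ← nsmul_eq_mul]
  refine sum_le_card_nsmul _ _ _ (fun i _ => ?_)
  set u : ℚ → ℝ := fun q => ‖ghat g (Ico (i * H) (i * H + H)) q‖ ^ 2 with hu
  have hu0 : ∀ q, 0 ≤ u q := fun q => by positivity
  have hQ' : 0 < √(√Q) := by positivity
  have key : ∀ q : ℚ, u q * Z q.den ≤ B₁ * (ind ((q.den : ℝ) ≤ Q) * θ ^ 2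
      + ind ((q.den : ℝ) ≤ D₀) * u q / √(√Q)) + B₂ * (u q * (ind (D₀ < q.den) / q.den)) := by
    intro q
    have d1 : (1 : ℝ) ≤ q.den := by exact_mod_cast q.den_pos
    have i1 := ind_nonneg ((q.den : ℝ) ≤ Q)
    have i2 := ind_nonneg ((q.den : ℝ) ≤ D₀)
    have i3 := ind_nonneg (D₀ < (q.den : ℝ))
    have := hu0 q
    by_cases c1 : (q.den : ℝ) ≤ D₀
    · have e1 := mul_le_mul_of_nonneg_left (h1 _ q.den_nz c1) (hu0 q)
      refine le_add_of_le_of_nonneg (e1.trans ?_) (by positivity)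
      rw [mul_div_left_comm]
      apply mul_le_mul_of_nonneg_left _ hB₁
      by_cases c2 : (q.den : ℝ) ≤ Q
      · rw [ind_pos c2, one_mul]
        refine le_add_of_le_of_nonneg ?_ (by positivity)
        refine (div_le_self (hu0 q) (Real.one_le_sqrt.2 (Real.one_le_sqrt.2 d1))).trans ?_
        exact pow_le_pow_left₀ (norm_nonneg _) (hU q c2 _ _) 2
      · rw [ind_pos c1, one_mul]
        refine le_add_of_nonneg_of_le (by positivity) ?_
        exact div_le_div_of_nonneg_left (hu0 q) hQ'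
          (Real.sqrt_le_sqrt (Real.sqrt_le_sqrt (not_le.1 c2).le))
    · have e1 := mul_le_mul_of_nonneg_left (h2 _ (not_le.1 c1)) (hu0 q)
      refine le_add_of_nonneg_of_le (by positivity) (e1.trans (le_of_eq ?_))
      rw [ind_pos (not_le.1 c1)]
      ring
  refine (sum_le_sum (fun q _ => key q)).trans ?_
  rw [sum_add_distrib, ← mul_sum, ← mul_sum, sum_add_distrib, ← sum_div]
  have e1 := sum_farey_ind_le (D := D) (D' := Q) (fun _ => θ ^ 2) (fun _ => by positivity)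
  rw [sum_const, nsmul_eq_mul] at e1
  have e2 := (sum_farey_ind_le (D := D) (D' := D₀) u hu0).trans (ls_small hD₀ g hg (i * H) H)
  have e3 := ls_large (D₀ := D₀) (by linarith) hD g hg (i * H) H
  have e4 := mul_le_mul_of_nonneg_right (card_farey_le hQ) (sq_nonneg θ)
  exact add_le_add (mul_le_mul_of_nonneg_left (add_le_add (e1.trans e4)
    (div_le_div_of_nonneg_right e2 hQ'.le)) hB₁) (mul_le_mul_of_nonneg_left e3 hB₂)

theorem AA_le_triv {g : ℤ → ℝ} (hg : ∀ k, |g k| ≤ 1) {D B : ℝ} (hD : 1 ≤ D) (hB : 0 ≤ B)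
    (H J : ℕ) (Z : ℕ → ℝ) (h : ∀ d : ℕ, d ≠ 0 → Z d ≤ B) :
    AA g H J D Z ≤ (2 * J + 1) * (B * ((H + 2 * D ^ 3) * H)) := by
  unfold AA
  rw [← card_Icc_sym, ← nsmul_eq_mul]
  refine sum_le_card_nsmul _ _ _ (fun i _ => ?_)
  refine (sum_le_sum (fun q _ => mul_le_mul_of_nonneg_left (h _ q.den_nz)
    (by positivity))).trans ?_
  rw [← sum_mul, mul_comm]
  exact mul_le_mul_of_nonneg_left (ls_small hD g hg (i * H) H) hB

theorem sum_AA {α : Type*} (X : Finset α) (g : ℤ → ℝ) (H J : ℕ) (D : ℝ) (Z : α → ℕ → ℝ) :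
    ∑ x ∈ X, AA g H J D (Z x) = AA g H J D (fun d => ∑ x ∈ X, Z x d) := by
  unfold AA
  rw [sum_comm]
  refine sum_congr rfl (fun i _ => ?_)
  rw [sum_comm]
  exact sum_congr rfl (fun q _ => by rw [mul_sum])

theorem AA_nonneg (g : ℤ → ℝ) (H J : ℕ) (D : ℝ) {Z : ℕ → ℝ} (h : ∀ d, 0 ≤ Z d) :
    0 ≤ AA g H J D Z :=
  sum_nonneg (fun _ _ => sum_nonneg (fun _ _ => mul_nonneg (by positivity) (h _)))

theorem sum_ind_le_of_subset {α : Type*} {X Y : Finset α} (A B : α → Prop)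
    (h : ∀ x ∈ X, A x → x ∈ Y ∧ B x) : ∑ x ∈ X, ind (A x) ≤ ∑ x ∈ Y, ind (B x) := by
  classical
  rw [sum_ind_eq_card, sum_ind_eq_card]
  exact_mod_cast card_le_card (fun x hx => mem_filter.2 (h x (mem_filter.1 hx).1
    (mem_filter.1 hx).2))

namespace RQ

variable (F : RQ)

theorem abs_det_le {π₁ π₂ : F.O} {ρ : ℝ}
    (a1 : |F.σ₁ π₁| ≤ ρ) (a2 : |F.σ₂ π₁| ≤ ρ) (a3 : |F.σ₁ π₂| ≤ ρ) (a4 : |F.σ₂ π₂| ≤ ρ) :
    |(F.det π₁ π₂ : ℝ)| ≤ 2 * ρ ^ 2 := by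
  have h := congrArg abs (F.det_real π₁ π₂)
  rw [abs_mul, abs_of_pos F.δ_pos] at h
  have h1 := abs_sub (F.σ₂ π₁ * F.σ₁ π₂) (F.σ₁ π₁ * F.σ₂ π₂)
  rw [abs_mul, abs_mul] at h1
  have hρ : 0 ≤ ρ := (abs_nonneg _).trans a1
  have h2 := mul_le_mul a2 a3 (abs_nonneg _) hρ
  have h3 := mul_le_mul a1 a4 (abs_nonneg _) hρ
  have := F.one_le_δ
  have := abs_nonneg (F.det π₁ π₂ : ℝ)
  nlinarith

theorem count_dvd_sieve {y R ρ : ℝ} (hy : 2 ≤ y) (hR : y ^ 12 ≤ R) (hρ : 1 ≤ ρ) {c : Ideal F.O}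
    (hc : c ≠ ⊥) {π₁ w : F.O} {e : ℕ} (he : 0 < e) (hw : (w * π₁).im = e) {q : ℕ} (hq : q ≠ 0) :
    ∑ π ∈ F.box (-ρ) ρ (-ρ) ρ, ind ((π ∈ c ∧ ∀ P ∈ F.PP y, π ∉ P * c) ∧ (q : ℤ) ∣ F.det π₁ π)
      ≤ 4 ^ q.primeFactors.card * (64 * e * ρ ^ 2 / F.Gy y) / q
        + 64 * F.c0 ^ 2 * (2 * ρ + F.nrm c * q * R ^ 2) * R ^ 8 := by
  have : NeZero q := ⟨hq⟩
  let φ : F.O →+ ZMod q :=
    { toFun := fun π => (F.det π₁ π : ZMod q)
      map_zero' := by simp [det]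
      map_add' := fun u v => by simp only [det, re_add, im_add]; push_cast; ring }
  have hφ : ∀ π, π ∈ φ.ker ↔ (q : ℤ) ∣ F.det π₁ π := fun π => by
    rw [AddMonoidHom.mem_ker, ← ZMod.intCast_zmod_eq_zero_iff_dvd]; rfl
  have hc0 := F.absNorm_pos hc
  have hk : φ.ker.index ≤ q := by
    rw [AddSubgroup.index_ker]
    refine (Nat.card_le_card_of_injective _ Subtype.val_injective).trans (by simp)
  have hk0 : φ.ker.index ≠ 0 := by
    rw [AddSubgroup.index_ker]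
    exact Nat.card_pos.ne'
  set H := c.toAddSubgroup ⊓ φ.ker with hH
  have hH0 : H.index ≠ 0 := AddSubgroup.index_inf_ne_zero hc0.ne' hk0
  have hH1 : (H.index : ℝ) ≤ F.nrm c * q := by
    have : H.index ≤ Ideal.absNorm c * q :=
      AddSubgroup.index_inf_le.trans (Nat.mul_le_mul_left _ hk)
    unfold nrm
    exact_mod_cast this
  have hH2 : (q : ℝ) ≤ H.index * e := by
    have h1 := (hφ _).1 (H.nsmul_index_mem (star w)).2
    have h2 : F.det π₁ (H.index • star w) = -(H.index * e : ℕ) := by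
      rw [← F.det_star] at hw
      simp only [det, nsmul_eq_mul, re_mul, im_mul, re_natCast, im_natCast] at hw ⊢
      push_cast
      linear_combination (-(H.index : ℤ)) * hw
    rw [h2, dvd_neg, Int.natCast_dvd_natCast] at h1
    exact_mod_cast Nat.le_of_dvd (Nat.mul_pos (Nat.pos_of_ne_zero hH0) he) h1
  have key := F.count_rough_sub hy hR hc H hH0 inf_le_left hq (fun v hv => ⟨c.mul_mem_left _ hv,
    (hφ _).2 ⟨F.det π₁ v, by
      simp only [det, re_mul, im_mul, re_natCast, im_natCast]; ring⟩⟩)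
    (a₁ := -ρ) (a₂ := ρ) (b₁ := -ρ) (b₂ := ρ) (s := 2 * ρ) (by linarith) (by linarith)
    (by linarith)
  refine le_trans (sum_le_sum (fun π _ => ind_mono (fun h => ⟨⟨h.1.1, (hφ _).2 h.2⟩, h.1.2⟩)))
    (key.trans (add_le_add ?_ ?_))
  · have h1 := F.card_sym_box_le hρ
    have hG := F.one_le_Gy y
    have h2 : (0 : ℝ) < H.index := by exact_mod_cast Nat.pos_of_ne_zero hH0
    have h3 : (0 : ℝ) < q := by exact_mod_cast Nat.pos_of_ne_zero hq
    rw [div_le_div_iff₀ (by positivity) h3]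
    calc _ ≤ 4 * 4 ^ q.primeFactors.card * (16 * ρ ^ 2) * (H.index * e) := by gcongr
      _ = _ := by field_simp; norm_num
  · have := F.one_le_c0
    gcongr

theorem count_dvd_crude {ρ B c' : ℝ} (hρ : 0 < ρ) {π₁ w : F.O} {e : ℕ} (he : 0 < e)
    (he' : e ≤ c') (hw : (w * π₁).im = e) (a0 : ρ ≤ B * |F.σ₁ π₁|) (a1 : |F.σ₁ π₁| ≤ ρ)
    (a2 : |F.σ₂ π₁| ≤ ρ) {q : ℕ} (hq : q ≠ 0) :
    ∑ π ∈ F.box (-ρ) ρ (-ρ) ρ, ind (F.det π₁ π ≠ 0 ∧ (q : ℤ) ∣ F.det π₁ π)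
      ≤ (4 * c' * B + 1) * (4 * ρ ^ 2) / q := by
  classical
  rw [sum_ind_eq_card]
  have hq0 : (0 : ℝ) < q := by exact_mod_cast Nat.pos_of_ne_zero hq
  have hq1 : (0 : ℤ) < q := by exact_mod_cast Nat.pos_of_ne_zero hq
  have hs : 0 < |F.σ₁ π₁| := by
    by_contra h
    have : |F.σ₁ π₁| = 0 := le_antisymm (not_lt.1 h) (abs_nonneg _)
    rw [this] at a0
    linarith
  have hB : 0 < B := by
    by_contra h
    nlinarith [not_lt.1 h]
  have he0 : (0 : ℝ) < e := by exact_mod_cast he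
  have hc' : 0 < c' := lt_of_lt_of_le he0 he'
  set n := ⌊2 * ρ ^ 2 / q⌋₊ with hn
  set A := ⌊2 * c' * B⌋₊ with hA
  set X := (F.box (-ρ) ρ (-ρ) ρ).filter (fun π => F.det π₁ π ≠ 0 ∧ (q : ℤ) ∣ F.det π₁ π) with hX
  have hbox : ∀ π ∈ X, |F.σ₁ π| ≤ ρ ∧ |F.σ₂ π| ≤ ρ := fun π h => by
    obtain ⟨h1, h2, h3, h4⟩ := F.mem_box.1 (mem_filter.1 h).1
    exact ⟨abs_le.2 ⟨h1, h2⟩, abs_le.2 ⟨h3, h4⟩⟩
  have h1 : X.card ≤ (2 * A + 1) * ((Icc (-(n : ℤ)) n).erase 0).card := by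
    refine card_le_mul_card_image_of_maps_to (f := fun π => F.det π₁ π / q) (fun π hπ => ?_) _
      (fun t _ => ?_)
    · obtain ⟨-, h2, u, hu⟩ := mem_filter.1 hπ
      have h3 := F.abs_det_le a1 a2 (hbox π hπ).1 (hbox π hπ).2
      rw [hu, Int.mul_ediv_cancel_left _ hq1.ne']
      refine mem_erase.2 ⟨fun h => h2 (by rw [hu, h, mul_zero]), mem_Icc.2 (abs_le.1 ?_)⟩
      rw [hu] at h3
      push_cast at h3
      rw [abs_mul, abs_of_pos hq0] at h3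
      have h4 : ((u.natAbs : ℕ) : ℝ) ≤ 2 * ρ ^ 2 / q := by
        rw [le_div_iff₀ hq0, Nat.cast_natAbs, Int.cast_abs]; linarith
      have h5 := Nat.le_floor h4
      rw [← Int.natCast_natAbs]
      exact_mod_cast h5
    · rcases (X.filter (fun π => F.det π₁ π / q = t)).eq_empty_or_nonempty with h | ⟨π₀, h₀⟩
      · rw [h]; simp
      have hcr : ∀ π ∈ X.filter (fun π => F.det π₁ π / q = t),
          (e : F.O) * (π - π₀) = (F.det (star w) (π - π₀) : F.O) * π₁ := by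
        intro π hπ
        have e1 := (mem_filter.1 hπ).2.trans (mem_filter.1 h₀).2.symm
        have e2 : F.det π₁ π = F.det π₁ π₀ := by
          rw [← Int.mul_ediv_cancel' (mem_filter.1 (mem_filter.1 hπ).1).2.2,
            ← Int.mul_ediv_cancel' (mem_filter.1 (mem_filter.1 h₀).1).2.2, e1]
        rw [← F.det_star] at hw
        simp only [det] at e2 hw
        ext
        · simp only [det, re_mul, re_natCast, im_natCast, re_intCast, im_intCast, re_sub, im_sub,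
            Int.cast_id]
          linear_combination (-(π.re - π₀.re)) * hw - (star w).re * e2
        · simp only [det, im_mul, re_natCast, im_natCast, re_intCast, im_intCast, re_sub, im_sub,
            Int.cast_id]
          linear_combination (-(π.im - π₀.im)) * hw - (star w).im * e2
      have : (2 * A + 1) = (Icc (-(A : ℤ)) A).card := by
        rw [Int.card_Icc]; omega
      rw [this]
      refine card_le_card_of_injOn (fun π => F.det (star w) (π - π₀)) (fun π hπ => ?_)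
        (fun π hπ π' hπ' h => ?_)
      · have e1 := congrArg (fun z => |F.σ₁ z|) (hcr π hπ)
        simp only [map_mul, map_natCast, map_intCast, abs_mul, map_sub, Nat.abs_cast] at e1
        have e2 := (abs_sub (F.σ₁ π) (F.σ₁ π₀)).trans
          (add_le_add (hbox π (mem_filter.1 hπ).1).1 (hbox π₀ (mem_filter.1 h₀).1).1)
        have e3 : (((F.det (star w) (π - π₀)).natAbs : ℕ) : ℝ) ≤ 2 * c' * B := by
          rw [Nat.cast_natAbs, Int.cast_abs]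
          refine le_of_mul_le_mul_right ?_ hs
          rw [← e1]
          calc _ ≤ c' * (ρ + ρ) := by gcongr
            _ ≤ c' * (B * |F.σ₁ π₁| + B * |F.σ₁ π₁|) := by gcongr
            _ = _ := by ring
        have e4 := Nat.le_floor e3
        refine mem_coe.2 (mem_Icc.2 (abs_le.1 ?_))
        rw [← Int.natCast_natAbs]
        exact_mod_cast e4
      · have e1 := hcr π hπ
        simp only at h
        rw [h, ← hcr π' hπ'] at e1
        have e2 : (e : F.O) ≠ 0 := by exact_mod_cast he.ne'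
        exact sub_left_injective (mul_left_cancel₀ e2 e1)
  have h2 : ((Icc (-(n : ℤ)) n).erase 0).card = 2 * n := by
    rw [card_erase_of_mem (by simp), Int.card_Icc]; omega
  rw [h2] at h1
  have h3 : (X.card : ℝ) ≤ (2 * A + 1) * (2 * n) := by exact_mod_cast h1
  have h4 : (n : ℝ) ≤ 2 * ρ ^ 2 / q := Nat.floor_le (by positivity)
  have h5 : (A : ℝ) ≤ 2 * c' * B := Nat.floor_le (by positivity)
  calc _ ≤ _ := h3
    _ ≤ (2 * (2 * c' * B) + 1) * (2 * (2 * ρ ^ 2 / q)) := by gcongr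
    _ = _ := by ring

theorem count_close {y R ρ B : ℝ} (hy : 2 ≤ y) (hR : y ^ 12 ≤ R) (hρ : 0 < ρ) (hB : 1 ≤ B)
    {c : Ideal F.O} (hc : c ≠ ⊥) {π₁ : F.O} (a0 : ρ ≤ B * |F.σ₁ π₁|) (a2 : |F.σ₂ π₁| ≤ ρ)
    {m : ℕ} (hm : 0 < m) :
    ∑ π ∈ F.box (-ρ) ρ (-ρ) ρ,
        ind (π ∈ c) * F.nu y R c π * ind (|(F.det π₁ π : ℝ)| < ρ ^ 2 / m)
      ≤ m * (4 * (2 * B * (2 + F.δ) * ρ / m + 2) ^ 2 / F.Gy y
        + 64 * F.c0 ^ 2 * (2 * B * (2 + F.δ) * ρ / m + F.nrm c * R ^ 2) * R ^ 8) := by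
  classical
  have hm0 : (0 : ℝ) < m := by exact_mod_cast hm
  have hδ := F.δ_pos
  have hs : 0 < |F.σ₁ π₁| := by
    by_contra h
    have : |F.σ₁ π₁| = 0 := le_antisymm (not_lt.1 h) (abs_nonneg _)
    rw [this] at a0
    linarith
  set s := B * (2 + F.δ) * ρ / m with hsdef
  have hs0 : 0 ≤ s := by positivity
  let u : ℕ → ℝ := fun j => -ρ + 2 * ρ * j / m
  let v : ℕ → ℝ := fun j => F.σ₂ π₁ * u j / F.σ₁ π₁
  let Bx : ℕ → Finset F.O := fun j => F.box (u j) (u j + 2 * ρ / m) (v j - s) (v j + s)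
  let f : F.O → ℝ := fun π => ind (π ∈ c) * F.nu y R c π
  have hf : ∀ π, 0 ≤ f π := fun π => mul_nonneg (ind_nonneg _) (F.nu_nonneg _ _ _ _)
  have hcov : ∀ π ∈ F.box (-ρ) ρ (-ρ) ρ, |(F.det π₁ π : ℝ)| < ρ ^ 2 / m →
      ∃ j ∈ range m, π ∈ Bx j := by
    intro π hπ hd
    obtain ⟨h1, h2, -, -⟩ := F.mem_box.1 hπ
    have hj : ∃ j ∈ range m, u j ≤ F.σ₁ π ∧ F.σ₁ π ≤ u j + 2 * ρ / m := by
      set t := (F.σ₁ π + ρ) * m / (2 * ρ) with ht
      have t0 : 0 ≤ t := by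
        have : 0 ≤ F.σ₁ π + ρ := by linarith
        positivity
      have t1 : t ≤ m := by
        rw [ht, div_le_iff₀ (by positivity)]; nlinarith
      have t2 : F.σ₁ π = -ρ + 2 * ρ * t / m := by rw [ht]; field_simp; ring
      have key : ∀ j : ℕ, (j : ℝ) ≤ t → t ≤ j + 1 →
          u j ≤ F.σ₁ π ∧ F.σ₁ π ≤ u j + 2 * ρ / m := by
        intro j j1 j2
        rw [t2]
        simp only [u]
        constructor
        · gcongr
        · rw [add_assoc, ← add_div, ← mul_add_one]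
          gcongr
      rcases lt_or_eq_of_le t1 with h | h
      · exact ⟨⌊t⌋₊, mem_range.2 ((Nat.floor_lt t0).2 h),
          key _ (Nat.floor_le t0) (Nat.lt_floor_add_one t).le⟩
      · refine ⟨m - 1, mem_range.2 (by omega), key _ ?_ ?_⟩
        · rw [Nat.cast_sub hm]; push_cast; linarith
        · rw [Nat.cast_sub hm]; push_cast; linarith
    obtain ⟨j, hj, e1, e2⟩ := hj
    refine ⟨j, hj, F.mem_box.2 ⟨e1, e2, ?_⟩⟩
    have e3 : |F.σ₂ π - v j| ≤ s := by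
      refine le_of_mul_le_mul_right ?_ hs
      have e4 : (F.σ₂ π - v j) * F.σ₁ π₁ = F.σ₂ π₁ * (F.σ₁ π - u j) - F.δ * F.det π₁ π := by
        rw [F.det_real]
        simp only [v]
        field_simp [abs_pos.1 hs]
        ring
      rw [← abs_mul, e4]
      refine (abs_sub _ _).trans ?_
      rw [abs_mul, abs_mul, abs_of_pos hδ, abs_of_nonneg (sub_nonneg.2 e1)]
      have e5 : |F.σ₂ π₁| * (F.σ₁ π - u j) ≤ ρ * (2 * ρ / m) :=
        mul_le_mul a2 (by linarith) (by linarith) hρ.le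
      have e6 : F.δ * |(F.det π₁ π : ℝ)| ≤ F.δ * (ρ ^ 2 / m) := by gcongr
      have e7 : (2 + F.δ) * ρ / m * ρ ≤ (2 + F.δ) * ρ / m * (B * |F.σ₁ π₁|) := by gcongr
      calc _ ≤ ρ * (2 * ρ / m) + F.δ * (ρ ^ 2 / m) := add_le_add e5 e6
        _ = (2 + F.δ) * ρ / m * ρ := by ring
        _ ≤ _ := e7
        _ = _ := by rw [hsdef]; ring
    rw [abs_le] at e3
    constructor <;> linarith
  have h1 : ∑ π ∈ F.box (-ρ) ρ (-ρ) ρ, f π * ind (|(F.det π₁ π : ℝ)| < ρ ^ 2 / m)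
      ≤ ∑ j ∈ range m, ∑ π ∈ Bx j, f π := by
    have : ∀ j, ∑ π ∈ F.box (-ρ) ρ (-ρ) ρ, f π * ind (π ∈ Bx j) ≤ ∑ π ∈ Bx j, f π := by
      intro j
      rw [← sum_filter_add_sum_filter_not _ (· ∈ Bx j)]
      rw [sum_eq_zero (s := filter (fun z => ¬ z ∈ Bx j) _)
        (fun z hz => by rw [ind_neg (mem_filter.1 hz).2, mul_zero]), add_zero]
      rw [sum_congr rfl (g := f) (fun z hz => by rw [ind_pos (mem_filter.1 hz).2, mul_one])]
      exact sum_le_sum_of_subset_of_nonneg (fun z hz => (mem_filter.1 hz).2) (fun z _ _ => hf z)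
    refine le_trans ?_ (sum_le_sum (fun j _ => this j))
    rw [sum_comm]
    refine sum_le_sum (fun π hπ => ?_)
    rw [← mul_sum]
    apply mul_le_mul_of_nonneg_left _ (hf π)
    by_cases hd : |(F.det π₁ π : ℝ)| < ρ ^ 2 / m
    · obtain ⟨j, hj, h⟩ := hcov π hπ hd
      rw [ind_pos hd, ← ind_pos h]
      exact single_le_sum (f := fun j => ind (π ∈ Bx j)) (fun _ _ => ind_nonneg _) hj
    · rw [ind_neg hd]
      exact sum_nonneg (fun _ _ => ind_nonneg _)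
  refine h1.trans ?_
  have h2 : 2 * ρ / m ≤ 2 * s := by
    rw [hsdef, ← mul_div_assoc]
    apply div_le_div_of_nonneg_right _ hm0.le
    nlinarith [mul_pos hδ hρ]
  have h3 : 2 * B * (2 + F.δ) * ρ / m = 2 * s := by rw [hsdef]; ring
  rw [h3]
  refine (sum_le_card_nsmul _ _ _ (fun j _ => ?_)).trans (by rw [card_range, nsmul_eq_mul])
  refine (F.sum_nu_le hy hR hc (s := 2 * s) (by linarith) (by linarith) (by linarith)).trans ?_
  have hG := F.one_le_Gy y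
  have h4 := F.card_box_le (a₁ := u j) (a₂ := u j + 2 * ρ / m) (b₁ := v j - s) (b₂ := v j + s)
    (by have : 0 ≤ 2 * ρ / m := by positivity
        linarith) (by linarith)
  have h5 : (u j + 2 * ρ / m - u j + 2) * (v j + s - (v j - s) + 2) ≤ (2 * s + 2) ^ 2 := by
    rw [sq]
    exact mul_le_mul (by linarith) (by linarith) (by linarith) (by linarith)
  gcongr
  exact h4.trans h5

end RQ

end Pool.Agent.Lib.MP_d48457_nt
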