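import Mathlib

set_option autoImplicit false

namespace Pool.Agent.Lib.MP_d48457_nt

open QuadraticAlgebra

/-- A real quadratic maximal order with a unit. -/
structure RQ where
  a : ℤ
  b : ℤ
  hpos : 0 < b ^ 2 + 4 * a
  [ded : IsDedekindDomain (QuadraticAlgebra ℤ a b)]
  fin : Finite (ClassGroup (QuadraticAlgebra ℤ a b))
  η : QuadraticAlgebra ℤ a b
  hη : η.norm = 1
  hη1 : (1 : ℝ) < η.re + η.im * ((b + Real.sqrt (b ^ 2 + 4 * a)) / 2)

namespace RQ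

variable (F : RQ)

abbrev O := QuadraticAlgebra ℤ F.a F.b

instance : IsDedekindDomain F.O := F.ded

instance : Finite (ClassGroup F.O) := F.fin

noncomputable def δ : ℝ := Real.sqrt (F.b ^ 2 + 4 * F.a)

theorem δ_pos : 0 < F.δ := Real.sqrt_pos.2 (by exact_mod_cast F.hpos)

theorem δ_sq : F.δ ^ 2 = F.b ^ 2 + 4 * F.a :=
  Real.sq_sqrt (by exact_mod_cast F.hpos.le)

theorem one_le_δ : 1 ≤ F.δ := by
  have h : (1 : ℝ) ≤ F.b ^ 2 + 4 * F.a := by exact_mod_cast F.hpos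
  have := F.δ_sq
  have := F.δ_pos
  nlinarith

noncomputable def σ₁ : F.O →+* ℝ where
  toFun z := z.re + z.im * ((F.b + F.δ) / 2)
  map_one' := by simp
  map_mul' z w := by
    simp only [re_mul, im_mul]
    push_cast
    linear_combination (-(z.im * w.im : ℝ) / 4) * F.δ_sq
  map_zero' := by simp
  map_add' z w := by
    simp only [re_add, im_add]
    push_cast
    ring

noncomputable def σ₂ : F.O →+* ℝ where
  toFun z := z.re + z.im * ((F.b - F.δ) / 2)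
  map_one' := by simp
  map_mul' z w := by
    simp only [re_mul, im_mul]
    push_cast
    linear_combination (-(z.im * w.im : ℝ) / 4) * F.δ_sq
  map_zero' := by simp
  map_add' z w := by
    simp only [re_add, im_add]
    push_cast
    ring

theorem σ₁_apply (z : F.O) : F.σ₁ z = z.re + z.im * ((F.b + F.δ) / 2) := rfl

theorem σ₂_apply (z : F.O) : F.σ₂ z = z.re + z.im * ((F.b - F.δ) / 2) := rfl

theorem σ_sub (z : F.O) : F.σ₁ z - F.σ₂ z = F.δ * z.im := by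
  rw [σ₁_apply, σ₂_apply]; ring

theorem σ_mul (z : F.O) : F.σ₁ z * F.σ₂ z = (z.norm : ℝ) := by
  rw [σ₁_apply, σ₂_apply, norm_def]
  push_cast
  linear_combination (-(z.im ^ 2 : ℝ) / 4) * F.δ_sq

theorem algebra_norm_eq (z : F.O) : Algebra.norm ℤ z = z.norm := by
  rw [Algebra.norm_apply, ← det_toLinearMap_eq_norm]
  congr 1

theorem absNorm_span (z : F.O) : Ideal.absNorm (Ideal.span {z}) = z.norm.natAbs := by
  rw [Ideal.absNorm_span_singleton, algebra_norm_eq]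

theorem absNorm_span_real (z : F.O) :
    (Ideal.absNorm (Ideal.span {z}) : ℝ) = |F.σ₁ z| * |F.σ₂ z| := by
  rw [absNorm_span, ← abs_mul, σ_mul, Nat.cast_natAbs, Int.cast_abs]

theorem absNorm_span_nat (n : ℕ) : Ideal.absNorm (Ideal.span {(n : F.O)}) = n ^ 2 := by
  rw [absNorm_span, QuadraticAlgebra.norm_natCast]
  simp

theorem norm_ne_zero {z : F.O} (hz : z ≠ 0) : z.norm ≠ 0 := by
  intro h
  have h1 := algebraMap_norm_eq_mul_star z
  rw [h, map_zero] at h1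
  rcases mul_eq_zero.1 h1.symm with h2 | h2
  · exact hz h2
  · exact hz (star_eq_zero.1 h2)

theorem one_le_abs_mul {z : F.O} (hz : z ≠ 0) : 1 ≤ |F.σ₁ z| * |F.σ₂ z| := by
  rw [← abs_mul, σ_mul, ← Int.cast_abs]
  exact_mod_cast Int.one_le_abs (F.norm_ne_zero hz)

theorem σ₁_ne_zero {z : F.O} (hz : z ≠ 0) : F.σ₁ z ≠ 0 := by
  intro h
  have := F.one_le_abs_mul hz
  rw [h] at this
  norm_num at this

theorem σ₂_ne_zero {z : F.O} (hz : z ≠ 0) : F.σ₂ z ≠ 0 := by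
  intro h
  have := F.one_le_abs_mul hz
  rw [h] at this
  norm_num at this

theorem eq_of_close {z w : F.O} (h1 : |F.σ₁ z - F.σ₁ w| < 1) (h2 : |F.σ₂ z - F.σ₂ w| < 1) :
    z = w := by
  by_contra h
  have := F.one_le_abs_mul (sub_ne_zero.2 h)
  rw [map_sub, map_sub] at this
  have h3 := abs_nonneg (F.σ₁ z - F.σ₁ w)
  have h4 := abs_nonneg (F.σ₂ z - F.σ₂ w)
  nlinarith

theorem floor_inj : Function.Injective (fun z : F.O => (⌊F.σ₁ z⌋, ⌊F.σ₂ z⌋)) := by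
  intro z w h
  simp only [Prod.mk.injEq] at h
  exact F.eq_of_close (Int.abs_sub_lt_one_of_floor_eq_floor h.1)
    (Int.abs_sub_lt_one_of_floor_eq_floor h.2)

theorem finite_box (a₁ a₂ b₁ b₂ : ℝ) :
    {z : F.O | a₁ ≤ F.σ₁ z ∧ F.σ₁ z ≤ a₂ ∧ b₁ ≤ F.σ₂ z ∧ F.σ₂ z ≤ b₂}.Finite := by
  refine Set.Finite.of_finite_image (f := fun z : F.O => (⌊F.σ₁ z⌋, ⌊F.σ₂ z⌋)) ?_
    F.floor_inj.injOn
  refine Set.Finite.subset
    ((Set.finite_Icc ⌊a₁⌋ ⌊a₂⌋).prod (Set.finite_Icc ⌊b₁⌋ ⌊b₂⌋)) ?_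
  rintro _ ⟨z, ⟨h1, h2, h3, h4⟩, rfl⟩
  exact ⟨⟨Int.floor_le_floor h1, Int.floor_le_floor h2⟩,
    ⟨Int.floor_le_floor h3, Int.floor_le_floor h4⟩⟩

/-- The elements whose two embeddings lie in given closed intervals. -/
noncomputable def box (a₁ a₂ b₁ b₂ : ℝ) : Finset F.O := (F.finite_box a₁ a₂ b₁ b₂).toFinset

theorem mem_box {a₁ a₂ b₁ b₂ : ℝ} {z : F.O} :
    z ∈ F.box a₁ a₂ b₁ b₂ ↔ a₁ ≤ F.σ₁ z ∧ F.σ₁ z ≤ a₂ ∧ b₁ ≤ F.σ₂ z ∧ F.σ₂ z ≤ b₂ := by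
  simp [box]

theorem card_Icc_floor_le {a₁ a₂ : ℝ} (h : a₁ ≤ a₂) :
    ((Finset.Icc ⌊a₁⌋ ⌊a₂⌋).card : ℝ) ≤ a₂ - a₁ + 2 := by
  rw [Int.card_Icc]
  have h1 : ⌊a₁⌋ ≤ ⌊a₂⌋ := Int.floor_le_floor h
  have h2 : (((⌊a₂⌋ + 1 - ⌊a₁⌋).toNat : ℤ) : ℝ) = ((⌊a₂⌋ + 1 - ⌊a₁⌋ : ℤ) : ℝ) := by
    rw [Int.toNat_of_nonneg (by omega)]
  have h3 := Int.floor_le a₂
  have h4 := Int.lt_floor_add_one a₁
  push_cast at h2
  rw [h2]
  linarith

theorem card_box_le {a₁ a₂ b₁ b₂ : ℝ} (ha : a₁ ≤ a₂) (hb : b₁ ≤ b₂) :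
    ((F.box a₁ a₂ b₁ b₂).card : ℝ) ≤ (a₂ - a₁ + 2) * (b₂ - b₁ + 2) := by
  have h : (F.box a₁ a₂ b₁ b₂).card
      ≤ (Finset.Icc ⌊a₁⌋ ⌊a₂⌋ ×ˢ Finset.Icc ⌊b₁⌋ ⌊b₂⌋).card := by
    refine Finset.card_le_card_of_injOn (fun z : F.O => (⌊F.σ₁ z⌋, ⌊F.σ₂ z⌋)) ?_
      F.floor_inj.injOn
    intro z hz
    obtain ⟨h1, h2, h3, h4⟩ := F.mem_box.1 hz
    simp only [Finset.coe_product, Finset.coe_Icc, Set.mem_prod, Set.mem_Icc]
    exact ⟨⟨Int.floor_le_floor h1, Int.floor_le_floor h2⟩,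
      ⟨Int.floor_le_floor h3, Int.floor_le_floor h4⟩⟩
  rw [Finset.card_product] at h
  have h' : ((F.box a₁ a₂ b₁ b₂).card : ℝ)
      ≤ (Finset.Icc ⌊a₁⌋ ⌊a₂⌋).card * (Finset.Icc ⌊b₁⌋ ⌊b₂⌋).card := by exact_mod_cast h
  refine h'.trans ?_
  exact mul_le_mul (card_Icc_floor_le ha) (card_Icc_floor_le hb) (Nat.cast_nonneg _)
    (by linarith)

theorem box_empty_left {a₁ a₂ b₁ b₂ : ℝ} (ha : a₂ < a₁) : F.box a₁ a₂ b₁ b₂ = ∅ := by
  ext z
  simp only [mem_box, Finset.notMem_empty, iff_false]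
  rintro ⟨h1, h2, -⟩
  linarith

theorem box_empty_right {a₁ a₂ b₁ b₂ : ℝ} (hb : b₂ < b₁) : F.box a₁ a₂ b₁ b₂ = ∅ := by
  ext z
  simp only [mem_box, Finset.notMem_empty, iff_false]
  rintro ⟨-, -, h1, h2⟩
  linarith

/-- The determinant of two elements in the basis `1, ω`. -/
def det (u v : F.O) : ℤ := u.re * v.im - u.im * v.re

theorem det_real (u v : F.O) :
    F.δ * (F.det u v : ℝ) = F.σ₂ u * F.σ₁ v - F.σ₁ u * F.σ₂ v := by
  simp only [det, σ₁_apply, σ₂_apply]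
  push_cast
  ring

theorem det_star (u v : F.O) : F.det (star u) v = (u * v).im := by
  simp only [det, re_star, im_star, im_mul]
  ring

theorem det_swap (u v : F.O) : F.det v u = -F.det u v := by
  simp only [det]; ring

theorem natCast_dvd_iff {n : ℤ} {z : F.O} : (n : F.O) ∣ z ↔ n ∣ z.re ∧ n ∣ z.im :=
  algebraMap_dvd_iff (r := n) (z := z)

theorem intCast_dvd_iff_im {n : ℤ} {z : F.O} :
    (n : F.O) ∣ z ↔ ∀ w : F.O, n ∣ (w * z).im := by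
  constructor
  · intro h w
    exact (F.natCast_dvd_iff.1 (h.mul_left w)).2
  · intro h
    have h1 := h 1
    have h2 := h ω
    rw [one_mul] at h1
    simp only [im_mul, omega_re, omega_im, zero_mul, one_mul, mul_one, zero_add] at h2
    refine F.natCast_dvd_iff.2 ⟨?_, h1⟩
    exact (Int.dvd_add_left (h1.mul_left _)).1 h2

/-! Units -/

noncomputable def e : ℝ := F.σ₁ F.η

theorem one_lt_e : 1 < F.e := F.hη1

theorem e_pos : 0 < F.e := lt_trans one_pos F.one_lt_e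

theorem σ₂_η : F.σ₂ F.η = F.e⁻¹ := by
  have := F.σ_mul F.η
  rw [F.hη] at this
  have h := F.e_pos
  rw [e] at h ⊢
  field_simp
  simpa [mul_comm] using this

theorem isUnit_η : IsUnit F.η := isUnit_iff_norm_isUnit.2 (by rw [F.hη]; exact isUnit_one)

noncomputable def u : F.Oˣ := F.isUnit_η.unit

theorem σ₁_u_zpow (n : ℤ) : F.σ₁ ((F.u ^ n : F.Oˣ) : F.O) = F.e ^ n := by
  have h := map_zpow (Units.map (F.σ₁ : F.O →* ℝ)) F.u n
  have h2 := congrArg (fun x : ℝˣ => (x : ℝ)) h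
  simp only [Units.coe_map, MonoidHom.coe_coe, Units.val_zpow_eq_zpow_val] at h2
  exact h2

theorem σ₂_u_zpow (n : ℤ) : F.σ₂ ((F.u ^ n : F.Oˣ) : F.O) = F.e ^ (-n) := by
  have h := map_zpow (Units.map (F.σ₂ : F.O →* ℝ)) F.u n
  have h2 := congrArg (fun x : ℝˣ => (x : ℝ)) h
  simp only [Units.coe_map, MonoidHom.coe_coe, Units.val_zpow_eq_zpow_val] at h2
  rw [h2, zpow_neg, ← inv_zpow, ← σ₂_η]
  rfl

/-- Every nonzero element has a balanced associate. -/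
theorem exists_balanced {z : F.O} (hz : z ≠ 0) :
    ∃ w : F.O, Ideal.span {w} = Ideal.span {z} ∧
      |F.σ₂ w| ≤ |F.σ₁ w| ∧ |F.σ₁ w| ≤ F.e ^ 2 * |F.σ₂ w| := by
  have h1 := abs_pos.2 (F.σ₁_ne_zero hz)
  have h2 := abs_pos.2 (F.σ₂_ne_zero hz)
  have he := F.e_pos
  have he2 : 1 < F.e ^ 2 := by nlinarith [F.one_lt_e]
  obtain ⟨n, hn1, hn2⟩ := exists_mem_Ico_zpow (x := |F.σ₁ z| / |F.σ₂ z|) (y := F.e ^ 2)
    (div_pos h1 h2) he2
  refine ⟨((F.u ^ (-n) : F.Oˣ) : F.O) * z, ?_, ?_, ?_⟩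
  · exact Ideal.span_singleton_mul_left_unit (Units.isUnit _) z
  · rw [map_mul, map_mul, σ₁_u_zpow, σ₂_u_zpow, neg_neg, abs_mul, abs_mul,
      abs_of_pos (zpow_pos he _), abs_of_pos (zpow_pos he _)]
    rw [le_div_iff₀ h2, ← zpow_natCast, ← zpow_mul] at hn1
    have : F.e ^ ((2 : ℕ) * n : ℤ) = F.e ^ n * F.e ^ n := by
      rw [← zpow_add₀ he.ne']; congr 1; push_cast; ring
    rw [this] at hn1
    rw [zpow_neg, ← div_eq_inv_mul, le_div_iff₀ (zpow_pos he _)]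
    linarith
  · rw [map_mul, map_mul, σ₁_u_zpow, σ₂_u_zpow, neg_neg, abs_mul, abs_mul,
      abs_of_pos (zpow_pos he _), abs_of_pos (zpow_pos he _)]
    rw [div_lt_iff₀ h2, zpow_add_one₀ (by positivity), ← zpow_natCast, ← zpow_mul] at hn2
    have : F.e ^ ((2 : ℕ) * n : ℤ) = F.e ^ n * F.e ^ n := by
      rw [← zpow_add₀ he.ne']; congr 1; push_cast; ring
    rw [this] at hn2
    rw [zpow_neg, ← div_eq_inv_mul, div_le_iff₀ (zpow_pos he _)]
    rw [zpow_natCast] at hn2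
    linarith

/-- Boundedly many associates have both embeddings of a given size. -/
theorem card_assoc_le (B : ℝ) (hB : 0 ≤ B) (A : ℝ) (hA : 0 < A) (I : Ideal F.O) (S : Finset F.O)
    (hS : ∀ z ∈ S, Ideal.span {z} = I ∧ A ≤ |F.σ₁ z| ∧ |F.σ₁ z| ≤ B * A ∧
      A ≤ |F.σ₂ z| ∧ |F.σ₂ z| ≤ B * A) :
    (S.card : ℝ) ≤ (2 * B + 2) ^ 2 := by
  classical
  rcases S.eq_empty_or_nonempty with rfl | ⟨z₀, hz₀⟩
  · simp; positivity
  obtain ⟨hI, h1, -, h3, -⟩ := hS z₀ hz₀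
  have hz : z₀ ≠ 0 := by
    rintro rfl
    simp at h1
    linarith
  have key : ∀ z ∈ S, ∃ v : F.O, v * z₀ = z ∧ v ∈ F.box (-B) B (-B) B := by
    intro z hz'
    obtain ⟨hJ, -, h2', -, h4'⟩ := hS z hz'
    have : z ∈ Ideal.span {z₀} := by
      rw [hI, ← hJ]; exact Ideal.mem_span_singleton_self z
    obtain ⟨v, hv⟩ := Ideal.mem_span_singleton'.1 this
    refine ⟨v, hv, ?_⟩
    rw [← hv, map_mul, abs_mul] at h2' h4'
    have e1 : |F.σ₁ v| ≤ B := by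
      by_contra hc
      push Not at hc
      nlinarith
    have e2 : |F.σ₂ v| ≤ B := by
      by_contra hc
      push Not at hc
      nlinarith
    rw [abs_le] at e1 e2
    exact F.mem_box.2 ⟨e1.1, e1.2, e2.1, e2.2⟩
  have hsub : S ⊆ (F.box (-B) B (-B) B).image (fun v => v * z₀) := by
    intro z hz'
    obtain ⟨v, hv, hv'⟩ := key z hz'
    exact Finset.mem_image.2 ⟨v, hv', hv⟩
  have h5 : (S.card : ℝ) ≤ (F.box (-B) B (-B) B).card := by
    exact_mod_cast (Finset.card_le_card hsub).trans Finset.card_image_le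
  refine h5.trans ((F.card_box_le (by linarith) (by linarith)).trans (le_of_eq (by ring)))

end RQ

end Pool.Agent.Lib.MP_d48457_nt
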