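import Pool.Agent.Lib.MP_d48457_nt.Local

set_option autoImplicit false

namespace Pool.Agent.Lib.MP_d48457_nt

open QuadraticAlgebra Finset Filter Topology

theorem polar {s₁ s₂ K r κ β₁ β₂ : ℝ} (h2 : 0 < s₂) (hK : 0 < K) (hr : 1 ≤ r) (hκ : 1 ≤ κ)
    (hrκ : r * κ ≤ 2) (a1 : r * s₂ < s₁) (a2 : s₁ < r * κ * s₂) (hβ₁ : 3 ≤ β₁) (hβ : β₁ < β₂)
    (hβ₂ : β₂ ≤ 6) (b1 : β₁ ^ 2 / (r + 2 + r⁻¹) * K ^ 2 < s₁ * s₂)
    (b2 : s₁ * s₂ ≤ β₂ ^ 2 / (κ * (r + 2 + r⁻¹)) * K ^ 2) :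
    β₁ * K < s₁ + s₂ ∧ s₁ + s₂ < β₂ * K ∧ K ≤ s₁ ∧ s₁ ≤ 4 * K ∧ K ≤ s₂ ∧ s₂ ≤ 4 * K := by
  have hr0 : 0 < r := by linarith
  have h21 : s₂ < s₁ := by nlinarith
  have h1 : 0 < s₁ := by linarith
  have hu : r⁻¹ ≤ 1 := inv_le_one_of_one_le₀ hr
  have hu0 : 0 < r⁻¹ := by positivity
  have hru : r * r⁻¹ = 1 := mul_inv_cancel₀ hr0.ne'
  rw [div_mul_eq_mul_div, div_lt_iff₀ (by positivity)] at b1
  rw [div_mul_eq_mul_div, le_div_iff₀ (by positivity)] at b2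
  have c1 : β₁ * K < s₁ + s₂ := by
    refine lt_of_pow_lt_pow_left₀ 2 (by positivity) ?_
    have := mul_nonneg (sub_nonneg.2 a1.le) (show 0 ≤ s₁ - r⁻¹ * s₂ by nlinarith)
    have e : (s₁ - r * s₂) * (s₁ - r⁻¹ * s₂) = (s₁ + s₂) ^ 2 - s₁ * s₂ * (r + 2 + r⁻¹) := by
      linear_combination s₂ ^ 2 * hru
    rw [mul_pow]
    linarith
  have c2 : s₁ + s₂ < β₂ * K := by
    refine lt_of_pow_lt_pow_left₀ 2 (by nlinarith) ?_
    have d1 := mul_lt_mul_of_pos_left a2 h1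
    have d2 := mul_le_mul_of_nonneg_left hκ (mul_pos h1 h2).le
    have d3 : s₂ ≤ r⁻¹ * s₁ := by rw [← div_eq_inv_mul, le_div_iff₀ hr0]; linarith
    have d4 := mul_le_mul_of_nonneg_left d3 h2.le
    have d5 := mul_le_mul_of_nonneg_left d2 hu0.le
    rw [mul_pow]
    nlinarith
  have c3 : s₁ ≤ 2 * s₂ := by nlinarith
  have c4 := mul_le_mul_of_nonneg_right hβ₁ hK.le
  have c5 := mul_le_mul_of_nonneg_right hβ₂ hK.le
  refine ⟨c1, c2, ?_, ?_, ?_, ?_⟩ <;> linarith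

namespace RQ

variable (F : RQ)

theorem strip : ∃ c : ℝ, 0 < c ∧ ∀ {W : ℕ}, W ≠ 0 → ∀ (g : (F.RW W)ˣ), (g : F.RW W).2 = (1, -1) →
    ∀ {β₁ β₂ : ℝ}, 3 ≤ β₁ → β₁ < β₂ → β₂ ≤ 6 → ∀ᶠ K : ℝ in atTop,
      c * (β₂ - β₁) / Nat.card (F.RW W)ˣ * (K ^ 2 / Real.log K) ≤ ∑ z ∈ F.Om K,
        ind (F.cl W z = g ∧ β₁ * K < F.δ * z.im ∧ F.δ * z.im < β₂ * K ∧
          (Ideal.absNorm (Ideal.span {z})).Prime) := by
  obtain ⟨c₀, hc₀, H⟩ := F.HP
  refine ⟨c₀ * (3 / 40), by positivity, fun {W} hW g hg β₁ β₂ h1 h2 h3 => ?_⟩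
  have := F.finite_RW hW
  have hG : (0 : ℝ) < Nat.card (F.RW W)ˣ := by exact_mod_cast Nat.card_pos
  have hβ := sub_pos.2 h2
  obtain ⟨M, hM⟩ := exists_nat_gt (6 / (β₂ - β₁))
  have hM0 : (0 : ℝ) < M := lt_trans (by positivity) hM
  have hM1 : (1 : ℝ) ≤ M := Nat.one_le_cast.2 (Nat.cast_pos.1 hM0)
  set ρ : ℝ := 1 / (4 * M) with hρ
  have hρ0 : 0 < ρ := by positivity
  have hρM : M * ρ = 1 / 4 := by rw [hρ]; field_simp
  have hρβ : 24 * ρ ≤ β₂ - β₁ := by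
    rw [div_lt_iff₀ hβ] at hM
    refine le_of_mul_le_mul_left ?_ hM0
    linarith
  let r : ℕ → ℝ := fun j => Real.exp (2 * j * ρ)
  have hr : ∀ j, 1 ≤ r j := fun j => Real.one_le_exp (by positivity)
  have hκ : 1 ≤ Real.exp (2 * ρ) := Real.one_le_exp (by positivity)
  have hrκ : ∀ j ∈ range M, r j * Real.exp (2 * ρ) ≤ 2 := fun j hj => by
    have a1 : (j : ℝ) + 1 ≤ M := by exact_mod_cast mem_range.1 hj
    rw [← Real.exp_add, ← Real.le_log_iff_exp_le two_pos]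
    have := Real.log_two_gt_d9
    nlinarith
  let t₁ : ℕ → ℝ := fun j => β₁ ^ 2 / (r j + 2 + (r j)⁻¹)
  let t₂ : ℕ → ℝ := fun j => β₂ ^ 2 / (Real.exp (2 * ρ) * (r j + 2 + (r j)⁻¹))
  have ht : ∀ j ∈ range M, 3 / 5 * (β₂ - β₁) ≤ t₂ j - t₁ j := fun j hj => by
    have a1 := hr j
    have a2 : r j + 2 + (r j)⁻¹ ≤ 5 := by
      nlinarith [hrκ j hj, inv_le_one_of_one_le₀ a1]
    have a3 : 0 < r j + 2 + (r j)⁻¹ := by positivity
    have a4 := Real.add_one_le_exp (-(2 * ρ))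
    simp only [t₁, t₂]
    rw [← div_div, ← sub_div, le_div_iff₀ a3, div_eq_mul_inv _ (Real.exp _), ← Real.exp_neg (2 * ρ)]
    have a5 := mul_le_mul_of_nonneg_left a4 (sq_nonneg β₂)
    have a6 : β₂ ^ 2 * ρ ≤ 36 * ρ := mul_le_mul_of_nonneg_right (by nlinarith) hρ0.le
    nlinarith [mul_le_mul_of_nonneg_left a2 hβ.le, mul_le_mul_of_nonneg_left
      (show 6 ≤ β₁ + β₂ by linarith) hβ.le]
  have hev := (eventually_all_finset (range M)).2 (fun j hj =>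
    (tendsto_pow_atTop two_ne_zero).eventually (H hW g ((2 * j + 1) * ρ) hρ0 (by nlinarith)
      (show 0 < t₁ j by have := hr j; positivity) (show t₁ j < t₂ j by linarith [ht j hj])))
  filter_upwards [hev, eventually_gt_atTop 1] with K hK hK1
  have hK0 : 0 < K := by linarith
  have hl := Real.log_pos hK1
  have key : ∀ j ∈ range M, ∀ z, F.Cnd W g ((2 * j + 1) * ρ) ρ (t₁ j * K ^ 2) (t₂ j * K ^ 2) z →
      z ∈ F.Om K ∧ β₁ * K < F.δ * z.im ∧ F.δ * z.im < β₂ * K := by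
    rintro j hj z ⟨a1, a2, a3, a4, -⟩
    rw [← a1, cl_apply, Prod.mk.injEq, sign_eq_one_iff, sign_eq_neg_one_iff] at hg
    obtain ⟨b1, b2⟩ := hg
    have b3 := neg_pos.2 b2
    rw [nrm_span, abs_of_pos b1, abs_of_neg b2] at a3 a4
    have b4 : Real.exp (F.ph z) * -F.σ₂ z = F.σ₁ z := by
      rw [ph, ← Real.log_neg_eq_log (F.σ₂ z), Real.exp_sub, Real.exp_log b1, Real.exp_log b3,
        div_mul_cancel₀ _ b3.ne']
    rw [abs_lt] at a2
    obtain ⟨c1, c2, c3, c4, c5, c6⟩ := polar b3 hK0 (hr j) hκ (hrκ j hj)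
      ((mul_lt_mul_of_pos_right (Real.exp_lt_exp.2 (by linarith)) b3).trans_eq b4)
      (b4.symm.trans_lt (mul_lt_mul_of_pos_right (by
        rw [← Real.exp_add]; exact Real.exp_lt_exp.2 (by linarith)) b3)) h1 h2 h3 a3 a4
    rw [← F.σ_sub]
    exact ⟨F.mem_box.2 ⟨c3, c4, by linarith, by linarith⟩, by linarith, by linarith⟩
  calc _ = ∑ j ∈ range M, c₀ * (3 / 5 * (β₂ - β₁)) * ρ / Nat.card (F.RW W)ˣ
        * (K ^ 2 / Real.log (K ^ 2)) := by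
        rw [sum_const, card_range, nsmul_eq_mul, Real.log_pow, hρ]; field_simp; ring
    _ ≤ ∑ j ∈ range M, ∑ z ∈ F.Om K,
        ind (F.Cnd W g ((2 * j + 1) * ρ) ρ (t₁ j * K ^ 2) (t₂ j * K ^ 2) z) := by
        refine sum_le_sum (fun j hj => le_trans ?_ (hK j hj _ (fun z hz => (key j hj z hz).1)))
        have := ht j hj
        have : 0 < Real.log (K ^ 2) := Real.log_pos (by nlinarith)
        gcongr
    _ ≤ _ := by
        classical
        rw [sum_comm]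
        refine sum_le_sum (fun z _ => ?_)
        by_cases h : ∃ j ∈ range M,
          F.Cnd W g ((2 * j + 1) * ρ) ρ (t₁ j * K ^ 2) (t₂ j * K ^ 2) z
        · obtain ⟨j, hj, hz⟩ := h
          rw [ind_pos ⟨hz.1, (key j hj z hz).2.1, (key j hj z hz).2.2, hz.2.2.2.2⟩,
            sum_eq_single_of_mem j hj (fun i _ hij => ind_neg (fun hz' => hij ?_))]
          · exact ind_le_one _
          · have a1 := abs_lt.1 hz.2.1
            have a2 := abs_lt.1 hz'.2.1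
            have a3 : (i : ℝ) < j + 1 := lt_of_mul_lt_mul_right (a := ρ) (by linarith) hρ0.le
            have a4 : (j : ℝ) < i + 1 := lt_of_mul_lt_mul_right (a := ρ) (by linarith) hρ0.le
            have a5 : i < j + 1 := by exact_mod_cast a3
            have a6 : j < i + 1 := by exact_mod_cast a4
            omega
        · rw [sum_eq_zero (fun j hj => ind_neg (fun hz => h ⟨j, hj, hz⟩))]
          exact ind_nonneg _

end RQ

end Pool.Agent.Lib.MP_d48457_nt
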