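import Pool.Agent.Lib.MP_d48457_nt.TypeII

set_option autoImplicit false

namespace Pool.Agent.Lib.MP_d48457_nt

open QuadraticAlgebra Finset

namespace RQ

variable (F : RQ)

/-- The second basis vector. -/
def om : F.O := ⟨0, 1⟩

theorem a_ne_zero : F.a ≠ 0 := by
  have h : F.om ≠ 0 := fun h => by simpa [om] using congrArg QuadraticAlgebra.im h
  have := F.norm_ne_zero h
  simpa [om, norm_def] using this

theorem fib_one (y : ℝ) : F.Fib y ⊤ 1 1 := by
  intro T hT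
  obtain ⟨v, hv, e, he, h1, h2⟩ := F.fiber_lemma (n := ⊤) (fun P h => F.PP_prime (hT h))
    (by simp) (fun P h => by
      simpa using (F.ell_prime (F.PP_prime (hT h))).ne_one)
  refine ⟨v, hv, e, he, by rw [mul_one, h1], ?_⟩
  rw [one_mul]
  unfold nrm
  exact_mod_cast h2

theorem fib_om (y : ℝ) : F.Fib y ⊤ |(F.a : ℝ)| F.om := by
  intro T hT
  obtain ⟨v, hv, e, he, h1, h2⟩ := F.fib_one y T hT
  rw [mul_one] at h1
  refine ⟨v * ((-F.a.sign : ℤ) * star F.om), Ideal.mul_mem_right _ _ hv, F.a.natAbs * e,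
    Nat.mul_pos (Int.natAbs_pos.2 F.a_ne_zero) he, ?_, ?_⟩
  · simp only [om, im_mul, re_mul, re_star, im_star, re_intCast, im_intCast, h1]
    push_cast
    rw [← Int.sign_mul_self_eq_abs]
    ring
  · push_cast
    rw [Nat.cast_natAbs, Int.cast_abs, mul_assoc]
    exact mul_le_mul_of_nonneg_left (by linarith) (abs_nonneg _)

theorem abs_σ_om : |F.σ₁ F.om| ≤ F.EE ∧ |F.σ₂ F.om| ≤ F.EE := by
  have h1 := F.c0_le
  have h2 := F.δ_pos
  have h3 := le_abs_self (F.b : ℝ)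
  have h4 := neg_abs_le (F.b : ℝ)
  unfold c0 at h1
  simp only [σ₁_apply, σ₂_apply, om, abs_le]
  push_cast
  refine ⟨⟨?_, ?_⟩, ?_, ?_⟩ <;> linarith

theorem typeI : ∃ C : ℝ, 0 < C ∧ ∀ {y R K : ℝ}, 2 ≤ y → y ^ 12 ≤ R → F.EE ≤ R → R ^ 11 ≤ K →
    ∀ {g : ℤ → ℝ}, (∀ k, |g k| ≤ 1) → ∀ {Q θ : ℝ}, 1 ≤ Q →
    Unif Q θ g → ∀ {m J : ℕ}, 1 ≤ m → 1 ≤ J → (J : ℝ) ≤ R →
    |∑ z ∈ F.Om K, F.nu y R ⊤ z * g z.im| ≤ C * (K ^ 2 / F.Gy y) * sm m J Q (θ / K) R := by
  obtain ⟨C, hC, hW⟩ := F.WW_le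
  have hE := F.one_le_EE
  set c' : ℝ := |(F.a : ℝ)| with hc'
  have hc1 : 1 ≤ c' := by
    rw [hc', ← Int.cast_abs]
    exact_mod_cast Int.one_le_abs F.a_ne_zero
  refine ⟨10 ^ 6 * F.EE ^ 4 * (1 + c' * √c' * C), by positivity, ?_⟩
  intro y R K hy hR hER hK g hg Q θ hQ hU m J hm hJ hJR
  have hR1 : 1 < R := (F.hH_of_le hy hR (empty_subset _)).1
  have hG := F.one_le_Gy y
  have hJ1 : (1 : ℝ) ≤ J := by exact_mod_cast hJ
  have hm1 : (1 : ℝ) ≤ m := by exact_mod_cast hm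
  have hK1 : 1 ≤ K := (one_le_pow₀ hR1.le).trans hK
  have hKL : K ≤ F.EE * (8 * K) := by nlinarith
  set H := ⌈F.EE * (8 * K) / J⌉₊ with hHdef
  have hH1 : F.EE * (8 * K) / J ≤ H := Nat.le_ceil _
  have hH3 : (R ^ 2) ^ 3 ≤ F.EE * (8 * K) / J := by
    rw [le_div_iff₀ (by linarith)]
    calc _ ≤ (R ^ 2) ^ 3 * R := by gcongr
      _ = R ^ 7 := by ring
      _ ≤ R ^ 11 := pow_le_pow_right₀ hR1.le (by norm_num)
      _ ≤ _ := hK.trans hKL
  have hD1 : 1 ≤ R ^ 2 := one_le_pow₀ hR1.le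
  have hH0 : 1 ≤ F.EE * (8 * K) / J := (one_le_pow₀ hD1).trans hH3
  have hH2 : (H : ℝ) ≤ 2 * (F.EE * (8 * K)) / J := by
    have := Nat.ceil_lt_add_one (show 0 ≤ F.EE * (8 * K) / J by linarith)
    rw [mul_div_assoc]
    linarith
  have hHpos : 0 < H := by
    have : (0 : ℝ) < H := by linarith
    exact_mod_cast this
  have hdet : F.det 1 F.om = 1 := by simp [det, om]
  have hJH : F.EE * (8 * K) ≤ J * H := by
    rw [div_le_iff₀ (by linarith)] at hH1; linarith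
  obtain ⟨o1, o2⟩ := F.abs_σ_om
  have key := F.box_pair_bound (D := R ^ 2) (s := m) (ρ := F.EE) (s₀ := 2 * (8 * K)) hy hR
    (c' := c') (by linarith) (by linarith) (b := ⊤) (by simp) (π₁ := 1) (π₂ := F.om)
    (by rw [hdet]; norm_num) ((F.fib_one y).mono hc1) (F.fib_om y) (by simp [hdet])
    (by simpa using hE) (by simpa using hE) o1 o2 g (fun _ => 1) hg (fun _ => by simp) hHpos
    (J := J) (a₁ := K) (a₂ := 4 * K) (b₁ := -(4 * K)) (b₂ := -K) (by linarith) (by linarith)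
    (by linarith) (fun w hw => by
      have h1 := F.abs_im_le (by linarith) hw
      obtain ⟨-, h2, -, h3⟩ := F.Om_bounds (by linarith) hw
      constructor
      · rw [mul_one]
        have : |(w.im : ℝ)| ≤ J * H := by
          linarith [le_mul_of_one_le_left (show 0 ≤ 8 * K by linarith) hE]
        exact_mod_cast this
      · have h4 := F.σ_sub (w * F.om)
        have h5 : |F.σ₁ (w * F.om)| ≤ 4 * K * F.EE := by rw [map_mul, abs_mul]; gcongr
        have h6 : |F.σ₂ (w * F.om)| ≤ 4 * K * F.EE := by rw [map_mul, abs_mul]; gcongr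
        have h7 := abs_sub (F.σ₁ (w * F.om)) (F.σ₂ (w * F.om))
        rw [h4, abs_mul, abs_of_pos F.δ_pos] at h7
        have h8 := le_mul_of_one_le_left (abs_nonneg ((w * F.om).im : ℝ)) F.one_le_δ
        have : |((w * F.om).im : ℝ)| ≤ J * H := by linarith
        exact_mod_cast this)
  simp only [Submodule.mem_top, ind_pos, one_mul, mul_one] at key
  refine key.trans ?_
  have k1 := F.rim_le (ρ := F.EE) (τ := 8 * K) (Δ := |(F.det 1 F.om : ℝ)|) hy hR hER (by linarith)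
    (by linarith) (b := ⊤) (by rw [F.nrm_top]; exact hE) (m := F.EE ^ 2) (one_le_pow₀ hE) hJ1 hJR
    (Nat.cast_nonneg H) hH2 (by rw [hdet, div_self (by positivity)]; simp)
  set B := c' * √c' * C / F.Gy y with hB
  have hB0 : 0 ≤ B := by positivity
  have hZ : ∀ d : ℕ, d ≠ 0 → F.ZZ y R (Ideal.absNorm (⊤ : Ideal F.O)) c' d (F.det 1 F.om)
      ≤ B / √(√d) := by
    intro d hd
    have h1 := F.sum_ZZ_le y R (c := Ideal.absNorm (⊤ : Ideal F.O)) (by simp) (c' := c')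
      (by linarith) hd (univ : Finset Unit) (fun _ => F.det 1 F.om) (B := 1) zero_le_one
      (fun q _ => by
        rw [hdet, sum_const, card_univ, Fintype.card_unit, one_smul]
        by_cases h : (q : ℤ) ∣ 1
        · have : q = 1 := Nat.dvd_one.1 (by exact_mod_cast h)
          rw [this, ind_pos (by simp)]; simp
        · rw [ind_neg h]; positivity)
    rw [sum_const, card_univ, Fintype.card_unit, one_smul] at h1
    refine h1.trans ?_
    have h2 := hW y R hy hR d hd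
    have hW0 : 0 ≤ F.WW y R d := sum_nonneg (fun T _ => mul_nonneg (abs_nonneg _)
      (mul_nonneg (mul_nonneg (div_nonneg (F.prod_nrm_nonneg T) (Nat.cast_nonneg _))
        (Real.sqrt_nonneg _)) (Nat.cast_nonneg _)))
    have h3 : F.WW y R d / d ≤ 4 ^ d.primeFactors.card * F.WW y R d / d := by
      gcongr; exact le_mul_of_one_le_left hW0 (one_le_pow₀ (by norm_num))
    calc _ = c' * √c' * (F.WW y R d / d) := by simp; ring
      _ ≤ c' * √c' * (C / (F.Gy y * √(√d))) :=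
        mul_le_mul_of_nonneg_left (h3.trans h2) (by positivity)
      _ = _ := by rw [hB]; ring
  have k2 := AA_le hg hU hQ hD1 hD1 hB0 le_rfl H J _ (fun d hd _ => hZ d hd) (fun d hd => by
    rw [F.ZZ_eq_zero hR1 (by simp) c' (by rw [hdet]; norm_num) (by simpa [hdet] using hd)]
    simp)
  have k3 := AA_le_triv (g := fun _ => 1) (fun _ => by simp) hD1 hB0 H J _ (fun d hd =>
    (hZ d hd).trans (div_le_self hB0 (Real.one_le_sqrt.2 (Real.one_le_sqrt.2
      (by exact_mod_cast Nat.pos_of_ne_zero hd)))))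
  rw [zero_mul, add_zero] at k2
  have hQ0 : 0 < √(√Q) := Real.sqrt_pos.2 (Real.sqrt_pos.2 (by linarith))
  have hH4 : (R ^ 2) ^ 3 ≤ H := hH3.trans hH1
  have hH5 : (0 : ℝ) ≤ H := Nat.cast_nonneg _
  have hJH2 : (J : ℝ) ^ 2 * H ^ 2 ≤ 256 * F.EE ^ 2 * K ^ 2 := by
    rw [le_div_iff₀ (by linarith)] at hH2
    calc _ = ((H : ℝ) * J) ^ 2 := by ring
      _ ≤ (2 * (F.EE * (8 * K))) ^ 2 := by gcongr
      _ = _ := by ring
  have hE2 : F.EE ^ 2 ≤ F.EE ^ 4 := pow_le_pow_right₀ hE (by norm_num)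
  have hE1 : 1 ≤ F.EE ^ 2 := one_le_pow₀ hE
  set A := c' * √c' * C with hA
  have hA0 : 0 ≤ A := by positivity
  have hR0 : 0 < 1 / R := by positivity
  calc _ ≤ 2176 * F.EE ^ 2 * ((8 * K) ^ 2 / F.Gy y * (F.EE ^ 2 / J))
        + (3 * J) / (2 * |(F.det 1 F.om : ℝ)|) *
          (m * ((3 * J) * (B * (4 * Q ^ 2 * θ ^ 2 + (3 * H) * H / √(√Q))))
          + (m : ℝ)⁻¹ * ((3 * J) * (B * ((3 * H) * H)))) := by
        refine add_le_add k1 (mul_le_mul (by gcongr; linarith) (add_le_add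
          (mul_le_mul_of_nonneg_left (k2.trans ?_) (by linarith))
          (mul_le_mul_of_nonneg_left (k3.trans ?_) (by positivity))) ?_ (by positivity))
        · gcongr <;> linarith
        · gcongr <;> linarith
        · have := AA_nonneg g H J (R ^ 2) (fun d => F.ZZ_nonneg y R
            (Ideal.absNorm (⊤ : Ideal F.O)) (c' := c') (by linarith) d (F.det 1 F.om))
          have := AA_nonneg (fun _ => 1) H J (R ^ 2) (fun d => F.ZZ_nonneg y R
            (Ideal.absNorm (⊤ : Ideal F.O)) (c' := c') (by linarith) d (F.det 1 F.om))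
          positivity
    _ = 1 / F.Gy y * (139264 * F.EE ^ 4 * K ^ 2 * (1 / J) + A * (18 * (m * J ^ 2 * Q ^ 2 * θ ^ 2)
          + 27 / 2 * (J ^ 2 * H ^ 2) * (m / √(√Q) + 1 / m))) := by
        rw [hdet, hB]; simp only [Int.cast_one, abs_one]; field_simp; ring
    _ ≤ 1 / F.Gy y * (139264 * F.EE ^ 4 * K ^ 2 * (m / J) + A * (18 * (m * J ^ 2 * Q ^ 2 * θ ^ 2)
          + 27 / 2 * (256 * F.EE ^ 2 * K ^ 2) * (m / √(√Q) + 1 / m))) := by gcongr
    _ = K ^ 2 / F.Gy y * (3456 * F.EE ^ 2 * A * (1 / m) + 139264 * F.EE ^ 4 * (m / J)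
          + (3456 * F.EE ^ 2 * A * (m / √(√Q)) + 18 * A * (m * J ^ 2 * Q ^ 2 * (θ / K) ^ 2)
          + 0 * (1 / R))) := by field_simp; ring
    _ ≤ K ^ 2 / F.Gy y * (10 ^ 6 * F.EE ^ 4 * (1 + A) * (1 / m)
          + 10 ^ 6 * F.EE ^ 4 * (1 + A) * (m / J)
          + (10 ^ 6 * F.EE ^ 4 * (1 + A) * (m / √(√Q))
          + 10 ^ 6 * F.EE ^ 4 * (1 + A) * (m * J ^ 2 * Q ^ 2 * (θ / K) ^ 2)
          + 10 ^ 6 * F.EE ^ 4 * (1 + A) * (1 / R))) := by
        have h1 := mul_le_mul_of_nonneg_right hE2 hA0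
        have h2 := mul_le_mul_of_nonneg_right hE1 hA0
        have h3 : 0 ≤ F.EE ^ 4 := by positivity
        have h4 := mul_nonneg h3 hA0
        gcongr ?_ * (?_ * _ + ?_ * _ + (?_ * _ + ?_ * _ + ?_ * _)) <;> linarith
    _ = _ := by rw [sm]; ring

end RQ

end Pool.Agent.Lib.MP_d48457_nt
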