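import Pool.Agent.Lib.MP_d48457_nt.TypeIIc

set_option autoImplicit false

namespace Pool.Agent.Lib.MP_d48457_nt

open QuadraticAlgebra Finset

theorem Unif.nonneg {Q θ : ℝ} {g : ℤ → ℝ} (h : Unif Q θ g) (hQ : 1 ≤ Q) : 0 ≤ θ :=
  (norm_nonneg _).trans (h 0 (by simpa using hQ) 0 0)

theorem sm_nonneg {m J Q t R : ℝ} (hm : 0 ≤ m) (hJ : 0 ≤ J) (hR : 0 ≤ R) : 0 ≤ sm m J Q t R := by
  unfold sm; positivity

namespace RQ

variable (F : RQ)

theorem Fib.mono {F : RQ} {y c c' : ℝ} {b : Ideal F.O} {π : F.O} (h : F.Fib y b c π) (hc : c ≤ c') :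
    F.Fib y b c' π := by
  intro T hT
  obtain ⟨v, hv, e, h1, h2, h3⟩ := h T hT
  exact ⟨v, hv, e, h1, h2, h3.trans (mul_le_mul_of_nonneg_right hc (F.prod_nrm_nonneg T))⟩

/-- Weighted count of generators in the region. -/
noncomputable def Phi (K : ℝ) (g : ℤ → ℝ) (I : Ideal F.O) : ℝ :=
  ∑ z ∈ F.Om K, ind (I = Ideal.span {z}) * g z.im

theorem typeII_cls : ∃ C : ℝ, 0 < C ∧ ∀ {y R s K : ℝ}, 2 ≤ y → y ^ 12 ≤ R → F.EE ≤ R →
    R ^ 50 ≤ s → s ^ 2 * R ^ 100 ≤ K → Real.log K ≤ R → ∀ (D : ClassGroup F.O)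
    {N M : Finset (Ideal F.O)}, (∀ n ∈ N, n ≠ ⊥ ∧ F.cls n = D ∧ F.rough y n ∧
      Squarefree (Ideal.absNorm n) ∧ s ^ 2 ≤ F.nrm n ∧ F.nrm n ≤ 2 * s ^ 2) →
    (∀ m ∈ M, F.rough y m) →
    ∀ {g : ℤ → ℝ}, (∀ k, |g k| ≤ 1) → ∀ {Q θ : ℝ}, 1 ≤ Q →
    Unif Q θ g → ∀ {m J : ℕ}, 1 ≤ m → (m : ℝ) ≤ R → 1 ≤ J → (J : ℝ) ≤ R →
    ∀ (α β : Ideal F.O → ℝ), (∀ I, |α I| ≤ 1) → (∀ I, |β I| ≤ 1) →
    |∑ n ∈ N, β n * ∑ a ∈ M, α a * F.Phi K g (a * n)|
      ≤ C * (K ^ 2 / F.Gy y ^ 2) * √(sm m J Q (θ / K) R) := by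
  classical
  obtain ⟨C, hC, hP⟩ := F.typeII_core
  have hE := F.one_le_EE
  refine ⟨√C * (64 * F.EE ^ 6), by positivity, ?_⟩
  intro y R s K hy hR hER hs hK hlog D N M hN hM g hg Q θ hQ hU m J hm hmR hJ hJR α β hα hβ
  have hR1 : 1 < R := (F.hH_of_le hy hR (empty_subset _)).1
  have hG := F.one_le_Gy y
  have hs1 : 1 ≤ s := (one_le_pow₀ hR1.le).trans hs
  have hK1 : 1 ≤ K := le_trans (one_le_mul_of_one_le_of_one_le (one_le_pow₀ hs1)
    (one_le_pow₀ hR1.le)) hK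
  have he := F.one_lt_e
  have heE := F.e_le
  set c := F.rep D with hcdef
  have hc : c ≠ ⊥ := F.rep_ne D
  obtain ⟨b, hb, hcb, hbc⟩ := F.exists_compl hc
  set k : ℝ := ((Ideal.absNorm c : ℕ) : ℝ) with hk
  have hk1 : 1 ≤ k := F.one_le_nrm hc
  have hkE : k ≤ F.EE := (F.nrm_rep_le D).trans F.cs_le
  have hbE : F.nrm b ≤ F.EE := by unfold nrm; rw [hbc]; exact hkE
  set ρ := F.e * √(2 * s ^ 2 * k) with hρ
  have hρ2 : ρ ^ 2 = F.e ^ 2 * (2 * s ^ 2 * k) := by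
    rw [hρ, mul_pow, Real.sq_sqrt (by positivity)]
  have hsρ : s ≤ ρ := by
    refine le_trans ?_ (le_mul_of_one_le_left (Real.sqrt_nonneg _) he.le)
    apply Real.le_sqrt_of_sq_le
    nlinarith [sq_nonneg s]
  have hρ0 : 0 < ρ := by linarith
  set τ := 8 * F.EE ^ 2 * (k * K) / ρ with hτ
  have hρτ : ρ * τ = 8 * F.EE ^ 2 * (k * K) := by rw [hτ]; field_simp
  have hE2 : 1 ≤ F.EE ^ 2 := one_le_pow₀ hE
  have hρ3 : ρ ^ 2 * R ^ 100 ≤ 2 * F.EE ^ 2 * (k * K) := by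
    calc _ = 2 * F.e ^ 2 * (k * (s ^ 2 * R ^ 100)) := by rw [hρ2]; ring
      _ ≤ _ := by gcongr
  have hτ1 : ρ * R ^ 100 ≤ τ := by
    rw [hτ, le_div_iff₀ hρ0]
    have : 0 ≤ F.EE ^ 2 * (k * K) := by positivity
    nlinarith
  have hlρ : Real.log ρ ≤ R := by
    refine le_trans (Real.log_le_log hρ0 ?_) hlog
    have h1 : 2 * F.EE ^ 3 ≤ R ^ 100 := by
      have h2 : (2 : ℝ) ≤ R :=
        le_trans (le_trans (by norm_num) (pow_le_pow_left₀ (by norm_num) hy 12)) hR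
      calc _ ≤ R * R ^ 3 := by gcongr
        _ = R ^ 4 := by ring
        _ ≤ _ := pow_le_pow_right₀ hR1.le (by norm_num)
    have h2 : ρ ^ 2 * R ^ 100 ≤ K * R ^ 100 := by
      refine hρ3.trans ?_
      calc _ ≤ 2 * F.EE ^ 2 * (F.EE * K) := by gcongr
        _ = K * (2 * F.EE ^ 3) := by ring
        _ ≤ _ := by gcongr
    have h3 : ρ ^ 2 ≤ K := le_of_mul_le_mul_right h2 (by positivity)
    exact (le_self_pow₀ (by linarith) (by norm_num)).trans h3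
  have hAdm : ∀ n ∈ N, F.Adm y R ρ c b (F.gen n) := by
    intro n hn
    obtain ⟨h0, h1, h2, h3, h4, h5⟩ := hN n hn
    have hsp := F.span_gen h0
    have hbd := F.gen_bounds h0
    rw [h1] at hsp hbd
    obtain ⟨b1, b2, b3, b4⟩ := hbd
    have u : F.e * √((Ideal.absNorm n : ℝ) * k) ≤ ρ := by
      rw [hρ]; gcongr; exact h5
    have l : ρ ≤ 2 * F.EE ^ 2 * (√((Ideal.absNorm n : ℝ) * k) / F.e) := by
      have h6 : √(2 * s ^ 2 * k) ≤ 2 * √((Ideal.absNorm n : ℝ) * k) := by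
        apply Real.sqrt_le_iff.2 ⟨by positivity, ?_⟩
        rw [mul_pow, Real.sq_sqrt (by positivity)]
        have : s ^ 2 * k ≤ (Ideal.absNorm n : ℝ) * k := by gcongr; exact h4
        nlinarith [sq_nonneg s]
      calc ρ ≤ F.e * (2 * √((Ideal.absNorm n : ℝ) * k)) := by rw [hρ]; gcongr
        _ = 2 * F.e ^ 2 * (√((Ideal.absNorm n : ℝ) * k) / F.e) := by field_simp
        _ ≤ _ := by gcongr
    refine ⟨by rw [hcdef, ← h1]; exact F.gen_mem h0, fun P hP hm => F.rough_iff.1 h2 P hP ?_, F.nu_eq_one R hc hsp h2,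
      (F.fib_gen hcb hc hsp h2 h3).mono hkE, l.trans (by gcongr), l.trans (by gcongr),
      b2.trans u, b4.trans u⟩
    rw [← F.dvd_span_iff, hsp] at hm
    exact (mul_dvd_mul_iff_right hc).1 hm
  have hsz : ∀ {p : ℝ}, ρ ≤ 2 * F.EE ^ 2 * |p| → 4 * (k * K) ≤ τ * |p| := by
    intro p hp
    have h1 : ρ * τ ≤ 2 * F.EE ^ 2 * |p| * τ := by gcongr
    have h2 : 2 * F.EE ^ 2 * (4 * (k * K)) ≤ 2 * F.EE ^ 2 * (τ * |p|) := by linarith
    exact le_of_mul_le_mul_left h2 (by positivity)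
  have hinj : Set.InjOn F.gen N := fun n hn n' hn' h =>
    F.gen_inj (hN n hn).1 (hN n' hn').1 ((hN n hn).2.1.trans (hN n' hn').2.1.symm) h
  let α' : F.O → ℝ := fun w => ∑ a ∈ M, α a * ind (Ideal.span {w} = a * b)
  let β' : F.O → ℝ := fun π => β (Function.invFunOn F.gen N π)
  have hα' : ∀ w, |α' w| ≤ ind (w ∈ b) * F.nu y R b w := by
    intro w
    by_cases h : ∃ a ∈ M, Ideal.span {w} = a * b
    · obtain ⟨a, ha, h⟩ := h
      have : α' w = α a := by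
        simp only [α']
        rw [sum_eq_single_of_mem a ha, ind_pos h, mul_one]
        intro a' _ hne
        rw [ind_neg, mul_zero]
        intro h'
        exact hne (mul_right_cancel₀ hb (h'.symm.trans h))
      rw [this, ind_pos (F.dvd_span_iff.1 ⟨a, by rw [h, mul_comm]⟩), F.nu_eq_one R hb h (hM a ha),
        one_mul]
      exact hα a
    · have : α' w = 0 := sum_eq_zero (fun a ha => by
        rw [ind_neg (fun h' => h ⟨a, ha, h'⟩), mul_zero])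
      rw [this, abs_zero]
      exact mul_nonneg (ind_nonneg _) (F.nu_nonneg _ _ _ _)
  have hc0 := (F.absNorm_pos hc).ne'
  have key := hP hy hR hER (hs.trans hsρ) hlρ hτ1 (K := k * K) (by positivity) hρτ.ge hc hkE hb hbE
    (X := N.image F.gen) (fun π hπ => by
      obtain ⟨n, hn, rfl⟩ := mem_image.1 hπ
      exact hAdm n hn) (abs_dil_le hg (Ideal.absNorm c)) hQ (hU.dil hc0) hm hmR hJ hJR α' β' hα'
    (fun _ => hβ _)
  have e1 : ∑ n ∈ N, β n * ∑ a ∈ M, α a * F.Phi K g (a * n) = ∑ π ∈ N.image F.gen, β' π *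
      ∑ w ∈ F.box (-τ) τ (-τ) τ, α' w * (ind (w * π ∈ F.Om (k * K)) *
        dil (Ideal.absNorm c) g (w * π).im) := by
    rw [sum_image hinj]
    refine sum_congr rfl (fun n hn => ?_)
    have hsp := F.span_gen (hN n hn).1
    rw [(hN n hn).2.1] at hsp
    simp only [β', α', sum_mul]
    rw [hinj.leftInvOn_invFunOn hn, sum_comm]
    congr 1
    refine sum_congr rfl (fun a _ => ?_)
    rw [Phi, F.reindex (by linarith) hcb hc (hN n hn).1 hsp (hsz (hAdm n hn).l1)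
      (hsz (hAdm n hn).l2), mul_sum]
    exact sum_congr rfl (fun w _ => by ring)
  rw [e1]
  have hθ := hU.nonneg hQ
  have hKL : K ≤ ρ * τ := by
    rw [hρτ]
    have : K ≤ k * K := le_mul_of_one_le_left (by linarith) hk1
    nlinarith
  have h1 : sm m J Q (θ / (ρ * τ)) R ≤ sm m J Q (θ / K) R := by
    unfold sm
    gcongr
  have h2 : (ρ * τ) ^ 2 ≤ 64 * F.EE ^ 6 * K ^ 2 := by
    rw [hρτ]
    calc _ ≤ (8 * F.EE ^ 2 * (F.EE * K)) ^ 2 := by gcongr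
      _ = _ := by ring
  have h3 := sm_nonneg (m := m) (J := J) (Q := Q) (t := θ / K) (R := R) (by positivity)
    (by positivity) (by linarith)
  have h4 := sm_nonneg (m := m) (J := J) (Q := Q) (t := θ / (ρ * τ)) (R := R) (by positivity)
    (by positivity) (by linarith)
  refine abs_le_of_sq_le_sq' (key.trans ?_) (by positivity) |> abs_le.2
  calc _ ≤ C * (64 * F.EE ^ 6 * K ^ 2 / F.Gy y ^ 2) ^ 2 * sm m J Q (θ / K) R := by gcongr
    _ = _ := by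
      rw [mul_pow, mul_pow, mul_pow, Real.sq_sqrt hC.le, Real.sq_sqrt h3]; ring

theorem typeII_all : ∃ C : ℝ, 0 < C ∧ ∀ {y R K : ℝ}, 2 ≤ y → y ^ 12 ≤ R → F.EE ≤ R →
    R ≤ K → Real.log K ≤ R → ∀ {N M : Finset (Ideal F.O)}, (∀ n ∈ N, F.rough y n ∧
      Squarefree (Ideal.absNorm n) ∧ 2 * R ^ 100 ≤ F.nrm n ∧ F.nrm n * R ^ 100 ≤ K) →
    (∀ m ∈ M, F.rough y m) →
    ∀ {g : ℤ → ℝ}, (∀ k, |g k| ≤ 1) → ∀ {Q θ : ℝ}, 1 ≤ Q →
    Unif Q θ g → ∀ {m J : ℕ}, 1 ≤ m → (m : ℝ) ≤ R → 1 ≤ J → (J : ℝ) ≤ R →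
    ∀ (α β : Ideal F.O → ℝ), (∀ I, |α I| ≤ 1) → (∀ I, |β I| ≤ 1) →
    |∑ n ∈ N, β n * ∑ a ∈ M, α a * F.Phi K g (a * n)|
      ≤ C * Real.log K * (K ^ 2 / F.Gy y ^ 2) * √(sm m J Q (θ / K) R) := by
  classical
  obtain ⟨C, hC, hP⟩ := F.typeII_cls
  have hcs := F.one_le_cs
  refine ⟨3 * F.cs * C, by positivity, ?_⟩
  intro y R K hy hR hER hRK hlog N M hN hM g hg Q θ hQ hU m J hm hmR hJ hJR α β hα hβ
  have hR1 : 1 < R := (F.hH_of_le hy hR (empty_subset _)).1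
  have hR4 : 4 ≤ R := le_trans (le_trans (by norm_num) (pow_le_pow_left₀ (by norm_num) hy 12)) hR
  have hG := F.one_le_Gy y
  have hRp : 1 ≤ R ^ 100 := one_le_pow₀ hR1.le
  have hl2 := Real.log_two_gt_d9
  have hlK : 1 ≤ Real.log K := by
    have : Real.log 4 ≤ Real.log K := Real.log_le_log (by norm_num) (by linarith)
    rw [show (4 : ℝ) = 2 ^ 2 by norm_num, Real.log_pow] at this
    push_cast at this
    linarith
  set J₀ := ⌊2 * Real.log K⌋₊ + 1 with hJ₀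
  have hn0 : ∀ n ∈ N, Ideal.absNorm n ≠ 0 := fun n hn h => by
    have := (hN n hn).2.2.1
    rw [nrm, h, Nat.cast_zero] at this
    linarith
  have hlo : ∀ n ∈ N, (2 : ℝ) ^ Nat.log 2 (Ideal.absNorm n) ≤ F.nrm n := fun n hn => by
    unfold nrm; exact_mod_cast Nat.pow_log_le_self 2 (hn0 n hn)
  have hhi : ∀ n, F.nrm n ≤ 2 * (2 : ℝ) ^ Nat.log 2 (Ideal.absNorm n) := fun n => by
    unfold nrm
    rw [← pow_succ']
    exact_mod_cast (Nat.lt_pow_succ_log_self (by norm_num) _).le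
  have hmaps : ∀ n ∈ N, (F.cls n, Nat.log 2 (Ideal.absNorm n)) ∈
      (univ : Finset (ClassGroup F.O)) ×ˢ range J₀ := by
    intro n hn
    refine mem_product.2 ⟨mem_univ _, mem_range.2 (Nat.lt_succ_of_le (Nat.le_floor ?_))⟩
    have h1 : (2 : ℝ) ^ Nat.log 2 (Ideal.absNorm n) ≤ K :=
      (hlo n hn).trans ((le_mul_of_one_le_right (F.nrm_nonneg n) hRp).trans (hN n hn).2.2.2)
    have h2 := Real.log_le_log (by positivity) h1
    rw [Real.log_pow] at h2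
    have h3 : (0 : ℝ) ≤ Nat.log 2 (Ideal.absNorm n) := Nat.cast_nonneg _
    nlinarith
  rw [← sum_fiberwise_of_maps_to hmaps]
  have hB : 0 ≤ C * (K ^ 2 / F.Gy y ^ 2) * √(sm m J Q (θ / K) R) := by positivity
  refine (abs_sum_le_sum_abs _ _).trans ((sum_le_card_nsmul _ _
    (C * (K ^ 2 / F.Gy y ^ 2) * √(sm m J Q (θ / K) R)) (fun p _ => ?_)).trans ?_)
  · rcases (N.filter (fun n => (F.cls n, Nat.log 2 (Ideal.absNorm n)) = p)).eq_empty_or_nonempty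
      with h | ⟨n₀, h₀⟩
    · rw [h, sum_empty, abs_zero]; exact hB
    obtain ⟨h₀, h₁⟩ := mem_filter.1 h₀
    have hs2 : √((2 : ℝ) ^ p.2) ^ 2 = 2 ^ p.2 := Real.sq_sqrt (by positivity)
    refine hP hy hR hER (s := √((2 : ℝ) ^ p.2)) ?_ ?_ hlog p.1 (fun n hn => ?_) hM hg hQ hU hm hmR
      hJ hJR α β hα hβ
    · apply Real.le_sqrt_of_sq_le
      have := (hN n₀ h₀).2.2.1.trans (hhi n₀)
      rw [← h₁, ← pow_mul]
      show R ^ 100 ≤ 2 ^ Nat.log 2 (Ideal.absNorm n₀)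
      linarith
    · rw [hs2, ← h₁]
      exact le_trans (mul_le_mul_of_nonneg_right (hlo n₀ h₀) (by positivity)) (hN n₀ h₀).2.2.2
    · obtain ⟨h2, h3⟩ := mem_filter.1 hn
      rw [hs2, ← h3]
      exact ⟨fun h => hn0 n h2 (by rw [h]; simp), rfl, (hN n h2).1, (hN n h2).2.1, hlo n h2, hhi n⟩
  · rw [nsmul_eq_mul, card_product, card_univ, card_range]
    have h1 : (J₀ : ℝ) ≤ 3 * Real.log K := by
      have := Nat.floor_le (show 0 ≤ 2 * Real.log K by linarith)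
      rw [hJ₀]; push_cast; linarith
    have h2 := F.card_cls_le
    push_cast
    calc _ ≤ F.cs * (3 * Real.log K) * (C * (K ^ 2 / F.Gy y ^ 2) * √(sm m J Q (θ / K) R)) := by
          gcongr
      _ = _ := by ring

end RQ

end Pool.Agent.Lib.MP_d48457_nt
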