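import Pool.Agent.Lib.MP_d48457_nt.PairCount

set_option autoImplicit false

namespace Pool.Agent.Lib.MP_d48457_nt

open QuadraticAlgebra Finset

/-- Dilation of a function on the integers. -/
noncomputable def dil (c : ℕ) (g : ℤ → ℝ) (k : ℤ) : ℝ := ind ((c : ℤ) ∣ k) * g (k / c)

theorem abs_dil_le {g : ℤ → ℝ} (hg : ∀ k, |g k| ≤ 1) (c : ℕ) (k : ℤ) : |dil c g k| ≤ 1 := by
  rw [dil, abs_mul, abs_of_nonneg (ind_nonneg _)]
  exact mul_le_one₀ (ind_le_one _) (abs_nonneg _) (hg _)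

theorem dil_mul {c : ℕ} (hc : c ≠ 0) (g : ℤ → ℝ) (j : ℤ) : dil c g (c * j) = g j := by
  rw [dil, ind_pos (dvd_mul_right _ _), one_mul,
    Int.mul_ediv_cancel_left _ (by exact_mod_cast hc)]

theorem Unif.dil {Q θ : ℝ} {g : ℤ → ℝ} (h : Unif Q θ g) {c : ℕ} (hc : c ≠ 0) :
    Unif Q θ (dil c g) := by
  intro q hq A H
  have hc0 : (0 : ℚ) < c := by exact_mod_cast Nat.pos_of_ne_zero hc
  have hc1 : (c : ℤ) ≠ 0 := by exact_mod_cast hc
  set A' := ⌈(A : ℚ) / c⌉ with hA'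
  set B' := ⌈((A + H : ℤ) : ℚ) / c⌉ with hB'
  have hAB : A' ≤ B' := Int.ceil_le_ceil (by
    apply div_le_div_of_nonneg_right _ hc0.le
    push_cast
    linarith [Nat.cast_nonneg (α := ℚ) H])
  have e : A' + ((B' - A').toNat : ℤ) = B' := by omega
  have hmem : ∀ j : ℤ, j ∈ Ico A' B' ↔ c * j ∈ Ico A (A + H) := by
    intro j
    rw [mem_Ico, mem_Ico, hA', hB', Int.ceil_le, Int.lt_ceil, div_le_iff₀ hc0, lt_div_iff₀ hc0,
      mul_comm (c : ℤ) j]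
    constructor
    · rintro ⟨h1, h2⟩
      exact ⟨by exact_mod_cast h1, by exact_mod_cast h2⟩
    · rintro ⟨h1, h2⟩
      exact ⟨by exact_mod_cast h1, by exact_mod_cast h2⟩
  have hden : (((c : ℚ) * q).den : ℝ) ≤ Q := by
    have h1 := Rat.mul_den_dvd (c : ℚ) q
    rw [Rat.den_natCast, one_mul] at h1
    have h2 : (((c : ℚ) * q).den : ℝ) ≤ q.den := by exact_mod_cast Nat.le_of_dvd q.den_pos h1
    exact h2.trans hq
  have h1 := h (c * q) hden A' (B' - A').toNat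
  rw [e] at h1
  refine le_trans (le_of_eq ?_) h1
  congr 1
  symm
  refine sum_of_injOn (fun j => (c : ℤ) * j) (fun a _ b _ h => mul_left_cancel₀ hc1 h)
    (fun j hj => (hmem j).1 hj) (fun k hk hk' => ?_) (fun j _ => ?_)
  · rw [MP_d48457_nt.dil, ind_neg]
    · simp
    · rintro ⟨j, rfl⟩
      exact hk' ⟨j, (hmem j).2 hk, rfl⟩
  · rw [dil_mul hc]
    congr 2
    push_cast
    ring

theorem exists_interval {p lo hi ρ : ℝ} (hp : p ≠ 0) (h1 : |lo| ≤ ρ * |p|) (h2 : |hi| ≤ ρ * |p|) :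
    ∃ u₁ u₂ : ℝ, -ρ ≤ u₁ ∧ u₂ ≤ ρ ∧ ∀ x, (lo ≤ x * p ∧ x * p ≤ hi) ↔ (u₁ ≤ x ∧ x ≤ u₂) := by
  rw [abs_le] at h1 h2
  rcases lt_or_gt_of_ne hp with h | h
  · rw [abs_of_neg h] at h1 h2
    refine ⟨hi / p, lo / p, ?_, ?_, fun x => ?_⟩
    · rw [le_div_iff_of_neg h]; linarith [h2.2]
    · rw [div_le_iff_of_neg h]; linarith [h1.1]
    · rw [div_le_iff_of_neg h, le_div_iff_of_neg h, and_comm]
  · rw [abs_of_pos h] at h1 h2
    refine ⟨lo / p, hi / p, ?_, ?_, fun x => ?_⟩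
    · rw [le_div_iff₀ h]; linarith [h1.1]
    · rw [div_le_iff₀ h]; linarith [h2.2]
    · rw [div_le_iff₀ h, le_div_iff₀ h]

namespace RQ

variable (F : RQ)

/-- The region. -/
noncomputable def Om (K : ℝ) : Finset F.O := F.box K (4 * K) (-(4 * K)) (-K)

theorem Om_bounds {K : ℝ} (hK : 0 < K) {z : F.O} (hz : z ∈ F.Om K) :
    K ≤ |F.σ₁ z| ∧ |F.σ₁ z| ≤ 4 * K ∧ K ≤ |F.σ₂ z| ∧ |F.σ₂ z| ≤ 4 * K := by
  obtain ⟨h1, h2, h3, h4⟩ := F.mem_box.1 hz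
  rw [abs_of_pos (by linarith), abs_of_neg (by linarith)]
  exact ⟨h1, h2, by linarith, by linarith⟩

theorem abs_im_le {K : ℝ} (hK : 0 < K) {z : F.O} (hz : z ∈ F.Om K) : |(z.im : ℝ)| ≤ 8 * K := by
  obtain ⟨h1, h2, h3, h4⟩ := F.mem_box.1 hz
  have h5 := F.σ_sub z
  have h6 := F.one_le_δ
  have h7 : 0 ≤ (z.im : ℝ) := by
    by_contra h
    nlinarith [not_le.1 h]
  rw [abs_of_nonneg h7]
  nlinarith

theorem exists_box_pair {K ρ : ℝ} (hK : 0 < K) {π₁ π₂ : F.O} (a1 : 4 * K ≤ ρ * |F.σ₁ π₁|)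
    (a2 : 4 * K ≤ ρ * |F.σ₂ π₁|) (a3 : 4 * K ≤ ρ * |F.σ₁ π₂|) (a4 : 4 * K ≤ ρ * |F.σ₂ π₂|) :
    ∃ a₁ a₂ b₁ b₂ : ℝ, -ρ ≤ a₁ ∧ a₂ ≤ ρ ∧ -ρ ≤ b₁ ∧ b₂ ≤ ρ ∧
      ∀ w, w ∈ F.box a₁ a₂ b₁ b₂ ↔ w * π₁ ∈ F.Om K ∧ w * π₂ ∈ F.Om K := by
  have n : ∀ {p : ℝ}, 4 * K ≤ ρ * |p| → p ≠ 0 := by
    rintro p h rfl
    simp at h
    linarith
  have b1 : ∀ {p : ℝ}, 4 * K ≤ ρ * |p| → |K| ≤ ρ * |p| ∧ |4 * K| ≤ ρ * |p| ∧
      |-(4 * K)| ≤ ρ * |p| ∧ |-K| ≤ ρ * |p| := by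
    intro p h
    rw [abs_neg, abs_neg, abs_of_pos hK, abs_of_pos (by linarith : 0 < 4 * K)]
    exact ⟨by linarith, h, h, by linarith⟩
  obtain ⟨u₁, u₂, c1, c2, c3⟩ := exists_interval (n a1) (b1 a1).1 (b1 a1).2.1
  obtain ⟨v₁, v₂, d1, d2, d3⟩ := exists_interval (n a2) (b1 a2).2.2.1 (b1 a2).2.2.2
  obtain ⟨u₃, u₄, -, -, c6⟩ := exists_interval (n a3) (b1 a3).1 (b1 a3).2.1
  obtain ⟨v₃, v₄, -, -, d6⟩ := exists_interval (n a4) (b1 a4).2.2.1 (b1 a4).2.2.2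
  refine ⟨max u₁ u₃, min u₂ u₄, max v₁ v₃, min v₂ v₄, le_max_of_le_left c1,
    min_le_of_left_le c2, le_max_of_le_left d1, min_le_of_left_le d2, fun w => ?_⟩
  simp only [Om, mem_box, map_mul, max_le_iff, le_min_iff]
  constructor
  · rintro ⟨⟨p1, p2⟩, ⟨p3, p4⟩, ⟨p5, p6⟩, p7, p8⟩
    have q1 := (c3 _).2 ⟨p1, p3⟩
    have q2 := (d3 _).2 ⟨p5, p7⟩
    have q3 := (c6 _).2 ⟨p2, p4⟩
    have q4 := (d6 _).2 ⟨p6, p8⟩
    exact ⟨⟨q1.1, q1.2, q2.1, q2.2⟩, q3.1, q3.2, q4.1, q4.2⟩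
  · rintro ⟨⟨p1, p2, p3, p4⟩, p5, p6, p7, p8⟩
    have q1 := (c3 _).1 ⟨p1, p2⟩
    have q2 := (d3 _).1 ⟨p3, p4⟩
    have q3 := (c6 _).1 ⟨p5, p6⟩
    have q4 := (d6 _).1 ⟨p7, p8⟩
    exact ⟨⟨q1.1, q3.1⟩, ⟨q1.2, q3.2⟩, ⟨q2.1, q4.1⟩, q2.2, q4.2⟩

theorem exists_compl {c : Ideal F.O} (hc : c ≠ ⊥) : ∃ b : Ideal F.O, b ≠ ⊥ ∧
    c * b = Ideal.span {((Ideal.absNorm c : ℕ) : F.O)} ∧ Ideal.absNorm b = Ideal.absNorm c := by
  obtain ⟨b, hb⟩ := F.dvd_span_iff.2 (Ideal.absNorm_mem c)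
  have h0 := F.absNorm_pos hc
  have h1 := congrArg Ideal.absNorm hb
  rw [F.absNorm_span_nat, map_mul, sq] at h1
  have h2 := (Nat.eq_of_mul_eq_mul_left h0 h1).symm
  refine ⟨b, ?_, hb.symm, h2⟩
  rintro rfl
  simp at h2
  omega

theorem fib_gen {y : ℝ} {n c b : Ideal F.O} {π : F.O}
    (hcb : c * b = Ideal.span {((Ideal.absNorm c : ℕ) : F.O)}) (hc : c ≠ ⊥)
    (hπ : Ideal.span {π} = n * c) (hr : F.rough y n) (hs : Squarefree (Ideal.absNorm n)) :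
    F.Fib y b (Ideal.absNorm c) π := by
  intro T hT
  obtain ⟨v, hv, e, he, hve, hle⟩ := F.fiber_lemma (fun P h => F.PP_prime (hT h)) hs
    (fun P hP hd => by
      obtain ⟨h1, h2⟩ := F.mem_PP.1 (hT hP)
      linarith [hr _ (F.ell_prime h1) hd])
  have h1 : v * (Ideal.absNorm c : ℕ) ∈ (∏ P ∈ T, P) * b * Ideal.span {π} := by
    have := Ideal.mul_mem_mul hv (Ideal.mem_span_singleton_self ((Ideal.absNorm c : ℕ) : F.O))
    rw [← hcb] at this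
    rw [hπ, show (∏ P ∈ T, P) * b * (n * c) = (∏ P ∈ T, P) * n * (c * b) by ring]
    exact this
  obtain ⟨v', hv', h2⟩ := Ideal.mem_mul_span_singleton.1 h1
  refine ⟨v', hv', Ideal.absNorm c * e, Nat.mul_pos (F.absNorm_pos hc) he, ?_, ?_⟩
  · rw [h2]
    simp only [im_mul, re_natCast, im_natCast, hve]
    push_cast
    ring
  · have : (e : ℝ) * F.rad T ≤ ∏ P ∈ T, F.nrm P := by
      unfold nrm; exact_mod_cast hle
    push_cast
    rw [mul_assoc]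
    exact mul_le_mul_of_nonneg_left this (Nat.cast_nonneg _)

theorem reindex {K ρ : ℝ} (hK : 0 < K) {m n c b : Ideal F.O} {π : F.O}
    (hcb : c * b = Ideal.span {((Ideal.absNorm c : ℕ) : F.O)}) (hc : c ≠ ⊥) (hn : n ≠ ⊥)
    (hπ : Ideal.span {π} = n * c) (a1 : 4 * (Ideal.absNorm c * K) ≤ ρ * |F.σ₁ π|)
    (a2 : 4 * (Ideal.absNorm c * K) ≤ ρ * |F.σ₂ π|) (g : ℤ → ℝ) :
    ∑ z ∈ F.Om K, ind (m * n = Ideal.span {z}) * g z.im
      = ∑ w ∈ F.box (-ρ) ρ (-ρ) ρ, ind (Ideal.span {w} = m * b) *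
        (ind (w * π ∈ F.Om (Ideal.absNorm c * K)) * dil (Ideal.absNorm c) g (w * π).im) := by
  classical
  set k := Ideal.absNorm c with hk
  have hk0 : 0 < k := F.absNorm_pos hc
  have hk1 : (0 : ℝ) < k := by exact_mod_cast hk0
  have hk2 : (k : F.O) ≠ 0 := by exact_mod_cast hk0.ne'
  have hnc : n * c ≠ ⊥ := mul_ne_zero hn hc
  have hπ0 : π ≠ 0 := by
    rintro rfl
    exact hnc (by rw [← hπ]; simp)
  have hOm : ∀ z : F.O, (k : F.O) * z ∈ F.Om (k * K) ↔ z ∈ F.Om K := by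
    intro z
    simp only [Om, mem_box, map_mul, map_natCast]
    constructor
    · rintro ⟨h1, h2, h3, h4⟩
      refine ⟨by nlinarith, by nlinarith, by nlinarith, by nlinarith⟩
    · rintro ⟨h1, h2, h3, h4⟩
      refine ⟨by nlinarith, by nlinarith, by nlinarith, by nlinarith⟩
  have e1 : ∑ z ∈ F.Om K, ind (m * n = Ideal.span {z}) * g z.im
      = ∑ z ∈ (F.Om K).filter (fun z => m * n = Ideal.span {z}), g z.im := by
    rw [sum_filter]
    refine sum_congr rfl (fun z _ => ?_)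
    split_ifs with h
    · rw [ind_pos h, one_mul]
    · rw [ind_neg h, zero_mul]
  have e2 : ∑ w ∈ F.box (-ρ) ρ (-ρ) ρ, ind (Ideal.span {w} = m * b) *
        (ind (w * π ∈ F.Om (k * K)) * dil k g (w * π).im)
      = ∑ w ∈ (F.box (-ρ) ρ (-ρ) ρ).filter
        (fun w => Ideal.span {w} = m * b ∧ w * π ∈ F.Om (k * K)), dil k g (w * π).im := by
    rw [sum_filter]
    refine sum_congr rfl (fun w _ => ?_)
    rw [← mul_assoc, ← ind_and]
    split_ifs with h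
    · rw [ind_pos h, one_mul]
    · rw [ind_neg h, zero_mul]
  rw [e1, e2]
  have hex : ∀ z ∈ (F.Om K).filter (fun z => m * n = Ideal.span {z}),
      ∃ w, w * π = (k : F.O) * z := by
    intro z hz
    rw [← Ideal.mem_span_singleton', ← F.dvd_span_iff, ← Ideal.span_singleton_mul_span_singleton,
      ← (mem_filter.1 hz).2, ← hcb, hπ]
    exact ⟨m * b, by ring⟩
  have hsp : ∀ w z : F.O, w * π = (k : F.O) * z →
      (Ideal.span {w} = m * b ↔ m * n = Ideal.span {z}) := by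
    intro w z h
    have h1 : Ideal.span {w} * (n * c) = c * b * Ideal.span {z} := by
      rw [← hπ, hcb, Ideal.span_singleton_mul_span_singleton,
        Ideal.span_singleton_mul_span_singleton, h]
    constructor
    · intro h2
      rw [h2] at h1
      refine mul_left_cancel₀ (a := c * b) ?_ (by rw [← h1]; ring)
      rw [hcb]
      simpa using hk0.ne'
    · intro h2
      rw [← h2] at h1
      exact mul_right_cancel₀ hnc (by rw [h1]; ring)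
  refine sum_bij (fun z hz => (hex z hz).choose) (fun z hz => ?_) (fun z hz z' hz' h => ?_)
    (fun w hw => ?_) (fun z hz => ?_)
  · have h := (hex z hz).choose_spec
    set w := (hex z hz).choose
    have h1 : w * π ∈ F.Om (k * K) := by rw [h, hOm]; exact (mem_filter.1 hz).1
    refine mem_filter.2 ⟨?_, (hsp w z h).2 (mem_filter.1 hz).2, h1⟩
    obtain ⟨-, b1, -, b2⟩ := F.Om_bounds (by positivity) h1
    rw [map_mul, abs_mul] at b1 b2
    have c1 := abs_le.1 (le_of_mul_le_mul_right (b1.trans a1) (abs_pos.2 (F.σ₁_ne_zero hπ0)))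
    have c2 := abs_le.1 (le_of_mul_le_mul_right (b2.trans a2) (abs_pos.2 (F.σ₂_ne_zero hπ0)))
    exact F.mem_box.2 ⟨c1.1, c1.2, c2.1, c2.2⟩
  · have h1 := (hex z hz).choose_spec
    have h2 := (hex z' hz').choose_spec
    rw [h, h2] at h1
    exact (mul_left_cancel₀ hk2 h1).symm
  · obtain ⟨-, h1, h2⟩ := mem_filter.1 hw
    have : w * π ∈ Ideal.span {(k : F.O)} := by
      rw [← F.dvd_span_iff, ← Ideal.span_singleton_mul_span_singleton, h1, hπ, ← hcb]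
      exact ⟨m * n, by ring⟩
    obtain ⟨z, hz⟩ := Ideal.mem_span_singleton'.1 this
    rw [mul_comm] at hz
    have hz' : z ∈ (F.Om K).filter (fun z => m * n = Ideal.span {z}) :=
      mem_filter.2 ⟨(hOm z).1 (hz ▸ h2), (hsp w z hz.symm).1 h1⟩
    refine ⟨z, hz', mul_right_cancel₀ hπ0 ?_⟩
    rw [(hex z hz').choose_spec, hz]
  · rw [(hex z hz).choose_spec]
    have : ((k : F.O) * z).im = k * z.im := by
      simp only [im_mul, re_natCast, im_natCast]; ring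
    rw [this, dil_mul hk0.ne']

/-- A constant dominating the constants of the field. -/
noncomputable def EE : ℝ := F.c0 + F.e + F.cs

theorem c0_le : F.c0 ≤ F.EE := by unfold EE; linarith [F.e_pos, F.one_le_cs]

theorem e_le : F.e ≤ F.EE := by unfold EE; linarith [F.one_le_c0, F.one_le_cs]

theorem cs_le : F.cs ≤ F.EE := by unfold EE; linarith [F.one_le_c0, F.e_pos]

theorem one_le_EE : 1 ≤ F.EE := F.one_le_c0.trans F.c0_le

theorem δ_le : F.δ ≤ F.EE := by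
  have := F.c0_le
  unfold c0 at this
  linarith [abs_nonneg (F.b : ℝ)]

theorem Gy_le {y R : ℝ} (hy : 2 ≤ y) (hR : y ^ 12 ≤ R) : F.Gy y ≤ R ^ 2 := by
  obtain ⟨hR1, hH⟩ := F.hH_of_le hy hR (subset_refl _)
  have hn := F.two_le_nrm (P' := F.PP y) (fun _ h => F.PP_prime h)
  refine le_trans (prod_le_prod (fun P hP => ?_) (fun P hP => ?_)) (prod_one_add_le hn hR1 hH 2)
  · have : 0 < F.nrm P - 1 := by linarith [hn P hP]
    positivity
  · have := hn P hP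
    gcongr 1 + ?_
    rw [div_le_div_iff₀ (by linarith) (by linarith)]
    push_cast
    linarith

theorem sum_nu_sym {y R s k : ℝ} (hy : 2 ≤ y) (hR : y ^ 12 ≤ R) (hs : R ^ 10 ≤ s)
    {c : Ideal F.O} (hc : c ≠ ⊥) (hcE : F.nrm c ≤ F.EE) (hk : 1 ≤ k) {ρ : ℝ} (hρ1 : 1 ≤ ρ)
    (hρ : ρ ≤ k * F.EE ^ 2 * s) :
    ∑ w ∈ F.box (-ρ) ρ (-ρ) ρ, ind (w ∈ c) * F.nu y R c w
      ≤ 256 * k ^ 2 * F.EE ^ 4 * s ^ 2 / F.Gy y := by
  have hR1 : 1 < R := (F.hH_of_le hy hR (empty_subset _)).1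
  have hE := F.one_le_EE
  have hG := F.one_le_Gy y
  have hG2 := F.Gy_le hy hR
  have hc0 := F.one_le_c0
  have hc1 := F.c0_le
  have hs0 : 0 < s := lt_of_lt_of_le (by positivity) hs
  refine (F.sum_nu_le hy hR hc (s := 2 * ρ) (by linarith) (by linarith) (by linarith)).trans ?_
  have h1 : 4 * ((F.box (-ρ) ρ (-ρ) ρ).card : ℝ) / F.Gy y
      ≤ 64 * k ^ 2 * F.EE ^ 4 * s ^ 2 / F.Gy y := by
    have := F.card_sym_box_le hρ1
    calc _ ≤ 4 * (16 * (k * F.EE ^ 2 * s) ^ 2) / F.Gy y := by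
          gcongr
          exact this.trans (by gcongr)
      _ = _ := by ring
  have h2 : R ^ 2 ≤ s := (pow_le_pow_right₀ hR1.le (by norm_num)).trans hs
  have h3 : 2 * ρ + F.nrm c * R ^ 2 ≤ 3 * (k * F.EE ^ 2 * s) := by
    have : F.nrm c * R ^ 2 ≤ k * F.EE ^ 2 * s := by
      have a : F.EE ≤ k * F.EE ^ 2 := by nlinarith
      exact mul_le_mul (hcE.trans a) h2 (by positivity) (by positivity)
    linarith
  have h4 : R ^ 8 ≤ k * s / F.Gy y := by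
    rw [le_div_iff₀ (by linarith)]
    calc _ ≤ R ^ 8 * R ^ 2 := by gcongr
      _ = 1 * R ^ 10 := by ring
      _ ≤ _ := by gcongr
  have h5 : 64 * F.c0 ^ 2 * (2 * ρ + F.nrm c * R ^ 2) * R ^ 8
      ≤ 64 * F.EE ^ 2 * (3 * (k * F.EE ^ 2 * s)) * (k * s / F.Gy y) := by
    have := F.nrm_nonneg c
    have : 0 ≤ 2 * ρ + F.nrm c * R ^ 2 := by positivity
    gcongr
  calc _ ≤ _ := add_le_add h1 h5
    _ = _ := by ring

end RQ

end Pool.Agent.Lib.MP_d48457_nt
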