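import Pool.Agent.Lib.MP_d48457_nt.TypeIIa

set_option autoImplicit false

namespace Pool.Agent.Lib.MP_d48457_nt

open QuadraticAlgebra Finset

namespace RQ

variable (F : RQ)

/-- Admissible generators. -/
structure Adm (y R ρ : ℝ) (c b : Ideal F.O) (π : F.O) : Prop where
  mem : π ∈ c
  rgh : ∀ P ∈ F.PP y, π ∉ P * c
  nu1 : F.nu y R c π = 1
  fib : F.Fib y b F.EE π
  l1 : ρ ≤ 2 * F.EE ^ 2 * |F.σ₁ π|
  l2 : ρ ≤ 2 * F.EE ^ 2 * |F.σ₂ π|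
  u1 : |F.σ₁ π| ≤ ρ
  u2 : |F.σ₂ π| ≤ ρ

variable {F}

theorem Adm.box {y R ρ : ℝ} {c b : Ideal F.O} {π : F.O} (h : F.Adm y R ρ c b π) :
    π ∈ F.box (-ρ) ρ (-ρ) ρ :=
  F.mem_box.2 ⟨(abs_le.1 h.u1).1, (abs_le.1 h.u1).2, (abs_le.1 h.u2).1, (abs_le.1 h.u2).2⟩

theorem Adm.exists_im {y R ρ : ℝ} {c b : Ideal F.O} {π : F.O} (h : F.Adm y R ρ c b π) :
    ∃ (w : F.O) (e : ℕ), 0 < e ∧ (e : ℝ) ≤ F.EE ∧ (w * π).im = e := by
  obtain ⟨v, -, e, h1, h2, h3⟩ := h.fib ∅ (empty_subset _)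
  exact ⟨v, e, h1, by simpa [rad] using h3, h2⟩

theorem sum_adm_le {y R ρ : ℝ} {c b : Ideal F.O} {X : Finset F.O}
    (hX : ∀ π ∈ X, F.Adm y R ρ c b π) (φ : F.O → ℝ) (hφ : ∀ π, 0 ≤ φ π) :
    ∑ π ∈ X, φ π ≤ ∑ π ∈ F.box (-ρ) ρ (-ρ) ρ, ind (π ∈ c) * F.nu y R c π * φ π := by
  calc _ = ∑ π ∈ X, ind (π ∈ c) * F.nu y R c π * φ π := sum_congr rfl (fun π h => by
        rw [ind_pos (hX π h).mem, (hX π h).nu1, one_mul, one_mul])
    _ ≤ _ := sum_le_sum_of_subset_of_nonneg (fun π h => (hX π h).box) (fun π _ _ =>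
        mul_nonneg (mul_nonneg (ind_nonneg _) (F.nu_nonneg _ _ _ _)) (hφ _))

variable (F)

theorem sum_nu_sym' {y R ρ : ℝ} (hy : 2 ≤ y) (hR : y ^ 12 ≤ R) (hρ : R ^ 10 ≤ ρ)
    {c : Ideal F.O} (hc : c ≠ ⊥) (hcE : F.nrm c ≤ F.EE) :
    ∑ w ∈ F.box (-ρ) ρ (-ρ) ρ, ind (w ∈ c) * F.nu y R c w ≤ 256 * F.EE ^ 4 * ρ ^ 2 / F.Gy y := by
  have hR1 : 1 < R := (F.hH_of_le hy hR (empty_subset _)).1
  have h1 : 1 ≤ ρ := (one_le_pow₀ hR1.le).trans hρ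
  have := F.sum_nu_sym hy hR hρ hc hcE le_rfl h1 (by
    have := one_le_pow₀ (n := 2) F.one_le_EE
    nlinarith)
  simpa using this

theorem card_adm_le {y R ρ : ℝ} (hy : 2 ≤ y) (hR : y ^ 12 ≤ R) (hρ : R ^ 10 ≤ ρ)
    {c b : Ideal F.O} (hc : c ≠ ⊥) (hcE : F.nrm c ≤ F.EE) {X : Finset F.O}
    (hX : ∀ π ∈ X, F.Adm y R ρ c b π) : (X.card : ℝ) ≤ 256 * F.EE ^ 4 * ρ ^ 2 / F.Gy y := by
  have := sum_adm_le hX (fun _ => 1) (fun _ => zero_le_one)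
  simp only [sum_const, nsmul_eq_mul, mul_one] at this
  exact this.trans (F.sum_nu_sym' hy hR hρ hc hcE)

theorem close_le {y R ρ : ℝ} (hy : 2 ≤ y) (hR : y ^ 12 ≤ R) (hρ : R ^ 11 ≤ ρ)
    {c b : Ideal F.O} (hc : c ≠ ⊥) (hcE : F.nrm c ≤ F.EE) {X : Finset F.O}
    (hX : ∀ π ∈ X, F.Adm y R ρ c b π) {π₁ : F.O} (h₁ : F.Adm y R ρ c b π₁) {m : ℕ} (hm : 0 < m)
    (hmR : (m : ℝ) ≤ R) :
    ∑ π ∈ X, ind (|(F.det π₁ π : ℝ)| < ρ ^ 2 / m) ≤ 1616 * F.EE ^ 6 * (ρ ^ 2 / F.Gy y / m) := by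
  have hR1 : 1 < R := (F.hH_of_le hy hR (empty_subset _)).1
  have hE := F.one_le_EE
  have hG := F.one_le_Gy y
  have hG2 := F.Gy_le hy hR
  have hm1 : (1 : ℝ) ≤ m := by exact_mod_cast hm
  have hρ0 : 0 < ρ := lt_of_lt_of_le (by positivity) hρ
  have hδ := F.δ_pos
  have hc0 := F.one_le_c0
  have hc1 := F.c0_le
  have hn := F.nrm_nonneg c
  refine (sum_adm_le hX _ (fun _ => ind_nonneg _)).trans ((F.count_close hy hR hρ0
    (B := 2 * F.EE ^ 2) (by nlinarith) hc h₁.l1 h₁.u2 hm).trans ?_)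
  set t := ρ / m with ht
  have ht1 : R ^ 10 ≤ t := by
    rw [ht, le_div_iff₀ (by linarith)]
    calc R ^ 10 * m ≤ R ^ 10 * R := by gcongr
      _ = R ^ 11 := by ring
      _ ≤ _ := hρ
  have ht2 : R ^ 2 ≤ t := (pow_le_pow_right₀ hR1.le (by norm_num)).trans ht1
  have ht3 : 1 ≤ t := (one_le_pow₀ hR1.le).trans ht1
  have hE3 : F.EE ≤ F.EE ^ 3 := le_self_pow₀ hE (by norm_num)
  have h1 : 2 * (2 * F.EE ^ 2) * (2 + F.δ) * ρ / m ≤ 12 * (F.EE ^ 3 * t) := by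
    have : 2 + F.δ ≤ 3 * F.EE := by linarith [F.δ_le]
    calc _ ≤ 2 * (2 * F.EE ^ 2) * (3 * F.EE) * ρ / m := by gcongr
      _ = _ := by rw [ht]; ring
  have h2 : 1 ≤ F.EE ^ 3 * t := one_le_mul_of_one_le_of_one_le (by linarith) ht3
  have h3 : F.nrm c * R ^ 2 ≤ F.EE ^ 3 * t := mul_le_mul (by linarith) ht2 (by positivity)
    (by positivity)
  have h4 : R ^ 8 ≤ t / F.Gy y := by
    rw [le_div_iff₀ (by linarith)]
    calc _ ≤ R ^ 8 * R ^ 2 := by gcongr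
      _ = R ^ 10 := by ring
      _ ≤ _ := ht1
  have h5 : F.c0 ^ 2 ≤ F.EE ^ 3 :=
    (pow_le_pow_left₀ (by linarith) hc1 2).trans (pow_le_pow_right₀ hE (by norm_num))
  calc _ ≤ m * (4 * (14 * (F.EE ^ 3 * t)) ^ 2 / F.Gy y
        + 64 * F.EE ^ 3 * (13 * (F.EE ^ 3 * t)) * (t / F.Gy y)) := by
        gcongr
        · linarith
        · linarith
    _ = _ := by rw [ht]; field_simp; ring

theorem Zsmall_le : ∃ C : ℝ, 0 < C ∧ ∀ {y R ρ : ℝ}, 2 ≤ y → y ^ 12 ≤ R → F.EE ≤ R → R ^ 35 ≤ ρ →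
    ∀ {c b : Ideal F.O}, c ≠ ⊥ → F.nrm c ≤ F.EE → b ≠ ⊥ → F.nrm b ≤ F.EE →
    ∀ {X : Finset F.O}, (∀ π ∈ X, F.Adm y R ρ c b π) → ∀ {π₁ : F.O}, F.Adm y R ρ c b π₁ →
    ∀ d : ℕ, d ≠ 0 → d ≤ R ^ 25 →
    ∑ π ∈ X, F.ZZ y R (Ideal.absNorm b) F.EE d (F.det π₁ π)
      ≤ C * (ρ ^ 2 / F.Gy y ^ 2) / √(√d) := by
  obtain ⟨C, hC, hW⟩ := F.WW_le
  have hE := F.one_le_EE
  refine ⟨256 * F.EE ^ 5 * C, by positivity, ?_⟩
  intro y R ρ hy hR hER hρ c b hc hcE hb hbE X hX π₁ h₁ d hd hdR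
  have hR1 : 1 < R := (F.hH_of_le hy hR (empty_subset _)).1
  have hG := F.one_le_Gy y
  have hG2 := F.Gy_le hy hR
  have hρ1 : 1 ≤ ρ := (one_le_pow₀ hR1.le).trans hρ
  have hc0 := F.one_le_c0
  have hc1 := F.c0_le
  have hn := F.nrm_nonneg c
  have hd0 : (0 : ℝ) < d := by exact_mod_cast Nat.pos_of_ne_zero hd
  obtain ⟨w, e, he, heE, hw⟩ := h₁.exists_im
  have key := F.sum_ZZ_le y R (F.absNorm_pos hb).ne' (c' := F.EE) (by linarith) hd X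
    (fun π => F.det π₁ π) (B := 4 ^ d.primeFactors.card * (256 * F.EE ^ 2 * ρ ^ 2 / F.Gy y))
    (by positivity) (fun q hq => by
      have hq0 : q ≠ 0 := by rintro rfl; exact hd (zero_dvd_iff.1 hq)
      have hq1 : (1 : ℝ) ≤ q := by exact_mod_cast Nat.pos_of_ne_zero hq0
      have hq2 : (q : ℝ) ≤ R ^ 25 :=
        le_trans (by exact_mod_cast Nat.le_of_dvd (Nat.pos_of_ne_zero hd) hq) hdR
      refine (sum_ind_le_of_subset _ _ (fun π h h' =>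
        ⟨(hX π h).box, ⟨(hX π h).mem, (hX π h).rgh⟩, h'⟩)).trans
        ((F.count_dvd_sieve hy hR hρ1 hc he hw hq0).trans ?_)
      have h1 : (4 : ℝ) ^ q.primeFactors.card ≤ 4 ^ d.primeFactors.card :=
        pow_le_pow_right₀ (by norm_num) (card_le_card (Nat.primeFactors_mono hq hd))
      have h2 : (1 : ℝ) ≤ 4 ^ d.primeFactors.card := one_le_pow₀ (by norm_num)
      have h3 : F.nrm c * q * R ^ 2 ≤ ρ := by
        calc _ ≤ R * R ^ 25 * R ^ 2 := by gcongr; linarith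
          _ = R ^ 28 := by ring
          _ ≤ R ^ 35 := pow_le_pow_right₀ hR1.le (by norm_num)
          _ ≤ _ := hρ
      have h4 : R ^ 8 ≤ ρ / F.Gy y / q := by
        rw [le_div_iff₀ (by linarith), le_div_iff₀ (by linarith)]
        calc _ ≤ R ^ 8 * R ^ 25 * R ^ 2 := by gcongr
          _ = R ^ 35 := by ring
          _ ≤ _ := hρ
      have h5 : (e : ℝ) ≤ F.EE ^ 2 := heE.trans (le_self_pow₀ hE (by norm_num))
      calc _ ≤ 4 ^ d.primeFactors.card * (64 * F.EE ^ 2 * ρ ^ 2 / F.Gy y) / q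
            + 4 ^ d.primeFactors.card * (64 * F.EE ^ 2 * (3 * ρ) * (ρ / F.Gy y / q)) := by
            refine add_le_add (by gcongr) (le_trans ?_ (le_mul_of_one_le_left (by positivity) h2))
            gcongr
            linarith
        _ = _ := by ring)
  refine key.trans ?_
  have h6 : √F.EE ≤ F.EE := by
    rw [Real.sqrt_le_left (by linarith)]
    exact le_self_pow₀ hE (by norm_num)
  have h7 := hW y R hy hR d hd
  have hW0 : 0 ≤ F.WW y R d := sum_nonneg (fun T _ => mul_nonneg (abs_nonneg _)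
    (mul_nonneg (mul_nonneg (div_nonneg (F.prod_nrm_nonneg T) (Nat.cast_nonneg _))
      (Real.sqrt_nonneg _)) (Nat.cast_nonneg _)))
  have hbE' : (Ideal.absNorm b : ℝ) ≤ F.EE := hbE
  calc _ = F.EE * √F.EE * (Ideal.absNorm b : ℝ) * (256 * F.EE ^ 2 * ρ ^ 2 / F.Gy y) *
        (4 ^ d.primeFactors.card * F.WW y R d / d) := by ring
    _ ≤ F.EE * F.EE * F.EE * (256 * F.EE ^ 2 * ρ ^ 2 / F.Gy y) * (C / (F.Gy y * √(√d))) := by
        gcongr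
    _ = _ := by
        have : 0 < √(√(d : ℝ)) := Real.sqrt_pos.2 (Real.sqrt_pos.2 hd0)
        field_simp

theorem Zlarge_le {y R ρ : ℝ} (hy : 2 ≤ y) (hR : y ^ 12 ≤ R) (hρ : 0 < ρ)
    {c b : Ideal F.O} (hb : b ≠ ⊥) (hbE : F.nrm b ≤ F.EE)
    {X : Finset F.O} (hX : ∀ π ∈ X, F.Adm y R ρ c b π) {π₁ : F.O} (h₁ : F.Adm y R ρ c b π₁)
    (hdet : ∀ π ∈ X, F.det π₁ π ≠ 0) (d : ℕ) (hd : d ≠ 0) :
    ∑ π ∈ X, F.ZZ y R (Ideal.absNorm b) F.EE d (F.det π₁ π)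
      ≤ 144 * F.EE ^ 6 * ρ ^ 2 * R ^ 12 / d := by
  have hE := F.one_le_EE
  have hd0 : (0 : ℝ) < d := by exact_mod_cast Nat.pos_of_ne_zero hd
  obtain ⟨w, e, he, heE, hw⟩ := h₁.exists_im
  have key := F.sum_ZZ_le y R (F.absNorm_pos hb).ne' (c' := F.EE) (by linarith) hd X
    (fun π => F.det π₁ π) (B := 36 * F.EE ^ 3 * ρ ^ 2)
    (by positivity) (fun q hq => by
      have hq0 : q ≠ 0 := by rintro rfl; exact hd (zero_dvd_iff.1 hq)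
      refine (sum_ind_le_of_subset _ _ (fun π h h' => ⟨(hX π h).box, hdet π h, h'⟩)).trans
        ((F.count_dvd_crude hρ he heE hw h₁.l1 h₁.u1 h₁.u2 hq0).trans ?_)
      have : 1 ≤ F.EE ^ 3 := one_le_pow₀ hE
      calc _ ≤ (9 * F.EE ^ 3) * (4 * ρ ^ 2) / q := by gcongr; linarith
        _ = _ := by ring)
  refine key.trans ?_
  have h6 : √F.EE ≤ F.EE := by
    rw [Real.sqrt_le_left (by linarith)]
    exact le_self_pow₀ hE (by norm_num)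
  have h7 := F.WW_le_crude hy hR d
  have hW0 : 0 ≤ F.WW y R d := sum_nonneg (fun T _ => mul_nonneg (abs_nonneg _)
    (mul_nonneg (mul_nonneg (div_nonneg (F.prod_nrm_nonneg T) (Nat.cast_nonneg _))
      (Real.sqrt_nonneg _)) (Nat.cast_nonneg _)))
  have hbE' : (Ideal.absNorm b : ℝ) ≤ F.EE := hbE
  calc _ ≤ F.EE * F.EE * F.EE * (36 * F.EE ^ 3 * ρ ^ 2) / d * (4 * R ^ 12) := by gcongr
    _ = _ := by ring

theorem rim_le {y R ρ τ Δ : ℝ} (hy : 2 ≤ y) (hR : y ^ 12 ≤ R) (hER : F.EE ≤ R) (hρ : 0 < ρ)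
    (hτ : R ^ 11 ≤ τ) {b : Ideal F.O} (hbE : F.nrm b ≤ F.EE) {m J H : ℝ} (hm : 1 ≤ m)
    (hJ : 1 ≤ J) (hJR : J ≤ R) (hH0 : 0 ≤ H) (hH : H ≤ 2 * (ρ * τ) / J) (hΔ : ρ ^ 2 / m ≤ Δ) :
    4 * (4 * ((2 * H * ρ / Δ + 2) * (2 * τ + 2)) / F.Gy y
        + 64 * F.c0 ^ 2 * (2 * τ + 2 * H * ρ / Δ + F.nrm b * R ^ 2) * R ^ 8)
      ≤ 2176 * F.EE ^ 2 * (τ ^ 2 / F.Gy y * (m / J)) := by
  have hR1 : 1 < R := (F.hH_of_le hy hR (empty_subset _)).1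
  have hE := F.one_le_EE
  have hG := F.one_le_Gy y
  have hG2 := F.Gy_le hy hR
  have hc0 := F.one_le_c0
  have hc1 := F.c0_le
  have hn := F.nrm_nonneg b
  have hτ1 : 1 ≤ τ := (one_le_pow₀ hR1.le).trans hτ
  have hτ3 : R ^ 3 ≤ τ := (pow_le_pow_right₀ hR1.le (by norm_num)).trans hτ
  have hτJ : J ≤ τ := hJR.trans ((le_self_pow₀ hR1.le (by norm_num)).trans hτ3)
  have h0 : 0 < ρ ^ 2 / m := by positivity
  have hΔ0 : 0 < Δ := h0.trans_le hΔ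
  have h1 : 2 * H * ρ / Δ ≤ 4 * (m * τ / J) := by
    calc _ ≤ 2 * (2 * (ρ * τ) / J) * ρ / (ρ ^ 2 / m) := by gcongr
      _ = _ := by field_simp; ring
  have h2 : 1 ≤ m * τ / J := by
    rw [le_div_iff₀ (by linarith)]; nlinarith
  have h3 : m * τ / J ≤ m * τ := div_le_self (by positivity) hJ
  have h4 : τ ≤ m * τ := le_mul_of_one_le_left (by linarith) hm
  have h5 : F.nrm b * R ^ 2 ≤ τ := by
    calc _ ≤ R * R ^ 2 := by gcongr; linarith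
      _ = R ^ 3 := by ring
      _ ≤ _ := hτ3
  have h6 : R ^ 8 ≤ τ / F.Gy y / J := by
    rw [le_div_iff₀ (by linarith), le_div_iff₀ (by linarith)]
    calc _ ≤ R ^ 8 * R * R ^ 2 := by gcongr
      _ = R ^ 11 := by ring
      _ ≤ _ := hτ
  have h7 : (1 : ℝ) ≤ F.EE ^ 2 := one_le_pow₀ hE
  calc _ ≤ 4 * (F.EE ^ 2 * (4 * ((6 * (m * τ / J)) * (4 * τ)) / F.Gy y)
        + 64 * F.EE ^ 2 * (7 * (m * τ)) * (τ / F.Gy y / J)) := by
        refine mul_le_mul_of_nonneg_left (add_le_add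
          (le_trans ?_ (le_mul_of_one_le_left (by positivity) h7)) ?_) (by norm_num)
        · gcongr
          · linarith
          · linarith
        · gcongr
          linarith
    _ = _ := by ring

end RQ

end Pool.Agent.Lib.MP_d48457_nt
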