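import Pool.Agent.Lib.MP_d48457_nt.TypeIIb

set_option autoImplicit false

namespace Pool.Agent.Lib.MP_d48457_nt

open QuadraticAlgebra Finset

namespace RQ

variable (F : RQ)

theorem four_le : ∃ C : ℝ, 0 < C ∧ ∀ {y R ρ L : ℝ}, 2 ≤ y → y ^ 12 ≤ R → F.EE ≤ R → R ^ 50 ≤ ρ →
    Real.log ρ ≤ R → ρ ^ 2 * R ^ 100 ≤ L →
    ∀ {c b : Ideal F.O}, c ≠ ⊥ → F.nrm c ≤ F.EE → b ≠ ⊥ → F.nrm b ≤ F.EE →
    ∀ {X : Finset F.O}, (∀ π ∈ X, F.Adm y R ρ c b π) → ∀ {π₁ : F.O}, F.Adm y R ρ c b π₁ →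
    (∀ π ∈ X, F.det π₁ π ≠ 0) → ∀ {g : ℤ → ℝ}, (∀ k, |g k| ≤ 1) → ∀ {Q θ : ℝ}, 1 ≤ Q →
    Unif Q θ g → ∀ {m : ℝ} {J H : ℕ}, 1 ≤ m → m ≤ R → 1 ≤ J → (J : ℝ) ≤ R → L / J ≤ H →
    H ≤ 2 * L / J →
    (2 * J + 1) * m / ρ ^ 2 * ∑ π ∈ X, AA g H J (2 * R ^ 3 * ρ ^ 2)
        (fun d => F.ZZ y R (Ideal.absNorm b) F.EE d (F.det π₁ π))
      ≤ C * (L ^ 2 / F.Gy y ^ 2) * (m / √(√Q) + m * J ^ 2 * Q ^ 2 * (θ / L) ^ 2 + 1 / R) := by
  obtain ⟨C, hC, hZ⟩ := F.Zsmall_le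
  have hE := F.one_le_EE
  refine ⟨108 * C + 10 ^ 8 * F.EE ^ 6, by positivity, ?_⟩
  intro y R ρ L hy hR hER hρ hlog hL c b hc hcE hb hbE X hX π₁ h₁ hdet g hg Q θ hQ hU m J H hm hmR
    hJ hJR hH1 hH2
  have hR1 : 1 < R := (F.hH_of_le hy hR (empty_subset _)).1
  have hG := F.one_le_Gy y
  have hG2 := F.Gy_le hy hR
  have hρ1 : 1 ≤ ρ := (one_le_pow₀ hR1.le).trans hρ
  have hJ1 : (1 : ℝ) ≤ J := by exact_mod_cast hJ
  have hR0 : 0 < R := by linarith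
  have hL0 : 0 < L := lt_of_lt_of_le (by positivity) hL
  have hD1 : 1 ≤ 2 * R ^ 3 * ρ ^ 2 := by
    have := one_le_mul_of_one_le_of_one_le (one_le_pow₀ (n := 3) hR1.le) (one_le_pow₀ (n := 2) hρ1)
    linarith
  rw [sum_AA]
  have key := AA_le hg hU hQ (D₀ := R ^ 25) (one_le_pow₀ hR1.le) hD1
    (B₁ := C * (ρ ^ 2 / F.Gy y ^ 2)) (B₂ := 144 * F.EE ^ 6 * ρ ^ 2 * R ^ 12) (by positivity)
    (by positivity) H J (fun d => ∑ π ∈ X, F.ZZ y R (Ideal.absNorm b) F.EE d (F.det π₁ π))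
    (fun d hd hd' => hZ hy hR hER ((pow_le_pow_right₀ hR1.le (by norm_num)).trans hρ) hc hcE hb
      hbE hX h₁ d hd hd')
    (fun d hd => F.Zlarge_le hy hR (by linarith) hb hbE hX h₁ hdet d (by
      rintro rfl
      simp only [Nat.cast_zero] at hd
      linarith [pow_pos hR0 25]))
  refine (mul_le_mul_of_nonneg_left key (by positivity)).trans ?_
  set D := 2 * R ^ 3 * ρ ^ 2 with hD
  have hlD : Real.log D ≤ 6 * R := by
    rw [hD, Real.log_mul (by positivity) (by positivity), Real.log_mul (by positivity)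
      (by positivity), Real.log_pow, Real.log_pow]
    have h1 := Real.log_le_sub_one_of_pos hR0
    have h2 := Real.log_le_sub_one_of_pos (show (0 : ℝ) < 2 by norm_num)
    push_cast
    linarith
  have hlD0 : 0 ≤ Real.log D := Real.log_nonneg hD1
  have hH3 : ρ ^ 2 * R ^ 99 ≤ H := by
    refine le_trans ?_ hH1
    rw [le_div_iff₀ (by linarith)]
    calc _ ≤ ρ ^ 2 * R ^ 99 * R := by gcongr
      _ = ρ ^ 2 * R ^ 100 := by ring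
      _ ≤ _ := hL
  have hH4 : (R ^ 25) ^ 3 ≤ H := by
    refine le_trans ?_ hH3
    calc (R ^ 25) ^ 3 = 1 * R ^ 75 := by ring
      _ ≤ ρ ^ 2 * R ^ 99 := mul_le_mul (one_le_pow₀ hρ1) (pow_le_pow_right₀ hR1.le (by norm_num))
          (by positivity) (by positivity)
  have hH5 : 4 * D * (3 + 2 * Real.log D) ≤ 120 * (H / R ^ 25) := by
    have : R ^ 4 * ρ ^ 2 ≤ H / R ^ 25 := by
      rw [le_div_iff₀ (by positivity)]
      refine le_trans ?_ hH3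
      calc R ^ 4 * ρ ^ 2 * R ^ 25 = ρ ^ 2 * R ^ 29 := by ring
        _ ≤ _ := by gcongr; exacts [hR1.le, by norm_num]
    calc _ ≤ 4 * D * (15 * R) := by gcongr; linarith
      _ = 120 * (R ^ 4 * ρ ^ 2) := by rw [hD]; ring
      _ ≤ _ := by gcongr
  have hQ0 : 0 < √(√Q) := Real.sqrt_pos.2 (Real.sqrt_pos.2 (by linarith))
  have hJH : (J : ℝ) * H ≤ 2 * L := by
    rw [le_div_iff₀ (by linarith)] at hH2; linarith
  have hH0 : (0 : ℝ) ≤ H := Nat.cast_nonneg _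
  have hJH2 : (J : ℝ) ^ 2 * H ^ 2 ≤ 4 * L ^ 2 := by
    calc _ = ((J : ℝ) * H) ^ 2 := by ring
      _ ≤ (2 * L) ^ 2 := by gcongr
      _ = _ := by ring
  have h8 : m / R ^ 12 ≤ 1 / F.Gy y ^ 2 * (1 / R) := by
    rw [div_mul_div_comm, one_mul, div_le_div_iff₀ (by positivity) (by positivity), one_mul]
    calc _ ≤ R * ((R ^ 2) ^ 2 * R) := by gcongr
      _ = R ^ 6 := by ring
      _ ≤ _ := pow_le_pow_right₀ hR1.le (by norm_num)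
  calc _ ≤ (3 * J) * m / ρ ^ 2 * ((3 * J) * (C * (ρ ^ 2 / F.Gy y ^ 2) *
          (4 * Q ^ 2 * θ ^ 2 + (3 * H) * H / √(√Q)) + 144 * F.EE ^ 6 * ρ ^ 2 * R ^ 12 *
          ((13 * R) * ((121 * (H / R ^ 25)) * H)))) := by
        gcongr <;> linarith
    _ = C / F.Gy y ^ 2 * (36 * (m * J ^ 2 * Q ^ 2 * θ ^ 2) + 27 * (J ^ 2 * H ^ 2) * (m / √(√Q)))
          + 2038608 * F.EE ^ 6 * (J ^ 2 * H ^ 2) * (m / R ^ 12) := by
        field_simp; ring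
    _ ≤ C / F.Gy y ^ 2 * (36 * (m * J ^ 2 * Q ^ 2 * θ ^ 2) + 27 * (4 * L ^ 2) * (m / √(√Q)))
          + 2038608 * F.EE ^ 6 * (4 * L ^ 2) * (1 / F.Gy y ^ 2 * (1 / R)) := by gcongr
    _ = (L ^ 2 / F.Gy y ^ 2) * (108 * C * (m / √(√Q)) + 36 * C * (m * J ^ 2 * Q ^ 2 * (θ / L) ^ 2)
          + 8154432 * F.EE ^ 6 * (1 / R)) := by field_simp; ring
    _ ≤ (L ^ 2 / F.Gy y ^ 2) * ((108 * C + 10 ^ 8 * F.EE ^ 6) * (m / √(√Q))
          + (108 * C + 10 ^ 8 * F.EE ^ 6) * (m * J ^ 2 * Q ^ 2 * (θ / L) ^ 2)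
          + (108 * C + 10 ^ 8 * F.EE ^ 6) * (1 / R)) := by
        have : 0 < F.EE ^ 6 := by positivity
        gcongr <;> linarith
    _ = _ := by ring

/-- The small quantity of the bilinear estimate. -/
noncomputable def _root_.Pool.Agent.Lib.MP_d48457_nt.sm (m J Q t R : ℝ) : ℝ :=
  1 / m + m / J + (m / √(√Q) + m * J ^ 2 * Q ^ 2 * t ^ 2 + 1 / R)

theorem pair_sum_le : ∃ C : ℝ, 0 < C ∧ ∀ {y R ρ τ K : ℝ}, 2 ≤ y → y ^ 12 ≤ R → F.EE ≤ R →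
    R ^ 50 ≤ ρ → Real.log ρ ≤ R → ρ * R ^ 100 ≤ τ → 0 < K → 8 * F.EE ^ 2 * K ≤ ρ * τ →
    ∀ {c b : Ideal F.O}, c ≠ ⊥ → F.nrm c ≤ F.EE → b ≠ ⊥ → F.nrm b ≤ F.EE →
    ∀ {X : Finset F.O}, (∀ π ∈ X, F.Adm y R ρ c b π) → ∀ {π₁ : F.O}, F.Adm y R ρ c b π₁ →
    ∀ {g : ℤ → ℝ}, (∀ k, |g k| ≤ 1) → ∀ {Q θ : ℝ}, 1 ≤ Q →
    Unif Q θ g → ∀ {m J : ℕ}, 1 ≤ m → (m : ℝ) ≤ R → 1 ≤ J → (J : ℝ) ≤ R →
    ∑ π ∈ X, |∑ w ∈ F.box (-τ) τ (-τ) τ, ind (w ∈ b) * F.nu y R b w *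
        ((ind (w * π₁ ∈ F.Om K) * g (w * π₁).im) * (ind (w * π ∈ F.Om K) * g (w * π).im))|
      ≤ C * ((ρ * τ) ^ 2 / F.Gy y ^ 2) * sm m J Q (θ / (ρ * τ)) R := by
  classical
  obtain ⟨C, hC, hF⟩ := F.four_le
  have hE := F.one_le_EE
  refine ⟨C + 10 ^ 6 * F.EE ^ 10, by positivity, ?_⟩
  intro y R ρ τ K hy hR hER hρ hlog hτ hK hL c b hc hcE hb hbE X hX π₁ h₁ g hg Q θ hQ hU m J hm
    hmR hJ hJR
  have hR1 : 1 < R := (F.hH_of_le hy hR (empty_subset _)).1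
  have hG := F.one_le_Gy y
  have hρ1 : 1 ≤ ρ := (one_le_pow₀ hR1.le).trans hρ
  have hJ1 : (1 : ℝ) ≤ J := by exact_mod_cast hJ
  have hm1 : (1 : ℝ) ≤ m := by exact_mod_cast hm
  have hτ2 : R ^ 100 ≤ τ := (le_mul_of_one_le_left (by positivity) hρ1).trans hτ
  have hτ3 : R ^ 11 ≤ τ := (pow_le_pow_right₀ hR1.le (by norm_num)).trans hτ2
  have hτ1 : 1 ≤ τ := (one_le_pow₀ hR1.le).trans hτ2
  have hLJ : (J : ℝ) ≤ ρ * τ := hJR.trans ((le_self_pow₀ hR1.le (by norm_num)).trans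
    (hτ2.trans (le_mul_of_one_le_left (by linarith) hρ1)))
  set H := ⌈ρ * τ / J⌉₊ with hHdef
  have hH1 : ρ * τ / J ≤ H := Nat.le_ceil _
  have hH0 : 1 ≤ ρ * τ / J := by rw [le_div_iff₀ (by linarith)]; linarith
  have hH2 : (H : ℝ) ≤ 2 * (ρ * τ) / J := by
    have := Nat.ceil_lt_add_one (show 0 ≤ ρ * τ / J by linarith)
    rw [mul_div_assoc]
    linarith
  have hHpos : 0 < H := by
    have : (0 : ℝ) < H := by linarith
    exact_mod_cast this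
  let f : F.O → ℝ := fun w => ind (w ∈ b) * F.nu y R b w
  have hf0 : ∀ w, 0 ≤ f w := fun w => mul_nonneg (ind_nonneg _) (F.nu_nonneg _ _ _ _)
  have hFs : ∑ w ∈ F.box (-τ) τ (-τ) τ, f w ≤ 256 * F.EE ^ 4 * τ ^ 2 / F.Gy y :=
    F.sum_nu_sym' hy hR ((pow_le_pow_right₀ hR1.le (by norm_num)).trans hτ2) hb hbE
  have hφ : ∀ z : F.O, |ind (z ∈ F.Om K) * g z.im| ≤ 1 := fun z => by
    rw [abs_mul, abs_of_nonneg (ind_nonneg _)]
    exact mul_le_one₀ (ind_le_one _) (abs_nonneg _) (hg _)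
  set rim := 2176 * F.EE ^ 2 * (τ ^ 2 / F.Gy y * (m / J)) with hrim
  have hrim0 : 0 ≤ rim := by positivity
  let A : F.O → ℝ := fun π => AA g H J (2 * R ^ 3 * ρ ^ 2)
    (fun d => F.ZZ y R (Ideal.absNorm b) F.EE d (F.det π₁ π))
  have hA0 : ∀ π, 0 ≤ A π := fun π => AA_nonneg _ _ _ _ (fun d => F.ZZ_nonneg _ _ _ (by linarith) _ _)
  have hsz : ∀ {p : ℝ}, ρ ≤ 2 * F.EE ^ 2 * |p| → 4 * K ≤ τ * |p| := by
    intro p hp
    have h1 : ρ * τ ≤ 2 * F.EE ^ 2 * |p| * τ := by gcongr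
    have h2 : 2 * F.EE ^ 2 * (4 * K) ≤ 2 * F.EE ^ 2 * (τ * |p|) := by linarith
    exact le_of_mul_le_mul_left h2 (by positivity)
  have hpt : ∀ π ∈ X, |∑ w ∈ F.box (-τ) τ (-τ) τ, f w *
        ((ind (w * π₁ ∈ F.Om K) * g (w * π₁).im) * (ind (w * π ∈ F.Om K) * g (w * π).im))|
      ≤ ind (|(F.det π₁ π : ℝ)| < ρ ^ 2 / m) * (256 * F.EE ^ 4 * τ ^ 2 / F.Gy y) + rim
        + (2 * J + 1) * m / ρ ^ 2 * (ind (F.det π₁ π ≠ 0) * A π) := by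
    intro π hπ
    have h₂ := hX π hπ
    rcases lt_or_ge (|(F.det π₁ π : ℝ)|) (ρ ^ 2 / m) with hlt | hge
    · rw [ind_pos hlt, one_mul]
      have := hA0 π
      have := ind_nonneg (F.det π₁ π ≠ 0)
      refine le_trans ?_ (le_add_of_nonneg_right (by positivity))
      refine le_trans ?_ (le_add_of_nonneg_right hrim0)
      refine (abs_sum_le_sum_abs _ _).trans (le_trans (sum_le_sum (fun w _ => ?_)) hFs)
      rw [abs_mul, abs_of_nonneg (hf0 w), abs_mul]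
      exact mul_le_of_le_one_right (hf0 w) (mul_le_one₀ (hφ _) (abs_nonneg _) (hφ _))
    · have hΔ0 : (0 : ℝ) < |(F.det π₁ π : ℝ)| := lt_of_lt_of_le (by positivity) hge
      have hdet : F.det π₁ π ≠ 0 := by
        intro h; rw [h] at hΔ0; simp at hΔ0
      rw [ind_neg (not_lt.2 hge), ind_pos hdet, zero_mul, zero_add, one_mul]
      obtain ⟨a₁, a₂, b₁, b₂, c1, c2, c3, c4, hbox⟩ := F.exists_box_pair hK (hsz h₁.l1) (hsz h₁.l2)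
        (hsz h₂.l1) (hsz h₂.l2)
      have e1 : ∑ w ∈ F.box (-τ) τ (-τ) τ, f w *
          ((ind (w * π₁ ∈ F.Om K) * g (w * π₁).im) * (ind (w * π ∈ F.Om K) * g (w * π).im))
          = ∑ w ∈ F.box a₁ a₂ b₁ b₂, f w * (g (w * π₁).im * g (w * π).im) := by
        symm
        refine sum_subset_zero_on_sdiff (fun w hw => ?_) (fun w hw => ?_) (fun w hw => ?_)
        · obtain ⟨d1, d2, d3, d4⟩ := F.mem_box.1 hw
          exact F.mem_box.2 ⟨by linarith, by linarith, by linarith, by linarith⟩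
        · have := (mem_sdiff.1 hw).2
          rw [hbox, not_and_or] at this
          rcases this with h | h <;> rw [ind_neg h] <;> simp
        · rw [ind_pos ((hbox w).1 hw).1, ind_pos ((hbox w).1 hw).2, one_mul, one_mul]
      rw [e1]
      have him : ∀ z ∈ F.Om K, |z.im| ≤ J * H := by
        intro z hz
        have h1 := F.abs_im_le hK hz
        have h2 : ρ * τ ≤ J * H := by
          rw [div_le_iff₀ (by linarith)] at hH1; linarith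
        have h3 : 8 * K ≤ 8 * F.EE ^ 2 * K := by
          have := one_le_pow₀ (n := 2) hE
          nlinarith
        have h4 : |(z.im : ℝ)| ≤ J * H := by linarith
        exact_mod_cast h4
      have hD : Ideal.absNorm b * R ^ 2 * |(F.det π₁ π : ℝ)| ≤ 2 * R ^ 3 * ρ ^ 2 := by
        have h1 : (Ideal.absNorm b : ℝ) ≤ R := hbE.trans hER
        calc _ ≤ R * R ^ 2 * (2 * ρ ^ 2) := by
              gcongr; exact F.abs_det_le h₁.u1 h₁.u2 h₂.u1 h₂.u2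
          _ = _ := by ring
      refine (F.box_pair_bound hy hR (by linarith) one_pos hb hdet h₁.fib h₂.fib hD h₁.u1 h₁.u2
        h₂.u1 h₂.u2 g g hg hg hHpos (s₀ := 2 * τ) (by linarith) (by linarith) (by linarith)
        (fun w hw => ⟨him _ ((hbox w).1 hw).1, him _ ((hbox w).1 hw).2⟩)).trans (add_le_add
          (F.rim_le hy hR hER (by linarith) hτ3 hbE hm1 hJ1 hJR (Nat.cast_nonneg _) hH2 hge) ?_)
      have := hA0 π
      calc _ = (2 * J + 1) / |(F.det π₁ π : ℝ)| * A π := by simp only [A]; field_simp; ring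
        _ ≤ (2 * J + 1) / (ρ ^ 2 / m) * A π := by gcongr
        _ = _ := by field_simp
  refine (sum_le_sum hpt).trans ?_
  rw [sum_add_distrib, sum_add_distrib, ← sum_mul, sum_const, nsmul_eq_mul, ← mul_sum]
  have k1 := F.close_le hy hR ((pow_le_pow_right₀ hR1.le (by norm_num)).trans hρ) hc hcE hX h₁ hm hmR
  have k2 := F.card_adm_le hy hR ((pow_le_pow_right₀ hR1.le (by norm_num)).trans hρ) hc hcE hX
  have k3 := hF hy hR hER hρ hlog (L := ρ * τ) (by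
      calc ρ ^ 2 * R ^ 100 = ρ * (ρ * R ^ 100) := by ring
        _ ≤ _ := by gcongr) hc hcE hb hbE (X := X.filter (fun π => F.det π₁ π ≠ 0))
    (fun π h => hX π (mem_filter.1 h).1) h₁ (fun π h => (mem_filter.1 h).2) hg hQ hU hm1 hmR hJ hJR
    hH1 hH2
  have e2 : ∑ π ∈ X, ind (F.det π₁ π ≠ 0) * A π = ∑ π ∈ X.filter (fun π => F.det π₁ π ≠ 0), A π := by
    rw [sum_filter]
    refine sum_congr rfl (fun π _ => ?_)
    split_ifs with h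
    · rw [ind_pos h, one_mul]
    · rw [ind_neg h, zero_mul]
  rw [e2]
  have hQ0 : 0 < √(√Q) := Real.sqrt_pos.2 (Real.sqrt_pos.2 (by linarith))
  have h6 : F.EE ^ 6 ≤ F.EE ^ 10 := pow_le_pow_right₀ hE (by norm_num)
  have h10 : 0 < F.EE ^ 10 := by positivity
  calc _ ≤ 1616 * F.EE ^ 6 * (ρ ^ 2 / F.Gy y / m) * (256 * F.EE ^ 4 * τ ^ 2 / F.Gy y)
        + 256 * F.EE ^ 4 * ρ ^ 2 / F.Gy y * rim + C * ((ρ * τ) ^ 2 / F.Gy y ^ 2) *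
          (m / √(√Q) + m * J ^ 2 * Q ^ 2 * (θ / (ρ * τ)) ^ 2 + 1 / R) := by
        gcongr
    _ = ((ρ * τ) ^ 2 / F.Gy y ^ 2) * (413696 * F.EE ^ 10 * (1 / m) + 557056 * F.EE ^ 6 * (m / J)
        + C * (m / √(√Q) + m * J ^ 2 * Q ^ 2 * (θ / (ρ * τ)) ^ 2 + 1 / R)) := by
        rw [hrim]; field_simp; ring
    _ ≤ ((ρ * τ) ^ 2 / F.Gy y ^ 2) * ((C + 10 ^ 6 * F.EE ^ 10) * (1 / m)
        + (C + 10 ^ 6 * F.EE ^ 10) * (m / J) + (C + 10 ^ 6 * F.EE ^ 10) *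
          (m / √(√Q) + m * J ^ 2 * Q ^ 2 * (θ / (ρ * τ)) ^ 2 + 1 / R)) := by
        gcongr <;> linarith
    _ = _ := by rw [sm]; ring

theorem typeII_core : ∃ C : ℝ, 0 < C ∧ ∀ {y R ρ τ K : ℝ}, 2 ≤ y → y ^ 12 ≤ R → F.EE ≤ R →
    R ^ 50 ≤ ρ → Real.log ρ ≤ R → ρ * R ^ 100 ≤ τ → 0 < K → 8 * F.EE ^ 2 * K ≤ ρ * τ →
    ∀ {c b : Ideal F.O}, c ≠ ⊥ → F.nrm c ≤ F.EE → b ≠ ⊥ → F.nrm b ≤ F.EE →
    ∀ {X : Finset F.O}, (∀ π ∈ X, F.Adm y R ρ c b π) →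
    ∀ {g : ℤ → ℝ}, (∀ k, |g k| ≤ 1) → ∀ {Q θ : ℝ}, 1 ≤ Q →
    Unif Q θ g → ∀ {m J : ℕ}, 1 ≤ m → (m : ℝ) ≤ R → 1 ≤ J → (J : ℝ) ≤ R →
    ∀ (α β : F.O → ℝ), (∀ w, |α w| ≤ ind (w ∈ b) * F.nu y R b w) → (∀ π, |β π| ≤ 1) →
    (∑ π ∈ X, β π * ∑ w ∈ F.box (-τ) τ (-τ) τ, α w * (ind (w * π ∈ F.Om K) * g (w * π).im)) ^ 2
      ≤ C * ((ρ * τ) ^ 2 / F.Gy y ^ 2) ^ 2 * sm m J Q (θ / (ρ * τ)) R := by
  obtain ⟨C, hC, hP⟩ := F.pair_sum_le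
  have hE := F.one_le_EE
  refine ⟨256 * F.EE ^ 4 * (256 * F.EE ^ 4) * C, by positivity, ?_⟩
  intro y R ρ τ K hy hR hER hρ hlog hτ hK hL c b hc hcE hb hbE X hX g hg Q θ hQ hU m J hm
    hmR hJ hJR α β hα hβ
  have hR1 : 1 < R := (F.hH_of_le hy hR (empty_subset _)).1
  have hG := F.one_le_Gy y
  have hρ1 : 1 ≤ ρ := (one_le_pow₀ hR1.le).trans hρ
  have hτ2 : R ^ 100 ≤ τ := (le_mul_of_one_le_left (by positivity) hρ1).trans hτ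
  let f : F.O → ℝ := fun w => ind (w ∈ b) * F.nu y R b w
  have hf0 : ∀ w, 0 ≤ f w := fun w => mul_nonneg (ind_nonneg _) (F.nu_nonneg _ _ _ _)
  have hFs : ∑ w ∈ F.box (-τ) τ (-τ) τ, f w ≤ 256 * F.EE ^ 4 * τ ^ 2 / F.Gy y :=
    F.sum_nu_sym' hy hR ((pow_le_pow_right₀ hR1.le (by norm_num)).trans hτ2) hb hbE
  have k2 := F.card_adm_le hy hR ((pow_le_pow_right₀ hR1.le (by norm_num)).trans hρ) hc hcE hX
  let φ : F.O → ℝ := fun z => ind (z ∈ F.Om K) * g z.im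
  let B : F.O → ℝ := fun w => ∑ π ∈ X, β π * φ (w * π)
  have e1 : ∑ π ∈ X, β π * ∑ w ∈ F.box (-τ) τ (-τ) τ, α w * (ind (w * π ∈ F.Om K) * g (w * π).im)
      = ∑ w ∈ F.box (-τ) τ (-τ) τ, α w * B w := by
    simp only [B, mul_sum]
    rw [sum_comm]
    exact sum_congr rfl (fun w _ => sum_congr rfl (fun π _ => by simp only [φ]; ring))
  rw [e1]
  have h1 : (∑ w ∈ F.box (-τ) τ (-τ) τ, α w * B w) ^ 2
      ≤ (∑ w ∈ F.box (-τ) τ (-τ) τ, f w) * ∑ w ∈ F.box (-τ) τ (-τ) τ, f w * B w ^ 2 :=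
    sum_sq_le_sum_mul_sum_of_sq_le_mul _ (fun w _ => hf0 w)
      (fun w _ => mul_nonneg (hf0 w) (sq_nonneg _)) (fun w _ => by
        have : α w ^ 2 ≤ f w ^ 2 := sq_le_sq' (by linarith [(abs_le.1 (hα w)).1])
          (abs_le.1 (hα w)).2
        calc _ = α w ^ 2 * B w ^ 2 := by ring
          _ ≤ f w ^ 2 * B w ^ 2 := by gcongr
          _ = _ := by ring)
  have hQ0 : 0 < √(√Q) := Real.sqrt_pos.2 (Real.sqrt_pos.2 (by linarith))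
  have hsm : 0 ≤ sm m J Q (θ / (ρ * τ)) R := by unfold sm; positivity
  have h2 : ∑ w ∈ F.box (-τ) τ (-τ) τ, f w * B w ^ 2
      ≤ X.card * (C * ((ρ * τ) ^ 2 / F.Gy y ^ 2) * sm m J Q (θ / (ρ * τ)) R) := by
    have e2 : ∑ w ∈ F.box (-τ) τ (-τ) τ, f w * B w ^ 2 = ∑ π₁ ∈ X, ∑ π ∈ X, β π₁ * β π *
        ∑ w ∈ F.box (-τ) τ (-τ) τ, f w * (φ (w * π₁) * φ (w * π)) := by
      simp only [B, sq, sum_mul_sum]
      simp only [mul_sum]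
      rw [sum_comm]
      refine sum_congr rfl (fun π₁ _ => ?_)
      rw [sum_comm]
      exact sum_congr rfl (fun π _ => sum_congr rfl (fun w _ => by ring))
    rw [e2, ← nsmul_eq_mul, ← sum_const]
    refine sum_le_sum (fun π₁ h₁ => le_trans (sum_le_sum (fun π _ => ?_))
      (hP hy hR hER hρ hlog hτ hK hL hc hcE hb hbE hX (hX π₁ h₁) hg hQ hU hm hmR hJ hJR))
    refine (le_abs_self _).trans ?_
    rw [abs_mul, abs_mul]
    exact mul_le_of_le_one_left (abs_nonneg _) (mul_le_one₀ (hβ _) (abs_nonneg _) (hβ _))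
  calc _ ≤ _ := h1
    _ ≤ (256 * F.EE ^ 4 * τ ^ 2 / F.Gy y) * ((256 * F.EE ^ 4 * ρ ^ 2 / F.Gy y) *
        (C * ((ρ * τ) ^ 2 / F.Gy y ^ 2) * sm m J Q (θ / (ρ * τ)) R)) :=
        mul_le_mul hFs (h2.trans (by gcongr)) (sum_nonneg (fun w _ => mul_nonneg (hf0 w)
          (sq_nonneg _))) (by positivity)
    _ = _ := by field_simp

end RQ

end Pool.Agent.Lib.MP_d48457_nt
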